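import Pool.Agent.Lib.MP_bd7e44_co.Lists

/-!
In a poset without balanced pair, every element that lies in no antichain of size four has
exactly its majority predecessors before it with probability at least `2 / 27`.
-/

namespace Pool.Agent.Lib.MP_bd7e44_co

open Finset
open scoped Classical

section Lattice

variable {α : Type} [Fintype α] [DistribLattice α]

/-- Total weight of a predicate. -/
noncomputable def mass (φ : α → ℕ) (Q : α → Prop) : ℕ := ∑ a, if Q a then φ a else 0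

lemma mass_ad {φ : α → ℕ} (hφ : ∀ a b, φ a * φ b ≤ φ (a ⊓ b) * φ (a ⊔ b)) {P Q R T : α → Prop}
    (h : ∀ a b, P a → Q b → R (a ⊓ b) ∧ T (a ⊔ b)) :
    mass φ P * mass φ Q ≤ mass φ R * mass φ T := by
  refine four_functions_theorem_univ _ _ _ _ (fun _ => Nat.zero_le _)
    (fun _ => Nat.zero_le _) (fun _ => Nat.zero_le _) (fun _ => Nat.zero_le _) fun a b => ?_
  by_cases ha : P a
  · by_cases hb : Q b
    · simpa [ha, hb, (h a b ha hb).1, (h a b ha hb).2] using hφ a b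
    · simp [hb]
  · simp [ha]

lemma num_half {N m h x y Q₁ Q₂ gA gC : ℝ} (hN : 0 < N) (hA : 0 ≤ gA) (hC : 0 ≤ gC)
    (h1 : 2 * N ≤ 3 * Q₁) (h2 : 2 * N ≤ 3 * Q₂) (h3 : Q₁ * Q₂ ≤ h * N) (h4 : x * y ≤ h * m)
    (h5 : h + gA - N / 3 ≤ x) (h6 : h + gC - N / 3 ≤ y) (h7 : N + m ≤ 2 * h + gA + gC) :
    2 * N ≤ 27 * m := by
  have h8 : 4 * N ≤ 9 * h := by
    have : (2 * N) * (2 * N) ≤ (3 * Q₁) * (3 * Q₂) :=
      mul_le_mul h1 h2 (by positivity) (by linarith)
    by_contra hc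
    nlinarith
  obtain ⟨d, rfl⟩ : ∃ d, h = d + N / 3 := ⟨h - N / 3, by ring⟩
  have hd : N / 9 ≤ d := by linarith
  have h9 : (d + gA) * (d + gC) ≤ x * y :=
    mul_le_mul (by linarith) (by linarith) (by linarith) (by linarith)
  have h10 : d * d + d * (gA + gC) ≤ (d + N / 3) * m := by nlinarith [mul_nonneg hA hC]
  by_contra hc
  push Not at hc
  rcases le_total d (2 * N / 9) with h | h
  · have : d * (N + m - 2 * (d + N / 3)) ≤ d * (gA + gC) :=
      mul_le_mul_of_nonneg_left (by linarith) (by linarith)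
    nlinarith [mul_nonneg (sub_nonneg.2 hd) (sub_nonneg.2 h)]
  · have : 0 ≤ d * (gA + gC) := mul_nonneg (by linarith) (by linarith)
    have h11 : (d + N / 3) * m ≤ (d + N / 3) * (2 * N / 27) :=
      mul_le_mul_of_nonneg_left (by linarith) (by linarith)
    nlinarith [mul_nonneg (sub_nonneg.2 h) (sub_nonneg.2 h), mul_nonneg (sub_nonneg.2 h) hN.le]

/-- An increasing predicate closed under meets that fails with probability at most one third. -/
def Good (φ : α → ℕ) (P : α → Prop) : Prop :=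
  (∀ a b, P a → P (a ⊔ b)) ∧ (∀ a b, P a → P b → P (a ⊓ b)) ∧
    3 * mass φ (fun a => ¬ P a) ≤ mass φ fun _ => True

lemma half {φ : α → ℕ} (hφ : ∀ a b, φ a * φ b ≤ φ (a ⊓ b) * φ (a ⊔ b)) {p₁ p₂ q₁ q₂ : α → Prop}
    (hp₁ : Good φ p₁) (hp₂ : Good φ p₂) (hq₁ : Good (α := αᵒᵈ) φ q₁) (hq₂ : Good (α := αᵒᵈ) φ q₂)
    (hge : mass φ (fun a => p₁ a ∧ p₂ a) ≤ mass φ fun a => q₁ a ∧ q₂ a) :
    2 * mass φ (fun _ => True) ≤ 27 * mass φ fun a => (p₁ a ∧ p₂ a) ∧ q₁ a ∧ q₂ a := by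
  rcases Nat.eq_zero_or_pos (mass φ fun _ => True) with h0 | h0
  · omega
  have a1 : mass φ q₁ * mass φ q₂ ≤ mass φ (fun a => q₁ a ∧ q₂ a) * mass φ fun _ => True :=
    mass_ad hφ fun a b ha hb => ⟨⟨hq₁.1 a b ha, inf_comm a b ▸ hq₂.1 b a hb⟩, trivial⟩
  have a2 : mass φ (fun a => p₁ a ∧ q₁ a ∧ q₂ a) * mass φ (fun a => p₂ a ∧ q₁ a ∧ q₂ a) ≤
      mass φ (fun a => q₁ a ∧ q₂ a) * mass φ fun a => (p₁ a ∧ p₂ a) ∧ q₁ a ∧ q₂ a :=
    mass_ad hφ fun a b ha hb => ⟨⟨hq₁.1 a b ha.2.1, hq₂.1 a b ha.2.2⟩,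
      ⟨hp₁.1 a b ha.1, sup_comm a b ▸ hp₂.1 b a hb.1⟩, hq₁.2.1 a b ha.2.1 hb.2.1,
        hq₂.2.1 a b ha.2.2 hb.2.2⟩
  have r1 : ∀ q : α → Prop, mass φ q + mass φ (fun a => ¬ q a) = mass φ fun _ => True := by
    intro q
    simp only [mass, ← sum_add_distrib]
    exact sum_congr rfl fun a _ => by by_cases h : q a <;> simp [h]
  have r2 : ∀ r : α → Prop, mass φ (fun a => r a ∧ q₁ a ∧ q₂ a) + mass φ (fun a => ¬ r a) =
      mass φ (fun a => q₁ a ∧ q₂ a) + mass φ fun a => ¬ r a ∧ ¬ (q₁ a ∧ q₂ a) := by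
    intro r
    simp only [mass, ← sum_add_distrib]
    exact sum_congr rfl fun a _ => by
      by_cases h : r a <;> by_cases h' : q₁ a ∧ q₂ a <;> simp [h, h']
  have r3 : mass φ (fun _ => True) + mass φ (fun a => (p₁ a ∧ p₂ a) ∧ q₁ a ∧ q₂ a) ≤
      mass φ (fun a => q₁ a ∧ q₂ a) + mass φ (fun a => p₁ a ∧ p₂ a) +
        mass φ (fun a => ¬ p₁ a ∧ ¬ (q₁ a ∧ q₂ a)) + mass φ fun a => ¬ p₂ a ∧ ¬ (q₁ a ∧ q₂ a) := by
    simp only [mass, ← sum_add_distrib]
    exact sum_le_sum fun a _ => by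
      by_cases h : p₁ a <;> by_cases h'' : p₂ a <;> by_cases h' : q₁ a ∧ q₂ a <;> simp [h, h', h'']
  have s1 := r1 q₁
  have s2 := r1 q₂
  have s3 := r2 p₁
  have s4 := r2 p₂
  have t1 := hp₁.2.2
  have t2 := hp₂.2.2
  have t3 : 3 * mass φ (fun a => ¬ q₁ a) ≤ mass φ fun _ => True := hq₁.2.2
  have t4 : 3 * mass φ (fun a => ¬ q₂ a) ≤ mass φ fun _ => True := hq₂.2.2
  have := num_half (N := mass φ fun _ => True)
    (m := mass φ fun a => (p₁ a ∧ p₂ a) ∧ q₁ a ∧ q₂ a) (h := mass φ fun a => q₁ a ∧ q₂ a)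
    (x := mass φ fun a => p₁ a ∧ q₁ a ∧ q₂ a) (y := mass φ fun a => p₂ a ∧ q₁ a ∧ q₂ a)
    (Q₁ := mass φ q₁) (Q₂ := mass φ q₂) (gA := mass φ fun a => ¬ p₁ a ∧ ¬ (q₁ a ∧ q₂ a))
    (gC := mass φ fun a => ¬ p₂ a ∧ ¬ (q₁ a ∧ q₂ a)) (by exact_mod_cast h0) (by positivity)
    (by positivity) (by exact_mod_cast (by omega)) (by exact_mod_cast (by omega))
    (by exact_mod_cast a1) (by exact_mod_cast a2) ?_ ?_ (by exact_mod_cast (by omega))
  · exact_mod_cast this
  · have s3' := congrArg (Nat.cast : ℕ → ℝ) s3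
    have t1' := (Nat.cast_le (α := ℝ)).2 t1
    push_cast at s3' t1'
    linarith
  · have s3' := congrArg (Nat.cast : ℕ → ℝ) s4
    have t1' := (Nat.cast_le (α := ℝ)).2 t2
    push_cast at s3' t1'
    linarith

lemma both {φ : α → ℕ} (hφ : ∀ a b, φ a * φ b ≤ φ (a ⊓ b) * φ (a ⊔ b)) {p₁ p₂ q₁ q₂ : α → Prop}
    (hp₁ : Good φ p₁) (hp₂ : Good φ p₂) (hq₁ : Good (α := αᵒᵈ) φ q₁) (hq₂ : Good (α := αᵒᵈ) φ q₂) :
    2 * mass φ (fun _ => True) ≤ 27 * mass φ fun a => (p₁ a ∧ p₂ a) ∧ q₁ a ∧ q₂ a := by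
  rcases le_total (mass φ fun a => p₁ a ∧ p₂ a) (mass φ fun a => q₁ a ∧ q₂ a) with h | h
  · exact half hφ hp₁ hp₂ hq₁ hq₂ h
  · have := half (α := αᵒᵈ) (φ := φ) (fun a b => (hφ a b).trans_eq (mul_comm _ _)) hq₁ hq₂ hp₁ hp₂ h
    refine this.trans_eq ?_
    congr 2
    ext a
    exact and_comm

lemma two_good {ι : Type} {φ : α → ℕ} (A : Finset ι) (hA : A.card ≤ 2) (ψ : ι → α → Prop)
    (h : ∀ i ∈ A, Good φ (ψ i)) :
    ∃ p₁ p₂, Good φ p₁ ∧ Good φ p₂ ∧ ∀ a, p₁ a → p₂ a → ∀ i ∈ A, ψ i a := by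
  have ht : Good φ fun _ => True := ⟨fun _ _ _ => trivial, fun _ _ _ _ => trivial, by simp [mass]⟩
  rcases (by omega : A.card = 0 ∨ A.card = 1 ∨ A.card = 2) with h0 | h0 | h0
  · rw [card_eq_zero] at h0
    subst h0
    exact ⟨_, _, ht, ht, by simp⟩
  · obtain ⟨i, rfl⟩ := card_eq_one.1 h0
    exact ⟨_, _, h i (by simp), ht, by simp⟩
  · obtain ⟨i, j, -, rfl⟩ := card_eq_two.1 h0
    refine ⟨_, _, h i (by simp), h j (by simp), fun a h1 h2 k hk => ?_⟩
    simp only [mem_insert, mem_singleton] at hk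
    rcases hk with rfl | rfl <;> assumption

end Lattice

variable {X : Type} [Fintype X] [PartialOrder X]

/-- No pair of elements is balanced. -/
def NoBal (X : Type) [Fintype X] [PartialOrder X] : Prop :=
  ∀ x y : X, x ≠ y → 3 * g y x ∅ < e (∅ : Finset X) ∨ 2 * e (∅ : Finset X) < 3 * g y x ∅

/-- At most seven elements that are incomparable to something lie below `x`. -/
def Low {X : Type} [PartialOrder X] (x : X) : Prop :=
  {w | w < x ∧ ∃ v, ¬ w ≤ v ∧ ¬ v ≤ w}.ncard < 8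

/-- Antichains of size four contain no low element. -/
def Width3 (X : Type) [PartialOrder X] : Prop :=
  ∀ s : Finset X, IsAntichain (· ≤ ·) (s : Set X) → s.card = 4 → ∀ x ∈ s, ¬ Low x

/-- `x` comes before `y` in more than two thirds of the linear extensions. -/
def LL (x y : X) : Prop := x ≠ y ∧ 3 * g y x ∅ < e (∅ : Finset X)

lemma LL.total (h : NoBal X) {x y : X} (hxy : x ≠ y) : LL x y ∨ LL y x := by
  have := g_total hxy
  rcases h x y hxy with h1 | h1
  · exact Or.inl ⟨hxy, h1⟩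
  · exact Or.inr ⟨hxy.symm, by omega⟩

lemma LL.asymm {x y : X} (h : LL x y) : ¬ LL y x := fun h' => by
  have := g_total h.1
  have := h.2
  have := h'.2
  omega

lemma LL.trans (h : NoBal X) {x y z : X} (h1 : LL x y) (h2 : LL y z) : LL x z := by
  have hxz : x ≠ z := by
    rintro rfl
    exact h1.asymm h2
  have := g_trans x y z
  have := h1.2
  have := h2.2
  rcases h x z hxz with h3 | h3
  · exact ⟨hxz, h3⟩
  · omega

lemma LL.of_lt {x y : X} (h : x < y) : LL x y := ⟨h.ne, by rw [g_lt h]; exact e_pos _⟩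

lemma exists_least (h : NoBal X) {T : Finset X} (hT : T ≠ univ) :
    ∃ x, x ∉ T ∧ ∀ v, v ∉ T → v ≠ x → LL x v := by
  have : (Tᶜ).Nonempty := by
    rw [nonempty_iff_ne_empty]
    exact fun h' => hT (compl_eq_empty_iff _ |>.1 h')
  obtain ⟨x, hx, hm⟩ := exists_min_image Tᶜ (fun x => (univ.filter fun w => LL w x).card) this
  refine ⟨x, mem_compl.1 hx, fun v hv hvx => (LL.total h hvx.symm).resolve_right fun hl => ?_⟩
  refine absurd (hm v (mem_compl.2 hv)) (not_le.2 (card_lt_card ⟨fun w hw => ?_, fun hs => ?_⟩))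
  · exact mem_filter.2 ⟨mem_univ _, (mem_filter.1 hw).2.trans h hl⟩
  · exact (mem_filter.1 (hs (mem_filter.2 ⟨mem_univ _, hl⟩))).2.1 rfl

/-- The majority predecessors of `z`. -/
noncomputable def Sz (z : X) : Finset X := univ.filter fun w => LL w z

lemma mass_f (z : X) (Q : Finset X → Prop) : mass (f z) Q = cnt ∅ fun l => Q (pre z l) :=
  (cnt_mass z Q).symm

omit [Fintype X] in
lemma card_le_two (hw : Width3 X) {z : X} (hl : Low z) {A : Finset X}
    (hA : IsAntichain (· ≤ ·) (A : Set X)) (hz : ∀ a ∈ A, ¬ a ≤ z ∧ ¬ z ≤ a) : A.card ≤ 2 := by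
  by_contra hc
  obtain ⟨B, hB, hB'⟩ := exists_subset_card_eq (s := A) (n := 3) (by omega)
  have h1 : z ∉ B := fun h => (hz z (hB h)).1 le_rfl
  refine hw (insert z B) ?_ (by rw [card_insert_of_notMem h1, hB']) z (mem_insert_self _ _) hl
  rw [coe_insert]
  exact (hA.subset (coe_subset.2 hB)).insert (fun a ha _ => (hz a (hB ha)).1)
    fun a ha _ => (hz a (hB ha)).2

lemma centre (h : NoBal X) (hw : Width3 X) {z : X} (hl : Low z) :
    2 * e (∅ : Finset X) ≤ 27 * f z (Sz z) := by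
  have hN : mass (f z) (fun _ => True) = e (∅ : Finset X) := by rw [mass_f, cnt_true]
  obtain ⟨p₁, p₂, hp₁, hp₂, hp⟩ := two_good (φ := f z)
    (univ.filter (Maximal fun w => LL w z ∧ ¬ w < z)) (card_le_two hw hl (by
      intro a ha b hb hab hle
      simp only [coe_filter, mem_univ, true_and, Set.mem_ofPred_eq] at ha hb
      exact hab (le_antisymm hle (ha.2 hb.1 hle))) (by
      intro a ha
      obtain ⟨h1, h2⟩ := (mem_filter.1 ha).2.1
      exact ⟨fun hle => h2 (lt_of_le_of_ne hle h1.1),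
        fun hle => h1.asymm (LL.of_lt (lt_of_le_of_ne hle h1.1.symm))⟩))
    (fun a S => a ∈ S) (by
      intro a ha
      obtain ⟨h1, -⟩ := (mem_filter.1 ha).2.1
      refine ⟨fun S T hS => mem_union_left _ hS, fun S T hS hT => mem_inter.2 ⟨hS, hT⟩, ?_⟩
      rw [hN, mass_f, g_not h1.1.symm]
      exact h1.2.le)
  obtain ⟨q₁, q₂, hq₁, hq₂, hq⟩ := two_good (α := (Finset X)ᵒᵈ) (φ := f z)
    (univ.filter (Minimal fun w => LL z w ∧ ¬ z < w)) (card_le_two hw hl (by
      intro a ha b hb hab hle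
      simp only [coe_filter, mem_univ, true_and, Set.mem_ofPred_eq] at ha hb
      exact hab (le_antisymm hle (hb.2 ha.1 hle))) (by
      intro a ha
      obtain ⟨h1, h2⟩ := (mem_filter.1 ha).2.1
      exact ⟨fun hle => h1.asymm (LL.of_lt (lt_of_le_of_ne hle h1.1.symm)),
        fun hle => h2 (lt_of_le_of_ne hle h1.1)⟩))
    (fun a S => a ∉ OrderDual.ofDual S) (by
      intro a ha
      obtain ⟨h1, -⟩ := (mem_filter.1 ha).2.1
      refine ⟨fun S T hS hm => hS (mem_inter.1 hm).1,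
        fun S T hS hT hm => (mem_union.1 hm).elim hS hT, ?_⟩
      have e1 : mass (α := (Finset X)ᵒᵈ) (f z) (fun S => ¬ a ∉ OrderDual.ofDual S) = g a z ∅ := by
        rw [g, ← mass_f z fun S => a ∈ S]
        simp only [not_not]
        rfl
      rw [e1]
      exact h1.2.le.trans_eq hN.symm)
  have := both (f_tp z) hp₁ hp₂ hq₁ hq₂
  rw [hN] at this
  refine this.trans (Nat.mul_le_mul_left _ ?_)
  have e2 : f z (Sz z) = ∑ S, if S = Sz z then f z S else 0 := by simp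
  rw [e2]
  refine sum_le_sum fun S _ => ?_
  by_cases h0 : f z S = 0
  · simp [h0]
  split_ifs with h1 h2
  · rfl
  · refine absurd ?_ h2
    have aS : Ad S z := by
      by_contra hc
      exact h0 (if_neg hc)
    rw [f, if_pos aS] at h0
    have dS := (p_ne (left_ne_zero_of_mul h0)).2 dn_empty
    ext w
    simp only [Sz, mem_filter, mem_univ, true_and]
    constructor
    · intro hS
      by_contra hn
      have hwz : w ≠ z := fun hc => aS.1 (hc ▸ hS)
      obtain ⟨b, hb1, hb2⟩ := Finite.exists_le_minimal (p := fun w => LL z w ∧ ¬ z < w) (a := w)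
        ⟨(LL.total h hwz).resolve_left hn, fun hlt => aS.1 (dS w hS z hlt)⟩
      refine hq S h1.2.1 h1.2.2 b (mem_filter.2 ⟨mem_univ _, hb2⟩) ?_
      rcases hb1.eq_or_lt with rfl | hlt
      · exact hS
      · exact dS w hS b hlt
    · intro hl
      by_cases hlt : w < z
      · exact aS.2 w hlt
      · obtain ⟨a, ha1, ha2⟩ := Finite.exists_le_maximal (p := fun w => LL w z ∧ ¬ w < z) (a := w)
          ⟨hl, hlt⟩
        have := hp S h1.1.1 h1.1.2 a (mem_filter.2 ⟨mem_univ _, ha2⟩)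
        rcases ha1.eq_or_lt with rfl | hlt
        · exact this
        · exact dS a this w hlt
  · exact Nat.zero_le _
  · rfl

/-- The number of completions of `T` in which `r` comes exactly after its majority predecessors. -/
noncomputable def c (r : X) (T : Finset X) : ℕ := p T (Sz r) * e (insert r (Sz r))

lemma ad_Sz (r : X) : Ad (Sz r) r :=
  ⟨fun h => (mem_filter.1 h).2.1 rfl, fun _ hw => mem_filter.2 ⟨mem_univ _, LL.of_lt hw⟩⟩

lemma c_empty (h : NoBal X) (hw : Width3 X) {r : X} (hl : Low r) :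
    2 * e (∅ : Finset X) ≤ 27 * c r ∅ := by
  have := centre h hw hl
  rwa [f, if_pos (ad_Sz r)] at this

lemma c_le (r : X) (T : Finset X) : c r T ≤ e T :=
  (Nat.mul_le_mul_left _ (e_ge (ad_Sz r))).trans (p_mul_le _ _)

lemma c_le' {r : X} {T : Finset X} (h : Ad T r) : c r T ≤ e (insert r T) :=
  p_mul_le' (ad_Sz r).1 T h

/-- The same count, switched off once `r` or all of `J` is placed. -/
noncomputable def C (r : X) (J T : Finset X) : ℕ := if r ∉ T ∧ ¬ J ⊆ T then c r T else 0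

lemma C_step {r : X} {J : Finset X} (hJ : J ⊆ Sz r) (hr : ∀ w, w < r → w ∈ J) (R T : Finset X) :
    C r J T ≤ ∑ w, if Ad T w then
      (if r ∉ T ∧ ¬ J ⊆ T then
        (if w ∈ R then C r J (insert w T) +
          (if w ≠ r ∧ J ⊆ insert w T then e (insert r (insert w T)) else 0) else e (insert w T))
      else 0) else 0 := by
  by_cases hT : r ∉ T ∧ ¬ J ⊆ T
  · have hne : T ≠ Sz r := fun h => hT.2 (h ▸ hJ)
    rw [C, if_pos hT, c, p_step hne, sum_mul]
    refine sum_le_sum fun w _ => ?_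
    by_cases hw : Ad T w
    · rw [if_pos hw, if_pos hw, if_pos hT]
      by_cases hwr : w = r
      · subst hwr
        simp [p_eq_zero (mem_insert_self w T) (ad_Sz w).1]
      · split_ifs with h1 h2
        · exact le_add_left (c_le' ⟨by simp [Ne.symm hwr, hT.1], fun v hv => h2.2 (hr v hv)⟩)
        · rw [C, if_pos ⟨by simp [Ne.symm hwr, hT.1], fun h => h2 ⟨hwr, h⟩⟩]
          exact le_rfl
        · exact c_le r _
    · simp [hw]
  · simp [C, hT]

end Pool.Agent.Lib.MP_bd7e44_co
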