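import Mathlib

/-!
The certificate checker: a search over the bottom of a poset that is narrow there, closed by
integer Farkas certificates. Sets of revealed elements are bit masks.
-/

namespace Pool.Agent.Lib.MP_bd7e44_co

/-- Bit test. -/
def tb (m i : ℕ) : Bool := Nat.beq (Nat.land (Nat.shiftRight m i) 1) 1

/-- Inclusion of masks. -/
def sub (a b : ℕ) : Bool := Nat.beq (Nat.land a b) a

/-- Set a bit. -/
def setb (S z : ℕ) : ℕ := Nat.lor S (Nat.pow 2 z)

/-- The mask of all indices below `n`. -/
def full (n : ℕ) : ℕ := Nat.sub (Nat.pow 2 n) 1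

/-- A recorded bound on the ratio of completions after and before adding `y` to `S`. -/
structure Bd where
  up : Bool
  S : ℕ
  y : ℕ
  p : ℕ
  deriving DecidableEq

/-- A node of the search. -/
structure Node where
  n : ℕ
  els : List (ℕ × ℕ)
  Q : ℕ
  ex : ℕ
  pre : List (ℕ × ℕ)
  states : List ℕ
  allowed : List ℕ
  bounds : List Bd
  deriving DecidableEq

/-- A pending term of the linear form. -/
structure Ent where
  S : ℕ
  u : ℕ
  cp : ℕ
  cn : ℕ

/-- A decoded multiplier. -/
structure Mu where
  a : ℕ
  b : ℕ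
  m : ℕ

/-- Certificates. -/
inductive Cert where
  | leaf (l₀ : ℕ) (ps cs ns : List ℕ) : Cert
  | split (S y p : ℕ) (lo up : Cert) : Cert
  | reveal (S : ℕ) (no yes : Cert) : Cert
  | nx (x : ℕ) (yes no : Cert) : Cert
  | done : Cert
  | hole (k : ℕ) : Cert

/-- Look up the down-set of an element. -/
def look : List (ℕ × ℕ) → ℕ → ℕ
  | [], _ => 0
  | (i, d) :: l, r => bif Nat.beq i r then d else look l r

/-- Two incomparable elements in `X`. -/
def has2 : List (ℕ × ℕ) → ℕ → Bool
  | [], _ => false
  | (j, d) :: l, X => (tb X j && !Nat.beq (Nat.land X (Nat.xor (full j) d)) 0) || has2 l X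

/-- Three pairwise incomparable elements in `X`. -/
def has3 : List (ℕ × ℕ) → ℕ → Bool
  | [], _ => false
  | (k, d) :: l, X => (tb X k && has2 l (Nat.land X (Nat.xor (full k) d))) || has3 l X

/-- `S` is a down-set. -/
def isDown (els : List (ℕ × ℕ)) (S : ℕ) : Bool := els.all fun q => !tb S q.1 || sub q.2 S

/-- A new element with down-set `S`. -/
def Node.add (nd : Node) (S : ℕ) : Node :=
  let new := (nd.states.filter (sub S)).map (setb · nd.n)
  { nd with
    n := Nat.succ nd.n
    els := (nd.n, S) :: nd.els
    states := nd.states ++ new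
    allowed := (nd.allowed ++ new).filter fun T =>
      !has3 ((nd.n, S) :: nd.els) (Nat.xor (full (Nat.succ nd.n)) T) }

/-- No new element has down-set `S`. -/
def Node.drop (nd : Node) (S : ℕ) : Node :=
  { nd with allowed := nd.allowed.filter fun T => !Nat.beq T S }

/-- `x` is the next element in the majority order. -/
def Node.next (nd : Node) (x : ℕ) : Node :=
  { nd with Q := setb nd.Q x, ex := 0, pre := (x, nd.Q) :: nd.pre }

/-- `x` is not the next element in the majority order. -/
def Node.skip (nd : Node) (x : ℕ) : Node := { nd with ex := setb nd.ex x }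

/-- Record a bound. -/
def Node.bound (nd : Node) (B : Bd) : Node := { nd with bounds := B :: nd.bounds }

/-- Insert a term into the sorted list of pending terms. -/
def ins (S u cp cn : ℕ) : List Ent → List Ent
  | [] => [⟨S, u, cp, cn⟩]
  | ⟨S', u', cp', cn'⟩ :: l =>
    bif Nat.beq S S' then ⟨S, Nat.add u u', Nat.add cp cp', Nat.add cn cn'⟩ :: l
    else bif Nat.ble S S' then ⟨S, u, cp, cn⟩ :: ⟨S', u', cp', cn'⟩ :: l
    else ⟨S', u', cp', cn'⟩ :: ins S u cp cn l

/-- Weight of the pair constraints on the step from `S` by `z`. -/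
def aval (S z : ℕ) : List Mu → ℕ
  | [] => 0
  | ⟨x, y, m⟩ :: l => bif Nat.beq y z && !tb S x then Nat.add m (aval S z l) else aval S z l

/-- The centre constraint is still active at `S`. -/
def act (S r J : ℕ) : Bool := !tb S r && !sub J S

/-- Weight of the centre constraints on leaving the window at `S`. -/
def beta (S : ℕ) : List Mu → ℕ
  | [] => 0
  | ⟨r, J, m⟩ :: l => bif act S r J then Nat.add m (beta S l) else beta S l

/-- Terms of the centre constraints on the step from `S` by `z`. -/
def extra (S z u : ℕ) : List Mu → List Ent → List Ent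
  | [], L => L
  | ⟨r, J, m⟩ :: l, L =>
    bif act S r J && !Nat.beq z r && sub J (setb S z) then
      ins (setb (setb S z) r) 0 (Nat.mul 27 (Nat.mul u m)) 0 (extra S z u l L)
    else extra S z u l L

/-- Replace a term by the terms of its successors. -/
def push (ps cs : List Mu) (S u cp cn : ℕ) : List (ℕ × ℕ) → List Ent → List Ent
  | [], L => L
  | (z, d) :: l, L =>
    bif !tb S z && sub d S then
      ins (setb S z) u cp (Nat.add cn (Nat.mul 3 (Nat.mul u (aval S z ps))))
        (extra S z u cs (push ps cs S u cp cn l L))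
    else push ps cs S u cp cn l L

/-- No unrevealed element can be added to `S`. -/
def noExit (nd : Node) (S : ℕ) : Bool := !Nat.beq S (full nd.n) && nd.allowed.all fun T => !sub T S

/-- Eliminate all pending terms. -/
def loop (nd : Node) (ps cs : List Mu) : ℕ → List Ent → Bool
  | 0, _ => false
  | _ + 1, [] => true
  | k + 1, ⟨S, u, cp, cn⟩ :: L =>
    (Nat.ble (Nat.add cp (Nat.mul 27 (Nat.mul u (beta S cs)))) cn || noExit nd S) &&
      loop nd ps cs k (push ps cs S u cp cn nd.els L)

/-- Decode a pair multiplier. -/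
def decP (v : ℕ) : Mu := ⟨Nat.mod v 16, Nat.mod (Nat.div v 16) 16, Nat.div v 256⟩

/-- Decode a centre multiplier. -/
def decC (nd : Node) (v : ℕ) : Mu :=
  ⟨Nat.mod v 16, Nat.lor (look nd.els (Nat.mod v 16)) (Nat.mod (Nat.div v 16) 65536),
    Nat.div v 1048576⟩

/-- The pair constraint is available. -/
def okP (nd : Node) (q : Mu) : Bool :=
  Nat.blt q.b nd.n && !Nat.beq q.a q.b && nd.pre.any fun t => Nat.beq t.1 q.a && !tb t.2 q.b

/-- The centre constraint is available. -/
def okC (nd : Node) (v : ℕ) : Bool :=
  Nat.blt (Nat.mod v 16) 8 && Nat.blt (Nat.mod v 16) nd.n && !tb nd.Q (Nat.mod v 16) &&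
    sub (Nat.mod (Nat.div v 16) 65536) nd.Q

/-- Sum of the multipliers. -/
def tot : List Mu → ℕ
  | [] => 0
  | q :: l => Nat.add q.m (tot l)

/-- Terms of the centre constraints without requirement. -/
def start : List Mu → List Ent → List Ent
  | [], L => L
  | ⟨r, J, m⟩ :: l, L => bif Nat.beq J 0 then ins (setb 0 r) 0 (Nat.mul 27 m) 0 (start l L)
    else start l L

/-- `y` can be added to the down-set `S` of revealed elements. -/
def okS (nd : Node) (S y : ℕ) : Bool :=
  Nat.ble S (full nd.n) && Nat.blt y nd.n && isDown nd.els S && !tb S y && sub (look nd.els y) S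

/-- The bound `B` applies at `S`. -/
def okN (nd : Node) (B : Bd) (S : ℕ) : Bool :=
  okS nd S B.y && bif B.up then sub S B.S else sub B.S S

/-- Terms of one applied bound. -/
def cut (B : Bd) (S m : ℕ) (L : List Ent) : List Ent :=
  bif B.up then ins S 0 (Nat.mul B.p m) 0 (ins (setb S B.y) 0 0 (Nat.mul 1024 m) L)
  else ins S 0 0 (Nat.mul B.p m) (ins (setb S B.y) 0 (Nat.mul 1024 m) 0 L)

/-- Apply the bounds, then eliminate. -/
def cuts (nd : Node) (ps cs : List Mu) : List ℕ → List Ent → Bool
  | [], L => loop nd ps cs 200 L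
  | v :: l, L =>
    match nd.bounds[Nat.mod v 256]? with
    | none => false
    | some B => okN nd B (Nat.mod (Nat.div v 256) 65536) &&
      cuts nd ps cs l (cut B (Nat.mod (Nat.div v 256) 65536) (Nat.div v 16777216) L)

/-- Check a Farkas certificate. -/
def leafOk (nd : Node) (l₀ : ℕ) (ps cs ns : List ℕ) : Bool :=
  (ps.map decP).all (okP nd) && cs.all (okC nd) && Nat.blt 0 (Nat.add l₀ (tot (ps.map decP))) &&
    cuts nd (ps.map decP) (cs.map (decC nd)) ns (start (cs.map (decC nd))
      [⟨0, 1, Nat.add l₀ (tot (ps.map decP)), Nat.mul 2 (tot (cs.map (decC nd)))⟩])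

/-- No candidate for the next element is left. -/
def doneOk (nd : Node) : Bool :=
  !Nat.beq nd.Q (full nd.n) && (nd.allowed.all fun T => !sub T nd.Q) &&
    nd.els.all fun q => tb nd.Q q.1 || !sub q.2 nd.Q || tb nd.ex q.1

/-- Check a certificate; holes refer to a list of nodes treated elsewhere. -/
def check (known : List Node) : Cert → Node → Bool
  | .leaf l₀ ps cs ns, nd => leafOk nd l₀ ps cs ns
  | .split S y p lo up, nd => okS nd S y && check known lo (nd.bound ⟨false, S, y, p⟩) &&
      check known up (nd.bound ⟨true, S, y, p⟩)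
  | .reveal S no yes, nd => Nat.blt nd.n 10 && Nat.ble S (full nd.n) && check known no (nd.drop S) &&
      check known yes (nd.add S)
  | .nx x yes no, nd => Nat.blt x nd.n && !tb nd.Q x && check known yes (nd.next x) &&
      check known no (nd.skip x)
  | .done, nd => doneOk nd
  | .hole k, nd => decide (known[k]? = some nd)

/-- The first node: element `0` is first in the majority order, element `1` is also minimal. -/
def root : Node := ⟨2, [(1, 0), (0, 0)], 1, 0, [(0, 0)], [0, 1, 2, 3], [0, 1, 2, 3], []⟩

end Pool.Agent.Lib.MP_bd7e44_co
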