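import Pool.Agent.Lib.MP_bd7e44_co.Top

/-!
Removing a least element, and linear extensions as order-preserving bijections.
-/

namespace Pool.Agent.Lib.MP_bd7e44_co

open Finset
open scoped Classical

lemma pre_map {X Y : Type} {φ : Y → X} (hφ : Function.Injective φ) (x y : Y) :
    ∀ l : List Y, φ y ∈ pre (φ x) (l.map φ) ↔ y ∈ pre x l
  | [] => by simp [pre]
  | w :: l => by
    by_cases h : w = x
    · simp [pre, h]
    · simp [pre, h, hφ.eq_iff, pre_map hφ x y l]

lemma mem_pre {X : Type} {x y : X} : ∀ l : List X, y ∈ l → (y ∈ pre x l ↔ l.idxOf y < l.idxOf x)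
  | [], h => by simp at h
  | w :: l, h => by
    by_cases hx : w = x
    · simp [pre, hx]
    · by_cases hy : w = y
      · subst hy
        simp [pre, hx, List.idxOf_cons_ne _ hx]
      · have := mem_pre (x := x) l ((List.mem_cons.1 h).resolve_left (Ne.symm hy))
        simp [pre, hx, Ne.symm hy, List.idxOf_cons_ne _ hx, List.idxOf_cons_ne _ hy, this]

variable {X : Type} [Fintype X] [PartialOrder X]

lemma cnt_bot {z : X} (hz : ∀ x, z ≤ x) (P : List X → Prop) :
    cnt ∅ P = cnt (∅ : Finset {x // x ≠ z}) fun l => P (z :: l.map Subtype.val) := by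
  unfold cnt
  rw [← card_image_of_injective _ (f := fun l : List {x // x ≠ z} => z :: l.map Subtype.val)
    fun l l' h => List.map_injective_iff.2 Subtype.val_injective (List.cons.inj h).2]
  congr 1
  have key : ∀ l : List {x // x ≠ z}, z :: l.map Subtype.val ∈ L ∅ ↔ l ∈ L ∅ := by
    intro l
    rw [cons_mem_L, mem_L, mem_L, List.nodup_map_iff Subtype.val_injective, List.pairwise_map]
    constructor
    · rintro ⟨-, h1, h2, h3⟩
      refine ⟨h1, fun x => iff_of_true ?_ (notMem_empty x), h3⟩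
      exact (List.mem_map_of_injective Subtype.val_injective).1 ((h2 x).2 (by simpa using x.2))
    · rintro ⟨h1, h2, h3⟩
      refine ⟨⟨notMem_empty z, fun w hw => absurd (hz w) hw.not_ge⟩, h1, fun x => ?_, h3⟩
      simp only [List.mem_map, Subtype.exists, exists_and_right, exists_eq_right, insert_empty_eq,
        mem_singleton]
      exact ⟨fun h => h.1, fun h => ⟨h, (h2 ⟨x, h⟩).2 (notMem_empty _)⟩⟩
  ext l
  simp only [mem_filter, mem_image]
  constructor
  · rintro ⟨h1, h2⟩
    cases l with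
    | nil => exact absurd (mem_of_L h1 z) List.not_mem_nil
    | cons w t =>
      obtain ⟨h3, h4⟩ := cons_mem_L.1 h1
      obtain rfl : z = w := by
        by_contra hc
        exact notMem_empty z (h3.2 z (lt_of_le_of_ne (hz w) hc))
      have : ∀ x ∈ t, x ≠ z := fun x hx => by simpa using ((mem_L.1 h4).2.1 x).1 hx
      lift t to List {x // x ≠ z} using this
      exact ⟨t, ⟨(key t).1 h1, h2⟩, rfl⟩
  · rintro ⟨t, ⟨h1, h2⟩, rfl⟩
    exact ⟨(key t).2 h1, h2⟩

theorem not_noBal : ∀ (n : ℕ) (X : Type) [Fintype X] [PartialOrder X], Fintype.card X = n →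
    (∃ a b : X, ¬ a ≤ b ∧ ¬ b ≤ a) → Width3 X → ¬ NoBal X := by
  intro n
  induction n using Nat.strong_induction_on with
  | _ n ih =>
    rintro X _ _ hn ⟨a, b, hab, hba⟩ hw hb
    by_cases h : ∃ x y : X, x ≠ y ∧ IsMin x ∧ IsMin y
    · obtain ⟨x, y, h1, h2, h3⟩ := h
      obtain ⟨ι, M⟩ := root_model hb h1 h2 h3
      exact root_refuted X hb hw ι _ M
    · have hm : ∀ x : X, ∃ y, y ≤ x ∧ IsMin y := fun x => by
        obtain ⟨y, h1, h2⟩ := Finite.exists_le_minimal (p := fun _ : X => True) (a := x) trivial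
        exact ⟨y, h1, fun w hw => h2.2 trivial hw⟩
      obtain ⟨z, -, hz⟩ := hm a
      have hz' : ∀ x, z ≤ x := fun x => by
        obtain ⟨y, h1, h2⟩ := hm x
        by_cases hyz : y = z
        · exact hyz ▸ h1
        · exact absurd ⟨y, z, hyz, h2, hz⟩ h
      refine ih _ ?_ {x // x ≠ z} rfl
        ⟨⟨a, fun hc => hab (hc ▸ hz' b)⟩, ⟨b, fun hc => hba (hc ▸ hz' a)⟩, hab, hba⟩
        (fun s hs hc x hx hl => ?_) fun x y hxy => ?_
      · rw [← hn]
        exact Fintype.card_subtype_lt (x := z) (by simp)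
      · refine hw (s.image Subtype.val) ?_ (by rwa [card_image_of_injective s Subtype.val_injective])
          x (mem_image_of_mem _ hx) (lt_of_le_of_lt ?_ hl)
        · rw [coe_image]
          rintro _ ⟨u, hu, rfl⟩ _ ⟨v, hv, rfl⟩ huv
          exact hs hu hv fun hc => huv (congrArg _ hc)
        · rw [← Set.ncard_image_of_injective _ Subtype.val_injective]
          refine Set.ncard_le_ncard ?_
          rintro w ⟨h1, v, h2, h3⟩
          exact ⟨⟨w, fun hc => h2 (hc ▸ hz' v)⟩, ⟨h1, ⟨v, fun hc => h3 (hc ▸ hz' w)⟩, h2, h3⟩, rfl⟩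
      · have e1 : e (∅ : Finset X) = e (∅ : Finset {x // x ≠ z}) := by
          rw [← cnt_true, cnt_bot hz', cnt_true]
        have e2 : g y.1 x.1 ∅ = g y x ∅ := by
          rw [g, cnt_bot hz']
          refine cnt_congr fun l _ => ?_
          rw [pre, if_neg x.2.symm, mem_insert, pre_map Subtype.val_injective]
          exact or_iff_right y.2
        rw [← e1, ← e2]
        exact hb _ _ fun hc => hxy (Subtype.ext hc)

lemma ncard_eq (P : (X ≃ Fin (Fintype.card X)) → Prop) (Q : List X → Prop)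
    (h : ∀ f, P f ↔ Q (List.ofFn f.symm)) :
    {f : X ≃ Fin (Fintype.card X) | StrictMono f ∧ P f}.ncard = cnt ∅ Q := by
  rw [cnt, ← Set.ncard_coe_finset, ← Set.ncard_image_of_injective _
    (f := fun f : X ≃ Fin (Fintype.card X) => List.ofFn f.symm)
    fun f f' hf => Equiv.symm_bijective.1 (Equiv.coe_fn_injective (List.ofFn_injective hf))]
  congr 1
  have key : ∀ f : X ≃ Fin (Fintype.card X), List.ofFn f.symm ∈ L (∅ : Finset X) ↔ StrictMono f := by
    intro f
    rw [mem_L, List.pairwise_ofFn]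
    constructor
    · rintro ⟨-, -, h3⟩ x y hxy
      by_contra hc
      have : f y < f x := lt_of_le_of_ne (not_lt.1 hc) fun he => hxy.ne' (f.injective he)
      simpa [hxy] using h3 this
    · intro hf
      refine ⟨List.nodup_ofFn.2 f.symm.injective,
        fun x => iff_of_true (List.mem_ofFn.2 ⟨f x, by simp⟩) (notMem_empty x), fun i j hij hc => ?_⟩
      simpa [hij.not_gt] using hf hc
  ext l
  simp only [Set.mem_image, Set.mem_ofPred_eq, coe_filter]
  constructor
  · rintro ⟨f, ⟨h1, h2⟩, rfl⟩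
    exact ⟨(key f).2 h1, (h f).1 h2⟩
  · rintro ⟨h1, h2⟩
    have hn := (mem_L.1 h1).1
    have hlen : l.length = Fintype.card X := by
      rw [← List.toFinset_card_of_nodup hn, ← card_univ]
      congr 1
      exact eq_univ_of_forall fun x => List.mem_toFinset.2 (mem_of_L h1 x)
    let φ : Fin (Fintype.card X) → X := fun i => l[i.1]'(i.2.trans_eq hlen.symm)
    have e1 : List.ofFn φ = l := List.ext_getElem (by simp [hlen]) fun i _ _ => by simp [φ]
    have hφ : Function.Bijective φ :=
      ⟨List.nodup_ofFn.1 (e1 ▸ hn), fun x => List.mem_ofFn.1 (e1 ▸ mem_of_L h1 x)⟩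
    have e2 : List.ofFn (Equiv.ofBijective φ hφ).symm.symm = l := e1
    exact ⟨(Equiv.ofBijective φ hφ).symm, ⟨(key _).1 (e2 ▸ h1), (h _).2 (e2 ▸ h2)⟩, e2⟩

lemma ncard_e : {f : X ≃ Fin (Fintype.card X) | StrictMono f}.ncard = e (∅ : Finset X) := by
  rw [← cnt_true, ← ncard_eq (fun _ => True) _ fun _ => Iff.rfl]
  simp

lemma ncard_g (x y : X) :
    {f : X ≃ Fin (Fintype.card X) | StrictMono f ∧ f y < f x}.ncard = g y x ∅ := by
  refine ncard_eq _ _ fun f => ?_
  have : ∀ x, (List.ofFn f.symm).idxOf x = f x := fun x => by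
    have := (List.nodup_ofFn.2 f.symm.injective).idxOf_getElem (f x) (by simp)
    simpa using this
  rw [mem_pre _ (List.mem_ofFn.2 ⟨f y, by simp⟩), this, this]
  rfl

end Pool.Agent.Lib.MP_bd7e44_co
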