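import Pool.Agent.Lib.MP_bd7e44_co.H96Defs

/-! Differences of coordinates have log-concave distribution functions. -/

namespace Pool.Agent.Lib.MP_bd7e44_co.LR

open MeasureTheory ProbabilityTheory
open scoped ENNReal

namespace CDF

variable {X : Type} [Fintype X] [PartialOrder X]

lemma measurable_rho : Measurable (rho X) := by
  refine Measurable.ite (IsClosed.measurableSet (IsClosed.inter ?_ isClosed_monotone))
    (by fun_prop) measurable_const
  exact isClosed_Ici (a := (0 : X → ℝ))

lemma rho_mid (t t' : X → ℝ) : rho X t * rho X t' ≤ rho X (fun i => (t i + t' i) / 2) ^ 2 := by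
  unfold rho
  by_cases h : (∀ x, 0 ≤ t x) ∧ Monotone t
  swap
  · simp [h]
  by_cases h' : (∀ x, 0 ≤ t' x) ∧ Monotone t'
  swap
  · simp [h']
  rw [if_pos h, if_pos h', if_pos ⟨fun x => by linarith [h.1 x, h'.1 x],
    fun a b hab => by linarith [h.2 hab, h'.2 hab]⟩, sq,
    ← ENNReal.ofReal_mul (Real.exp_pos _).le, ← ENNReal.ofReal_mul (Real.exp_pos _).le,
    ← Real.exp_add, ← Real.exp_add]
  refine ENNReal.ofReal_le_ofReal (Real.exp_le_exp.2 ?_)
  have : ‖fun i => (t i + t' i) / 2‖ ≤ (‖t‖ + ‖t'‖) / 2 := by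
    refine (pi_norm_le_iff_of_nonneg (by positivity)).2 fun i => ?_
    rw [norm_div, Real.norm_two]
    exact div_le_div_of_nonneg_right
      ((norm_add_le _ _).trans (add_le_add (norm_le_pi_norm t i) (norm_le_pi_norm t' i)))
      zero_le_two
  linarith

end CDF

theorem cdf (h : PLStmt) (hm : MOMStmt) : CDFStmt := by
  intro X _ _ x y a b
  have := (hm X).1
  have ms : ∀ c : ℝ, MeasurableSet {t : X → ℝ | t y - t x ≤ c} := fun c =>
    measurableSet_le (by fun_prop) measurable_const
  have e : ∀ c : ℝ, mX X {t | t y - t x ≤ c} =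
      ((LE X).card : ℝ≥0∞)⁻¹ * ∫⁻ t, {t : X → ℝ | t y - t x ≤ c}.indicator (rho X) t := fun c => by
    rw [mX, Measure.smul_apply, withDensity_apply _ (ms c), lintegral_indicator (ms c), smul_eq_mul]
  have key := h X _ _ _ (CDF.measurable_rho.indicator (ms a)) (CDF.measurable_rho.indicator (ms b))
    (CDF.measurable_rho.indicator (ms ((a + b) / 2))) fun t t' => by
      by_cases k : t ∈ {t : X → ℝ | t y - t x ≤ a}
      swap
      · rw [Set.indicator_of_notMem k, zero_mul]
        exact zero_le
      by_cases k' : t' ∈ {t : X → ℝ | t y - t x ≤ b}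
      swap
      · rw [Set.indicator_of_notMem k', mul_zero]
        exact zero_le
      rw [Set.indicator_of_mem k, Set.indicator_of_mem k', Set.indicator_of_mem]
      · exact CDF.rho_mid t t'
      · simp only [Set.mem_ofPred_eq] at k k' ⊢
        linarith
  simp only [Measure.real]
  rw [← ENNReal.toReal_mul, ← ENNReal.toReal_pow]
  refine ENNReal.toReal_mono (ENNReal.pow_ne_top (measure_ne_top _ _)) ?_
  rw [e, e, e, mul_mul_mul_comm, mul_pow, ← sq]
  exact mul_le_mul_right key _

end Pool.Agent.Lib.MP_bd7e44_co.LR
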