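import Mathlib

/-!
Definitions and module statements for the theorem: a finite poset with an element incomparable to
many others has a balanced pair.
-/

namespace Pool.Agent.Lib.MP_bd7e44_co.LR

open MeasureTheory ProbabilityTheory
open scoped ENNReal

open Classical in
/-- The linear extensions of a finite poset. -/
noncomputable def LE (X : Type) [Fintype X] [PartialOrder X] :
    Finset (X ≃ Fin (Fintype.card X)) :=
  Finset.univ.filter fun f => StrictMono f

lemma mem_LE {X : Type} [Fintype X] [PartialOrder X] {f : X ≃ Fin (Fintype.card X)} :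
    f ∈ LE X ↔ StrictMono f := by
  simp [LE]

lemma LE_nonempty (X : Type) [Fintype X] [PartialOrder X] : (LE X).Nonempty := by
  classical
  have : Fintype (LinearExtension X) := ‹Fintype X›
  have hc : Fintype.card (LinearExtension X) = Fintype.card X :=
    Fintype.card_congr (Equiv.refl X)
  let e : Fin (Fintype.card X) ≃o LinearExtension X := Fintype.orderIsoFinOfCardEq _ hc
  refine ⟨(Equiv.refl X).trans e.symm.toEquiv, mem_LE.2 fun a b hab => ?_⟩
  have h1 : (toLinearExtension a : LinearExtension X) < toLinearExtension b :=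
    lt_of_le_of_ne (toLinearExtension.monotone hab.le) hab.ne
  exact e.symm.strictMono h1

/-- The average over a finite set. -/
noncomputable def Ex {α : Type} (s : Finset α) (φ : α → ℝ) : ℝ := (∑ a ∈ s, φ a) / s.card

open Classical in
/-- The fraction of a finite set with a property. -/
noncomputable def Pr {α : Type} (s : Finset α) (p : α → Prop) : ℝ :=
  ((s.filter p).card : ℝ) / s.card

/-- The position of `x`, as a real number. -/
def ps {X : Type} [Fintype X] (f : X ≃ Fin (Fintype.card X)) (x : X) : ℝ := ((f x : ℕ) : ℝ)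

/-- The mean position. -/
noncomputable def mu {X : Type} [Fintype X] [PartialOrder X] (x : X) : ℝ :=
  Ex (LE X) fun f => ps f x

/-- The variance of `t y - t x` in the continuous model, written in terms of positions. -/
noncomputable def VV {X : Type} [Fintype X] [PartialOrder X] (x y : X) : ℝ :=
  Ex (LE X) (fun f => (ps f y - ps f x) ^ 2 + |ps f y - ps f x|) - (mu y - mu x) ^ 2

open Classical in
/-- The density of the continuous model. -/
noncomputable def rho (X : Type) [Fintype X] [PartialOrder X] (t : X → ℝ) : ℝ≥0∞ :=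
  if (∀ x, 0 ≤ t x) ∧ Monotone t then ENNReal.ofReal (Real.exp (-‖t‖)) else 0

/-- The continuous model. -/
noncomputable def mX (X : Type) [Fintype X] [PartialOrder X] : Measure (X → ℝ) :=
  ((LE X).card : ℝ≥0∞)⁻¹ • (volume : Measure (X → ℝ)).withDensity (rho X)

/-- Midpoint log-concavity of the distribution function. -/
def LCcdf {Ω : Type} [MeasurableSpace Ω] (m : Measure Ω) (ξ : Ω → ℝ) : Prop :=
  ∀ a b : ℝ, m.real {ω | ξ ω ≤ a} * m.real {ω | ξ ω ≤ b} ≤ m.real {ω | ξ ω ≤ (a + b) / 2} ^ 2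

/-- PL: the midpoint Prekopa-Leindler inequality. -/
def PLStmt : Prop :=
  ∀ (ι : Type) [Fintype ι] (f g h : (ι → ℝ) → ℝ≥0∞), Measurable f → Measurable g → Measurable h →
    (∀ x y, f x * g y ≤ h (fun i => (x i + y i) / 2) ^ 2) →
    (∫⁻ x, f x) * (∫⁻ x, g x) ≤ (∫⁻ x, h x) ^ 2

/-- FF: the continuous four functions theorem. -/
def FFStmt : Prop :=
  ∀ (ι : Type) [Fintype ι] (f₁ f₂ f₃ f₄ : (ι → ℝ) → ℝ≥0∞), Measurable f₁ → Measurable f₂ →
    Measurable f₃ → Measurable f₄ → (∀ x y, f₁ x * f₂ y ≤ f₃ (x ⊔ y) * f₄ (x ⊓ y)) →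
    (∫⁻ x, f₁ x) * (∫⁻ x, f₂ x) ≤ (∫⁻ x, f₃ x) * (∫⁻ x, f₄ x)

/-- REP: the continuous model is a uniform linear extension with independent exponential
spacings. -/
def REPStmt : Prop :=
  ∀ (X : Type) [Fintype X] [PartialOrder X],
    mX X = ((LE X).card : ℝ≥0∞)⁻¹ • ∑ f ∈ LE X,
      (Measure.pi fun _ : Fin (Fintype.card X) => expMeasure 1).map
        fun (e : Fin (Fintype.card X) → ℝ) (x : X) => ∑ k ∈ Finset.Iic (f x), e k

/-- MOM: moments and probabilities in the continuous model. -/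
def MOMStmt : Prop :=
  ∀ (X : Type) [Fintype X] [PartialOrder X], IsProbabilityMeasure (mX X) ∧ ∀ x y : X,
    MemLp (fun t : X → ℝ => t y - t x) 2 (mX X) ∧
    ∫ t, (t y - t x) ∂(mX X) = mu y - mu x ∧
    Var[fun t : X → ℝ => t y - t x; mX X] = VV x y ∧
    (x ≠ y → (mX X).real {t | t y - t x ≤ 0} ≤ Pr (LE X) fun f => f y < f x) ∧
    ∀ L : ℝ, 0 ≤ L →
      Pr (LE X) (fun f => ps f y - ps f x ≤ L) ≤ 2 * (mX X).real {t | t y - t x ≤ 2 * L}

/-- CDF: differences of coordinates have log-concave distribution functions. -/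
def CDFStmt : Prop :=
  ∀ (X : Type) [Fintype X] [PartialOrder X] (x y : X), LCcdf (mX X) fun t => t y - t x

/-- SH: the variance of differences satisfies the triangle inequality. -/
def SHStmt : Prop :=
  ∀ (X : Type) [Fintype X] [PartialOrder X] (x y z : X),
    Var[fun t : X → ℝ => t z - t x; mX X] ≤
      Var[fun t : X → ℝ => t y - t x; mX X] + Var[fun t : X → ℝ => t z - t y; mX X]

/-- LC1: a quantitative form of the one-dimensional Gruenbaum inequality. -/
def LC1Stmt : Prop :=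
  ∀ δ : ℝ, δ < Real.exp (-1) → ∃ C : ℝ, 1 ≤ C ∧
    ∀ (Ω : Type) [MeasurableSpace Ω] (m : Measure Ω) [IsProbabilityMeasure m] (ξ : Ω → ℝ),
      Measurable ξ → MemLp ξ 2 m → LCcdf m ξ → LCcdf m (fun ω => -ξ ω) →
      m.real {ω | ξ ω ≤ 0} ≤ δ → 0 < ∫ ω, ξ ω ∂m ∧ Var[ξ; m] ≤ C * (∫ ω, ξ ω ∂m) ^ 2

/-- LC2: lower tails. -/
def LC2Stmt : Prop :=
  ∃ C : ℝ, 1 ≤ C ∧
    ∀ (Ω : Type) [MeasurableSpace Ω] (m : Measure Ω) [IsProbabilityMeasure m] (ξ : Ω → ℝ),
      Measurable ξ → MemLp ξ 2 m → LCcdf m ξ → ∀ s : ℝ, 0 < s →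
      m.real {ω | ξ ω ≤ ∫ ω, ξ ω ∂m - s} ≤ C * Var[ξ; m] ^ 3 / s ^ 6

/-- The mean of the `i`-th position. -/
noncomputable def mn {α : Type} (s : Finset α) (F : α → ℕ → ℕ) (i : ℕ) : ℝ :=
  Ex s fun a => (F a i : ℝ)

/-- The gap between consecutive means. -/
noncomputable def gp {α : Type} (s : Finset α) (F : α → ℕ → ℕ) (r : ℕ) : ℝ :=
  mn s F (r + 1) - mn s F r

/-- The sum of the squared gaps between two indices. -/
noncomputable def WW {α : Type} (s : Finset α) (F : α → ℕ → ℕ) (i j : ℕ) : ℝ :=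
  ∑ r ∈ Finset.Ico i j, gp s F r ^ 2

/-- A random permutation of `{0, ..., n - 1}` with increasing means, whose differences are
controlled by the squared gaps of the means. -/
structure Sys {α : Type} (s : Finset α) (n : ℕ) (F : α → ℕ → ℕ) (C : ℝ) : Prop where
  ne : s.Nonempty
  bij : ∀ a ∈ s, Set.BijOn (F a) (Set.Iio n) (Set.Iio n)
  gap : ∀ r, r + 1 < n → 1 ≤ C * gp s F r
  var : ∀ i j, i < j → j < n →
    Ex s (fun a => ((F a j : ℝ) - F a i - (mn s F j - mn s F i)) ^ 2) ≤ C * WW s F i j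
  tail : ∀ i j, i < j → j < n → ∀ L : ℝ, 0 ≤ L → 2 * L < mn s F j - mn s F i →
    Pr s (fun a => (F a j : ℝ) - F a i ≤ L) ≤
      C * WW s F i j ^ 3 / (mn s F j - mn s F i - 2 * L) ^ 6

/-- GAP: the gaps between consecutive means are bounded. -/
def GAPStmt : Prop :=
  ∀ C : ℝ, 1 ≤ C → ∃ R G₀ : ℝ, 0 ≤ R ∧
    ∀ (α : Type) (s : Finset α) (n : ℕ) (F : α → ℕ → ℕ), Sys s n F C →
      (∀ r, r + 1 < n → 1 < gp s F r → ∀ a ∈ s,
        R * gp s F r ≤ F a r ∧ F a r + R * gp s F r < n) →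
      ∀ r, r + 1 < n → gp s F r ≤ G₀

open Classical in
/-- The number of outcomes in which the indices in `A` occupy the set of positions `S`. -/
noncomputable def wt {α : Type} (s : Finset α) (F : α → ℕ → ℕ) (A S : Finset ℕ) : ℕ :=
  (s.filter fun a => A.image (F a) = S).card

/-- WORD: a weight on sets of positions that does not decrease when a point moves up by one has
an excess in upper halves of windows. -/
def WORDStmt : Prop :=
  ∀ (n : ℕ) (w : Finset ℕ → ℝ), (∀ S, 0 ≤ w S) →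
    (∀ S u, u ∈ S → u + 1 ∉ S → u + 1 < n → w S ≤ w (insert (u + 1) (S.erase u))) →
    (∀ u v, u < v → v < n →
      ∑ S ∈ (Finset.range n).powerset with u ∈ S, w S ≤
        2 * ∑ S ∈ (Finset.range n).powerset with v ∈ S, w S ∧
      ∑ S ∈ (Finset.range n).powerset with v ∉ S, w S ≤
        2 * ∑ S ∈ (Finset.range n).powerset with u ∉ S, w S) ∧
    ∀ b q : ℕ, 0 < q → b + 2 * q ^ 2 ≤ n →
      ∑ S ∈ (Finset.range n).powerset, w S *
          (((S ∩ Finset.Ico b (b + 2 * q ^ 2)).card : ℝ) *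
            (2 * q ^ 2 - (S ∩ Finset.Ico b (b + 2 * q ^ 2)).card)) ≤
        16 * q ^ 3 * ∑ S ∈ (Finset.range n).powerset, w S *
          max (((S ∩ Finset.Ico (b + q ^ 2) (b + 2 * q ^ 2)).card : ℝ) -
            (S ∩ Finset.Ico b (b + q ^ 2)).card) 0

/-- RANGE: if moving the indices of `A` up does not lose outcomes, then an index outside `A` is
not far above an index in `A`. -/
def RANGEStmt : Prop :=
  ∀ C G₀ : ℝ, 1 ≤ C → ∃ K : ℕ,
    ∀ (α : Type) (s : Finset α) (n : ℕ) (F : α → ℕ → ℕ), Sys s n F C →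
      (∀ r, r + 1 < n → gp s F r ≤ G₀) →
      ∀ A : Finset ℕ, A ⊆ Finset.range n →
        (∀ S u, u ∈ S → u + 1 ∉ S → u + 1 < n →
          wt s F A S ≤ wt s F A (insert (u + 1) (S.erase u))) →
        ∀ i ∈ A, ∀ j, j < n → j ∉ A → j ≤ i + K

/-- PAD: a poset can be padded by long chains below and above. -/
def PADStmt : Prop :=
  ∀ (X : Type) [Fintype X] [PartialOrder X] (M : ℕ), 0 < M →
    ∃ (Y : Type) (_ : Fintype Y) (_ : PartialOrder Y) (emb : X → Y),
      (∀ x y, emb x ≤ emb y ↔ x ≤ y) ∧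
      (∀ u v : Y, ¬ u ≤ v → ¬ v ≤ u → ∃ x y, u = emb x ∧ v = emb y) ∧
      (∀ x y, Pr (LE Y) (fun f => f (emb y) < f (emb x)) = Pr (LE X) fun f => f y < f x) ∧
      Fintype.card Y = Fintype.card X + 2 * M ∧
      (∀ u : Y, (∀ f ∈ LE Y, M ≤ (f u : ℕ) + 1 ∧ (f u : ℕ) < M + Fintype.card X) ∨
        (∃ v, ∀ f ∈ LE Y, (f v : ℕ) = f u + 1) ∨ ∀ f ∈ LE Y, (f u : ℕ) + 1 = Fintype.card Y) ∧
      ∃ w : Y, ∀ f ∈ LE Y, (f w : ℕ) = M + Fintype.card X

/-- The main statement. -/
def MainStmt : Prop :=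
  ∀ δ : ℝ, δ < Real.exp (-1) → ∃ K : ℕ, ∀ (X : Type) [Fintype X] [PartialOrder X],
    (∃ x : X, K ≤ {z : X | ¬ x ≤ z ∧ ¬ z ≤ x}.ncard) →
    ∃ x y : X, x ≠ y ∧ δ ≤ Pr (LE X) (fun f => f y < f x) ∧
      Pr (LE X) (fun f => f y < f x) ≤ 1 - δ

end Pool.Agent.Lib.MP_bd7e44_co.LR
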