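import Pool.Agent.Lib.MP_bd7e44_co.H96Defs

/-! The continuous four functions theorem. -/

namespace Pool.Agent.Lib.MP_bd7e44_co.LR

open MeasureTheory
open scoped ENNReal NNReal

namespace FF

lemma ineq {a b c d : ℝ≥0∞} (ha : a ≤ c) (hb : b ≤ c) (h : a * b ≤ c * d) : a + b ≤ c + d := by
  rcases eq_or_ne c ⊤ with rfl | hc
  · simp
  rcases eq_or_ne d ⊤ with rfl | hd
  · simp
  lift c to ℝ≥0 using hc
  lift d to ℝ≥0 using hd
  lift a to ℝ≥0 using ne_top_of_le_ne_top ENNReal.coe_ne_top ha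
  lift b to ℝ≥0 using ne_top_of_le_ne_top ENNReal.coe_ne_top hb
  have ha' : (a : ℝ) ≤ c := by exact_mod_cast ha
  have hb' : (b : ℝ) ≤ c := by exact_mod_cast hb
  have h' : (a : ℝ) * b ≤ c * d := by exact_mod_cast h
  have key : (a : ℝ) + b ≤ c + d := by
    rcases c.2.eq_or_lt with h0 | h0
    · have h1 : (c : ℝ) = 0 := h0.symm
      have := d.2
      change (0 : ℝ) ≤ d at this
      linarith
    · have h1 : (0 : ℝ) < c := h0
      refine le_of_mul_le_mul_left ?_ h1
      nlinarith [mul_nonneg (sub_nonneg.2 ha') (sub_nonneg.2 hb')]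
  exact_mod_cast key

lemma double {f g : ℝ → ℝ≥0∞} (hf : Measurable f) (hg : Measurable g) :
    ∫⁻ x, ∫⁻ y, (f x * g y + f y * g x) = 2 * ((∫⁻ x, f x) * ∫⁻ x, g x) := by
  have h1 : ∀ x, ∫⁻ y, (f x * g y + f y * g x) = f x * (∫⁻ y, g y) + (∫⁻ y, f y) * g x :=
    fun x => by
      rw [lintegral_add_left (hg.const_mul _), lintegral_const_mul _ hg, lintegral_mul_const _ hf]
  simp_rw [h1]
  rw [lintegral_add_left (hf.mul_const _), lintegral_const_mul _ hg, lintegral_mul_const _ hf,
    two_mul]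

lemma one {f₁ f₂ f₃ f₄ : ℝ → ℝ≥0∞} (h₁ : Measurable f₁) (h₂ : Measurable f₂) (h₃ : Measurable f₃)
    (h₄ : Measurable f₄) (h : ∀ x y, f₁ x * f₂ y ≤ f₃ (x ⊔ y) * f₄ (x ⊓ y)) :
    (∫⁻ x, f₁ x) * (∫⁻ x, f₂ x) ≤ (∫⁻ x, f₃ x) * (∫⁻ x, f₄ x) := by
  have key : ∀ x y, x ≤ y → f₁ x * f₂ y + f₁ y * f₂ x ≤ f₃ y * f₄ x + f₃ x * f₄ y := by
    intro x y hxy
    refine ineq ?_ ?_ ?_
    · simpa [hxy] using h x y
    · simpa [hxy] using h y x
    · have a1 : f₁ x * f₂ x ≤ f₃ x * f₄ x := by simpa using h x x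
      have a2 : f₁ y * f₂ y ≤ f₃ y * f₄ y := by simpa using h y y
      calc f₁ x * f₂ y * (f₁ y * f₂ x) = f₁ x * f₂ x * (f₁ y * f₂ y) := by ring
        _ ≤ f₃ x * f₄ x * (f₃ y * f₄ y) := mul_le_mul' a1 a2
        _ = _ := by ring
  rw [← ENNReal.mul_le_mul_iff_right (a := 2) two_ne_zero ENNReal.ofNat_ne_top, ← double h₁ h₂,
    ← double h₃ h₄]
  refine lintegral_mono fun x => lintegral_mono fun y => ?_
  rcases le_total x y with hxy | hxy
  · exact (key x y hxy).trans_eq (add_comm _ _)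
  · exact (add_comm _ _).trans_le (key y x hxy)

end FF

theorem ff : FFStmt := by
  intro ι _ f₁ f₂ f₃ f₄ h₁ h₂ h₃ h₄ h
  classical
  have key : ∀ (s : Finset ι) (x y : ι → ℝ),
      lmarginal (fun _ => volume) s f₁ x * lmarginal (fun _ => volume) s f₂ y ≤
        lmarginal (fun _ => volume) s f₃ (x ⊔ y) * lmarginal (fun _ => volume) s f₄ (x ⊓ y) := by
    intro s
    induction s using Finset.induction_on with
    | empty => simpa using h
    | insert i s hi ih =>
      intro x y
      rw [lmarginal_insert _ h₁ hi, lmarginal_insert _ h₂ hi, lmarginal_insert _ h₃ hi,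
        lmarginal_insert _ h₄ hi]
      refine FF.one ((h₁.lmarginal _).comp (measurable_update _))
        ((h₂.lmarginal _).comp (measurable_update _))
        ((h₃.lmarginal _).comp (measurable_update _))
        ((h₄.lmarginal _).comp (measurable_update _)) fun a b => ?_
      have e1 : Function.update (x ⊔ y) i (a ⊔ b) =
          Function.update x i a ⊔ Function.update y i b := by
        funext j
        by_cases hj : j = i
        · subst hj; simp
        · simp [hj]
      have e2 : Function.update (x ⊓ y) i (a ⊓ b) =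
          Function.update x i a ⊓ Function.update y i b := by
        funext j
        by_cases hj : j = i
        · subst hj; simp
        · simp [hj]
      rw [e1, e2]
      exact ih _ _
  simpa only [lmarginal_univ, volume_pi] using key Finset.univ 0 0

end Pool.Agent.Lib.MP_bd7e44_co.LR
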