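import Pool.Agent.Lib.MP_bd7e44_co.H96Defs

/-!
Assembly of the modules.
-/

namespace Pool.Agent.Lib.MP_bd7e44_co.LR

open MeasureTheory ProbabilityTheory

namespace FIN

section ex

variable {α : Type} {s : Finset α}

lemma Ex_mono {φ ψ : α → ℝ} (h : ∀ a ∈ s, φ a ≤ ψ a) : Ex s φ ≤ Ex s ψ :=
  div_le_div_of_nonneg_right (Finset.sum_le_sum h) (Nat.cast_nonneg _)

lemma Ex_const (hs : s.Nonempty) (c : ℝ) : Ex s (fun _ => c) = c := by
  have : (s.card : ℝ) ≠ 0 := by exact_mod_cast hs.card_pos.ne'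
  simp only [Ex, Finset.sum_const, nsmul_eq_mul]
  field_simp

lemma Ex_add (φ ψ : α → ℝ) : Ex s (fun a => φ a + ψ a) = Ex s φ + Ex s ψ := by
  simp only [Ex, Finset.sum_add_distrib, add_div]

lemma Ex_sub (φ ψ : α → ℝ) : Ex s (fun a => φ a - ψ a) = Ex s φ - Ex s ψ := by
  simp only [Ex, Finset.sum_sub_distrib, sub_div]

lemma Ex_mul (c : ℝ) (φ : α → ℝ) : Ex s (fun a => c * φ a) = c * Ex s φ := by
  simp only [Ex, ← Finset.mul_sum, mul_div_assoc]

lemma Ex_congr {φ ψ : α → ℝ} (h : ∀ a ∈ s, φ a = ψ a) : Ex s φ = Ex s ψ :=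
  le_antisymm (Ex_mono fun a ha => (h a ha).le) (Ex_mono fun a ha => (h a ha).ge)

lemma Ex_var (hs : s.Nonempty) (φ : α → ℝ) :
    Ex s (fun a => (φ a - Ex s φ) ^ 2) = Ex s (fun a => φ a ^ 2) - Ex s φ ^ 2 := by
  have : ∀ a ∈ s, (φ a - Ex s φ) ^ 2 = φ a ^ 2 - (2 * Ex s φ) * φ a + Ex s φ ^ 2 := by
    intro a _
    ring
  rw [Ex_congr this, Ex_add, Ex_sub, Ex_mul, Ex_const hs]
  ring

lemma Pr_nonneg (p : α → Prop) : 0 ≤ Pr s p := by
  unfold Pr
  positivity

lemma Pr_congr {p q : α → Prop} (h : ∀ a ∈ s, p a ↔ q a) : Pr s p = Pr s q := by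
  classical
  unfold Pr
  congr 2
  convert rfl using 2
  ext a
  simp only [Finset.mem_filter]
  exact and_congr_right fun ha => (h a ha).symm

lemma Pr_compl (hs : s.Nonempty) (p : α → Prop) : Pr s p + Pr s (fun a => ¬ p a) = 1 := by
  classical
  have : (s.card : ℝ) ≠ 0 := by exact_mod_cast hs.card_pos.ne'
  unfold Pr
  rw [← add_div, div_eq_one_iff_eq this]
  have h := Finset.card_filter_add_card_filter_not (s := s) p
  exact_mod_cast (by convert h)

lemma Pr_false {p : α → Prop} (h : ∀ a ∈ s, ¬ p a) : Pr s p = 0 := by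
  classical
  unfold Pr
  rw [Finset.filter_eq_empty_iff.2 h]
  simp

end ex

variable {Y : Type} [Fintype Y] [PartialOrder Y]

lemma Pr_swap {x y : Y} (h : x ≠ y) :
    Pr (LE Y) (fun f => f y < f x) + Pr (LE Y) (fun f => f x < f y) = 1 := by
  rw [← Pr_compl (LE_nonempty Y) (fun f => f y < f x)]
  congr 1
  apply Pr_congr
  intro f _
  have : f x ≠ f y := f.injective.ne h
  constructor
  · intro h1; exact not_lt.2 h1.le
  · intro h1; exact lt_of_le_of_ne (not_lt.1 h1) this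

lemma mu_sub (x y : Y) : mu y - mu x = Ex (LE Y) fun f => ps f y - ps f x := by
  rw [Ex_sub]; rfl

lemma var_le_VV (x y : Y) :
    Ex (LE Y) (fun f => (ps f y - ps f x - (mu y - mu x)) ^ 2) ≤ VV x y := by
  rw [mu_sub, Ex_var (LE_nonempty Y), VV, mu_sub, sub_le_sub_iff_right]
  exact Ex_mono fun f _ => le_add_of_nonneg_right (abs_nonneg _)

lemma one_le_VV {x y : Y} (h : x ≠ y) : 1 ≤ VV x y := by
  have h1 : 0 ≤ Ex (LE Y) (fun f => (ps f y - ps f x - (mu y - mu x)) ^ 2) := by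
    rw [← Ex_const (LE_nonempty Y) 0]
    exact Ex_mono fun f _ => sq_nonneg _
  have h2 : 1 ≤ Ex (LE Y) (fun f => |ps f y - ps f x|) := by
    rw [← Ex_const (LE_nonempty Y) 1]
    refine Ex_mono fun f _ => ?_
    have h3 : ((f y : ℕ) : ℤ) - (f x : ℕ) ≠ 0 := by
      have : (f x : ℕ) ≠ f y := fun e => h (f.injective (Fin.ext e))
      omega
    have h4 := Int.one_le_abs h3
    unfold ps
    exact_mod_cast h4
  rw [mu_sub, Ex_var (LE_nonempty Y)] at h1
  rw [VV, Ex_add, mu_sub]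
  linarith

/-- The positions, listed along an enumeration. -/
def FF (e : Fin (Fintype.card Y) ≃ Y) (f : Y ≃ Fin (Fintype.card Y)) (i : ℕ) : ℕ :=
  if h : i < Fintype.card Y then f (e ⟨i, h⟩) else 0

omit [PartialOrder Y] in
lemma FF_apply (e : Fin (Fintype.card Y) ≃ Y) (f : Y ≃ Fin (Fintype.card Y)) {i : ℕ}
    (h : i < Fintype.card Y) : FF e f i = f (e ⟨i, h⟩) := dif_pos h

lemma mn_FF (e : Fin (Fintype.card Y) ≃ Y) {i : ℕ} (h : i < Fintype.card Y) :
    mn (LE Y) (FF e) i = mu (e ⟨i, h⟩) := by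
  simp only [mn, mu, FF_apply e _ h, ps]

lemma exists_sys {C₁ C₂ : ℝ} (hC₁ : 1 ≤ C₁) (hC₂ : 1 ≤ C₂)
    (a1 : ∀ x y z : Y, VV x z ≤ VV x y + VV y z)
    (a2 : ∀ x y : Y, x ≠ y → (0 < mu y - mu x ∧ VV x y ≤ C₁ * (mu y - mu x) ^ 2) ∨
      0 < mu x - mu y)
    (a3 : ∀ x y : Y, ∀ L : ℝ, 0 ≤ L → 2 * L < mu y - mu x →
      Pr (LE Y) (fun f => ps f y - ps f x ≤ L) ≤ C₂ * VV x y ^ 3 / (mu y - mu x - 2 * L) ^ 6) :
    ∃ e : Fin (Fintype.card Y) ≃ Y, StrictMono (fun i => mu (e i)) ∧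
      Sys (LE Y) (Fintype.card Y) (FF e) (C₂ * C₁ ^ 3) := by
  classical
  have hinj : Function.Injective (mu : Y → ℝ) := by
    intro x y hxy
    by_contra h
    rcases a2 x y h with h1 | h1
    · linarith [h1.1]
    · linarith
  let e₀ := (Fintype.equivFin Y).symm
  let e : Fin (Fintype.card Y) ≃ Y := (Tuple.sort fun i => mu (e₀ i)).trans e₀
  have hm : StrictMono (fun i => mu (e i)) := by
    apply Monotone.strictMono_of_injective
    · exact Tuple.monotone_sort fun i => mu (e₀ i)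
    · exact hinj.comp e.injective
  have hC : C₁ ≤ C₂ * C₁ ^ 3 := by
    have h1 : C₁ ≤ C₁ ^ 3 := by nlinarith [mul_nonneg (sub_nonneg.2 hC₁) (sq_nonneg C₁)]
    nlinarith
  have hstep : ∀ r (h : r + 1 < Fintype.card Y), 0 < gp (LE Y) (FF e) r ∧
      VV (e ⟨r, by omega⟩) (e ⟨r + 1, h⟩) ≤ C₁ * gp (LE Y) (FF e) r ^ 2 := by
    intro r h
    have hlt : mu (e ⟨r, by omega⟩) < mu (e ⟨r + 1, h⟩) := hm (by simp [Fin.lt_def])
    rw [gp, mn_FF e h, mn_FF e (by omega : r < Fintype.card Y)]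
    rcases a2 (e ⟨r, by omega⟩) (e ⟨r + 1, h⟩) (fun h' => by simpa using e.injective h') with
      h1 | h1
    · exact h1
    · linarith
  have hchain : ∀ i j (hij : i < j) (hj : j < Fintype.card Y),
      VV (e ⟨i, by omega⟩) (e ⟨j, hj⟩) ≤ C₁ * WW (LE Y) (FF e) i j := by
    intro i j hij
    induction j, hij using Nat.le_induction with
    | base =>
      intro hj
      simpa [WW] using (hstep i hj).2
    | succ j hij ih =>
      intro hj
      have h1 := ih (by omega)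
      have h2 := (hstep j hj).2
      have h3 := a1 (e ⟨i, by omega⟩) (e ⟨j, by omega⟩) (e ⟨j + 1, hj⟩)
      rw [WW, Finset.sum_Ico_succ_top (by omega), mul_add]
      rw [WW] at h1
      linarith
  have hW : ∀ i j, 0 ≤ WW (LE Y) (FF e) i j := fun i j =>
    Finset.sum_nonneg fun _ _ => sq_nonneg _
  refine ⟨e, hm, LE_nonempty Y, ?_, ?_, ?_, ?_⟩
  · intro f _
    refine ⟨fun i hi => ?_, fun i hi j hj hij => ?_, fun k hk => ?_⟩
    · rw [Set.mem_Iio, FF_apply e f hi]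
      exact Fin.is_lt _
    · rw [FF_apply e f hi, FF_apply e f hj] at hij
      simpa using e.injective (f.injective (Fin.ext hij))
    · refine ⟨(e.symm (f.symm ⟨k, hk⟩) : ℕ), Fin.is_lt _, ?_⟩
      rw [FF_apply e f (Fin.is_lt _)]
      simp
  · intro r h
    obtain ⟨h1, h2⟩ := hstep r h
    have h3 := one_le_VV (x := e ⟨r, by omega⟩) (y := e ⟨r + 1, h⟩)
      (fun h' => by simpa using e.injective h')
    have h4 : 1 ≤ C₁ * gp (LE Y) (FF e) r := by
      by_contra hc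
      push Not at hc
      have h5 : gp (LE Y) (FF e) r < 1 := by nlinarith
      nlinarith
    nlinarith
  · intro i j hij hj
    have hi : i < Fintype.card Y := by omega
    have h1 := var_le_VV (e ⟨i, hi⟩) (e ⟨j, hj⟩)
    rw [mn_FF e hi, mn_FF e hj]
    simp only [FF_apply e _ hi, FF_apply e _ hj]
    refine le_trans h1 ((hchain i j hij hj).trans ?_)
    exact mul_le_mul_of_nonneg_right hC (hW i j)
  · intro i j hij hj L hL hL2
    have hi : i < Fintype.card Y := by omega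
    rw [mn_FF e hi, mn_FF e hj] at hL2 ⊢
    simp only [FF_apply e _ hi, FF_apply e _ hj]
    refine le_trans (a3 _ _ L hL hL2) ?_
    apply div_le_div_of_nonneg_right _ (by positivity)
    have h0 : 0 ≤ VV (e ⟨i, hi⟩) (e ⟨j, hj⟩) :=
      zero_le_one.trans (one_le_VV fun h' => by
        have := e.injective h'
        simp only [Fin.mk.injEq] at this
        omega)
    have h1 := pow_le_pow_left₀ h0 (hchain i j hij hj) 3
    rw [mul_assoc, ← mul_pow]
    exact mul_le_mul_of_nonneg_left h1 (by linarith)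

open Classical in
lemma swap_wt (e : Fin (Fintype.card Y) ≃ Y) (x : Y) (S : Finset ℕ) (u : ℕ) (hu : u ∈ S)
    (hu1 : u + 1 ∉ S) (hn : u + 1 < Fintype.card Y) :
    wt (LE Y) (FF e) ((Finset.univ.filter fun r => x ≤ e r).image Fin.val) S ≤
      wt (LE Y) (FF e) ((Finset.univ.filter fun r => x ≤ e r).image Fin.val)
        (insert (u + 1) (S.erase u)) := by
  set A := (Finset.univ.filter fun r => x ≤ e r).image Fin.val with hA
  have himg : ∀ (f : Y ≃ Fin (Fintype.card Y)) (k : ℕ),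
      k ∈ A.image (FF e f) ↔ ∃ y, x ≤ y ∧ (f y : ℕ) = k := by
    intro f k
    simp only [hA, Finset.mem_image, Finset.mem_filter, Finset.mem_univ, true_and]
    constructor
    · rintro ⟨i, ⟨r, hr, rfl⟩, rfl⟩
      exact ⟨e r, hr, (FF_apply e f r.is_lt).symm⟩
    · rintro ⟨y, hy, rfl⟩
      refine ⟨e.symm y, ⟨e.symm y, by simpa using hy, rfl⟩, ?_⟩
      rw [FF_apply e f (Fin.is_lt _)]
      simp
  let sw : Equiv.Perm (Fin (Fintype.card Y)) := Equiv.swap ⟨u, by omega⟩ ⟨u + 1, hn⟩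
  have hsw : ∀ k : Fin (Fintype.card Y), (sw k : ℕ) =
      if (k : ℕ) = u then u + 1 else if (k : ℕ) = u + 1 then u else k := by
    intro k
    simp only [sw, Equiv.swap_apply_def, Fin.ext_iff]
    split_ifs <;> rfl
  unfold wt
  apply Finset.card_le_card_of_injOn (fun f => f.trans sw)
  · intro f hf
    simp only [Finset.coe_filter, Set.mem_ofPred_eq, mem_LE] at hf ⊢
    obtain ⟨hf, hS⟩ := hf
    constructor
    · intro p q hpq
      have h1 : (f p : ℕ) < f q := hf hpq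
      have h2 : ¬ ((f p : ℕ) = u ∧ (f q : ℕ) = u + 1) := by
        rintro ⟨h2, h3⟩
        rw [← hS, himg] at hu hu1
        obtain ⟨y, hy, hy2⟩ := hu
        have : y = p := f.injective (Fin.ext (by omega))
        exact hu1 ⟨q, hy.trans (this ▸ hpq.le), h3⟩
      change (sw (f p) : ℕ) < sw (f q)
      rw [hsw, hsw]
      split_ifs <;> omega
    · ext k
      rw [himg, Finset.mem_insert, Finset.mem_erase, ← hS, himg]
      rw [← hS, himg] at hu hu1
      simp only [Equiv.trans_apply, hsw]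
      constructor
      · rintro ⟨y, hy, hk⟩
        split_ifs at hk with h1 h2
        · exact Or.inl hk.symm
        · exact absurd ⟨y, hy, h2⟩ hu1
        · exact Or.inr ⟨by omega, y, hy, hk⟩
      · rintro (rfl | ⟨hk, y, hy, rfl⟩)
        · obtain ⟨y, hy, hy2⟩ := hu
          exact ⟨y, hy, by rw [if_pos hy2]⟩
        · exact ⟨y, hy, by rw [if_neg hk, if_neg fun h => hu1 ⟨y, hy, h⟩]⟩
  · intro f _ g _ hfg
    ext y
    have := congrArg (fun k : Y ≃ Fin (Fintype.card Y) => k y) hfg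
    simp only [Equiv.trans_apply] at this
    rw [sw.injective this]

end FIN

open FIN in
theorem main_of (hm : MOMStmt) (hc : CDFStmt) (hs : SHStmt) (h1 : LC1Stmt) (h2 : LC2Stmt)
    (hg : GAPStmt) (hr : RANGEStmt) (hp : PADStmt) : MainStmt := by
  classical
  suffices H : ∀ δ : ℝ, 0 < δ → δ < Real.exp (-1) → ∃ K : ℕ,
      ∀ (X : Type) [Fintype X] [PartialOrder X],
      (∃ x : X, K ≤ {z : X | ¬ x ≤ z ∧ ¬ z ≤ x}.ncard) →
      ∃ x y : X, x ≠ y ∧ δ ≤ Pr (LE X) (fun f => f y < f x) ∧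
        Pr (LE X) (fun f => f y < f x) ≤ 1 - δ by
    intro δ hδ
    have he := Real.exp_pos (-1)
    obtain ⟨K, hK⟩ := H (max δ (Real.exp (-1) / 2)) (lt_max_of_lt_right (by linarith))
      (max_lt hδ (by linarith))
    refine ⟨K, fun X _ _ hX => ?_⟩
    obtain ⟨x, y, hxy, h3, h4⟩ := hK X hX
    have := le_max_left δ (Real.exp (-1) / 2)
    exact ⟨x, y, hxy, by linarith, by linarith⟩
  intro δ hδ0 hδ
  obtain ⟨C₁, hC₁, h1⟩ := h1 δ hδ
  obtain ⟨C₂, hC₂, h2⟩ := h2
  have hC : 1 ≤ 2 * C₂ * C₁ ^ 3 := by nlinarith [one_le_pow₀ hC₁ (n := 3)]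
  obtain ⟨R, G₀, hR, hg⟩ := hg _ hC
  obtain ⟨K, hr⟩ := hr _ G₀ hC
  refine ⟨2 * K + 2, fun X _ _ ⟨x₀, hx₀⟩ => ?_⟩
  by_contra hcon
  push Not at hcon
  obtain ⟨M₀, hM₀⟩ := exists_nat_ge (R * (Fintype.card X + 1))
  obtain ⟨Y, _, _, emb, hle, hinc, hPr, hcard, hcases, w, hw⟩ := hp X (M₀ + 1) (by omega)
  have hU : ∀ x y : Y, x ≠ y →
      Pr (LE Y) (fun f => f y < f x) ≤ δ ∨ Pr (LE Y) (fun f => f x < f y) ≤ δ := by
    intro x y hxy
    by_cases hle1 : x ≤ y
    · left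
      rw [Pr_false fun f hf => not_lt.2 ((mem_LE.1 hf).monotone hle1)]
      exact hδ0.le
    by_cases hle2 : y ≤ x
    · right
      rw [Pr_false fun f hf => not_lt.2 ((mem_LE.1 hf).monotone hle2)]
      exact hδ0.le
    obtain ⟨a, b, rfl, rfl⟩ := hinc x y hle1 hle2
    have hab : a ≠ b := fun h => hxy (h ▸ rfl)
    rw [hPr, hPr]
    have h3 := Pr_swap hab
    by_cases h4 : δ ≤ Pr (LE X) (fun f => f b < f a)
    · right
      linarith [hcon a b hab h4]
    · left
      exact (not_le.1 h4).le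
  obtain ⟨hprob, hmom⟩ := hm Y
  have hmeas : ∀ x y : Y, Measurable fun t : Y → ℝ => t y - t x := fun x y =>
    (measurable_pi_apply y).sub (measurable_pi_apply x)
  have a2' : ∀ x y : Y, x ≠ y → Pr (LE Y) (fun f => f y < f x) ≤ δ →
      0 < mu y - mu x ∧ VV x y ≤ C₁ * (mu y - mu x) ^ 2 := by
    intro x y hxy h
    obtain ⟨m1, m2, m3, m4, -⟩ := hmom x y
    have := h1 _ (mX Y) _ (hmeas x y) m1 (hc Y x y) (by simpa using hc Y y x) ((m4 hxy).trans h)
    rwa [m2, m3] at this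
  obtain ⟨e, hmono, hsys⟩ := exists_sys (Y := Y) (C₂ := 2 * C₂) hC₁ (by linarith)
    (fun x y z => by
      have := hs Y x y z
      rwa [(hmom x z).2.2.1, (hmom x y).2.2.1, (hmom y z).2.2.1] at this)
    (fun x y hxy => by
      rcases hU x y hxy with h | h
      · exact Or.inl (a2' x y hxy h)
      · exact Or.inr (a2' y x hxy.symm h).1)
    (fun x y L hL hL2 => by
      obtain ⟨m1, m2, m3, -, m5⟩ := hmom x y
      have := h2 _ (mX Y) _ (hmeas x y) m1 (hc Y x y) (mu y - mu x - 2 * L) (by linarith)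
      rw [m2, m3, sub_sub_cancel] at this
      refine (m5 L hL).trans ?_
      rw [mul_assoc, mul_div_assoc]
      linarith)
  have hne := LE_nonempty Y
  have hmu : ∀ (u : Y) (c : ℝ), (∀ f ∈ LE Y, ps f u ≤ c) → mu u ≤ c := fun u c h => by
    rw [← Ex_const hne c]; exact Ex_mono h
  have hmu' : ∀ (u : Y) (c : ℝ), (∀ f ∈ LE Y, c ≤ ps f u) → c ≤ mu u := fun u c h => by
    rw [← Ex_const hne c]; exact Ex_mono h
  have hnext : ∀ r (h : r + 1 < Fintype.card Y) (v : Y), mu (e ⟨r, by omega⟩) < mu v →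
      mu (e ⟨r + 1, h⟩) ≤ mu v := by
    intro r h v hv
    obtain ⟨k, rfl⟩ := e.surjective v
    have h3 : (⟨r, by omega⟩ : Fin (Fintype.card Y)) < k := hmono.lt_iff_lt.1 hv
    exact hmono.monotone (show (⟨r + 1, h⟩ : Fin (Fintype.card Y)) ≤ k from h3)
  have hgap := hg _ _ _ _ hsys (by
    intro r h hg1 f hf
    have hr' : r < Fintype.card Y := by omega
    rw [FF_apply e f hr']
    rw [gp, mn_FF e h, mn_FF e hr'] at hg1 ⊢
    rcases hcases (e ⟨r, hr'⟩) with h3 | ⟨v, h3⟩ | h3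
    · have h4 : (M₀ : ℝ) ≤ mu (e ⟨r, hr'⟩) := hmu' _ _ fun f hf => by
        have := (h3 f hf).1
        unfold ps
        exact_mod_cast (by omega : M₀ ≤ (f (e ⟨r, hr'⟩) : ℕ))
      have h5 : mu (e ⟨r, hr'⟩) ≤ M₀ + Fintype.card X := hmu _ _ fun f hf => by
        have := (h3 f hf).2
        unfold ps
        exact_mod_cast (by omega : (f (e ⟨r, hr'⟩) : ℕ) ≤ M₀ + Fintype.card X)
      have h6 : mu w = M₀ + 1 + Fintype.card X := by
        apply le_antisymm
        · exact hmu _ _ fun f hf => by unfold ps; rw [hw f hf]; push_cast; rfl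
        · exact hmu' _ _ fun f hf => by unfold ps; rw [hw f hf]; push_cast; rfl
      have h7 := hnext r h w (by linarith)
      have h8 : R * (mu (e ⟨r + 1, h⟩) - mu (e ⟨r, hr'⟩)) ≤ M₀ :=
        le_trans (mul_le_mul_of_nonneg_left (by linarith) hR) hM₀
      have h9 : (M₀ : ℝ) ≤ (f (e ⟨r, hr'⟩) : ℕ) := by
        have := (h3 f hf).1
        exact_mod_cast (by omega : M₀ ≤ (f (e ⟨r, hr'⟩) : ℕ))
      have h10 : ((f (e ⟨r, hr'⟩) : ℕ) : ℝ) + M₀ < Fintype.card Y := by
        have := (h3 f hf).2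
        exact_mod_cast (by omega : (f (e ⟨r, hr'⟩) : ℕ) + M₀ < Fintype.card Y)
      constructor <;> linarith
    · exfalso
      have h4 : mu v = mu (e ⟨r, hr'⟩) + 1 := by
        rw [← Ex_const hne 1, mu, mu, ← Ex_add]
        exact Ex_congr fun f hf => by unfold ps; rw [h3 f hf]; push_cast; rfl
      have := hnext r h v (by linarith)
      linarith
    · exfalso
      have h4 : (Fintype.card Y : ℝ) - 1 ≤ mu (e ⟨r, hr'⟩) := hmu' _ _ fun f hf => by
        unfold ps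
        have : ((f (e ⟨r, hr'⟩) : ℕ) : ℝ) + 1 = Fintype.card Y := by exact_mod_cast h3 f hf
        linarith
      have h5 : mu (e ⟨r + 1, h⟩) ≤ (Fintype.card Y : ℝ) - 1 := hmu _ _ fun f hf => by
        unfold ps
        have : ((f (e ⟨r + 1, h⟩) : ℕ) : ℝ) + 1 ≤ Fintype.card Y := by
          exact_mod_cast (f (e ⟨r + 1, h⟩)).is_lt
        linarith
      linarith)
  have hrange : ∀ x z : Y, ¬ x ≤ z → (e.symm z : ℕ) ≤ e.symm x + K := by
    intro x z hxz
    refine hr _ _ _ _ hsys hgap ((Finset.univ.filter fun r => x ≤ e r).image Fin.val) ?_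
      (fun S u => swap_wt e x S u) _ ?_ _ (Fin.is_lt _) ?_
    · intro i hi
      obtain ⟨r, -, rfl⟩ := Finset.mem_image.1 hi
      exact Finset.mem_range.2 r.is_lt
    · exact Finset.mem_image.2 ⟨e.symm x, by simp, rfl⟩
    · intro hi
      obtain ⟨r, hr1, hr2⟩ := Finset.mem_image.1 hi
      have : r = e.symm z := Fin.ext hr2
      subst this
      simp only [Finset.mem_filter, Finset.mem_univ, true_and, Equiv.apply_symm_apply] at hr1
      exact hxz hr1
  have hinj : Function.Injective emb := fun a b hab =>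
    le_antisymm ((hle a b).1 hab.le) ((hle b a).1 hab.ge)
  have hbound : {z : X | ¬ x₀ ≤ z ∧ ¬ z ≤ x₀}.ncard ≤
      (Set.Icc ((e.symm (emb x₀) : ℕ) - K) (e.symm (emb x₀) + K)).ncard := by
    apply Set.ncard_le_ncard_of_injOn (fun z => (e.symm (emb z) : ℕ))
    · rintro z ⟨hz1, hz2⟩
      have h3 := hrange (emb x₀) (emb z) (fun h => hz1 ((hle _ _).1 h))
      have h4 := hrange (emb z) (emb x₀) (fun h => hz2 ((hle _ _).1 h))
      exact ⟨by omega, h3⟩
    · intro a _ b _ hab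
      exact hinj (e.symm.injective (Fin.ext hab))
  rw [← Finset.coe_Icc, Set.ncard_coe_finset, Nat.card_Icc] at hbound
  omega

end Pool.Agent.Lib.MP_bd7e44_co.LR
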