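import Pool.Agent.Lib.MP_bd7e44_co.H96GapA

/-!
The gaps between consecutive means are bounded.
-/

namespace Pool.Agent.Lib.MP_bd7e44_co.LR

namespace GAP

open FIN

variable {α : Type} {s : Finset α} {n : ℕ} {F : α → ℕ → ℕ} {C : ℝ}

lemma cover (hS : Sys s n F C) {L : ℝ} {y : ℕ} {a : α} (ha : a ∈ s) (h1 : 3 * L ≤ F a y)
    (h2 : F a y + 3 * L < n) {ι : Type} (Z : Finset ι) (p : ι → ℤ) (hp : Set.InjOn p Z) :
    ∑ i ∈ Z, ph L (p i) ≤ ∑ j ∈ Finset.range n, ph L ((F a j : ℝ) - F a y) := by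
  classical
  have e : ∑ j ∈ Finset.range n, ph L ((F a j : ℝ) - F a y) =
      ∑ k ∈ (Finset.range n).image (fun j => (F a j : ℤ) - F a y), ph L k := by
    rw [Finset.sum_image]
    · simp
    · intro i hi j hj hij
      apply (hS.bij a ha).injOn (Finset.mem_range.1 hi) (Finset.mem_range.1 hj)
      simp only at hij
      omega
  rw [e, ← Finset.sum_filter_add_sum_filter_not Z (fun i => |(p i : ℝ)| < 3 * L),
    Finset.sum_eq_zero (s := Z.filter fun i => ¬ |(p i : ℝ)| < 3 * L)
      (fun i hi => ph_zero (not_lt.1 (Finset.mem_filter.1 hi).2)), add_zero]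
  apply sum_le_of_injOn p (fun k : ℤ => ph L k) (hp.mono (Finset.filter_subset _ _))
  · intro i hi
    have h3 := abs_lt.1 (Finset.mem_filter.1 hi).2
    have h4 : (0 : ℤ) < F a y + p i := by
      have : (0 : ℝ) < F a y + p i := by linarith [h3.1]
      exact_mod_cast this
    have h5 : (F a y + p i : ℤ) < n := by
      have : (F a y + p i : ℝ) < n := by linarith [h3.2]
      exact_mod_cast this
    obtain ⟨j, hj, hj2⟩ := (hS.bij a ha).surjOn
      (show (F a y + p i : ℤ).toNat ∈ Set.Iio n by rw [Set.mem_Iio]; omega)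
    exact Finset.mem_image.2 ⟨j, Finset.mem_range.2 hj, by omega⟩
  · exact fun _ _ => ph_nonneg _ _

lemma Ex_ph_le (hS : Sys s n F C) (L : ℝ) (j y : ℕ) :
    Ex s (fun a => ph L ((F a j : ℝ) - F a y)) ≤ ph L (mn s F j - mn s F y) +
      Ex s (fun a => ((F a j : ℝ) - F a y - (mn s F j - mn s F y)) ^ 2) := by
  obtain ⟨κ, hκ⟩ := ph_taylor L (mn s F j - mn s F y)
  have h1 : ∀ a ∈ s, ph L ((F a j : ℝ) - F a y) ≤ ph L (mn s F j - mn s F y) +
      κ * ((F a j : ℝ) - F a y - (mn s F j - mn s F y)) +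
      ((F a j : ℝ) - F a y - (mn s F j - mn s F y)) ^ 2 := by
    intro a _
    have := hκ ((F a j : ℝ) - F a y - (mn s F j - mn s F y))
    rwa [add_sub_cancel] at this
  refine (Ex_mono h1).trans (le_of_eq ?_)
  rw [Ex_add, Ex_add, Ex_mul, Ex_sub, Ex_sub, Ex_const hS.ne, Ex_const hS.ne]
  simp [mn]

lemma near (hS : Sys s n F C) (hC : 1 ≤ C) {L : ℝ} {j y : ℕ} (hj : j < n) (hy : y < n)
    (h : |mn s F j - mn s F y| ≤ 9 * L) :
    Ex s (fun a => ((F a j : ℝ) - F a y - (mn s F j - mn s F y)) ^ 2) ≤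
      C * ∑ r ∈ win s (n - 1) F (mn s F y - 9 * L) (mn s F y + 9 * L), gp s F r ^ 2 := by
  have h' := abs_le.1 h
  have hL : 0 ≤ 9 * L := (abs_nonneg _).trans h
  have key : ∀ i k, i < k → k < n → mn s F y - 9 * L ≤ mn s F i → mn s F k ≤ mn s F y + 9 * L →
      C * WW s F i k ≤
        C * ∑ r ∈ win s (n - 1) F (mn s F y - 9 * L) (mn s F y + 9 * L), gp s F r ^ 2 := by
    intro i k hik hk h1 h2
    apply mul_le_mul_of_nonneg_left _ (by linarith)
    apply Finset.sum_le_sum_of_subset_of_nonneg _ fun _ _ _ => sq_nonneg _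
    intro r hr
    have hr' := Finset.mem_Ico.1 hr
    exact mem_win.2 ⟨by omega, h1.trans (mn_mono hS hC hr'.1 (by omega)),
      (mn_lt hS hC hr'.2 hk).trans_le h2⟩
  rcases lt_trichotomy j y with h1 | rfl | h1
  · refine le_trans (le_of_eq ?_) ((hS.var j y h1 hy).trans
      (key j y h1 hy (by linarith) (by linarith)))
    exact Ex_congr fun a _ => by ring
  · simp only [sub_self, ne_eq, OfNat.ofNat_ne_zero, not_false_eq_true, zero_pow]
    rw [Ex_const hS.ne]
    exact mul_nonneg (by linarith) (Finset.sum_nonneg fun _ _ => sq_nonneg _)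
  · exact (hS.var y j h1 hj).trans (key y j h1 hj (by linarith) (by linarith))

lemma far (hS : Sys s n F C) (hC : 1 ≤ C) {G L : ℝ} (hL : 0 < L) (hG0 : 0 ≤ G)
    (hG : ∀ r, r + 1 < n → gp s F r ≤ G) {i k : ℕ} (hi : i < n) (hk : k < n)
    (h : 9 * L < mn s F k - mn s F i) :
    Pr s (fun a => (F a k : ℝ) - F a i ≤ 3 * L) ≤
      324 * C * G ^ 3 / L * (1 / (((k : ℝ) - i) / C + 9 * L) ^ 2) := by
  have hik : i < k := by
    by_contra hc
    have := mn_mono hS hC (not_lt.1 hc) hi
    linarith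
  set D := mn s F k - mn s F i with hD
  have hD0 : 0 < D := by linarith
  have hW : WW s F i k ≤ G * D := by
    rw [hD, mn_sub i k hik.le, Finset.mul_sum]
    apply Finset.sum_le_sum
    intro r hr
    have hr' : r + 1 < n := by have := Finset.mem_Ico.1 hr; omega
    have h1 := gp_pos hS hC hr'
    have h2 := hG r hr'
    nlinarith
  have hW0 : 0 ≤ WW s F i k := Finset.sum_nonneg fun _ _ => sq_nonneg _
  refine (hS.tail i k hik hk (3 * L) (by linarith) (by linarith)).trans ?_
  rw [← hD]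
  have h1 : C * WW s F i k ^ 3 / (D - 2 * (3 * L)) ^ 6 ≤ C * (G * D) ^ 3 / (D / 3) ^ 6 := by
    apply div_le_div₀ (by positivity)
      (mul_le_mul_of_nonneg_left (pow_le_pow_left₀ hW0 hW 3) (by linarith)) (by positivity)
    exact pow_le_pow_left₀ (by positivity) (by linarith) 6
  refine h1.trans ?_
  have hki : (0 : ℝ) ≤ (k : ℝ) - i := by
    have : (i : ℝ) ≤ k := by exact_mod_cast hik.le
    linarith
  have h2 : ((k : ℝ) - i) / C ≤ D := by
    rw [div_le_iff₀ (by linarith), mul_comm]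
    exact idx_le hS hik.le hk
  have h3 : 0 < ((k : ℝ) - i) / C + 9 * L := by positivity
  have h4 : (((k : ℝ) - i) / C + 9 * L) ^ 2 ≤ (2 * D) ^ 2 :=
    pow_le_pow_left₀ h3.le (by linarith) 2
  have h5 : 1 / (2 * D) ^ 2 ≤ 1 / (((k : ℝ) - i) / C + 9 * L) ^ 2 :=
    one_div_le_one_div_of_le (by positivity) h4
  refine le_trans ?_ (mul_le_mul_of_nonneg_left h5 (by positivity))
  have e1 : C * (G * D) ^ 3 / (D / 3) ^ 6 = 729 * C * G ^ 3 / D ^ 2 * (1 / D) := by
    field_simp
    ring
  have e2 : 324 * C * G ^ 3 / L * (1 / (2 * D) ^ 2) = 729 * C * G ^ 3 / D ^ 2 * (1 / (9 * L)) := by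
    field_simp
    ring
  rw [e1, e2]
  exact mul_le_mul_of_nonneg_left (one_div_le_one_div_of_le (by positivity) h.le) (by positivity)

lemma upper (hS : Sys s n F C) (hC : 1 ≤ C) {G L : ℝ} (hL : 1 ≤ L) (hG0 : 0 ≤ G)
    (hG : ∀ r, r + 1 < n → gp s F r ≤ G) {y : ℕ} (hy : y < n) :
    Ex s (fun a => ∑ j ∈ Finset.range n, ph L ((F a j : ℝ) - F a y)) ≤
      ∑ j ∈ Finset.range n, ph L (mn s F j - mn s F y) +
      20 * C ^ 2 * L * ∑ r ∈ win s (n - 1) F (mn s F y - 9 * L) (mn s F y + 9 * L), gp s F r ^ 2 +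
      648 * C ^ 2 * G ^ 3 := by
  classical
  set Wn := ∑ r ∈ win s (n - 1) F (mn s F y - 9 * L) (mn s F y + 9 * L), gp s F r ^ 2 with hWn
  have hWn0 : 0 ≤ Wn := Finset.sum_nonneg fun _ _ => sq_nonneg _
  have hL0 : 0 < L := by linarith
  have hC0 : 0 < C := by linarith
  have key : ∀ j ∈ Finset.range n, Ex s (fun a => ph L ((F a j : ℝ) - F a y)) ≤
      ph L (mn s F j - mn s F y) +
      (if j ∈ win s n F (mn s F y - 9 * L) (mn s F y + 9 * L + 1) then C * Wn else 0) +
      (if j ≠ y then 2916 * C * G ^ 3 * L * (1 / (|(j : ℝ) - y| / C + 9 * L) ^ 2) else 0) := by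
    intro j hj
    have hj' := Finset.mem_range.1 hj
    have p1 : 0 ≤ (if j ∈ win s n F (mn s F y - 9 * L) (mn s F y + 9 * L + 1) then C * Wn
        else 0) := by split_ifs <;> positivity
    have p2 : 0 ≤ (if j ≠ y then 2916 * C * G ^ 3 * L * (1 / (|(j : ℝ) - y| / C + 9 * L) ^ 2)
        else 0) := by split_ifs <;> positivity
    by_cases h : |mn s F j - mn s F y| ≤ 9 * L
    · have h1 := Ex_ph_le hS L j y
      have h2 := near hS hC hj' hy h
      have h' := abs_le.1 h
      rw [if_pos (mem_win.2 ⟨hj', by linarith, by linarith⟩)]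
      linarith
    · have hjy : j ≠ y := by
        rintro rfl
        apply h
        simp only [sub_self, abs_zero]
        linarith
      rw [if_pos hjy]
      have p3 := ph_nonneg L (mn s F j - mn s F y)
      suffices Ex s (fun a => ph L ((F a j : ℝ) - F a y)) ≤
          2916 * C * G ^ 3 * L * (1 / (|(j : ℝ) - y| / C + 9 * L) ^ 2) by linarith
      have e : 2916 * C * G ^ 3 * L = 9 * L ^ 2 * (324 * C * G ^ 3 / L) := by
        field_simp
        ring
      rw [e, mul_assoc (9 * L ^ 2)]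
      rcases lt_abs.1 (not_le.1 h) with h1 | h1
      · have h2 := far hS hC hL0 hG0 hG hy hj' h1
        have h3 : (y : ℝ) ≤ j := by
          have : y ≤ j := by
            by_contra hc
            have := mn_mono hS hC (not_le.1 hc).le hy
            linarith
          exact_mod_cast this
        rw [abs_of_nonneg (by linarith)]
        refine le_trans ?_ (mul_le_mul_of_nonneg_left h2 (by positivity))
        rw [← Ex_ind]
        refine Ex_mono fun a _ => ?_
        split_ifs with h4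
        · exact ph_le hL0.le _
        · exact (ph_zero ((not_le.1 h4).le.trans (le_abs_self _))).le
      · rw [neg_sub] at h1
        have h2 := far hS hC hL0 hG0 hG hj' hy h1
        have h3 : (j : ℝ) ≤ y := by
          have : j ≤ y := by
            by_contra hc
            have := mn_mono hS hC (not_le.1 hc).le hj'
            linarith
          exact_mod_cast this
        rw [abs_of_nonpos (by linarith), neg_sub]
        refine le_trans ?_ (mul_le_mul_of_nonneg_left h2 (by positivity))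
        rw [← Ex_ind]
        refine Ex_mono fun a _ => ?_
        split_ifs with h4
        · exact ph_le hL0.le _
        · refine (ph_zero ((not_le.1 h4).le.trans ?_)).le
          rw [abs_sub_comm]
          exact le_abs_self _
  rw [Ex_sum]
  refine (Finset.sum_le_sum key).trans ?_
  rw [Finset.sum_add_distrib, Finset.sum_add_distrib, ← Finset.sum_filter, ← Finset.sum_filter,
    Finset.sum_const, nsmul_eq_mul, ← Finset.mul_sum, Finset.filter_ne']
  have h1 : (((Finset.range n).filter fun j =>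
      j ∈ win s n F (mn s F y - 9 * L) (mn s F y + 9 * L + 1)).card : ℝ) ≤ 20 * C * L := by
    have h2 := card_win hS hC (u := mn s F y - 9 * L) (v := mn s F y + 9 * L + 1) (by linarith)
    have h3 : ((Finset.range n).filter fun j =>
        j ∈ win s n F (mn s F y - 9 * L) (mn s F y + 9 * L + 1)).card ≤
        (win s n F (mn s F y - 9 * L) (mn s F y + 9 * L + 1)).card :=
      Finset.card_le_card fun j hj => (Finset.mem_filter.1 hj).2
    have h4 : (((Finset.range n).filter fun j =>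
        j ∈ win s n F (mn s F y - 9 * L) (mn s F y + 9 * L + 1)).card : ℝ) ≤
        (win s n F (mn s F y - 9 * L) (mn s F y + 9 * L + 1)).card := by exact_mod_cast h3
    nlinarith
  have h2 := tele' C (9 * L) hC0 (by linarith) n y
  have h3 := mul_le_mul_of_nonneg_left h2 (show 0 ≤ 2916 * C * G ^ 3 * L by positivity)
  have e : 2916 * C * G ^ 3 * L * (2 * C / (9 * L)) = 648 * C ^ 2 * G ^ 3 := by
    field_simp
    ring
  have h4 := mul_le_mul_of_nonneg_right h1 (show 0 ≤ C * Wn by positivity)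
  nlinarith

lemma sum_win_add (f : ℕ → ℝ) (N : ℕ) {u v w : ℝ} (huv : u ≤ v) (hvw : v ≤ w) :
    ∑ r ∈ win s N F u w, f r = ∑ r ∈ win s N F u v, f r + ∑ r ∈ win s N F v w, f r := by
  simp only [win, Finset.sum_filter, ← Finset.sum_add_distrib]
  apply Finset.sum_congr rfl
  intro r _
  by_cases h1 : u ≤ mn s F r <;> by_cases h2 : mn s F r < v <;> by_cases h3 : mn s F r < w <;>
    simp only [h1, h2, h3, not_lt.1, not_le.2, and_true, and_false, if_true,
      if_false, add_zero, zero_add, not_false_iff] <;>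
    first | rfl | (exfalso; push Not at *; linarith)

lemma sum_win_cells (f : ℕ → ℝ) (N : ℕ) (u : ℝ) {l : ℝ} (hl : 0 ≤ l) (k : ℕ) :
    ∑ r ∈ win s N F u (u + k * l), f r =
      ∑ c ∈ Finset.range k, ∑ r ∈ win s N F (u + c * l) (u + c * l + l), f r := by
  induction k with
  | zero =>
    rw [Finset.sum_range_zero]
    apply Finset.sum_eq_zero
    intro r hr
    have := mem_win.1 hr
    simp only [Nat.cast_zero, zero_mul, add_zero] at this
    linarith [this.2.1, this.2.2]
  | succ k ih =>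
    have h0 : 0 ≤ (k : ℝ) * l := by positivity
    rw [Finset.sum_range_succ, ← ih, ← sum_win_add f N (by linarith) (by linarith)]
    congr 2
    push_cast
    ring

open Classical in
lemma cells (hS : Sys s n F C) (hC : 1 ≤ C) {L la : ℝ} (hla : 0 < la) {La N : ℕ}
    (hLa : (La : ℝ) ≤ L) (m₀ u : ℝ) (hu : u ≤ -(3 * L)) (hN : 3 * L ≤ u + N * La) :
    ∑ j ∈ Finset.range n, ph L (mn s F j - m₀) +
      ∑ c ∈ Finset.range N, (if win s n F (m₀ + u + c * La) (m₀ + u + c * La + La) = ∅ then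
        ∑ i ∈ Finset.range La, ph L (u + c * La + i) else 0) ≤
      ∑ c ∈ Finset.range N, ∑ i ∈ Finset.range La, ph L (u + c * La + i) +
      12 * L * La * (N * La) + 15 * L ^ 2 * (N * (2 * la + 1) + (C * La + 1) * C *
        ∑ r ∈ win s (n - 1) F (m₀ + u) (m₀ + u + N * La), min 1 (gp s F r ^ 2 / la ^ 2)) := by
  have hLa0 : (0 : ℝ) ≤ La := Nat.cast_nonneg _
  have hL : 0 ≤ L := hLa0.trans hLa
  have h1 : ∑ j ∈ Finset.range n, ph L (mn s F j - m₀) =
      ∑ j ∈ win s n F (m₀ + u) (m₀ + u + N * La), ph L (mn s F j - m₀) := by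
    symm
    apply Finset.sum_subset (Finset.filter_subset _ _)
    intro j hj hj2
    apply ph_zero
    rw [Finset.mem_filter, not_and, not_and_or] at hj2
    rcases hj2 hj with h | h
    · push Not at h
      exact le_abs.2 (Or.inr (by linarith))
    · push Not at h
      exact le_abs.2 (Or.inl (by linarith))
  rw [h1, sum_win_cells _ _ _ hLa0, sum_win_cells _ _ _ hLa0, ← Finset.sum_add_distrib]
  have key : ∀ c ∈ Finset.range N,
      ∑ j ∈ win s n F (m₀ + u + c * La) (m₀ + u + c * La + La), ph L (mn s F j - m₀) +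
      (if win s n F (m₀ + u + c * La) (m₀ + u + c * La + La) = ∅ then
        ∑ i ∈ Finset.range La, ph L (u + c * La + i) else 0) ≤
      ∑ i ∈ Finset.range La, ph L (u + c * La + i) + 12 * L * La * La +
        15 * L ^ 2 * ((2 * la + 1) + (C * La + 1) * C *
        ∑ r ∈ win s (n - 1) F (m₀ + u + c * La) (m₀ + u + c * La + La),
          min 1 (gp s F r ^ 2 / la ^ 2)) := by
    intro c _
    have hc := cell hS hC (m₀ + u + c * La) hLa0 hla
    set E := (2 * la + 1) + (C * La + 1) * C *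
        ∑ r ∈ win s (n - 1) F (m₀ + u + c * La) (m₀ + u + c * La + La),
          min 1 (gp s F r ^ 2 / la ^ 2) with hE
    have hE0 : 0 ≤ E := by
      have : 0 ≤ ∑ r ∈ win s (n - 1) F (m₀ + u + c * La) (m₀ + u + c * La + La),
          min 1 (gp s F r ^ 2 / la ^ 2) :=
        Finset.sum_nonneg fun r _ => le_min zero_le_one (by positivity)
      positivity
    split_ifs with h
    · rw [h, Finset.sum_empty]
      have : 0 ≤ 12 * L * La * La + 15 * L ^ 2 * E := by positivity
      linarith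
    · have h2 : ∀ j ∈ win s n F (m₀ + u + c * La) (m₀ + u + c * La + La),
          ph L (mn s F j - m₀) ≤ ph L (u + c * La) + 6 * L * La := by
        intro j hj
        have hj' := mem_win.1 hj
        refine (ph_lip hL _ (u + c * La)).trans ?_
        have : |mn s F j - m₀ - (u + c * La)| ≤ La :=
          abs_le.2 ⟨by linarith [hj'.2.1], by linarith [hj'.2.2]⟩
        nlinarith
      have h3 : ∀ i ∈ Finset.range La, ph L (u + c * La) - 6 * L * La ≤ ph L (u + c * La + i) := by
        intro i hi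
        have hi' : (i : ℝ) ≤ La := by exact_mod_cast (Finset.mem_range.1 hi).le
        have h4 := ph_lip hL (u + c * La) (u + c * La + i)
        have : |u + c * La - (u + c * La + i)| ≤ La :=
          abs_le.2 ⟨by linarith, by linarith [(Nat.cast_nonneg i : (0 : ℝ) ≤ i)]⟩
        nlinarith
      have h4 := Finset.sum_le_card_nsmul _ _ _ h2
      have h5 := Finset.card_nsmul_le_sum _ _ _ h3
      rw [nsmul_eq_mul] at h4 h5
      rw [Finset.card_range] at h5
      have h6 := ph_nonneg L (u + c * La)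
      have h7 := ph_le hL (u + c * La)
      have h8 : ((win s n F (m₀ + u + c * La) (m₀ + u + c * La + La)).card : ℝ) *
          (ph L (u + c * La) + 6 * L * La) ≤ (La + E) * (ph L (u + c * La) + 6 * L * La) :=
        mul_le_mul_of_nonneg_right (by rw [hE]; linarith) (by positivity)
      have h9 : E * (ph L (u + c * La) + 6 * L * La) ≤ E * (15 * L ^ 2) :=
        mul_le_mul_of_nonneg_left (by nlinarith) hE0
      nlinarith
  refine (Finset.sum_le_sum key).trans (le_of_eq ?_)
  simp only [Finset.sum_add_distrib, ← Finset.mul_sum, Finset.sum_const, Finset.card_range,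
    nsmul_eq_mul]
  ring

open Classical in
lemma deficiency (hS : Sys s n F C) (hC : 1 ≤ C) {L : ℝ} (hL : 0 ≤ L) {La N : ℕ} (hLa : 0 < La)
    (m₀ u : ℝ) (hu : u ≤ -(2 * L)) (hN : 2 * L ≤ u + N * La) (Wd : Finset ℕ)
    (hWd : ∀ r ∈ Wd, r + 1 < n ∧ m₀ - 2 * L ≤ mn s F r ∧ mn s F (r + 1) ≤ m₀ + 2 * L) :
    L ^ 2 * ∑ r ∈ Wd, max (gp s F r - 2 * La) 0 ≤
      ∑ c ∈ Finset.range N, (if win s n F (m₀ + u + c * La) (m₀ + u + c * La + La) = ∅ then
        ∑ i ∈ Finset.range La, ph L (u + c * La + i) else 0) := by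
  have hLa0 : (0 : ℝ) < La := by exact_mod_cast hLa
  let cf : ℕ → ℕ := fun j => ⌊(mn s F j - m₀ - u) / La⌋₊
  let Em : ℕ → Finset ℕ := fun r => Finset.Ioo (cf r) (cf (r + 1))
  have hcf : ∀ i j, i ≤ j → j < n → cf i ≤ cf j := fun i j hij hj =>
    Nat.floor_mono (div_le_div_of_nonneg_right (by linarith [mn_mono hS hC hij hj]) hLa0.le)
  have hlo : ∀ r ∈ Wd, ∀ c ∈ Em r, mn s F r < m₀ + u + c * La ∧
      m₀ + u + c * La + La ≤ mn s F (r + 1) := by
    intro r hr c hc
    obtain ⟨h1, h2, h3⟩ := hWd r hr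
    obtain ⟨h4, h5⟩ := Finset.mem_Ioo.1 hc
    have h6 := gp_pos hS hC h1
    rw [gp] at h6
    constructor
    · have h7 : (mn s F r - m₀ - u) / La < c := (Nat.floor_lt (div_nonneg (by linarith)
        hLa0.le)).1 h4
      rw [div_lt_iff₀ hLa0] at h7
      linarith
    · have h7 : ((c + 1 : ℕ) : ℝ) ≤ (mn s F (r + 1) - m₀ - u) / La :=
        (Nat.le_floor_iff (div_nonneg (by linarith) hLa0.le)).1 h5
      rw [le_div_iff₀ hLa0] at h7
      push_cast at h7
      linarith
  have hdisj : (Wd : Set ℕ).PairwiseDisjoint Em := by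
    have aux : ∀ r r', r < r' → r' + 1 < n → Disjoint (Em r) (Em r') := by
      intro r r' h h'
      rw [Finset.disjoint_left]
      intro c hc hc'
      have h1 := Finset.mem_Ioo.1 hc
      have h2 := Finset.mem_Ioo.1 hc'
      have := hcf (r + 1) r' h (by omega)
      omega
    intro r hr r' hr' hne
    rcases lt_or_gt_of_ne hne with h | h
    · exact aux r r' h (hWd r' hr').1
    · exact (aux r' r h (hWd r hr).1).symm
  have hsub : Wd.biUnion Em ⊆ Finset.range N := by
    intro c hc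
    obtain ⟨r, hr, hc'⟩ := Finset.mem_biUnion.1 hc
    have h1 := (hlo r hr c hc').2
    have h2 := (hWd r hr).2.2
    have h3 : (c : ℝ) * La < N * La := by linarith
    exact Finset.mem_range.2 (by exact_mod_cast lt_of_mul_lt_mul_right h3 hLa0.le)
  refine le_trans ?_ (Finset.sum_le_sum_of_subset_of_nonneg hsub fun c _ _ => by
    split_ifs
    · exact Finset.sum_nonneg fun _ _ => ph_nonneg _ _
    · exact le_rfl)
  rw [Finset.sum_biUnion hdisj, Finset.mul_sum]
  apply Finset.sum_le_sum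
  intro r hr
  obtain ⟨h1, h2, h3⟩ := hWd r hr
  have h4 : ∀ c ∈ Em r, La * L ^ 2 ≤
      (if win s n F (m₀ + u + c * La) (m₀ + u + c * La + La) = ∅ then
        ∑ i ∈ Finset.range La, ph L (u + c * La + i) else 0) := by
    intro c hc
    obtain ⟨h5, h6⟩ := hlo r hr c hc
    rw [if_pos]
    · have := Finset.card_nsmul_le_sum (Finset.range La) (fun i => ph L (u + c * La + i)) (L ^ 2)
        (fun i hi => by
          have hi' : (i : ℝ) ≤ La := by exact_mod_cast (Finset.mem_range.1 hi).le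
          exact ph_ge hL (abs_le.2 ⟨by linarith [(Nat.cast_nonneg i : (0 : ℝ) ≤ i)],
            by linarith⟩))
      rwa [Finset.card_range, nsmul_eq_mul] at this
    · apply Finset.eq_empty_of_forall_notMem
      intro j hj
      obtain ⟨h7, h8, h9⟩ := mem_win.1 hj
      rcases le_or_gt j r with h | h
      · linarith [mn_mono hS hC h (by omega : r < n)]
      · linarith [mn_mono hS hC (show r + 1 ≤ j from h) h7]
  have h5 := Finset.card_nsmul_le_sum _ _ _ h4
  rw [nsmul_eq_mul] at h5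
  refine le_trans ?_ h5
  have h6 : max (gp s F r - 2 * La) 0 ≤ (Em r).card * La := by
    apply max_le _ (by positivity)
    have h7 : (cf (r + 1) : ℝ) ≤ (Em r).card + cf r + 1 := by
      have : cf (r + 1) ≤ (Em r).card + cf r + 1 := by
        simp only [Em, Nat.card_Ioo]
        omega
      exact_mod_cast this
    have h8 : (cf r : ℝ) ≤ (mn s F r - m₀ - u) / La :=
      Nat.floor_le (div_nonneg (by linarith) hLa0.le)
    have h9 : (mn s F (r + 1) - m₀ - u) / La < cf (r + 1) + 1 := Nat.lt_floor_add_one _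
    rw [le_div_iff₀ hLa0] at h8
    rw [div_lt_iff₀ hLa0] at h9
    rw [gp]
    nlinarith
  nlinarith [sq_nonneg L]

lemma exists_best (s : Finset α) (n : ℕ) (F : α → ℕ → ℕ) (L : ℝ) : ∃ u : ℝ, ∀ v : ℝ,
    ∑ r ∈ win s (n - 1) F v (v + L), gp s F r ^ 2 ≤
      ∑ r ∈ win s (n - 1) F u (u + L), gp s F r ^ 2 := by
  classical
  have hfin : (Set.range fun v : ℝ => win s (n - 1) F v (v + L)).Finite :=
    (Finset.range (n - 1)).powerset.finite_toSet.subset (by
      rintro _ ⟨v, rfl⟩
      exact Finset.mem_coe.2 (Finset.mem_powerset.2 (Finset.filter_subset _ _)))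
  obtain ⟨_, ⟨u, rfl⟩, hu⟩ := Set.exists_max_image _ (fun T : Finset ℕ => ∑ r ∈ T, gp s F r ^ 2)
    hfin (Set.range_nonempty _)
  exact ⟨u, fun v => hu _ ⟨v, rfl⟩⟩

lemma final {C A B K G L la La N W Wn S Θ P D T E : ℝ} (hC : 1 ≤ C) (hA : A = 3600 * C ^ 2)
    (hB : 3600 * A ≤ B) (hK : 10800 * C ^ 2 * B * A ≤ K) (hG0 : 0 < G) (hL : L = A * G)
    (hla1 : 1 ≤ la) (hLaR : La = B * la) (hLaG : 10 * (98 + 2 * A) * La ≤ G) (hN : 0 ≤ N)
    (hNL : N * La ≤ 8 * L) (hWG : G ^ 2 ≤ W) (hΘ0 : 0 ≤ Θ)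
    (c1 : P + D ≤ T + 12 * L * La * (N * La) +
      15 * L ^ 2 * (N * (2 * la + 1) + (C * La + 1) * C * Θ))
    (c2 : L ^ 2 * S ≤ D) (c3 : E ≤ P + 20 * C ^ 2 * L * Wn + 648 * C ^ 2 * G ^ 3) (c4 : T ≤ E)
    (c5 : Wn ≤ 18 * W) (c6 : W - 2 * La * (L + G) ≤ G * S) (c7 : la * Θ ≤ 36 * L / K) :
    False := by
  have hC2 : 1 ≤ C ^ 2 := one_le_pow₀ hC
  have hA1 : 3600 ≤ A := by linarith
  have hB1 : (1 : ℝ) ≤ B := by linarith
  have hK0 : (0 : ℝ) < K := lt_of_lt_of_le (by positivity) hK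
  have hL0 : 0 < L := by rw [hL]; positivity
  have hLa1 : 1 ≤ La := by rw [hLaR]; exact one_le_mul_of_one_le_of_one_le hB1 hla1
  have t4 : 15 * (N * (2 * la + 1)) ≤ G / 10 := by
    have h1 : N * la * B ≤ 8 * L := by
      rw [mul_assoc, mul_comm la, ← hLaR]; linarith
    have h2 : (0 : ℝ) ≤ N * la := by positivity
    have h3 := mul_le_mul_of_nonneg_left hB h2
    have h4 : A * (N * la * 450) ≤ A * G := by linarith
    have h5 := le_of_mul_le_mul_left h4 (by linarith)
    have h6 : N * (2 * la + 1) ≤ N * (3 * la) := mul_le_mul_of_nonneg_left (by linarith) hN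
    linarith
  have t5 : 15 * ((C * La + 1) * C * Θ) ≤ G / 10 := by
    have h1 : (C * La + 1) * C * Θ ≤ 2 * C ^ 2 * B * (la * Θ) := by
      have h2 : C * La + 1 ≤ 2 * C * La := by
        linarith [one_le_mul_of_one_le_of_one_le hC hLa1]
      have h3 := mul_le_mul_of_nonneg_right h2 (show 0 ≤ C * Θ by positivity)
      rw [hLaR] at h3 ⊢
      linarith
    have h2 := mul_le_mul_of_nonneg_left c7 (show 0 ≤ 2 * C ^ 2 * B by positivity)
    have h3 : 2 * C ^ 2 * B * (36 * L / K) ≤ G / 150 := by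
      rw [← mul_div_assoc, div_le_iff₀ hK0, hL]
      linarith [mul_le_mul_of_nonneg_left hK hG0.le]
    linarith
  have hL2 : 0 < L ^ 2 := by positivity
  have m1 : L ^ 2 * S ≤ 360 * C ^ 2 * L * W + 648 * C ^ 2 * G ^ 3 + 96 * L ^ 2 * La +
      L ^ 2 * (G / 5) := by
    have h1 := mul_le_mul_of_nonneg_left c5 (show 0 ≤ 20 * C ^ 2 * L by positivity)
    have h2 : 12 * L * La * (N * La) ≤ 12 * L * La * (8 * L) :=
      mul_le_mul_of_nonneg_left hNL (by positivity)
    have h3 := mul_le_mul_of_nonneg_left (add_le_add t4 t5) hL2.le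
    linarith
  have m2 : G * (360 * C ^ 2 * L * W) = L ^ 2 * (W / 10) := by
    rw [hL, hA]; ring
  have m3 : 648 * C ^ 2 * G ^ 3 ≤ L ^ 2 * (G / 10) := by
    have : 6480 * C ^ 2 ≤ A ^ 2 := by nlinarith
    rw [hL]
    linarith [mul_le_mul_of_nonneg_right this (show 0 ≤ G ^ 3 by positivity)]
  have m4 : L ^ 2 * (G * S) ≤ L ^ 2 * (W / 10 + G * (3 * G / 10 + 96 * La)) := by
    linarith [mul_le_mul_of_nonneg_left m1 hG0.le, mul_le_mul_of_nonneg_left m3 hG0.le]
  have m5 := le_of_mul_le_mul_left m4 hL2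
  have m6 : 2 * La * (L + G) + G * (96 * La) ≤ G * (G / 10) := by
    rw [hL]
    linarith [mul_le_mul_of_nonneg_left hLaG hG0.le]
  have m7 : 0 < G ^ 2 := by positivity
  linarith

lemma core (hS : Sys s n F C) (hC : 1 ≤ C) {A G : ℝ} (hA : A = 3600 * C ^ 2) {B K : ℕ}
    (hB : 3600 * A ≤ B) (hK : 10800 * C ^ 2 * B * A ≤ K)
    (hG : ∀ r, r + 1 < n → gp s F r ≤ G) {r₀ : ℕ} (hr₀ : r₀ + 1 < n) (hr₀G : gp s F r₀ = G)
    (hbig : 10 * (98 + 2 * A) * (B * 2 ^ K) + A + 1 < G)
    (hpad : ∀ r, r + 1 < n → 1 < gp s F r → ∀ a ∈ s,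
      3 * A * (A + 1) * gp s F r ≤ F a r ∧ F a r + 3 * A * (A + 1) * gp s F r < n) : False := by
  classical
  have hC2 : 1 ≤ C ^ 2 := one_le_pow₀ hC
  have hA1 : 3600 ≤ A := by linarith
  have hB1 : (1 : ℝ) ≤ B := by linarith
  have hK0 : (0 : ℝ) < K := lt_of_lt_of_le (by positivity) hK
  have hBK : (0 : ℝ) < B * 2 ^ K := by positivity
  have hG1 : A + 1 < G := by
    have : 0 ≤ 10 * (98 + 2 * A) * (B * 2 ^ K) := by positivity
    linarith
  have hG0 : 0 < G := by linarith
  set L := A * G with hLdef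
  have hGL : G ≤ L := le_mul_of_one_le_left hG0.le (by linarith)
  have hL1 : 1 ≤ L := by linarith
  obtain ⟨u₀, hu₀⟩ := exists_best s n F L
  set Wd := win s (n - 1) F u₀ (u₀ + L) with hWd
  set W := ∑ r ∈ Wd, gp s F r ^ 2 with hW
  have hWG : G ^ 2 ≤ W := by
    refine le_trans ?_ (hu₀ (mn s F r₀))
    rw [← hr₀G]
    exact Finset.single_le_sum (f := fun r => gp s F r ^ 2) (fun _ _ => sq_nonneg _)
      (mem_win.2 ⟨by omega, le_rfl, by linarith⟩)
  have hWd1 : ∀ r ∈ Wd, r + 1 < n := fun r hr => by have := (mem_win.1 hr).1; omega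
  have hsumg : ∑ r ∈ Wd, gp s F r ≤ L + G := by
    have := sum_gp_win hS hC hG0.le hG (u := u₀) (v := u₀ + L) (by linarith)
    linarith
  have hne : Wd.Nonempty := by
    rw [Finset.nonempty_iff_ne_empty]
    intro h
    rw [hW, h, Finset.sum_empty] at hWG
    exact absurd hWG (not_le.2 (by positivity))
  obtain ⟨y, hy, hymax⟩ := Finset.exists_max_image Wd (gp s F) hne
  have hy1 := hWd1 y hy
  have hgy : G ≤ (A + 1) * gp s F y := by
    have h1 : W ≤ gp s F y * ∑ r ∈ Wd, gp s F r := by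
      rw [hW, Finset.mul_sum]
      refine Finset.sum_le_sum fun r hr => ?_
      rw [sq]
      exact mul_le_mul_of_nonneg_right (hymax r hr) (gp_pos hS hC (hWd1 r hr)).le
    have h2 := mul_le_mul_of_nonneg_left hsumg (gp_pos hS hC hy1).le
    have h3 : G * G ≤ G * ((A + 1) * gp s F y) := by
      rw [hLdef] at h2
      linarith
    exact le_of_mul_le_mul_left h3 hG0
  have hgy1 : 1 < gp s F y := by
    by_contra hc
    push Not at hc
    linarith [mul_le_mul_of_nonneg_left hc (show 0 ≤ A + 1 by linarith)]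
  have h3L : 3 * L ≤ 3 * A * (A + 1) * gp s F y := by
    rw [hLdef]
    linarith [mul_le_mul_of_nonneg_left hgy (show 0 ≤ A by linarith)]
  -- choice of the scale
  set Wf := win s (n - 1) F (mn s F y - 4 * L) (mn s F y + 4 * L) with hWf
  obtain ⟨k, hk, hkθ⟩ : ∃ k ∈ Finset.range K,
      ∑ r ∈ Wf, min ((2 : ℝ) ^ k) (gp s F r ^ 2 / 2 ^ k) ≤ 36 * L / K := by
    apply Finset.exists_le_of_sum_le ⟨0, Finset.mem_range.2 (by exact_mod_cast hK0)⟩
    rw [Finset.sum_comm, Finset.sum_const, Finset.card_range, nsmul_eq_mul,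
      mul_div_cancel₀ _ hK0.ne']
    have h1 := sum_gp_win hS hC hG0.le hG (u := mn s F y - 4 * L) (v := mn s F y + 4 * L)
      (by linarith)
    have h2 : ∑ r ∈ Wf, ∑ k ∈ Finset.range K, min ((2 : ℝ) ^ k) (gp s F r ^ 2 / 2 ^ k) ≤
        ∑ r ∈ Wf, 4 * gp s F r := Finset.sum_le_sum fun r hr =>
      dyadic _ (gp_pos hS hC (by have := (mem_win.1 hr).1; omega)).le K
    rw [← Finset.mul_sum] at h2
    linarith
  set la : ℝ := 2 ^ k with hla
  have hla1 : 1 ≤ la := one_le_pow₀ (by norm_num)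
  have hlaK : la ≤ 2 ^ K := pow_le_pow_right₀ (by norm_num) (Finset.mem_range.1 hk).le
  set La : ℕ := B * 2 ^ k with hLa
  have hLaR : (La : ℝ) = B * la := by rw [hLa]; push_cast; rfl
  have hLa1 : (1 : ℝ) ≤ La := by rw [hLaR]; exact one_le_mul_of_one_le_of_one_le hB1 hla1
  have hLa0 : 0 < La := by exact_mod_cast (show (0 : ℝ) < La by linarith)
  have hLaG : 10 * (98 + 2 * A) * La ≤ G := by
    have : (La : ℝ) ≤ B * 2 ^ K := by
      rw [hLaR]
      exact mul_le_mul_of_nonneg_left hlaK (by linarith)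
    linarith [mul_le_mul_of_nonneg_left this (show 0 ≤ 10 * (98 + 2 * A) by linarith)]
  have hLaL : (La : ℝ) ≤ L := by
    have : 0 ≤ A * La := by positivity
    linarith
  set Q : ℕ := ⌈3 * L / La⌉₊ with hQ
  have hQ1 : 3 * L ≤ Q * La := by
    have := Nat.le_ceil (3 * L / La)
    rwa [div_le_iff₀ (by linarith)] at this
  have hQ2 : (Q : ℝ) * La ≤ 4 * L := by
    have := Nat.ceil_lt_add_one (show 0 ≤ 3 * L / La by positivity)
    rw [← hQ, ← sub_lt_iff_lt_add, lt_div_iff₀ (by linarith)] at this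
    linarith
  have hNL : ((2 * Q : ℕ) : ℝ) * La = 2 * (Q * La) := by push_cast; ring
  have c1 := cells hS hC (L := L) (la := la) (by linarith) (La := La) (N := 2 * Q) hLaL
    (mn s F y) (-(Q * La)) (by linarith) (by linarith)
  have hyw := mem_win.1 hy
  have c2 := deficiency hS hC (L := L) (by linarith) (La := La) (N := 2 * Q) hLa0
    (mn s F y) (-(Q * La)) (by linarith) (by linarith) Wd (fun r hr => by
      have h1 := mem_win.1 hr
      have h2 := hG r (hWd1 r hr)
      rw [gp] at h2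
      exact ⟨hWd1 r hr, by linarith [h1.2.1, hyw.2.2], by linarith [h1.2.2, hyw.2.1]⟩)
  have c3 := upper hS hC hL1 hG0.le hG (y := y) (by omega)
  have c4 : ∑ c ∈ Finset.range (2 * Q), ∑ i ∈ Finset.range La, ph L (-(Q * La) + c * La + i) ≤
      Ex s (fun a => ∑ j ∈ Finset.range n, ph L ((F a j : ℝ) - F a y)) := by
    rw [← Ex_const hS.ne (∑ c ∈ Finset.range (2 * Q), _)]
    refine Ex_mono fun a ha => ?_
    obtain ⟨h1, h2⟩ := hpad y hy1 hgy1 a ha
    have := cover hS ha (L := L) (y := y) (by linarith) (by linarith)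
      (Finset.range (2 * Q) ×ˢ Finset.range La) (fun p => -(Q * La) + p.1 * La + p.2) (by
        rintro ⟨c, i⟩ h1 ⟨c', i'⟩ h2 h3
        simp only [Finset.coe_product, Set.mem_prod, Finset.mem_coe, Finset.mem_range] at h1 h2
        have h4 : c * La + i = c' * La + i' := by
          simp only at h3
          have : ((c * La + i : ℕ) : ℤ) = (c' * La + i' : ℕ) := by push_cast; linarith
          exact_mod_cast this
        have h5 : c = c' := by
          have e1 := congrArg (· / La) h4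
          simp only [mul_comm _ La] at e1
          rwa [Nat.mul_add_div hLa0, Nat.mul_add_div hLa0, Nat.div_eq_of_lt h1.2,
            Nat.div_eq_of_lt h2.2, add_zero, add_zero] at e1
        subst h5
        simpa using h4)
    rw [Finset.sum_product] at this
    simpa using this
  have c5 : ∑ r ∈ win s (n - 1) F (mn s F y - 9 * L) (mn s F y + 9 * L), gp s F r ^ 2 ≤
      18 * W := by
    have h1 := sum_win_cells (s := s) (F := F) (fun r => gp s F r ^ 2) (n - 1)
      (mn s F y - 9 * L) (l := L) (by linarith) 18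
    have e : mn s F y - 9 * L + (18 : ℕ) * L = mn s F y + 9 * L := by push_cast; ring
    rw [e] at h1
    rw [h1]
    refine (Finset.sum_le_card_nsmul _ _ W fun c _ => hu₀ _).trans (le_of_eq ?_)
    simp
  have c6 : W - 2 * La * (L + G) ≤ G * ∑ r ∈ Wd, max (gp s F r - 2 * La) 0 := by
    have h1 : ∑ r ∈ Wd, (gp s F r ^ 2 - 2 * La * gp s F r) ≤
        ∑ r ∈ Wd, G * max (gp s F r - 2 * La) 0 := by
      refine Finset.sum_le_sum fun r hr => ?_
      have h2 := gp_pos hS hC (hWd1 r hr)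
      have h3 := hG r (hWd1 r hr)
      linarith [mul_le_mul_of_nonneg_left (le_max_left (gp s F r - 2 * La) 0) h2.le,
        mul_le_mul_of_nonneg_right h3 (le_max_right (gp s F r - 2 * La) 0)]
    rw [Finset.sum_sub_distrib, ← Finset.mul_sum, ← Finset.mul_sum] at h1
    linarith [mul_le_mul_of_nonneg_left hsumg (show (0 : ℝ) ≤ 2 * La by linarith)]
  set Θ := ∑ r ∈ win s (n - 1) F (mn s F y + -(Q * La))
    (mn s F y + -(Q * La) + (2 * Q : ℕ) * La), min 1 (gp s F r ^ 2 / la ^ 2) with hΘ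
  have c7 : la * Θ ≤ 36 * L / K := by
    refine le_trans ?_ hkθ
    rw [hΘ, Finset.mul_sum]
    refine le_trans (le_of_eq ?_) (Finset.sum_le_sum_of_subset_of_nonneg
      (s := win s (n - 1) F (mn s F y + -(Q * La)) (mn s F y + -(Q * La) + (2 * Q : ℕ) * La))
      (fun r hr => ?_) fun _ _ _ => le_min (by linarith) (by positivity))
    · refine Finset.sum_congr rfl fun r _ => ?_
      rw [mul_min_of_nonneg _ _ (by linarith), mul_one]
      congr 1
      field_simp
    · have h1 := mem_win.1 hr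
      exact mem_win.2 ⟨h1.1, by linarith [h1.2.1], by linarith [h1.2.2]⟩
  have hΘ0 : 0 ≤ Θ := Finset.sum_nonneg fun r _ => le_min zero_le_one (by positivity)
  exact final hC hA hB hK hG0 hLdef hla1 hLaR hLaG (Nat.cast_nonneg _) (by linarith) hWG hΘ0
    c1 c2 c3 c4 c5 c6 c7

end GAP

theorem gap : GAPStmt := by
  classical
  intro C hC
  obtain ⟨B, hB⟩ := exists_nat_ge (3600 * (3600 * C ^ 2))
  obtain ⟨K, hK⟩ := exists_nat_ge (10800 * C ^ 2 * B * (3600 * C ^ 2))
  refine ⟨3 * (3600 * C ^ 2) * (3600 * C ^ 2 + 1),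
    10 * (98 + 2 * (3600 * C ^ 2)) * (B * 2 ^ K) + 3600 * C ^ 2 + 1, by positivity, ?_⟩
  intro α s n F hS hpad r hr
  obtain ⟨r₀, hr₀, hmax⟩ := Finset.exists_max_image (Finset.range (n - 1)) (gp s F)
    ⟨r, Finset.mem_range.2 (by omega)⟩
  have hG : ∀ r, r + 1 < n → gp s F r ≤ gp s F r₀ := fun r hr =>
    hmax r (Finset.mem_range.2 (by omega))
  refine (hG r hr).trans (not_lt.1 fun hbig => ?_)
  exact GAP.core hS hC rfl hB hK hG (by have := Finset.mem_range.1 hr₀; omega) rfl hbig hpad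

end Pool.Agent.Lib.MP_bd7e44_co.LR
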