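import Pool.Agent.Lib.MP_bd7e44_co.H96Fin

/-!
Auxiliary estimates for the bound on the gaps between consecutive means.
-/

namespace Pool.Agent.Lib.MP_bd7e44_co.LR.GAP

open FIN

lemma sum_le_of_injOn {ι κ : Type*} [DecidableEq κ] {A : Finset ι} {B : Finset κ} (p : ι → κ)
    (h : κ → ℝ) (hinj : Set.InjOn p A) (hm : ∀ i ∈ A, p i ∈ B) (h0 : ∀ k ∈ B, 0 ≤ h k) :
    ∑ i ∈ A, h (p i) ≤ ∑ k ∈ B, h k := by
  rw [← Finset.sum_image hinj]
  apply Finset.sum_le_sum_of_subset_of_nonneg
  · intro k hk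
    obtain ⟨i, hi, rfl⟩ := Finset.mem_image.1 hk
    exact hm i hi
  · exact fun k hk _ => h0 k hk

lemma tele (C a : ℝ) (hC : 0 < C) (ha : 0 < a) (N : ℕ) :
    ∑ d ∈ Finset.range N, 1 / (((d : ℝ) + 1) / C + a) ^ 2 ≤ C / a - C / (N / C + a) := by
  induction N with
  | zero => simp
  | succ N ih =>
    rw [Finset.sum_range_succ]
    have h1 : 0 < (N : ℝ) / C + a := by positivity
    have h2 : 0 < ((N : ℝ) + 1) / C + a := by positivity
    have h3 : 1 / (((N : ℝ) + 1) / C + a) ^ 2 ≤
        C / (N / C + a) - C / (((N : ℝ) + 1) / C + a) := by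
      have e : C / (N / C + a) - C / (((N : ℝ) + 1) / C + a) =
          1 / ((N / C + a) * (((N : ℝ) + 1) / C + a)) := by
        field_simp
        ring
      rw [e, sq]
      apply one_div_le_one_div_of_le (by positivity)
      apply mul_le_mul_of_nonneg_right _ h2.le
      have : (N : ℝ) / C ≤ ((N : ℝ) + 1) / C := div_le_div_of_nonneg_right (by linarith) hC.le
      linarith
    push_cast
    linarith

lemma tele' (C a : ℝ) (hC : 0 < C) (ha : 0 < a) (n y : ℕ) :
    ∑ j ∈ (Finset.range n).erase y, 1 / (|(j : ℝ) - y| / C + a) ^ 2 ≤ 2 * C / a := by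
  classical
  have h0 : ∀ N : ℕ, ∑ d ∈ Finset.range N, 1 / (((d : ℝ) + 1) / C + a) ^ 2 ≤ C / a := by
    intro N
    have := tele C a hC ha N
    have h1 : 0 ≤ C / (N / C + a) := by positivity
    linarith
  rw [← Finset.sum_filter_add_sum_filter_not _ (fun j => j < y)]
  have h1 : ∑ j ∈ ((Finset.range n).erase y).filter (fun j => j < y),
      1 / (|(j : ℝ) - y| / C + a) ^ 2 ≤ C / a := by
    refine le_trans (le_of_eq ?_) (le_trans (sum_le_of_injOn (B := Finset.range y)
      (A := ((Finset.range n).erase y).filter (fun j => j < y)) (fun j => y - 1 - j)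
      (fun d => 1 / (((d : ℝ) + 1) / C + a) ^ 2) ?_ ?_ (fun _ _ => by positivity)) (h0 y))
    · apply Finset.sum_congr rfl
      intro j hj
      have hj' : j < y := (Finset.mem_filter.1 hj).2
      have e : ((y - 1 - j : ℕ) : ℝ) + 1 = y - j := by
        have : (y - 1 - j : ℕ) + 1 + j = y := by omega
        have : ((y - 1 - j : ℕ) : ℝ) + 1 + j = y := by exact_mod_cast this
        linarith
      have hlt : (j : ℝ) < y := by exact_mod_cast hj'
      rw [e, abs_of_neg (by linarith), neg_sub]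
    · intro i hi j hj hij
      have h1 : i < y := (Finset.mem_filter.1 hi).2
      have h2 : j < y := (Finset.mem_filter.1 hj).2
      simp only at hij
      omega
    · intro i hi
      have h1 : i < y := (Finset.mem_filter.1 hi).2
      exact Finset.mem_range.2 (by omega)
  have h2 : ∑ j ∈ ((Finset.range n).erase y).filter (fun j => ¬ j < y),
      1 / (|(j : ℝ) - y| / C + a) ^ 2 ≤ C / a := by
    have hm : ∀ j ∈ ((Finset.range n).erase y).filter (fun j => ¬ j < y), y < j ∧ j < n := by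
      intro j hj
      simp only [Finset.mem_filter, Finset.mem_erase, Finset.mem_range] at hj
      omega
    refine le_trans (le_of_eq ?_) (le_trans (sum_le_of_injOn (B := Finset.range n)
      (A := ((Finset.range n).erase y).filter (fun j => ¬ j < y)) (fun j => j - y - 1)
      (fun d => 1 / (((d : ℝ) + 1) / C + a) ^ 2) ?_ ?_ (fun _ _ => by positivity)) (h0 n))
    · apply Finset.sum_congr rfl
      intro j hj
      have hj' := (hm j hj).1
      have e : ((j - y - 1 : ℕ) : ℝ) + 1 = j - y := by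
        have : (j - y - 1 : ℕ) + 1 + y = j := by omega
        have : ((j - y - 1 : ℕ) : ℝ) + 1 + y = j := by exact_mod_cast this
        linarith
      have hlt : (y : ℝ) < j := by exact_mod_cast hj'
      rw [e, abs_of_pos (by linarith)]
    · intro i hi j hj hij
      have h1 := hm i hi
      have h2 := hm j hj
      simp only at hij
      omega
    · intro i hi
      have h1 := hm i hi
      exact Finset.mem_range.2 (by omega)
  rw [mul_div_assoc]
  linarith

lemma dyadic (g : ℝ) (hg : 0 ≤ g) (K : ℕ) :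
    ∑ k ∈ Finset.range K, min ((2 : ℝ) ^ k) (g ^ 2 / 2 ^ k) ≤ 4 * g := by
  have key : ∀ K : ℕ, ∑ k ∈ Finset.range K, min ((2 : ℝ) ^ k) (g ^ 2 / 2 ^ k) ≤ 2 ^ K ∧
      (g ≤ 2 ^ K → ∑ k ∈ Finset.range K, min ((2 : ℝ) ^ k) (g ^ 2 / 2 ^ k) ≤
        4 * g - 2 * (g ^ 2 / 2 ^ K)) := by
    intro K
    induction K with
    | zero =>
      refine ⟨by simp, fun h => ?_⟩
      simp only [Finset.range_zero, Finset.sum_empty, pow_zero, div_one] at h ⊢
      nlinarith
    | succ K ih =>
      have hp : (0 : ℝ) < 2 ^ K := by positivity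
      have h1 : ∑ k ∈ Finset.range (K + 1), min ((2 : ℝ) ^ k) (g ^ 2 / 2 ^ k) ≤ 2 ^ (K + 1) := by
        rw [Finset.sum_range_succ, pow_succ (2 : ℝ) K]
        linarith [ih.1, min_le_left ((2 : ℝ) ^ K) (g ^ 2 / 2 ^ K)]
      refine ⟨h1, fun h => ?_⟩
      have e : g ^ 2 / 2 ^ (K + 1) = g ^ 2 / 2 ^ K / 2 := by rw [pow_succ (2 : ℝ) K, div_div]
      by_cases h2 : g ≤ 2 ^ K
      · rw [Finset.sum_range_succ, e]
        linarith [ih.2 h2, min_le_right ((2 : ℝ) ^ K) (g ^ 2 / 2 ^ K)]
      · push Not at h2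
        have h3 : g ^ 2 / 2 ^ (K + 1) ≤ g := by
          rw [div_le_iff₀ (by positivity)]
          nlinarith
        rw [pow_succ (2 : ℝ) K] at h1
        linarith
  by_cases h : g ≤ 2 ^ K
  · have := (key K).2 h
    have h1 : 0 ≤ g ^ 2 / 2 ^ K := by positivity
    linarith
  · push Not at h
    linarith [(key K).1]

/-- The test function. -/
noncomputable def ph (L t : ℝ) : ℝ := max (3 * L - |t|) 0 ^ 2

lemma ph_nonneg (L t : ℝ) : 0 ≤ ph L t := sq_nonneg _

lemma ph_le {L : ℝ} (hL : 0 ≤ L) (t : ℝ) : ph L t ≤ 9 * L ^ 2 := by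
  have h1 : max (3 * L - |t|) 0 ≤ 3 * L := max_le (by linarith [abs_nonneg t]) (by linarith)
  have h2 : 0 ≤ max (3 * L - |t|) 0 := le_max_right _ _
  unfold ph
  nlinarith

lemma ph_zero {L t : ℝ} (h : 3 * L ≤ |t|) : ph L t = 0 := by
  unfold ph
  rw [max_eq_right (by linarith)]
  simp

lemma ph_ge {L t : ℝ} (hL : 0 ≤ L) (h : |t| ≤ 2 * L) : L ^ 2 ≤ ph L t := by
  unfold ph
  rw [max_eq_left (by linarith)]
  nlinarith

lemma ph_lip {L : ℝ} (hL : 0 ≤ L) (t u : ℝ) : ph L t ≤ ph L u + 6 * L * |t - u| := by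
  have h1 : max (3 * L - |t|) 0 ≤ 3 * L := max_le (by linarith [abs_nonneg t]) (by linarith)
  have h2 : 0 ≤ max (3 * L - |t|) 0 := le_max_right _ _
  have h3 : max (3 * L - |u|) 0 ≤ 3 * L := max_le (by linarith [abs_nonneg u]) (by linarith)
  have h4 : 0 ≤ max (3 * L - |u|) 0 := le_max_right _ _
  have h5 : max (3 * L - |t|) 0 ≤ max (3 * L - |u|) 0 + |t - u| := by
    apply max_le
    · have := abs_sub_abs_le_abs_sub u t
      rw [abs_sub_comm u t] at this
      linarith [le_max_left (3 * L - |u|) 0]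
    · linarith [abs_nonneg (t - u)]
  unfold ph
  nlinarith [abs_nonneg (t - u)]

lemma sq_pos_part (x v : ℝ) : max (x - v) 0 ^ 2 ≤ max x 0 ^ 2 - 2 * max x 0 * v + v ^ 2 := by
  have h1 : max (x - v) 0 ≤ |max x 0 - v| :=
    max_le (by linarith [le_abs_self (max x 0 - v), le_max_left x 0]) (abs_nonneg _)
  have h2 : 0 ≤ max (x - v) 0 := le_max_right _ _
  have h3 := pow_le_pow_left₀ h2 h1 2
  rw [sq_abs] at h3
  linarith

lemma ph_taylor (L a : ℝ) : ∃ κ : ℝ, ∀ u, ph L (a + u) ≤ ph L a + κ * u + u ^ 2 := by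
  rcases le_total 0 a with ha | ha
  · refine ⟨-2 * max (3 * L - a) 0, fun u => ?_⟩
    have h1 := sq_pos_part (3 * L - a) u
    have h2 : max (3 * L - |a + u|) 0 ≤ max (3 * L - a - u) 0 :=
      max_le_max (by linarith [le_abs_self (a + u)]) le_rfl
    have h3 := pow_le_pow_left₀ (le_max_right _ _) h2 2
    unfold ph
    rw [abs_of_nonneg ha]
    linarith
  · refine ⟨2 * max (3 * L + a) 0, fun u => ?_⟩
    have h1 := sq_pos_part (3 * L + a) (-u)
    have h2 : max (3 * L - |a + u|) 0 ≤ max (3 * L + a - -u) 0 :=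
      max_le_max (by linarith [neg_abs_le (a + u)]) le_rfl
    have h3 := pow_le_pow_left₀ (le_max_right _ _) h2 2
    unfold ph
    rw [abs_of_nonpos ha, sub_neg_eq_add]
    nlinarith

variable {α : Type} {s : Finset α} {n : ℕ} {F : α → ℕ → ℕ} {C : ℝ}

lemma Ex_sum {ι : Type*} (A : Finset ι) (φ : ι → α → ℝ) :
    Ex s (fun a => ∑ i ∈ A, φ i a) = ∑ i ∈ A, Ex s (φ i) := by
  simp only [Ex]
  rw [Finset.sum_comm, Finset.sum_div]

open Classical in
lemma Ex_ind (p : α → Prop) (c : ℝ) : Ex s (fun a => if p a then c else 0) = c * Pr s p := by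
  simp only [Ex, Pr]
  rw [← Finset.sum_filter, Finset.sum_const, nsmul_eq_mul]
  ring

lemma gp_pos (hS : Sys s n F C) (hC : 1 ≤ C) {r : ℕ} (h : r + 1 < n) : 0 < gp s F r := by
  have := hS.gap r h
  by_contra hc
  push Not at hc
  nlinarith

lemma mn_sub (i j : ℕ) (hij : i ≤ j) :
    mn s F j - mn s F i = ∑ r ∈ Finset.Ico i j, gp s F r := by
  induction j, hij using Nat.le_induction with
  | base => simp
  | succ j hij ih =>
    rw [Finset.sum_Ico_succ_top hij, ← ih, gp]
    ring

lemma idx_le (hS : Sys s n F C) {i j : ℕ} (hij : i ≤ j) (hj : j < n) :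
    (j : ℝ) - i ≤ C * (mn s F j - mn s F i) := by
  rw [mn_sub i j hij, Finset.mul_sum]
  have : ∑ _r ∈ Finset.Ico i j, (1 : ℝ) = j - i := by
    rw [Finset.sum_const, Nat.card_Ico, nsmul_eq_mul, mul_one, Nat.cast_sub hij]
  rw [← this]
  exact Finset.sum_le_sum fun r hr => hS.gap r (by have := Finset.mem_Ico.1 hr; omega)

lemma mn_mono (hS : Sys s n F C) (hC : 1 ≤ C) {i j : ℕ} (hij : i ≤ j) (hj : j < n) :
    mn s F i ≤ mn s F j := by
  have h1 := idx_le hS hij hj
  have h2 : (i : ℝ) ≤ j := by exact_mod_cast hij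
  by_contra hc
  push Not at hc
  nlinarith

lemma mn_lt (hS : Sys s n F C) (hC : 1 ≤ C) {i j : ℕ} (hij : i < j) (hj : j < n) :
    mn s F i < mn s F j := by
  have h1 := idx_le hS hij.le hj
  have h2 : (i : ℝ) < j := by exact_mod_cast hij
  by_contra hc
  push Not at hc
  nlinarith

/-- The indices whose mean lies in `[u, v)`. -/
noncomputable def win (s : Finset α) (n : ℕ) (F : α → ℕ → ℕ) (u v : ℝ) : Finset ℕ :=
  (Finset.range n).filter fun j => u ≤ mn s F j ∧ mn s F j < v

lemma mem_win {u v : ℝ} {j : ℕ} : j ∈ win s n F u v ↔ j < n ∧ u ≤ mn s F j ∧ mn s F j < v := by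
  simp [win]

lemma sum_gp_win (hS : Sys s n F C) (hC : 1 ≤ C) {G : ℝ} (hG0 : 0 ≤ G)
    (hG : ∀ r, r + 1 < n → gp s F r ≤ G) {u v : ℝ} (huv : u ≤ v) :
    ∑ r ∈ win s (n - 1) F u v, gp s F r ≤ v - u + G := by
  let c : ℝ → ℝ := fun x => max u (min x (v + G))
  have hc : Monotone c := fun x y hxy => max_le_max le_rfl (min_le_min hxy le_rfl)
  have h1 : ∑ r ∈ win s (n - 1) F u v, gp s F r ≤
      ∑ r ∈ Finset.range (n - 1), (c (mn s F (r + 1)) - c (mn s F r)) := by
    rw [win, Finset.sum_filter]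
    apply Finset.sum_le_sum
    intro r hr
    have hr' : r + 1 < n := by have := Finset.mem_range.1 hr; omega
    have h2 := gp_pos hS hC hr'
    have h3 := hG r hr'
    rw [gp] at h2 h3
    split_ifs with h
    · simp only [c, gp]
      rw [min_eq_left (by linarith [h.2]), min_eq_left (by linarith [h.2]),
        max_eq_right (by linarith [h.1]), max_eq_right h.1]
    · exact sub_nonneg.2 (hc (by linarith))
  rw [Finset.sum_range_sub (fun r => c (mn s F r))] at h1
  have h4 : c (mn s F (n - 1)) ≤ v + G := max_le (by linarith) (min_le_right _ _)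
  have h5 : u ≤ c (mn s F 0) := le_max_left _ _
  linarith

lemma card_win (hS : Sys s n F C) (hC : 1 ≤ C) {u v : ℝ} (huv : u ≤ v) :
    ((win s n F u v).card : ℝ) ≤ C * (v - u) + 1 := by
  rcases (win s n F u v).eq_empty_or_nonempty with h | h
  · rw [h]
    simp only [Finset.card_empty, Nat.cast_zero]
    nlinarith
  · have ha := mem_win.1 (Finset.min'_mem _ h)
    have hb := mem_win.1 (Finset.max'_mem _ h)
    have hab := Finset.min'_le_max' _ h
    have h1 : win s n F u v ⊆ Finset.Icc ((win s n F u v).min' h) ((win s n F u v).max' h) :=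
      fun j hj => Finset.mem_Icc.2 ⟨Finset.min'_le _ _ hj, Finset.le_max' _ _ hj⟩
    have h2 := Finset.card_le_card h1
    rw [Nat.card_Icc] at h2
    have h3 : ((win s n F u v).card : ℝ) + (win s n F u v).min' h ≤
        (win s n F u v).max' h + 1 := by exact_mod_cast (by omega)
    have h4 := idx_le hS hab hb.1
    nlinarith [ha.2.1, hb.2.2]

lemma card_int_window {A : Finset ℕ} (p : ℕ → ℕ) (hp : Set.InjOn p A) (x l : ℝ) (hl : 0 ≤ l)
    (h : ∀ j ∈ A, x ≤ p j ∧ (p j : ℝ) < x + l) : (A.card : ℝ) ≤ l + 1 := by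
  have h1 : A.card ≤ (Finset.Ico ⌈x⌉ ⌈x + l⌉).card := by
    apply Finset.card_le_card_of_injOn (fun j => (p j : ℤ))
    · intro j hj
      simp only [Finset.coe_Ico, Set.mem_Ico, Int.ceil_le, Int.lt_ceil, Int.cast_natCast]
      exact h j hj
    · intro i hi j hj hij
      exact hp hi hj (Int.natCast_inj.1 hij)
  rw [Int.card_Ico] at h1
  have h2 : (A.card : ℤ) ≤ max (⌈x + l⌉ - ⌈x⌉) 0 := by
    rw [← Int.toNat_eq_max]
    exact_mod_cast h1
  have h3 : (A.card : ℝ) ≤ max ((⌈x + l⌉ : ℝ) - ⌈x⌉) 0 := by exact_mod_cast h2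
  refine h3.trans (max_le ?_ (by linarith))
  linarith [Int.ceil_lt_add_one (x + l), Int.le_ceil x]

lemma cell (hS : Sys s n F C) (hC : 1 ≤ C) (u : ℝ) {La la : ℝ} (hLa : 0 ≤ La) (hla : 0 < la) :
    ((win s n F u (u + La)).card : ℝ) ≤ La + 2 * la + 1 + (C * La + 1) * C *
      ∑ r ∈ win s (n - 1) F u (u + La), min 1 (gp s F r ^ 2 / la ^ 2) := by
  classical
  have hcard := card_win hS hC (u := u) (v := u + La) (by linarith)
  rw [add_sub_cancel_left] at hcard
  have hmin0 : ∀ r ∈ win s (n - 1) F u (u + La), 0 ≤ min 1 (gp s F r ^ 2 / la ^ 2) :=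
    fun r _ => le_min zero_le_one (by positivity)
  have hsum0 := Finset.sum_nonneg hmin0
  have hCL : 0 ≤ C * La + 1 := by positivity
  by_cases hbig : ∃ r ∈ win s (n - 1) F u (u + La), 1 ≤ gp s F r ^ 2 / la ^ 2
  · obtain ⟨r, hr, h1⟩ := hbig
    have h2 := Finset.single_le_sum hmin0 hr
    rw [min_eq_left h1] at h2
    have h3 : 1 ≤ C * ∑ r ∈ win s (n - 1) F u (u + La), min 1 (gp s F r ^ 2 / la ^ 2) := by
      nlinarith
    nlinarith
  push Not at hbig
  rw [Finset.sum_congr rfl fun r hr => min_eq_right (hbig r hr).le, ← Finset.sum_div]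
  set Wc := ∑ r ∈ win s (n - 1) F u (u + La), gp s F r ^ 2 with hWc
  have hWc0 : 0 ≤ Wc := Finset.sum_nonneg fun _ _ => sq_nonneg _
  rcases (win s n F u (u + La)).eq_empty_or_nonempty with h | h
  · rw [h]
    simp only [Finset.card_empty, Nat.cast_zero]
    positivity
  set J := win s n F u (u + La) with hJ
  set i := J.min' h with hi
  have hi' := mem_win.1 (Finset.min'_mem _ h)
  rw [← hi] at hi'
  have hpt : ∀ a ∈ s, (J.card : ℝ) ≤ La + 2 * la + 1 +
      ∑ j ∈ J, ((F a j : ℝ) - F a i - (mn s F j - mn s F i)) ^ 2 / la ^ 2 := by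
    intro a ha
    let P : ℕ → Prop := fun j => |(F a j : ℝ) - F a i - (mn s F j - mn s F i)| ≤ la
    have h1 := Finset.card_filter_add_card_filter_not (s := J) P
    have h2 : ((J.filter P).card : ℝ) ≤ La + 2 * la + 1 := by
      apply card_int_window (F a) _ (F a i - la) _ (by linarith)
      · intro j hj
        obtain ⟨hj1, hj2⟩ := Finset.mem_filter.1 hj
        have hj3 := mem_win.1 hj1
        have hj4 := mn_mono hS hC (Finset.min'_le _ _ hj1) hj3.1
        rw [← hi] at hj4
        have := abs_le.1 hj2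
        constructor <;> linarith [this.1, this.2, hj3.2.2, hi'.2.1]
      · intro j hj k hk hjk
        exact (hS.bij a ha).injOn (mem_win.1 (Finset.mem_filter.1 hj).1).1
          (mem_win.1 (Finset.mem_filter.1 hk).1).1 hjk
    have h3 : ((J.filter fun j => ¬ P j).card : ℝ) ≤
        ∑ j ∈ J, ((F a j : ℝ) - F a i - (mn s F j - mn s F i)) ^ 2 / la ^ 2 := by
      rw [Finset.card_eq_sum_ones, Nat.cast_sum, Finset.sum_filter]
      apply Finset.sum_le_sum
      intro j _
      split_ifs with hP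
      · positivity
      · have h4 : la < |(F a j : ℝ) - F a i - (mn s F j - mn s F i)| := not_le.1 hP
        rw [Nat.cast_one, le_div_iff₀ (by positivity), one_mul, ← sq_abs (_ - _)]
        exact pow_le_pow_left₀ hla.le h4.le 2
    have h4 : (J.card : ℝ) = (J.filter P).card + (J.filter fun j => ¬ P j).card := by
      exact_mod_cast h1.symm
    linarith
  have h1 := Ex_mono hpt
  rw [Ex_const hS.ne, Ex_add, Ex_const hS.ne, Ex_sum] at h1
  have h2 : ∀ j ∈ J, Ex s (fun a => ((F a j : ℝ) - F a i - (mn s F j - mn s F i)) ^ 2 / la ^ 2) ≤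
      C * (Wc / la ^ 2) := by
    intro j hj
    have hj' := mem_win.1 hj
    simp only [div_eq_inv_mul]
    rw [Ex_mul, mul_left_comm]
    apply mul_le_mul_of_nonneg_left _ (by positivity)
    rcases (Finset.min'_le _ _ hj).eq_or_lt with h3 | h3
    · rw [← hi] at h3
      subst h3
      simp only [sub_self, ne_eq, OfNat.ofNat_ne_zero, not_false_eq_true, zero_pow]
      rw [Ex_const hS.ne]
      positivity
    · rw [← hi] at h3
      refine (hS.var i j h3 hj'.1).trans (mul_le_mul_of_nonneg_left ?_ (by linarith))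
      apply Finset.sum_le_sum_of_subset_of_nonneg _ fun _ _ _ => sq_nonneg _
      intro r hr
      have hr' := Finset.mem_Ico.1 hr
      refine mem_win.2 ⟨by omega, ?_, ?_⟩
      · exact hi'.2.1.trans (mn_mono hS hC hr'.1 (by omega))
      · exact (mn_lt hS hC hr'.2 hj'.1).trans hj'.2.2
  have h3 := Finset.sum_le_card_nsmul _ _ _ h2
  rw [nsmul_eq_mul] at h3
  have h4 : (J.card : ℝ) * (C * (Wc / la ^ 2)) ≤ (C * La + 1) * (C * (Wc / la ^ 2)) :=
    mul_le_mul_of_nonneg_right hcard (by positivity)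
  rw [mul_assoc]
  linarith

end Pool.Agent.Lib.MP_bd7e44_co.LR.GAP
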