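import Pool.Agent.Lib.MP_bd7e44_co.H96Defs

/-! One-dimensional estimates for midpoint log-concave distribution functions. -/

namespace Pool.Agent.Lib.MP_bd7e44_co.LR

open MeasureTheory ProbabilityTheory Set Filter Topology

namespace LC

theorem geo {p : ℕ → ℝ} {ρ : ℝ} (hρ : 0 ≤ ρ) (h0 : ∀ k, 0 ≤ p k)
    (hc : ∀ k, p k * p (k + 2) ≤ p (k + 1) ^ 2) (hz : ∀ k, p k = 0 → p (k + 2) = 0)
    (h1 : p 1 ≤ ρ * p 0) (k : ℕ) : p k ≤ ρ ^ k * p 0 := by
  have step : ∀ k, p (k + 1) ≤ ρ * p k := by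
    intro k
    induction k with
    | zero => exact h1
    | succ k ih =>
      rcases (h0 k).eq_or_lt with h | h
      · rw [hz k h.symm]
        exact mul_nonneg hρ (h0 _)
      · refine le_of_mul_le_mul_left ((hc k).trans ?_) h
        have := mul_le_mul_of_nonneg_left ih (h0 (k + 1))
        nlinarith
  induction k with
  | zero => simp
  | succ k ih =>
    refine (step k).trans ?_
    rw [pow_succ', mul_assoc]
    exact mul_le_mul_of_nonneg_left ih hρ

variable {G : ℝ → ℝ}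

theorem decay (h0 : ∀ x, 0 ≤ G x) (hm : Monotone G)
    (hc : ∀ a b, G a * G b ≤ G ((a + b) / 2) ^ 2) {x a L : ℝ} (ha : 0 < a) (hL : 0 ≤ L)
    (h : G (x - a) ≤ Real.exp (-L) * G x) {s : ℝ} (hs : 0 ≤ s) :
    G (x - s) ≤ G x * Real.exp (L - L * (s / a)) := by
  have key := geo (p := fun k : ℕ => G (x - k * a)) (Real.exp_pos (-L)).le (fun k => h0 _)
    (fun k => by
      have e : (x - k * a + (x - ((k + 2 : ℕ) : ℝ) * a)) / 2 = x - ((k + 1 : ℕ) : ℝ) * a := by
        push_cast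
        ring
      rw [← e]
      exact hc _ _)
    (fun k hk => le_antisymm (hk ▸ hm (by push_cast; nlinarith)) (h0 _))
    (by simpa using h) ⌊s / a⌋₊
  have h1 : (⌊s / a⌋₊ : ℝ) ≤ s / a := Nat.floor_le (div_nonneg hs ha.le)
  have h2 : s / a < ⌊s / a⌋₊ + 1 := Nat.lt_floor_add_one _
  rw [le_div_iff₀ ha] at h1
  refine (hm (by linarith)).trans (key.trans ?_)
  rw [Nat.cast_zero, zero_mul, sub_zero, mul_comm, ← Real.exp_nat_mul]
  refine mul_le_mul_of_nonneg_left (Real.exp_le_exp.2 ?_) (h0 _)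
  nlinarith

theorem growth (hm : Monotone G)
    (hc : ∀ a b, G a * G b ≤ G ((a + b) / 2) ^ 2) {x a L : ℝ} (hx : 0 < G x) (ha : 0 < a)
    (hL : 0 ≤ L) (h : G (x + a) ≤ Real.exp L * G x) {s : ℝ} (hs : 0 ≤ s) :
    G (x + s) ≤ G x * Real.exp (L + L * (s / a)) := by
  have hp : ∀ k : ℕ, 0 < G (x + k * a) := fun k => hx.trans_le (hm (by
    have : 0 ≤ (k : ℝ) * a := by positivity
    linarith))
  have key := geo (p := fun k : ℕ => G (x + k * a)) (Real.exp_pos L).le (fun k => (hp k).le)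
    (fun k => by
      have e : (x + k * a + (x + ((k + 2 : ℕ) : ℝ) * a)) / 2 = x + ((k + 1 : ℕ) : ℝ) * a := by
        push_cast
        ring
      rw [← e]
      exact hc _ _)
    (fun k hk => absurd hk (hp k).ne') (by simpa using h) ⌈s / a⌉₊
  have h1 : s / a ≤ (⌈s / a⌉₊ : ℝ) := Nat.le_ceil _
  have h2 : (⌈s / a⌉₊ : ℝ) < s / a + 1 := Nat.ceil_lt_add_one (div_nonneg hs ha.le)
  rw [div_le_iff₀ ha] at h1
  refine (hm (by linarith)).trans (key.trans ?_)
  rw [Nat.cast_zero, zero_mul, add_zero, mul_comm, ← Real.exp_nat_mul]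
  refine mul_le_mul_of_nonneg_left (Real.exp_le_exp.2 ?_) hx.le
  nlinarith

theorem half {x a : ℝ} (h0 : ∀ x, 0 ≤ G x) (h1 : ∀ x, G x ≤ 1) (hm : Monotone G)
    (hc : ∀ a b, G a * G b ≤ G ((a + b) / 2) ^ 2) (ha : 0 < a) (h : G (x - a) ≤ 1 / 4)
    (h' : 1 / 2 ≤ G x) {s : ℝ} (hs : 0 ≤ s) :
    G (x - s) ≤ 2 * Real.exp (-((2 * a)⁻¹ * s)) := by
  have hl : 1 / 2 ≤ Real.log 2 := by
    have := Real.log_two_gt_d9
    linarith
  have key := decay h0 hm hc ha (L := Real.log 2) (x := x) (by linarith) (by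
    rw [Real.exp_neg, Real.exp_log two_pos]
    linarith) hs
  refine key.trans ?_
  rw [sub_eq_add_neg, Real.exp_add, Real.exp_log two_pos]
  have h2 : Real.exp (-(Real.log 2 * (s / a))) ≤ Real.exp (-((2 * a)⁻¹ * s)) := by
    refine Real.exp_le_exp.2 (neg_le_neg ?_)
    have e : (2 * a)⁻¹ * s = 1 / 2 * (s / a) := by field_simp
    rw [e]
    exact mul_le_mul_of_nonneg_right hl (div_nonneg hs ha.le)
  have h3 := Real.exp_pos (-(Real.log 2 * (s / a)))
  nlinarith [h1 x, h0 x]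

theorem exp_bound (h0 : ∀ x, 0 ≤ G x) (h1 : ∀ x, G x ≤ 1) (hm : Monotone G)
    (hc : ∀ a b, G a * G b ≤ G ((a + b) / 2) ^ 2) (hr : ContinuousWithinAt G (Ici 0) 0)
    (ht : Tendsto G atTop (𝓝 1)) {d : ℝ} (hd : G 0 < d) (hd1 : d < 1) :
    ∃ l : ℝ, 0 < l ∧ ∀ x, G x ≤ d * Real.exp (l * x) := by
  have hd0 : 0 < d := (h0 0).trans_lt hd
  obtain ⟨h, hG, hh⟩ : ∃ h, G h < d ∧ 0 < h :=
    (((hr.mono Ioi_subset_Ici_self).tendsto.eventually (gt_mem_nhds hd)).and
      self_mem_nhdsWithin).exists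
  rcases (h0 0).eq_or_lt with hz | hz
  · have hl : 0 < -Real.log d := neg_pos.2 (Real.log_neg hd0 hd1)
    refine ⟨-Real.log d / h, div_pos hl hh, fun x => ?_⟩
    rcases le_total x 0 with hx | hx
    · exact (hm hx).trans (hz ▸ by positivity)
    rcases le_total x h with hx' | hx'
    · refine (hm hx').trans (hG.le.trans (le_mul_of_one_le_right hd0.le ?_))
      exact Real.one_le_exp (by positivity)
    · refine (h1 x).trans ?_
      have e : d * Real.exp (-Real.log d) = 1 := by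
        rw [Real.exp_neg, Real.exp_log hd0, mul_inv_cancel₀ hd0.ne']
      rw [← e]
      refine mul_le_mul_of_nonneg_left (Real.exp_le_exp.2 ?_) hd0.le
      rw [div_mul_eq_mul_div, le_div_iff₀ hh]
      exact mul_le_mul_of_nonneg_left hx' hl.le
  · have hh0 : G 0 ≤ G h := hm hh.le
    set L := Real.log (G h / G 0) with hL
    have hL0 : 0 ≤ L := Real.log_nonneg ((one_le_div hz).2 hh0)
    have eL : Real.exp L * G 0 = G h := by
      rw [hL, Real.exp_log (div_pos (hz.trans_le hh0) hz), div_mul_cancel₀ _ hz.ne']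
    have key : ∀ x, G x ≤ d * Real.exp (L / h * x) := by
      intro x
      refine le_trans ?_ (mul_le_mul_of_nonneg_right hG.le (Real.exp_pos _).le)
      rcases le_total x 0 with hx | hx
      · have := decay h0 hm hc hh hL0 (x := h) (by
          rw [sub_self, ← eL, ← mul_assoc, ← Real.exp_add, neg_add_cancel, Real.exp_zero,
            one_mul]) (s := h - x) (by linarith)
        rwa [sub_sub_cancel, show L - L * ((h - x) / h) = L / h * x by field_simp; ring] at this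
      · have := growth hm hc hz hh hL0 (by rw [zero_add, eL]) hx
        rwa [zero_add, Real.exp_add, ← mul_assoc, mul_comm (G 0), eL,
          show L * (x / h) = L / h * x by ring] at this
    refine ⟨L / h, div_pos (hL0.lt_of_ne fun e => ?_) hh, key⟩
    have : (1 : ℝ) ≤ d := le_of_tendsto' ht fun x => by simpa [← e] using key x
    linarith

variable {Ω : Type} [MeasurableSpace Ω] {m : Measure Ω} [IsProbabilityMeasure m]

theorem layer {f : Ω → ℝ} (hf : Integrable f m) (h0 : ∀ ω, 0 ≤ f ω) {A l p : ℝ} (hl : 0 < l)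
    (hp : 0 < p) (h : ∀ t, 0 < t → m.real {ω | t ≤ f ω} ≤ A * Real.exp (-l * t ^ p)) :
    ∫ ω, f ω ∂m ≤ A * (l ^ (-1 / p) * Real.Gamma (1 / p + 1)) := by
  have e := integral_exp_neg_mul_rpow hp hl
  have hi : Integrable (fun t : ℝ => Real.exp (-l * t ^ p)) (volume.restrict (Ioi 0)) := by
    by_contra hn
    rw [integral_undef hn] at e
    have : 0 < l ^ (-1 / p) * Real.Gamma (1 / p + 1) :=
      mul_pos (Real.rpow_pos_of_pos hl _) (Real.Gamma_pos_of_pos (by positivity))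
    linarith
  rw [hf.integral_eq_integral_meas_le (Eventually.of_forall h0), ← e, ← integral_const_mul]
  refine integral_mono_of_nonneg (Eventually.of_forall fun t => measureReal_nonneg)
    (hi.const_mul A) ?_
  filter_upwards [ae_restrict_mem measurableSet_Ioi] with t ht using h t ht

theorem mom1 {f : Ω → ℝ} (hf : MemLp f 2 m) (h0 : ∀ ω, 0 ≤ f ω) {A l : ℝ} (hl : 0 < l)
    (h : ∀ t, 0 < t → m.real {ω | t ≤ f ω} ≤ A * Real.exp (-(l * t))) :
    ∫ ω, f ω ∂m ≤ A * l⁻¹ := by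
  have := layer (hf.integrable one_le_two) h0 hl one_pos (A := A) fun t ht => by
    rw [Real.rpow_one, neg_mul]
    exact h t ht
  rwa [div_one, div_one, Real.rpow_neg_one, one_add_one_eq_two, Real.Gamma_two, mul_one] at this

theorem mom2 {f : Ω → ℝ} (hf : MemLp f 2 m) (h0 : ∀ ω, 0 ≤ f ω) {A l : ℝ} (hl : 0 < l)
    (h : ∀ t, 0 < t → m.real {ω | t ≤ f ω} ≤ A * Real.exp (-(l * t))) :
    ∫ ω, f ω ^ 2 ∂m ≤ 2 * A * l⁻¹ ^ 2 := by
  have := layer hf.integrable_sq (fun ω => sq_nonneg _) hl one_half_pos (A := A) fun t ht => by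
    have e : {ω | t ≤ f ω ^ 2} = {ω | √t ≤ f ω} := by
      ext ω
      exact (Real.sqrt_le_left (h0 ω)).symm
    rw [← Real.sqrt_eq_rpow, neg_mul, e]
    exact h _ (Real.sqrt_pos.2 ht)
  have e1 : l ^ (-1 / (1 / 2) : ℝ) = l⁻¹ ^ 2 := by
    rw [show (-1 / (1 / 2) : ℝ) = -((2 : ℕ) : ℝ) by norm_num, Real.rpow_neg hl.le,
      Real.rpow_natCast, inv_pow]
  have e2 : Real.Gamma (1 / (1 / 2) + 1) = 2 := by
    rw [show (1 / (1 / 2) + 1 : ℝ) = (2 : ℕ) + 1 by norm_num, Real.Gamma_nat_eq_factorial]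
    norm_num [Nat.factorial]
  rw [e1, e2] at this
  linarith

theorem mono_cdf (ξ : Ω → ℝ) : Monotone fun a : ℝ => m.real {ω | ξ ω ≤ a} :=
  fun _ _ hab => measureReal_mono fun _ h => le_trans h hab

theorem eq_cdf {ξ : Ω → ℝ} (hξ : Measurable ξ) :
    (fun a : ℝ => m.real {ω | ξ ω ≤ a}) = cdf (m.map ξ) := by
  have : IsProbabilityMeasure (m.map ξ) := Measure.isProbabilityMeasure_map hξ.aemeasurable
  funext a
  rw [cdf_eq_real, map_measureReal_apply hξ measurableSet_Iic]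
  rfl

theorem cheb {ξ : Ω → ℝ} (h2 : MemLp ξ 2 m) {c : ℝ} (hc : 0 < c) :
    m.real {ω | c ≤ |ξ ω - ∫ ω, ξ ω ∂m|} ≤ Var[ξ; m] / c ^ 2 :=
  ENNReal.toReal_le_of_le_ofReal (div_nonneg (variance_nonneg _ _) (sq_nonneg _))
    (meas_ge_le_variance_div_sq h2 hc)

end LC

open LC

theorem lc1 : LC1Stmt := by
  intro δ hδ
  set d := (δ + Real.exp (-1)) / 2 with hd
  set κ := -Real.log d - 1 with hκ
  refine ⟨max 1 (256 * (1 + κ⁻¹) ^ 2 + 2 * κ⁻¹ ^ 2), le_max_left _ _, ?_⟩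
  intro Ω _ m _ ξ hξ h2 hc hc' h0
  have hδ0 : 0 ≤ δ := measureReal_nonneg.trans h0
  have he : Real.exp (-1) < 1 / 2 := by
    have := Real.exp_neg_one_lt_d9
    linarith
  have hd0 : 0 < d := by
    have := Real.exp_pos (-1)
    linarith
  have hde : d < Real.exp (-1) := by linarith
  have hκ0 : 0 < κ := by
    have := (Real.log_lt_iff_lt_exp hd0).2 hde
    linarith
  obtain ⟨l, hl, hG⟩ := exp_bound (G := fun a : ℝ => m.real {ω | ξ ω ≤ a})
    (fun _ => measureReal_nonneg) (fun _ => measureReal_le_one) (mono_cdf ξ) hc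
    (by rw [eq_cdf hξ]; exact (cdf _).right_continuous 0)
    (by rw [eq_cdf hξ]; exact tendsto_cdf_atTop _) (d := d) (by linarith) (by linarith)
  set x := (κ + 1) * l⁻¹ with hx
  have hx0 : 0 < x := by positivity
  have hf : MemLp (fun ω => max (x - ξ ω) 0) 2 m := ((memLp_const x).sub h2).pos_part
  have htail : ∀ t, 0 < t → m.real {ω | t ≤ max (x - ξ ω) 0} ≤ 1 * Real.exp (-(l * t)) := by
    intro t ht
    have e : {ω | t ≤ max (x - ξ ω) 0} = {ω | ξ ω ≤ x - t} := by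
      ext ω
      simp only [mem_ofPred_eq, le_max_iff, ht.not_ge, or_false]
      constructor <;> intro h <;> linarith
    rw [e]
    refine (hG (x - t)).trans (le_of_eq ?_)
    have e2 : l * (x - t) = -Real.log d + -(l * t) := by
      rw [hx, hκ]
      field_simp
      ring
    rw [e2, Real.exp_add, ← mul_assoc, Real.exp_neg (Real.log d), Real.exp_log hd0,
      mul_inv_cancel₀ hd0.ne']
  have m1 := mom1 hf (fun ω => le_max_right _ _) hl htail
  have m2 := mom2 hf (fun ω => le_max_right _ _) hl htail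
  have hi : Integrable ξ m := h2.integrable one_le_two
  have hfi := hf.integrable one_le_two
  set μ := ∫ ω, ξ ω ∂m with hμ
  have hmean : κ * l⁻¹ ≤ μ := by
    have h1 : ∫ ω, (x - ξ ω) ∂m ≤ ∫ ω, max (x - ξ ω) 0 ∂m :=
      integral_mono ((integrable_const x).sub hi) hfi fun ω => le_max_left _ _
    rw [integral_sub (integrable_const x) hi, integral_const, probReal_univ, one_smul] at h1
    linarith
  have hμ0 : 0 < μ := lt_of_lt_of_le (by positivity) hmean
  have hlμ : l⁻¹ ≤ κ⁻¹ * μ := by rwa [le_inv_mul_iff₀ hκ0]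
  refine ⟨hμ0, ?_⟩
  have hp : MemLp (fun ω => max (ξ ω) 0) 2 m := h2.pos_part
  set a := 4 * ((1 + κ⁻¹) * μ) with ha
  have ha0 : 0 < a := by positivity
  have hpos : ∫ ω, max (ξ ω) 0 ∂m ≤ (1 + κ⁻¹) * μ := by
    have h1 : ∫ ω, max (ξ ω) 0 ∂m ≤ ∫ ω, (ξ ω + max (x - ξ ω) 0) ∂m :=
      integral_mono (hp.integrable one_le_two) (hi.add hfi) fun ω => max_le
        (le_add_of_nonneg_right (le_max_right _ _))
        (by have := le_max_left (x - ξ ω) 0; linarith)
    rw [integral_add hi hfi] at h1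
    linarith
  have eset : ∀ t, 0 < t → {ω | t ≤ max (ξ ω) 0} = {ω | -ξ ω ≤ 0 - t} := by
    intro t ht
    ext ω
    simp only [mem_ofPred_eq, le_max_iff, ht.not_ge, or_false]
    constructor <;> intro h <;> linarith
  have hq : m.real {ω | -ξ ω ≤ 0 - a} ≤ 1 / 4 := by
    have := mul_meas_ge_le_integral_of_nonneg (μ := m) (f := fun ω => max (ξ ω) 0)
      (Eventually.of_forall fun ω => le_max_right _ _) (hp.integrable one_le_two) a
    rw [eset a ha0] at this
    refine le_of_mul_le_mul_left (this.trans (hpos.trans (le_of_eq ?_))) ha0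
    rw [ha]
    ring
  have hq' : 1 / 2 ≤ m.real {ω | -ξ ω ≤ 0} := by
    have h1 := probReal_compl_eq_one_sub (μ := m) (measurableSet_le hξ (measurable_const (a := 0)))
    have h3 : m.real {ω | ξ ω ≤ 0}ᶜ ≤ m.real {ω | -ξ ω ≤ 0} :=
      measureReal_mono fun ω (hω : ¬ ξ ω ≤ 0) => neg_nonpos.2 (not_le.1 hω).le
    linarith
  have m3 := mom2 hp (fun ω => le_max_right _ _) (A := 2) (l := (2 * a)⁻¹) (by positivity)
    fun t ht => by
      rw [eset t ht]
      exact half (G := fun b : ℝ => m.real {ω | -ξ ω ≤ b}) (fun _ => measureReal_nonneg)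
        (fun _ => measureReal_le_one) (mono_cdf fun ω => -ξ ω) hc' ha0 hq hq' ht.le
  have hsq : ∫ ω, ξ ω ^ 2 ∂m ≤ ∫ ω, (max (ξ ω) 0 ^ 2 + max (x - ξ ω) 0 ^ 2) ∂m := by
    refine integral_mono h2.integrable_sq (hp.integrable_sq.add hf.integrable_sq) fun ω => ?_
    rcases le_total 0 (ξ ω) with h | h
    · simp only [max_eq_left h]
      exact le_add_of_nonneg_right (sq_nonneg _)
    · simp only [max_eq_right h, max_eq_left (show 0 ≤ x - ξ ω by linarith)]
      nlinarith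
  rw [integral_add hp.integrable_sq hf.integrable_sq] at hsq
  have hv : Var[ξ; m] ≤ ∫ ω, ξ ω ^ 2 ∂m := variance_le_expectation_sq h2.1
  have hl2 : l⁻¹ ^ 2 ≤ (κ⁻¹ * μ) ^ 2 := pow_le_pow_left₀ (by positivity) hlμ 2
  rw [inv_inv, ha] at m3
  refine le_trans ?_ (mul_le_mul_of_nonneg_right (le_max_right _ _) (sq_nonneg _))
  linarith

theorem lc2 : LC2Stmt := by
  refine ⟨2 * 720 * 8 ^ 6, by norm_num, ?_⟩
  intro Ω _ m _ ξ hξ h2 hc s hs
  set D := ∫ ω, ξ ω ∂m with hD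
  have hlow : ∀ c, 0 < c → m.real {ω | ξ ω ≤ D - c} ≤ Var[ξ; m] / c ^ 2 := fun c hc => by
    refine le_trans (measureReal_mono fun ω (hω : ξ ω ≤ D - c) => ?_) (cheb h2 hc)
    exact (le_abs.2 (Or.inr (by linarith)) : c ≤ |ξ ω - D|)
  rcases (variance_nonneg ξ m).eq_or_lt with hv | hv
  · have := hlow s hs
    rw [← hv] at this ⊢
    simpa using this
  obtain ⟨σ, hσ, e⟩ : ∃ σ : ℝ, 0 < σ ∧ Var[ξ; m] = σ ^ 2 :=
    ⟨√(Var[ξ; m]), Real.sqrt_pos.2 hv, (Real.sq_sqrt hv.le).symm⟩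
  have e4 : Var[ξ; m] / (2 * σ) ^ 2 = 1 / 4 := by
    rw [e]
    field_simp
    norm_num
  have hq : m.real {ω | ξ ω ≤ D + 2 * σ - 4 * σ} ≤ 1 / 4 := by
    rw [← e4, show D + 2 * σ - 4 * σ = D - 2 * σ by ring]
    exact hlow _ (by positivity)
  have hq' : 1 / 2 ≤ m.real {ω | ξ ω ≤ D + 2 * σ} := by
    have h1 := probReal_compl_eq_one_sub (μ := m)
      (measurableSet_le hξ (measurable_const (a := D + 2 * σ)))
    have h3 : m.real {ω | ξ ω ≤ D + 2 * σ}ᶜ ≤ Var[ξ; m] / (2 * σ) ^ 2 := by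
      refine le_trans (measureReal_mono fun ω (hω : ¬ ξ ω ≤ D + 2 * σ) => ?_)
        (cheb h2 (by positivity))
      exact (le_abs.2 (Or.inl (by linarith [not_le.1 hω])) : 2 * σ ≤ |ξ ω - D|)
    linarith
  have key := half (G := fun b : ℝ => m.real {ω | ξ ω ≤ b}) (fun _ => measureReal_nonneg)
    (fun _ => measureReal_le_one) (mono_cdf ξ) hc (by positivity) hq hq' hs.le
  refine (mono_cdf ξ (show D - s ≤ D + 2 * σ - s by linarith)).trans (key.trans ?_)
  have hu : 0 < (2 * (4 * σ))⁻¹ * s := by positivity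
  have h6 := Real.pow_div_factorial_le_exp _ hu.le 6
  have e6 : 2 * 720 * 8 ^ 6 * Var[ξ; m] ^ 3 / s ^ 6 =
      2 * (((2 * (4 * σ))⁻¹ * s) ^ 6 / (Nat.factorial 6 : ℕ))⁻¹ := by
    rw [e]
    norm_num [Nat.factorial]
    field_simp
    norm_num
  rw [e6, Real.exp_neg]
  exact mul_le_mul_of_nonneg_left (inv_anti₀ (by positivity) h6) zero_le_two

end Pool.Agent.Lib.MP_bd7e44_co.LR
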