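import Pool.Agent.Lib.MP_bd7e44_co.H96Defs

/-!
Moments in the continuous model.
-/

namespace Pool.Agent.Lib.MP_bd7e44_co.LR

open MeasureTheory ProbabilityTheory Set
open scoped ENNReal

namespace MOM

instance : IsProbabilityMeasure (expMeasure 1) := isProbabilityMeasure_expMeasure one_pos

lemma moment (k : ℕ) : Integrable (fun x : ℝ => x ^ k) (expMeasure 1) ∧
    ∫ x, x ^ k ∂(expMeasure 1) = k.factorial := by
  have hm : Measurable (gammaPDF 1 1) := (measurable_gammaPDFReal 1 1).ennreal_ofReal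
  have ht : ∀ᵐ x : ℝ, gammaPDF 1 1 x < ∞ := ae_of_all _ fun _ => ENNReal.ofReal_lt_top
  have e : (fun x : ℝ => (gammaPDF 1 1 x).toReal • x ^ k) =
      (Ici 0).indicator fun x => Real.exp (-x) * x ^ ((k + 1 : ℝ) - 1) := by
    funext x
    by_cases h : 0 ≤ x
    · simp [gammaPDF_of_nonneg h, h, (Real.exp_pos _).le]
    · simp [gammaPDF_of_neg (not_le.1 h), h]
  have hk : (0 : ℝ) < k + 1 := by positivity
  rw [expMeasure, gammaMeasure, integrable_withDensity_iff_integrable_smul' hm ht,
    integral_withDensity_eq_integral_toReal_smul hm ht, e,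
    integrable_indicator_iff measurableSet_Ici, integral_indicator measurableSet_Ici,
    integrableOn_Ici_iff_integrableOn_Ioi, integral_Ici_eq_integral_Ioi,
    ← Real.Gamma_eq_integral hk, Real.Gamma_nat_eq_factorial]
  exact ⟨Real.GammaIntegral_convergent hk, rfl⟩

lemma memLp_id : MemLp (fun x : ℝ => x) 2 (expMeasure 1) :=
  (memLp_two_iff_integrable_sq measurable_id.aestronglyMeasurable).2 (moment 2).1

lemma mean_id : ∫ x, x ∂(expMeasure 1) = 1 := by simpa using (moment 1).2

lemma var_id : Var[fun x : ℝ => x; expMeasure 1] = 1 := by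
  rw [variance_eq_sub memLp_id, mean_id]
  have := (moment 2).2
  simp only [Pi.pow_apply, this]
  norm_num [Nat.factorial]

lemma ae_pos : ∀ᵐ x ∂(expMeasure 1), 0 < x := by
  have := cdf_expMeasure_eq one_pos 0
  rw [cdf_eq_real, measureReal_def] at this
  simpa [ae_iff, Iic, ENNReal.toReal_eq_zero_iff] using this

variable {n : ℕ}

/-- independent exponential spacings -/
noncomputable abbrev nu (n : ℕ) : Measure (Fin n → ℝ) := Measure.pi fun _ => expMeasure 1

lemma ae_pos' : ∀ᵐ e ∂(nu n), ∀ k, 0 < e k :=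
  ae_all_iff.2 fun k => (measurePreserving_eval (fun _ : Fin n => expMeasure 1)
    k).quasiMeasurePreserving.ae ae_pos

/-- a difference of partial sums -/
def df (a b : Fin n) (e : Fin n → ℝ) : ℝ := ∑ k ∈ Finset.Iic b, e k - ∑ k ∈ Finset.Iic a, e k

/-- its coefficients -/
def cf (a b k : Fin n) : ℝ := (if k ≤ b then 1 else 0) - if k ≤ a then 1 else 0

lemma df_eq (a b : Fin n) : df a b = ∑ k, fun e : Fin n → ℝ => cf a b k * e k := by
  funext e
  simp [df, cf, sub_mul, ← Finset.sum_filter, Finset.filter_ge_eq_Iic]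

lemma sum_cf (a b : Fin n) : ∑ k, cf a b k = ((b : ℕ) : ℝ) - (a : ℕ) := by
  simp [cf, Finset.filter_ge_eq_Iic]

lemma sum_cf_sq (a b : Fin n) : ∑ k, cf a b k ^ 2 = |((b : ℕ) : ℝ) - (a : ℕ)| := by
  rcases le_total a b with h | h
  · rw [abs_of_nonneg (sub_nonneg.2 (by exact_mod_cast h)), ← sum_cf]
    refine Finset.sum_congr rfl fun k _ => ?_
    unfold cf
    split_ifs with h1 h2 h2
    exacts [by norm_num, by norm_num, absurd (h2.trans h) h1, by norm_num]
  · rw [abs_of_nonpos (sub_nonpos.2 (by exact_mod_cast h)), ← sum_cf, ← Finset.sum_neg_distrib]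
    refine Finset.sum_congr rfl fun k _ => ?_
    unfold cf
    split_ifs with h1 h2 h2
    exacts [by norm_num, absurd (h1.trans h) h2, by norm_num, by norm_num]

lemma memLp_term (c : ℝ) (k : Fin n) : MemLp (fun e : Fin n → ℝ => c * e k) 2 (nu n) :=
  (memLp_id.const_mul c).comp_measurePreserving
    (measurePreserving_eval (fun _ : Fin n => expMeasure 1) k)

lemma memLp_df (a b : Fin n) : MemLp (df a b) 2 (nu n) := by
  rw [df_eq]; exact memLp_finsetSum' _ fun k _ => memLp_term _ k

lemma mean_df (a b : Fin n) : ∫ e, df a b e ∂(nu n) = ((b : ℕ) : ℝ) - (a : ℕ) := by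
  simp only [df_eq, Finset.sum_apply]
  rw [integral_finsetSum _ fun k _ => (memLp_term _ k).integrable one_le_two, ← sum_cf]
  refine Finset.sum_congr rfl fun k _ => ?_
  rw [integral_const_mul, integral_eval, mean_id, mul_one]

lemma sq_df (a b : Fin n) : ∫ e, df a b e ^ 2 ∂(nu n) =
    (((b : ℕ) : ℝ) - (a : ℕ)) ^ 2 + |((b : ℕ) : ℝ) - (a : ℕ)| := by
  have h1 := variance_eq_sub (memLp_df a b)
  have h2 := variance_sum_pi (μ := fun _ : Fin n => expMeasure 1)
    (X := fun k x => cf a b k * x) fun k => memLp_id.const_mul _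
  rw [← df_eq, h1, mean_df, Finset.sum_congr rfl fun k _ => variance_const_mul _ _ _] at h2
  simp only [var_id, mul_one, sum_cf_sq] at h2
  simp only [Pi.pow_apply] at h2
  linarith

lemma df_pos {a b : Fin n} (h : a < b) : ∀ᵐ e ∂(nu n), 0 < df a b e :=
  ae_pos'.mono fun _ he => sub_pos.2 (Finset.sum_lt_sum_of_subset (Finset.Iic_subset_Iic.2 h.le)
    (Finset.mem_Iic.2 le_rfl) (by simpa using h) (he b) fun k _ _ => (he k).le)

lemma df_nonpos {a b : Fin n} (h : b ≤ a) : ∀ᵐ e ∂(nu n), df a b e ≤ 0 :=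
  ae_pos'.mono fun _ he => sub_nonpos.2 (Finset.sum_le_sum_of_subset_of_nonneg
    (Finset.Iic_subset_Iic.2 h) fun k _ _ => (he k).le)

lemma half {a b : Fin n} {L : ℝ} (hL : 0 ≤ L) (h : ((b : ℕ) : ℝ) - (a : ℕ) ≤ L) :
    1 ≤ 2 * (nu n).real {e | df a b e ≤ 2 * L} := by
  rcases le_or_gt b a with k | k
  · have : {e | df a b e ≤ 2 * L} =ᵐ[nu n] univ :=
      Filter.eventuallyEq_univ.2 ((df_nonpos k).mono fun e he => he.trans (by positivity))
    rw [measureReal_congr this, probReal_univ]
    norm_num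
  · have h1 := mul_meas_ge_le_integral_of_nonneg ((df_pos k).mono fun e he => he.le)
      ((memLp_df a b).integrable one_le_two) (2 * L)
    have h2 := measureReal_union_le (μ := nu n) {e | df a b e ≤ 2 * L} {e | 2 * L ≤ df a b e}
    have h3 : {e | df a b e ≤ 2 * L} ∪ {e | 2 * L ≤ df a b e} = univ :=
      eq_univ_of_forall fun e => le_total (df a b e) (2 * L)
    have h4 : (0 : ℝ) < ((b : ℕ) : ℝ) - (a : ℕ) := sub_pos.2 (by exact_mod_cast k)
    rw [h3, probReal_univ] at h2
    rw [mean_df] at h1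
    nlinarith

lemma Ex_mono {α : Type} {s : Finset α} {φ ψ : α → ℝ} (h : ∀ a, φ a ≤ ψ a) : Ex s φ ≤ Ex s ψ :=
  div_le_div_of_nonneg_right (Finset.sum_le_sum fun a _ => h a) (Nat.cast_nonneg _)

open Classical in
lemma Pr_eq {α : Type} (s : Finset α) (p : α → Prop) :
    Pr s p = Ex s fun a => if p a then 1 else 0 := by
  simp [Pr, Ex]

variable {X : Type} [Fintype X] [PartialOrder X]

/-- the partial sums map -/
def TT (f : X ≃ Fin (Fintype.card X)) (e : Fin (Fintype.card X) → ℝ) (x : X) : ℝ :=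
  ∑ k ∈ Finset.Iic (f x), e k

omit [PartialOrder X] in
lemma measurable_TT (f : X ≃ Fin (Fintype.card X)) : Measurable (TT f) := by
  unfold TT; fun_prop

lemma int_mX (h : REPStmt) {g : (X → ℝ) → ℝ} (hg : Measurable g)
    (hi : ∀ f, Integrable (fun e => g (TT f e)) (nu _)) :
    Integrable g (mX X) ∧ ∫ t, g t ∂(mX X) = Ex (LE X) fun f => ∫ e, g (TT f e) ∂(nu _) := by
  have h1 : ∀ f ∈ LE X, Integrable g ((nu _).map (TT f)) := fun f _ =>
    (integrable_map_measure hg.aestronglyMeasurable (measurable_TT f).aemeasurable).2 (hi f)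
  rw [show mX X = _ • ∑ f ∈ LE X, (nu _).map (TT f) from h X]
  refine ⟨(integrable_finsetSum_measure.2 h1).smul_measure
    (by simpa using (LE_nonempty X).ne_empty), ?_⟩
  rw [integral_smul_measure, integral_finsetSum_measure h1, Ex, div_eq_inv_mul]
  simp only [integral_map (measurable_TT _).aemeasurable hg.aestronglyMeasurable]
  simp

lemma real_mX (h : REPStmt) {s : Set (X → ℝ)} (hs : MeasurableSet s) :
    (mX X).real s = Ex (LE X) fun f => (nu _).real (TT f ⁻¹' s) := by
  rw [← integral_indicator_one hs, (int_mX h (measurable_one.indicator hs) fun f =>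
    (integrable_const 1).indicator (measurable_TT f hs)).2]
  exact congrArg _ (funext fun f => integral_indicator_one (measurable_TT f hs))

end MOM

open MOM in
theorem mom (h : REPStmt) : MOMStmt := by
  intro X _ _
  have hc : ((LE X).card : ℝ) ≠ 0 := by simpa using (LE_nonempty X).ne_empty
  have hP : IsProbabilityMeasure (mX X) := by
    rw [isProbabilityMeasure_iff_real, real_mX h MeasurableSet.univ]
    simp [Ex, div_self hc]
  refine ⟨hP, fun x y => ?_⟩
  have hm : Measurable fun t : X → ℝ => t y - t x := by fun_prop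
  obtain ⟨i2, e2⟩ := int_mX h (hm.pow_const 2) fun f => (memLp_df (f x) (f y)).integrable_sq
  have e1 := (int_mX h hm fun f => (memLp_df (f x) (f y)).integrable one_le_two).2
  have hl := (memLp_two_iff_integrable_sq hm.aestronglyMeasurable).2 i2
  have e3 : ∫ t, (t y - t x) ∂(mX X) = mu y - mu x := by
    rw [e1, mu, mu, Ex, Ex, Ex, ← sub_div, ← Finset.sum_sub_distrib]
    exact congrArg (· / _) (Finset.sum_congr rfl fun f _ => mean_df (f x) (f y))
  refine ⟨hl, e3, ?_, fun hxy => ?_, fun L hL => ?_⟩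
  · rw [variance_eq_sub hl, e3, VV]
    exact congrArg (· - _) (e2.trans (congrArg _ (funext fun f => sq_df (f x) (f y))))
  · rw [real_mX h (measurableSet_le hm measurable_const), Pr_eq]
    refine Ex_mono fun f => ?_
    split_ifs with k
    · exact measureReal_le_one
    · have := df_pos ((not_lt.1 k).lt_of_ne (f.injective.ne hxy))
      rw [ae_iff] at this
      simp only [not_lt] at this
      exact (congrArg ENNReal.toReal this).le
  · rw [real_mX h (measurableSet_le hm measurable_const), Pr_eq, Ex, Ex, ← mul_div_assoc,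
      Finset.mul_sum]
    refine Ex_mono fun f => ?_
    split_ifs with k
    · exact half hL k
    · positivity

end Pool.Agent.Lib.MP_bd7e44_co.LR
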