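import Pool.Agent.Lib.MP_bd7e44_co.H96Defs

/-! Padding a poset by chains. -/

namespace Pool.Agent.Lib.MP_bd7e44_co.LR

namespace Pad

open Classical in
/-- An element comparable to all others has a fixed position. -/
lemma pos_eq {Y : Type} [Fintype Y] [PartialOrder Y] {f : Y ≃ Fin (Fintype.card Y)}
    (hf : f ∈ LE Y) {u : Y} (hu : ∀ v, v < u ∨ u ≤ v) :
    (f u : ℕ) = (Finset.univ.filter (· < u)).card := by
  rw [← Fin.card_Iio]
  refine (Finset.card_equiv f fun v => ?_).symm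
  simp only [Finset.mem_filter, Finset.mem_univ, true_and, Finset.mem_Iio]
  exact ⟨fun h => mem_LE.1 hf h,
    fun h => (hu v).resolve_right fun h' => ((mem_LE.1 hf).monotone h').not_gt h⟩

variable (X : Type) [Fintype X] [PartialOrder X] (M : ℕ)

/-- The padded poset. -/
abbrev P : Type := Fin M ⊕ₗ (X ⊕ₗ Fin M)

lemma card_P : Fintype.card (P X M) = M + (Fintype.card X + M) := by
  simp only [Fintype.card_lex, Fintype.card_sum, Fintype.card_fin]

variable {X M}

/-- The lower chain. -/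
def lo (i : Fin M) : P X M := toLex (Sum.inl i)

/-- The original elements. -/
def mid (x : X) : P X M := toLex (Sum.inr (toLex (Sum.inl x)))

/-- The upper chain. -/
def hi (i : Fin M) : P X M := toLex (Sum.inr (toLex (Sum.inr i)))

omit [Fintype X] [PartialOrder X] in
lemma cases (u : P X M) : (∃ i, u = lo i) ∨ (∃ x, u = mid x) ∨ ∃ i, u = hi i := by
  rcases u with i | x | i
  exacts [Or.inl ⟨i, rfl⟩, Or.inr (Or.inl ⟨x, rfl⟩), Or.inr (Or.inr ⟨i, rfl⟩)]

/-- Extension of a numbering of `X`. -/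
noncomputable def ext (g : X ≃ Fin (Fintype.card X)) : P X M ≃ Fin (Fintype.card (P X M)) :=
  ((ofLex.trans ((Equiv.refl _).sumCongr ((ofLex.trans (g.sumCongr (Equiv.refl _))).trans
    finSumFinEquiv))).trans finSumFinEquiv).trans (finCongr (card_P X M).symm)

variable (g : X ≃ Fin (Fintype.card X))

lemma ext_lo (i : Fin M) : (ext g (lo i) : ℕ) = i := rfl

lemma ext_mid (x : X) : (ext g (mid x : P X M) : ℕ) = M + g x := rfl

lemma ext_hi (i : Fin M) : (ext g (hi i) : ℕ) = M + (Fintype.card X + i) := rfl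

omit [Fintype X] in
lemma mid_le {x y : X} : (mid x : P X M) ≤ mid y ↔ x ≤ y := by simp [mid]

omit [Fintype X] in
lemma cmp_lo (i : Fin M) (v : P X M) : v < lo i ∨ lo i ≤ v := by
  rcases cases v with ⟨j, rfl⟩ | ⟨x, rfl⟩ | ⟨j, rfl⟩ <;> simp [lo, mid, hi, lt_or_ge]

omit [Fintype X] in
lemma cmp_hi (i : Fin M) (v : P X M) : v < hi i ∨ hi i ≤ v := by
  rcases cases v with ⟨j, rfl⟩ | ⟨x, rfl⟩ | ⟨j, rfl⟩ <;> simp [lo, mid, hi, lt_or_ge]

variable {g}

lemma ext_mem (hg : g ∈ LE X) : ext g ∈ LE (P X M) := by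
  refine mem_LE.2 fun u v h => Fin.lt_def.2 ?_
  rcases cases u with ⟨i, rfl⟩ | ⟨x, rfl⟩ | ⟨i, rfl⟩ <;>
    rcases cases v with ⟨j, rfl⟩ | ⟨y, rfl⟩ | ⟨j, rfl⟩ <;>
    simp only [ext_lo, ext_mid, ext_hi] <;> simp [lo, mid, hi] at h <;> try omega
  exact Nat.add_lt_add_left (mem_LE.1 hg h) M

lemma exists_ext (hM : 0 < M) {f : P X M ≃ Fin (Fintype.card (P X M))} (hf : f ∈ LE (P X M)) :
    ∃ g ∈ LE X, ext g = f := by
  obtain ⟨g₀, h₀⟩ := LE_nonempty X
  have h1 : ∀ i, (f (lo i) : ℕ) = i := fun i =>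
    (pos_eq hf (cmp_lo i)).trans (pos_eq (ext_mem h₀) (cmp_lo i)).symm
  have h2 : ∀ i, (f (hi i) : ℕ) = M + (Fintype.card X + i) := fun i =>
    (pos_eq hf (cmp_hi i)).trans (pos_eq (ext_mem h₀) (cmp_hi i)).symm
  have h3 : ∀ x, M ≤ f (mid x) ∧ (f (mid x) : ℕ) < M + Fintype.card X := fun x => by
    have a : (f (lo ⟨M - 1, by omega⟩) : ℕ) < f (mid x) := mem_LE.1 hf (by simp [lo, mid])
    have b : (f (mid x) : ℕ) < f (hi ⟨0, hM⟩) := mem_LE.1 hf (by simp [hi, mid])
    rw [h1] at a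
    rw [h2] at b
    dsimp only at a b
    omega
  let g : X → Fin (Fintype.card X) := fun x => ⟨f (mid x) - M, by have := h3 x; omega⟩
  have hg : Function.Injective g := fun x y h => by
    have a : (f (mid x) : ℕ) - M = f (mid y) - M := congrArg Fin.val h
    have b : (mid x : P X M) = mid y := f.injective (Fin.ext (by have := h3 x; have := h3 y; omega))
    exact le_antisymm (mid_le.1 b.le) (mid_le.1 b.ge)
  refine ⟨Equiv.ofBijective g ((Fintype.bijective_iff_injective_and_card g).2 ⟨hg, by simp⟩),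
    mem_LE.2 fun x y h => ?_, Equiv.ext fun u => Fin.ext ?_⟩
  · have a : (f (mid x) : ℕ) < f (mid y) := mem_LE.1 hf (by simpa [mid] using h)
    have := h3 x
    change (f (mid x) : ℕ) - M < f (mid y) - M
    omega
  · rcases cases u with ⟨i, rfl⟩ | ⟨x, rfl⟩ | ⟨i, rfl⟩
    · rw [ext_lo, h1]
    · have := h3 x
      change M + ((f (mid x) : ℕ) - M) = _
      omega
    · rw [ext_hi, h2]

lemma card_eq (hM : 0 < M) (p : (P X M ≃ Fin (Fintype.card (P X M))) → Prop)
    {_ : DecidablePred p} (q : (X ≃ Fin (Fintype.card X)) → Prop) {_ : DecidablePred q}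
    (h : ∀ g, p (ext g) ↔ q g) :
    ((LE (P X M)).filter p).card = ((LE X).filter q).card := by
  refine (Finset.card_bij (fun g _ => ext g) (fun g hg => ?_) (fun g _ g' _ e => ?_)
    fun f hf => ?_).symm
  · rw [Finset.mem_filter] at hg ⊢
    exact ⟨ext_mem hg.1, (h g).2 hg.2⟩
  · refine Equiv.ext fun x => Fin.ext (Nat.add_left_cancel (n := M) ?_)
    rw [← ext_mid, ← ext_mid, e]
  · rw [Finset.mem_filter] at hf
    obtain ⟨g, hg, rfl⟩ := exists_ext hM hf.1
    exact ⟨g, Finset.mem_filter.2 ⟨hg, (h g).1 hf.2⟩, rfl⟩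

end Pad

open Pad in
theorem pad : PADStmt := by
  intro X _ _ M hM
  have hc := card_P X M
  refine ⟨P X M, inferInstance, inferInstance, mid, fun x y => mid_le, fun u v h1 h2 => ?_,
    fun x y => ?_, by omega, fun u => ?_, hi ⟨0, hM⟩, fun f hf => ?_⟩
  · rcases cases u with ⟨i, rfl⟩ | ⟨x, rfl⟩ | ⟨i, rfl⟩
    · exact ((cmp_lo i v).elim (fun h => h2 h.le) h1).elim
    · rcases cases v with ⟨i, rfl⟩ | ⟨y, rfl⟩ | ⟨i, rfl⟩
      · exact ((cmp_lo i _).elim (fun h => h1 h.le) h2).elim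
      · exact ⟨x, y, rfl, rfl⟩
      · exact ((cmp_hi i _).elim (fun h => h1 h.le) h2).elim
    · exact ((cmp_hi i v).elim (fun h => h2 h.le) h1).elim
  · have h1 : (LE (P X M)).card = (LE X).card := by
      simpa using @card_eq X _ _ M hM (fun _ => True) (fun _ => instDecidableTrue) (fun _ => True)
        (fun _ => instDecidableTrue) fun _ => Iff.rfl
    unfold Pr
    rw [h1]
    refine congrArg (fun n : ℕ => (n : ℝ) / _) (card_eq hM _ _ fun g => ?_)
    rw [Fin.lt_def, Fin.lt_def, ext_mid, ext_mid, Nat.add_lt_add_iff_left]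
  · rcases cases u with ⟨i, rfl⟩ | ⟨x, rfl⟩ | ⟨i, rfl⟩
    · by_cases h : (i : ℕ) + 1 < M
      · refine Or.inr (Or.inl ⟨lo ⟨i + 1, h⟩, fun f hf => ?_⟩)
        obtain ⟨g, -, rfl⟩ := exists_ext hM hf
        rfl
      · refine Or.inl fun f hf => ?_
        obtain ⟨g, -, rfl⟩ := exists_ext hM hf
        rw [ext_lo]
        omega
    · refine Or.inl fun f hf => ?_
      obtain ⟨g, -, rfl⟩ := exists_ext hM hf
      rw [ext_mid]
      omega
    · by_cases h : (i : ℕ) + 1 < M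
      · refine Or.inr (Or.inl ⟨hi ⟨i + 1, h⟩, fun f hf => ?_⟩)
        obtain ⟨g, -, rfl⟩ := exists_ext hM hf
        rfl
      · refine Or.inr (Or.inr fun f hf => ?_)
        obtain ⟨g, -, rfl⟩ := exists_ext hM hf
        rw [ext_hi]
        omega
  · obtain ⟨g, -, rfl⟩ := exists_ext hM hf
    rfl

end Pool.Agent.Lib.MP_bd7e44_co.LR
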