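import Pool.Agent.Lib.MP_bd7e44_co.H96Defs

/-!
RANGE: an index outside `A` is not far above an index in `A`.
-/

namespace Pool.Agent.Lib.MP_bd7e44_co.LR

namespace RANGE

open Finset

open Classical in
/-- The indicator of a proposition. -/
noncomputable def ind (p : Prop) : ℝ := if p then 1 else 0

lemma ind_of {p : Prop} (h : p) : ind p = 1 := by simp [ind, h]

lemma ind_of_not {p : Prop} (h : ¬ p) : ind p = 0 := by simp [ind, h]

lemma ind_nonneg (p : Prop) : 0 ≤ ind p := by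
  by_cases h : p
  · rw [ind_of h]; norm_num
  · rw [ind_of_not h]

lemma ind_mono {p q : Prop} (h : p → q) : ind p ≤ ind q := by
  by_cases hp : p
  · rw [ind_of hp, ind_of (h hp)]
  · rw [ind_of_not hp]; exact ind_nonneg q

lemma card_filter_eq {β : Type} (t : Finset β) (p : β → Prop) [DecidablePred p] :
    ((t.filter p).card : ℝ) = ∑ x ∈ t, ind (p x) := by
  rw [Finset.card_filter]
  push_cast
  refine Finset.sum_congr rfl fun x _ => ?_
  by_cases h : p x
  · rw [if_pos h, ind_of h]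
  · rw [if_neg h, ind_of_not h]

lemma Pr_eq {α : Type} (s : Finset α) (p : α → Prop) :
    Pr s p = (∑ a ∈ s, ind (p a)) / s.card := by
  unfold Pr
  rw [card_filter_eq]

lemma mn_sub {α : Type} (s : Finset α) (F : α → ℕ → ℕ) {i j : ℕ} (h : i ≤ j) :
    mn s F j - mn s F i = ∑ r ∈ Ico i j, gp s F r := by
  induction j, h using Nat.le_induction with
  | base => simp
  | succ j hj ih =>
    rw [Finset.sum_Ico_succ_top hj, ← ih]
    unfold gp
    ring

lemma inv_le {α : Type} {s : Finset α} {n : ℕ} {F : α → ℕ → ℕ} {C G : ℝ} (hS : Sys s n F C)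
    (hC : 1 ≤ C) (hG : 1 ≤ G) (hg : ∀ r, r + 1 < n → gp s F r ≤ G) {i j : ℕ} (hij : i < j)
    (hj : j < n) :
    ∑ a ∈ s, ind (F a j < F a i) ≤ (s.card * (C ^ 4 * G ^ 3)) * (1 / ((j : ℝ) - i) ^ 3) := by
  have hN : (0 : ℝ) < s.card := by exact_mod_cast hS.ne.card_pos
  have hC0 : 0 < C := by linarith
  have hd : (0 : ℝ) < (j : ℝ) - i := by
    have : (i : ℝ) < j := by exact_mod_cast hij
    linarith
  set D := mn s F j - mn s F i with hD
  have hD1 : (j : ℝ) - i ≤ C * D := by
    rw [hD, mn_sub s F hij.le, Finset.mul_sum]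
    have : ((j : ℝ) - i) = ∑ _r ∈ Ico i j, (1 : ℝ) := by
      simp [Nat.cast_sub hij.le]
    rw [this]
    refine Finset.sum_le_sum fun r hr => hS.gap r ?_
    have := (Finset.mem_Ico.1 hr).2
    omega
  have hD0 : 0 < D := by
    by_contra hh
    have : C * D ≤ 0 := mul_nonpos_of_nonneg_of_nonpos hC0.le (not_lt.1 hh)
    linarith
  have hW0 : 0 ≤ WW s F i j := Finset.sum_nonneg fun r _ => sq_nonneg _
  have hW : WW s F i j ≤ G * D := by
    rw [hD, mn_sub s F hij.le, Finset.mul_sum]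
    refine Finset.sum_le_sum fun r hr => ?_
    have hr' : r + 1 < n := by
      have := (Finset.mem_Ico.1 hr).2
      omega
    have h1 := hS.gap r hr'
    have h2 := hg r hr'
    have h3 : 0 < gp s F r := by
      by_contra hh
      have : C * gp s F r ≤ 0 := mul_nonpos_of_nonneg_of_nonpos hC0.le (not_lt.1 hh)
      linarith
    nlinarith
  have ht := hS.tail i j hij hj 0 le_rfl (by rw [mul_zero]; exact hD0)
  rw [Pr_eq, div_le_iff₀ hN] at ht
  have h1 : ∑ a ∈ s, ind (F a j < F a i) ≤ ∑ a ∈ s, ind ((F a j : ℝ) - F a i ≤ 0) := by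
    refine Finset.sum_le_sum fun a _ => ind_mono fun h => ?_
    have : (F a j : ℝ) < F a i := by exact_mod_cast h
    linarith
  have h2 : C * WW s F i j ^ 3 / (D - 2 * 0) ^ 6 ≤ (C ^ 4 * G ^ 3) * (1 / ((j : ℝ) - i) ^ 3) := by
    rw [mul_zero, sub_zero, mul_one_div, div_le_div_iff₀ (by positivity) (by positivity)]
    have h3 : WW s F i j ^ 3 ≤ (G * D) ^ 3 := pow_le_pow_left₀ hW0 hW 3
    have h4 : ((j : ℝ) - i) ^ 3 ≤ (C * D) ^ 3 := pow_le_pow_left₀ hd.le hD1 3
    calc C * WW s F i j ^ 3 * ((j : ℝ) - i) ^ 3 ≤ C * (G * D) ^ 3 * (C * D) ^ 3 := by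
          gcongr
      _ = C ^ 4 * G ^ 3 * D ^ 6 := by ring
  calc ∑ a ∈ s, ind (F a j < F a i) ≤ _ := h1
    _ ≤ _ := ht
    _ ≤ (C ^ 4 * G ^ 3) * (1 / ((j : ℝ) - i) ^ 3) * s.card := by gcongr
    _ = _ := by ring

lemma step_cube {d : ℝ} (hd : 1 ≤ d) : 2 / (d + 1) ^ 2 + 1 / d ^ 3 ≤ 2 / d ^ 2 := by
  have h0 : 0 < d := by linarith
  rw [div_add_div _ _ (by positivity) (by positivity),
    div_le_div_iff₀ (by positivity) (by positivity)]
  have h1 : 0 ≤ d ^ 2 * (3 * d ^ 2 - 1) := by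
    apply mul_nonneg (by positivity)
    nlinarith
  nlinarith

lemma step_sq {d : ℝ} (hd : 1 ≤ d) : 2 / (d + 1) + 1 / d ^ 2 ≤ 2 / d := by
  have h0 : 0 < d := by linarith
  rw [div_add_div _ _ (by positivity) (by positivity),
    div_le_div_iff₀ (by positivity) (by positivity)]
  have h1 : 0 ≤ d * (d - 1) := mul_nonneg h0.le (by linarith)
  nlinarith

lemma sum_cube_up {i c : ℕ} (h : i < c) (n : ℕ) :
    ∑ j ∈ Ico c n, 1 / ((j : ℝ) - i) ^ 3 ≤ 2 / ((c : ℝ) - i) ^ 2 := by
  by_cases hn : c ≤ n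
  · have key : ∑ j ∈ Ico c n, 1 / ((j : ℝ) - i) ^ 3 + 2 / ((n : ℝ) - i) ^ 2 ≤
        2 / ((c : ℝ) - i) ^ 2 := by
      induction n, hn using Nat.le_induction with
      | base => simp
      | succ n hn ih =>
        rw [Finset.sum_Ico_succ_top hn]
        have h1 : (1 : ℝ) ≤ (n : ℝ) - i := by
          have : ((i + 1 : ℕ) : ℝ) ≤ n := by exact_mod_cast (by omega : i + 1 ≤ n)
          push_cast at this
          linarith
        have h2 := step_cube h1
        have h3 : ((n + 1 : ℕ) : ℝ) - i = (n : ℝ) - i + 1 := by push_cast; ring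
        rw [h3]
        linarith
    have : 0 ≤ 2 / ((n : ℝ) - i) ^ 2 := by positivity
    linarith
  · rw [Finset.Ico_eq_empty (by omega), Finset.sum_empty]
    positivity

lemma sum_cube_down {i m : ℕ} (h : m ≤ i) :
    ∑ j ∈ range m, 1 / ((i : ℝ) - j) ^ 3 ≤ 2 / ((i : ℝ) - m + 1) ^ 2 := by
  induction m with
  | zero => simp; positivity
  | succ m ih =>
    rw [Finset.sum_range_succ]
    have h1 : (1 : ℝ) ≤ (i : ℝ) - m := by
      have : ((m + 1 : ℕ) : ℝ) ≤ i := by exact_mod_cast h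
      push_cast at this
      linarith
    have h2 := step_cube h1
    have h3 : (i : ℝ) - ((m + 1 : ℕ) : ℝ) + 1 = (i : ℝ) - m := by push_cast; ring
    rw [h3]
    have := ih (by omega)
    linarith

lemma sum_sq_down {c m : ℕ} (h : m ≤ c) :
    ∑ i ∈ range m, 1 / ((c : ℝ) - i) ^ 2 ≤ 2 / ((c : ℝ) - m + 1) := by
  induction m with
  | zero => simp; positivity
  | succ m ih =>
    rw [Finset.sum_range_succ]
    have h1 : (1 : ℝ) ≤ (c : ℝ) - m := by
      have : ((m + 1 : ℕ) : ℝ) ≤ c := by exact_mod_cast h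
      push_cast at this
      linarith
    have h2 := step_sq h1
    have h3 : (c : ℝ) - ((m + 1 : ℕ) : ℝ) + 1 = (c : ℝ) - m := by push_cast; ring
    rw [h3]
    have := ih (by omega)
    linarith

/-- The number of inversions across the cut `c`. -/
noncomputable def II (n c : ℕ) (f : ℕ → ℕ) : ℝ :=
  ∑ i ∈ range c, ∑ j ∈ Ico c n, ind (f j < f i)

lemma II_nonneg (n c : ℕ) (f : ℕ → ℕ) : 0 ≤ II n c f :=
  Finset.sum_nonneg fun _ _ => Finset.sum_nonneg fun _ _ => ind_nonneg _

lemma sum_II_le {α : Type} {s : Finset α} {n : ℕ} {F : α → ℕ → ℕ} {B : ℝ} (hB : 0 ≤ B)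
    (H : ∀ i j, i < j → j < n → ∑ a ∈ s, ind (F a j < F a i) ≤ B * (1 / ((j : ℝ) - i) ^ 3))
    (c : ℕ) : ∑ a ∈ s, II n c (F a) ≤ 4 * B := by
  unfold II
  rw [Finset.sum_comm]
  have h1 : ∀ i ∈ range c, ∑ a ∈ s, ∑ j ∈ Ico c n, ind (F a j < F a i) ≤
      2 * B * (1 / ((c : ℝ) - i) ^ 2) := by
    intro i hi
    have hi' := Finset.mem_range.1 hi
    rw [Finset.sum_comm]
    calc ∑ j ∈ Ico c n, ∑ a ∈ s, ind (F a j < F a i)
        ≤ ∑ j ∈ Ico c n, B * (1 / ((j : ℝ) - i) ^ 3) := by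
          refine Finset.sum_le_sum fun j hj => ?_
          have := Finset.mem_Ico.1 hj
          exact H i j (by omega) this.2
      _ = B * ∑ j ∈ Ico c n, 1 / ((j : ℝ) - i) ^ 3 := by rw [Finset.mul_sum]
      _ ≤ B * (2 / ((c : ℝ) - i) ^ 2) := mul_le_mul_of_nonneg_left (sum_cube_up hi' n) hB
      _ = _ := by ring
  calc _ ≤ ∑ i ∈ range c, 2 * B * (1 / ((c : ℝ) - i) ^ 2) := Finset.sum_le_sum h1
    _ = 2 * B * ∑ i ∈ range c, 1 / ((c : ℝ) - i) ^ 2 := by rw [Finset.mul_sum]
    _ ≤ 2 * B * (2 / ((c : ℝ) - c + 1)) :=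
        mul_le_mul_of_nonneg_left (sum_sq_down le_rfl) (by positivity)
    _ = 4 * B := by rw [sub_self]; ring

lemma card_lt {n c : ℕ} {f : ℕ → ℕ} (hf : Set.BijOn f (Set.Iio n) (Set.Iio n)) (hc : c ≤ n) :
    ((range n).filter fun i => f i < c).card = c := by
  conv_rhs => rw [← Finset.card_range c]
  refine Finset.card_nbij f ?_ ?_ ?_
  · intro i hi
    simp only [coe_filter, mem_range, Set.mem_ofPred_eq] at hi
    simpa using hi.2
  · intro i hi j hj hij
    simp only [coe_filter, mem_range, Set.mem_ofPred_eq] at hi hj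
    exact hf.injOn hi.1 hj.1 hij
  · intro u hu
    have hu' : u < c := by simpa using hu
    obtain ⟨i, hi, rfl⟩ := hf.surjOn (show u ∈ Set.Iio n from lt_of_lt_of_le hu' hc)
    refine ⟨i, ?_, rfl⟩
    simp only [coe_filter, mem_range, Set.mem_ofPred_eq]
    exact ⟨hi, hu'⟩

lemma pigeon {n c : ℕ} {f : ℕ → ℕ} (hf : Set.BijOn f (Set.Iio n) (Set.Iio n)) (hc : c ≤ n)
    {A : Finset ℕ} (hA : A ⊆ range n) :
    |(((A.image f) ∩ range c).card : ℝ) - (A ∩ range c).card| ≤ II n c f := by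
  set U := (range c).filter fun i => ¬ f i < c with hU
  set D := (Ico c n).filter fun j => f j < c with hD
  have hUD : U.card = D.card := by
    have h1 := card_lt hf hc
    have h2 : ((range n).filter fun i => f i < c) = ((range c).filter fun i => f i < c) ∪ D := by
      ext x
      simp only [hD, mem_filter, mem_range, mem_union, mem_Ico]
      omega
    have h3 : Disjoint ((range c).filter fun i => f i < c) D := by
      rw [Finset.disjoint_left]
      intro x hx hx'
      simp only [hD, mem_filter, mem_range, mem_Ico] at hx hx'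
      omega
    rw [h2, Finset.card_union_of_disjoint h3] at h1
    have h4 := Finset.card_filter_add_card_filter_not (s := range c) (fun i => f i < c)
    rw [Finset.card_range] at h4
    rw [← hU] at h4
    omega
  have hI : (U.card : ℝ) * D.card ≤ II n c f := by
    unfold II
    calc (U.card : ℝ) * D.card = ∑ _i ∈ U, ∑ _j ∈ D, (1 : ℝ) := by simp
      _ ≤ ∑ i ∈ U, ∑ j ∈ Ico c n, ind (f j < f i) := by
          refine Finset.sum_le_sum fun i hi => ?_
          calc ∑ _j ∈ D, (1 : ℝ) = ∑ j ∈ D, ind (f j < f i) := by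
                refine Finset.sum_congr rfl fun j hj => (ind_of ?_).symm
                simp only [hU, hD, mem_filter] at hi hj
                omega
            _ ≤ _ := Finset.sum_le_sum_of_subset_of_nonneg (Finset.filter_subset _ _)
                fun _ _ _ => ind_nonneg _
      _ ≤ _ := Finset.sum_le_sum_of_subset_of_nonneg (Finset.filter_subset _ _)
          fun _ _ _ => Finset.sum_nonneg fun _ _ => ind_nonneg _
  have hI' : (D.card : ℝ) ≤ II n c f := by
    rw [hUD] at hI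
    have : D.card ≤ D.card * D.card := Nat.le_mul_self _
    have : (D.card : ℝ) ≤ D.card * D.card := by exact_mod_cast this
    linarith
  have him : ((A.image f) ∩ range c).card = (A.filter fun i => f i < c).card := by
    symm
    refine Finset.card_nbij f ?_ ?_ ?_
    · intro i hi
      simp only [coe_filter, Set.mem_ofPred_eq] at hi
      simp only [coe_inter, coe_image, coe_range, Set.mem_inter_iff, Set.mem_Iio]
      exact ⟨⟨i, hi.1, rfl⟩, hi.2⟩
    · intro i hi j hj hij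
      simp only [coe_filter, Set.mem_ofPred_eq] at hi hj
      exact hf.injOn (Finset.mem_range.1 (hA hi.1)) (Finset.mem_range.1 (hA hj.1)) hij
    · intro u hu
      simp only [coe_inter, coe_image, coe_range, Set.mem_inter_iff, Set.mem_Iio] at hu
      obtain ⟨⟨i, hi, rfl⟩, hu⟩ := hu
      refine ⟨i, ?_, rfl⟩
      simp only [coe_filter, Set.mem_ofPred_eq]
      exact ⟨hi, hu⟩
  have h5 : (A.filter fun i => f i < c).card ≤ (A ∩ range c).card + D.card := by
    refine le_trans (Finset.card_le_card ?_) (Finset.card_union_le _ _)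
    intro x hx
    have hx' := Finset.mem_filter.1 hx
    have hxn := Finset.mem_range.1 (hA hx'.1)
    simp only [hD, mem_union, mem_inter, mem_range, mem_filter, mem_Ico]
    by_cases hxc : x < c
    · exact Or.inl ⟨hx'.1, hxc⟩
    · exact Or.inr ⟨⟨by omega, hxn⟩, hx'.2⟩
  have h6 : (A ∩ range c).card ≤ (A.filter fun i => f i < c).card + U.card := by
    refine le_trans (Finset.card_le_card ?_) (Finset.card_union_le _ _)
    intro x hx
    have hx' := Finset.mem_inter.1 hx
    simp only [hU, mem_union, mem_filter]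
    by_cases hxc : f x < c
    · exact Or.inl ⟨hx'.1, hxc⟩
    · exact Or.inr ⟨hx'.2, hxc⟩
  rw [him, abs_le]
  rw [hUD] at h6
  have h5' : ((A.filter fun i => f i < c).card : ℝ) ≤ (A ∩ range c).card + D.card := by
    exact_mod_cast h5
  have h6' : ((A ∩ range c).card : ℝ) ≤ (A.filter fun i => f i < c).card + D.card := by
    exact_mod_cast h6
  constructor <;> linarith

lemma card_Ico_eq (S : Finset ℕ) {b e : ℕ} (h : b ≤ e) :
    ((S ∩ Ico b e).card : ℝ) = (S ∩ range e).card - (S ∩ range b).card := by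
  have h2 : S ∩ range e = (S ∩ range b) ∪ (S ∩ Ico b e) := by
    ext x
    simp only [mem_inter, mem_range, mem_union, mem_Ico]
    constructor
    · rintro ⟨h1, h2⟩
      by_cases hx : x < b
      · exact Or.inl ⟨h1, hx⟩
      · exact Or.inr ⟨h1, by omega, h2⟩
    · rintro (⟨h1, h2⟩ | ⟨h1, h2, h3⟩)
      · exact ⟨h1, by omega⟩
      · exact ⟨h1, h3⟩
  have h3 : Disjoint (S ∩ range b) (S ∩ Ico b e) := by
    rw [Finset.disjoint_left]
    intro x hx hx'
    simp only [mem_inter, mem_range, mem_Ico] at hx hx'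
    omega
  rw [h2, Finset.card_union_of_disjoint h3]
  push_cast
  ring

lemma pigeon_Ico {n b e : ℕ} {f : ℕ → ℕ} (hf : Set.BijOn f (Set.Iio n) (Set.Iio n))
    (hb : b ≤ e) (he : e ≤ n) {A : Finset ℕ} (hA : A ⊆ range n) :
    |(((A.image f) ∩ Ico b e).card : ℝ) - (A ∩ Ico b e).card| ≤ II n b f + II n e f := by
  rw [card_Ico_eq _ hb, card_Ico_eq _ hb]
  have h1 := abs_le.1 (pigeon hf he hA)
  have h2 := abs_le.1 (pigeon hf (hb.trans he) hA)
  rw [abs_le]
  constructor <;> linarith [h1.1, h1.2, h2.1, h2.2]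

lemma up_inv {n i l : ℕ} {f : ℕ → ℕ} (hf : Set.BijOn f (Set.Iio n) (Set.Iio n)) (hi : i < n)
    (hl : 0 < l) (h : i + l ≤ f i) : ∃ j ∈ Ico (i + l) n, f j < f i := by
  by_contra hh
  push Not at hh
  have hfi : f i < n := hf.mapsTo hi
  have h1 := card_lt hf hfi.le
  have h2 : ((range n).filter fun j => f j < f i) ⊆ (range (i + l)).erase i := by
    intro x hx
    have hx' := Finset.mem_filter.1 hx
    have hxn := Finset.mem_range.1 hx'.1
    rw [Finset.mem_erase, Finset.mem_range]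
    constructor
    · rintro rfl
      exact lt_irrefl _ hx'.2
    · by_contra hc
      have := hh x (Finset.mem_Ico.2 ⟨by omega, hxn⟩)
      omega
  have h3 := Finset.card_le_card h2
  rw [h1, Finset.card_erase_of_mem (Finset.mem_range.2 (by omega)), Finset.card_range] at h3
  omega

lemma down_inv {n i l : ℕ} {f : ℕ → ℕ} (hf : Set.BijOn f (Set.Iio n) (Set.Iio n)) (hi : i < n)
    (hl : 0 < l) (h : f i + l ≤ i) : ∃ j ∈ range (i - l + 1), f i < f j := by
  by_contra hh
  push Not at hh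
  have hfi : f i < n := hf.mapsTo hi
  have h1 := card_lt hf (show f i + 1 ≤ n from hfi)
  have h2 : insert i (range (i - l + 1)) ⊆ ((range n).filter fun j => f j < f i + 1) := by
    intro x hx
    rw [Finset.mem_filter, Finset.mem_range]
    rcases Finset.mem_insert.1 hx with rfl | hx
    · exact ⟨hi, Nat.lt_succ_self _⟩
    · have := hh x hx
      have := Finset.mem_range.1 hx
      omega
  have h3 := Finset.card_le_card h2
  rw [h1, Finset.card_insert_of_notMem (by rw [Finset.mem_range]; omega),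
    Finset.card_range] at h3
  omega

lemma near {α : Type} {s : Finset α} {n : ℕ} {F : α → ℕ → ℕ} {B : ℝ} (hB : 0 ≤ B)
    (hbij : ∀ a ∈ s, Set.BijOn (F a) (Set.Iio n) (Set.Iio n))
    (H : ∀ i j, i < j → j < n → ∑ a ∈ s, ind (F a j < F a i) ≤ B * (1 / ((j : ℝ) - i) ^ 3))
    {l : ℕ} (hl : 0 < l) (hlB : 8 * B ≤ s.card * (l : ℝ) ^ 2) {i : ℕ} (hi : i < n) :
    (s.card : ℝ) / 2 ≤ ∑ u ∈ Ico (i + 1 - l) (i + l), ∑ a ∈ s, ind (F a i = u) := by
  have hl0 : (0 : ℝ) < l := by exact_mod_cast hl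
  have hq : B * (2 / (l : ℝ) ^ 2) ≤ s.card / 4 := by
    rw [← mul_div_assoc, div_le_div_iff₀ (by positivity) (by norm_num)]
    linarith
  have h1 : ∑ a ∈ s, ind (i + l ≤ F a i) ≤ s.card / 4 := by
    calc ∑ a ∈ s, ind (i + l ≤ F a i)
        ≤ ∑ a ∈ s, ∑ j ∈ Ico (i + l) n, ind (F a j < F a i) := by
          refine Finset.sum_le_sum fun a ha => ?_
          by_cases h : i + l ≤ F a i
          · obtain ⟨j, hj, hj'⟩ := up_inv (hbij a ha) hi hl h
            rw [ind_of h, ← ind_of hj']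
            exact Finset.single_le_sum (f := fun j => ind (F a j < F a i))
              (fun _ _ => ind_nonneg _) hj
          · rw [ind_of_not h]
            exact Finset.sum_nonneg fun _ _ => ind_nonneg _
      _ = ∑ j ∈ Ico (i + l) n, ∑ a ∈ s, ind (F a j < F a i) := Finset.sum_comm
      _ ≤ ∑ j ∈ Ico (i + l) n, B * (1 / ((j : ℝ) - i) ^ 3) := by
          refine Finset.sum_le_sum fun j hj => ?_
          have := Finset.mem_Ico.1 hj
          exact H i j (by omega) this.2
      _ = B * ∑ j ∈ Ico (i + l) n, 1 / ((j : ℝ) - i) ^ 3 := by rw [Finset.mul_sum]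
      _ ≤ B * (2 / (((i + l : ℕ) : ℝ) - i) ^ 2) :=
          mul_le_mul_of_nonneg_left (sum_cube_up (by omega) n) hB
      _ = B * (2 / (l : ℝ) ^ 2) := by push_cast; ring
      _ ≤ _ := hq
  have h2 : ∑ a ∈ s, ind (F a i + l ≤ i) ≤ s.card / 4 := by
    by_cases hli : l ≤ i
    · calc ∑ a ∈ s, ind (F a i + l ≤ i)
          ≤ ∑ a ∈ s, ∑ j ∈ range (i - l + 1), ind (F a i < F a j) := by
            refine Finset.sum_le_sum fun a ha => ?_
            by_cases h : F a i + l ≤ i
            · obtain ⟨j, hj, hj'⟩ := down_inv (hbij a ha) hi hl h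
              rw [ind_of h, ← ind_of hj']
              exact Finset.single_le_sum (f := fun j => ind (F a i < F a j))
                (fun _ _ => ind_nonneg _) hj
            · rw [ind_of_not h]
              exact Finset.sum_nonneg fun _ _ => ind_nonneg _
        _ = ∑ j ∈ range (i - l + 1), ∑ a ∈ s, ind (F a i < F a j) := Finset.sum_comm
        _ ≤ ∑ j ∈ range (i - l + 1), B * (1 / ((i : ℝ) - j) ^ 3) := by
            refine Finset.sum_le_sum fun j hj => ?_
            have := Finset.mem_range.1 hj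
            exact H j i (by omega) hi
        _ = B * ∑ j ∈ range (i - l + 1), 1 / ((i : ℝ) - j) ^ 3 := by rw [Finset.mul_sum]
        _ ≤ B * (2 / ((i : ℝ) - ((i - l + 1 : ℕ) : ℝ) + 1) ^ 2) :=
            mul_le_mul_of_nonneg_left (sum_cube_down (by omega)) hB
        _ = B * (2 / (l : ℝ) ^ 2) := by
            push_cast [Nat.cast_sub hli]; ring
        _ ≤ _ := hq
    · rw [Finset.sum_eq_zero fun a _ => ind_of_not (by omega)]
      positivity
  have h3 : (s.card : ℝ) ≤ ∑ a ∈ s, (ind (i + l ≤ F a i) + ind (F a i + l ≤ i) +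
      ∑ u ∈ Ico (i + 1 - l) (i + l), ind (F a i = u)) := by
    calc (s.card : ℝ) = ∑ _a ∈ s, (1 : ℝ) := by simp
      _ ≤ _ := by
        refine Finset.sum_le_sum fun a _ => ?_
        have e1 := ind_nonneg (i + l ≤ F a i)
        have e2 := ind_nonneg (F a i + l ≤ i)
        have e3 : 0 ≤ ∑ u ∈ Ico (i + 1 - l) (i + l), ind (F a i = u) :=
          Finset.sum_nonneg fun _ _ => ind_nonneg _
        by_cases c1 : i + l ≤ F a i
        · rw [ind_of c1]; linarith
        by_cases c2 : F a i + l ≤ i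
        · rw [ind_of c2]; linarith
        have e4 : ind (F a i = F a i) ≤ ∑ u ∈ Ico (i + 1 - l) (i + l), ind (F a i = u) :=
          Finset.single_le_sum (f := fun u => ind (F a i = u)) (fun _ _ => ind_nonneg _)
            (Finset.mem_Ico.2 ⟨by omega, by omega⟩)
        rw [ind_of rfl] at e4
        linarith
  rw [Finset.sum_add_distrib, Finset.sum_add_distrib, Finset.sum_comm] at h3
  linarith

lemma transfer {α : Type} {s : Finset α} {n : ℕ} {F : α → ℕ → ℕ}
    (hbij : ∀ a ∈ s, Set.BijOn (F a) (Set.Iio n) (Set.Iio n)) {A : Finset ℕ}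
    (hA : A ⊆ range n) (g : Finset ℕ → ℝ) :
    ∑ S ∈ (range n).powerset, (wt s F A S : ℝ) * g S = ∑ a ∈ s, g (A.image (F a)) := by
  have hm : ∀ a ∈ s, A.image (F a) ∈ (range n).powerset := by
    intro a ha
    rw [Finset.mem_powerset]
    intro u hu
    obtain ⟨i, hi, rfl⟩ := Finset.mem_image.1 hu
    exact Finset.mem_range.2 ((hbij a ha).mapsTo (Finset.mem_range.1 (hA hi)))
  rw [← Finset.sum_fiberwise_of_maps_to hm]
  refine Finset.sum_congr rfl fun S _ => ?_
  rw [Finset.sum_congr rfl (g := fun _ => g S)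
    (fun a ha => by rw [(Finset.mem_filter.1 ha).2])]
  simp [wt]

lemma transfer_filter {α : Type} {s : Finset α} {n : ℕ} {F : α → ℕ → ℕ}
    (hbij : ∀ a ∈ s, Set.BijOn (F a) (Set.Iio n) (Set.Iio n)) {A : Finset ℕ}
    (hA : A ⊆ range n) (p : Finset ℕ → Prop) [DecidablePred p] :
    ∑ S ∈ (range n).powerset with p S, (wt s F A S : ℝ) = ∑ a ∈ s, ind (p (A.image (F a))) := by
  rw [← transfer hbij hA fun S => ind (p S), Finset.sum_filter]
  refine Finset.sum_congr rfl fun S _ => ?_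
  by_cases h : p S
  · rw [if_pos h, ind_of h, mul_one]
  · rw [if_neg h, ind_of_not h, mul_zero]

lemma card_inter_eq (S W : Finset ℕ) : ((S ∩ W).card : ℝ) = ∑ v ∈ W, ind (v ∈ S) := by
  rw [← card_filter_eq, Finset.filter_mem_eq_inter, Finset.inter_comm]

lemma card_sub_inter_eq (S W : Finset ℕ) :
    (W.card : ℝ) - (S ∩ W).card = ∑ v ∈ W, ind (v ∉ S) := by
  rw [card_inter_eq]
  have : (W.card : ℝ) = ∑ _v ∈ W, (1 : ℝ) := by simp
  rw [this, ← Finset.sum_sub_distrib]
  refine Finset.sum_congr rfl fun v _ => ?_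
  by_cases h : v ∈ S
  · rw [ind_of h, ind_of_not (not_not.2 h), sub_self]
  · rw [ind_of_not h, ind_of h, sub_zero]

/-- The window step. -/
lemma window {α : Type} {s : Finset α} {n : ℕ} {F : α → ℕ → ℕ} {c3 th : ℝ} (hc3 : 0 ≤ c3)
    (hs : s.Nonempty)
    (hbij : ∀ a ∈ s, Set.BijOn (F a) (Set.Iio n) (Set.Iio n))
    (hII : ∀ c, ∑ a ∈ s, II n c (F a) ≤ 4 * (s.card * c3))
    {A : Finset ℕ} (hA : A ⊆ range n) {b q : ℕ} (hq : 0 < q) (hb : b + 2 * q ^ 2 ≤ n)
    (hin : ∀ v ∈ Ico b (b + 2 * q ^ 2), s.card * th ≤ ∑ a ∈ s, ind (v ∈ A.image (F a)))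
    (hout : ∀ v ∈ Ico b (b + 2 * q ^ 2), s.card * th ≤ ∑ a ∈ s, ind (v ∉ A.image (F a)))
    (hW : ∑ a ∈ s, ((A.image (F a) ∩ Finset.Ico b (b + 2 * q ^ 2)).card : ℝ) *
            (2 * q ^ 2 - (A.image (F a) ∩ Finset.Ico b (b + 2 * q ^ 2)).card) ≤
        16 * q ^ 3 * ∑ a ∈ s,
          max (((A.image (F a) ∩ Finset.Ico (b + q ^ 2) (b + 2 * q ^ 2)).card : ℝ) -
            (A.image (F a) ∩ Finset.Ico b (b + q ^ 2)).card) 0)
    (hbig : 140 * c3 < th * q) :
    (A ∩ Ico b (b + q ^ 2)).card < (A ∩ Ico (b + q ^ 2) (b + 2 * q ^ 2)).card := by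
  by_contra hcon
  have hcon' : ((A ∩ Ico (b + q ^ 2) (b + 2 * q ^ 2)).card : ℝ) ≤ (A ∩ Ico b (b + q ^ 2)).card := by
    exact_mod_cast not_lt.1 hcon
  have hN : (0 : ℝ) < s.card := by exact_mod_cast hs.card_pos
  have hq1 : (1 : ℝ) ≤ q := by exact_mod_cast hq
  set N : ℝ := (s.card : ℝ) with hNdef
  set W := Ico b (b + 2 * q ^ 2) with hWdef
  have hWc : (W.card : ℝ) = 2 * q ^ 2 := by
    rw [hWdef, Nat.card_Ico, Nat.add_sub_cancel_left]; push_cast; ring
  set al : ℝ := ((A ∩ W).card : ℝ) with hal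
  have hal0 : 0 ≤ al := by positivity
  have hal1 : al ≤ 2 * q ^ 2 := by
    rw [← hWc, hal]
    exact_mod_cast Finset.card_le_card Finset.inter_subset_right
  have hJ : ∀ a ∈ s, |((A.image (F a) ∩ W).card : ℝ) - al| ≤
      II n b (F a) + II n (b + 2 * q ^ 2) (F a) := fun a ha =>
    pigeon_Ico (hbij a ha) (by omega) hb hA
  have hJs : ∑ a ∈ s, (II n b (F a) + II n (b + 2 * q ^ 2) (F a)) ≤ 8 * (N * c3) := by
    rw [Finset.sum_add_distrib]
    linarith [hII b, hII (b + 2 * q ^ 2)]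
  have hcs : ∀ x : ℝ, ∑ _a ∈ s, x = N * x := fun x => by simp [hNdef]
  have e1 : N * (th * (2 * q ^ 2)) ≤ N * (al + 8 * c3) := by
    calc N * (th * (2 * q ^ 2)) = ∑ _v ∈ W, N * th := by
          rw [Finset.sum_const, nsmul_eq_mul, hWc]; ring
      _ ≤ ∑ v ∈ W, ∑ a ∈ s, ind (v ∈ A.image (F a)) := Finset.sum_le_sum hin
      _ = ∑ a ∈ s, ((A.image (F a) ∩ W).card : ℝ) := by
          rw [Finset.sum_comm]
          exact Finset.sum_congr rfl fun a _ => (card_inter_eq _ _).symm
      _ ≤ ∑ a ∈ s, (al + (II n b (F a) + II n (b + 2 * q ^ 2) (F a))) := by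
          refine Finset.sum_le_sum fun a ha => ?_
          linarith [(abs_le.1 (hJ a ha)).2]
      _ ≤ N * (al + 8 * c3) := by
          rw [Finset.sum_add_distrib, hcs]
          linarith
  have e2 : N * (th * (2 * q ^ 2)) ≤ N * (2 * q ^ 2 - al + 8 * c3) := by
    calc N * (th * (2 * q ^ 2)) = ∑ _v ∈ W, N * th := by
          rw [Finset.sum_const, nsmul_eq_mul, hWc]; ring
      _ ≤ ∑ v ∈ W, ∑ a ∈ s, ind (v ∉ A.image (F a)) := Finset.sum_le_sum hout
      _ = ∑ a ∈ s, (2 * q ^ 2 - ((A.image (F a) ∩ W).card : ℝ)) := by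
          rw [Finset.sum_comm]
          exact Finset.sum_congr rfl fun a _ => by rw [← card_sub_inter_eq, hWc]
      _ ≤ ∑ a ∈ s, ((2 * q ^ 2 - al) + (II n b (F a) + II n (b + 2 * q ^ 2) (F a))) := by
          refine Finset.sum_le_sum fun a ha => ?_
          linarith [(abs_le.1 (hJ a ha)).1]
      _ ≤ N * (2 * q ^ 2 - al + 8 * c3) := by
          rw [Finset.sum_add_distrib, hcs]
          linarith
  have e1' := le_of_mul_le_mul_left e1 hN
  have e2' := le_of_mul_le_mul_left e2 hN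
  have hq2 : (0 : ℝ) ≤ (q : ℝ) ^ 2 := by positivity
  have e3 : (q : ℝ) ^ 2 * (th * (2 * q ^ 2) - 8 * c3) ≤ al * (2 * q ^ 2 - al) := by
    by_cases h : al ≤ (q : ℝ) ^ 2
    · have h1 : (q : ℝ) ^ 2 * (th * (2 * q ^ 2) - 8 * c3) ≤ q ^ 2 * al :=
        mul_le_mul_of_nonneg_left (by linarith) hq2
      have h2 : 0 ≤ al * (q ^ 2 - al) := mul_nonneg hal0 (by linarith)
      nlinarith
    · have h1 : (q : ℝ) ^ 2 * (th * (2 * q ^ 2) - 8 * c3) ≤ q ^ 2 * (2 * q ^ 2 - al) :=
        mul_le_mul_of_nonneg_left (by linarith) hq2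
      have h2 : 0 ≤ (al - q ^ 2) * (2 * q ^ 2 - al) := mul_nonneg (by linarith) (by linarith)
      nlinarith
  have e4 : N * (al * (2 * q ^ 2 - al)) - 2 * q ^ 2 * (8 * (N * c3)) ≤
      ∑ a ∈ s, ((A.image (F a) ∩ W).card : ℝ) * (2 * q ^ 2 - (A.image (F a) ∩ W).card) := by
    calc N * (al * (2 * q ^ 2 - al)) - 2 * q ^ 2 * (8 * (N * c3))
        ≤ N * (al * (2 * q ^ 2 - al)) -
          2 * q ^ 2 * ∑ a ∈ s, (II n b (F a) + II n (b + 2 * q ^ 2) (F a)) := by
          have := mul_le_mul_of_nonneg_left hJs (show (0 : ℝ) ≤ 2 * q ^ 2 by positivity)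
          linarith
      _ = ∑ a ∈ s, (al * (2 * q ^ 2 - al) -
          2 * q ^ 2 * (II n b (F a) + II n (b + 2 * q ^ 2) (F a))) := by
          rw [Finset.sum_sub_distrib, hcs, Finset.mul_sum]
      _ ≤ _ := by
          refine Finset.sum_le_sum fun a ha => ?_
          have h1 := abs_le.1 (hJ a ha)
          set x : ℝ := ((A.image (F a) ∩ W).card : ℝ) with hx
          set J := II n b (F a) + II n (b + 2 * q ^ 2) (F a) with hJd
          have hx0 : 0 ≤ x := by positivity
          have hx1 : x ≤ 2 * q ^ 2 := by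
            rw [← hWc, hx]
            exact_mod_cast Finset.card_le_card Finset.inter_subset_right
          have h2 : 0 ≤ (J + (x - al)) * (2 * q ^ 2 + (2 * q ^ 2 - x - al)) :=
            mul_nonneg (by linarith [h1.1]) (by linarith)
          have h3 : 0 ≤ (J - (x - al)) * (2 * q ^ 2 - (2 * q ^ 2 - x - al)) :=
            mul_nonneg (by linarith [h1.2]) (by linarith)
          nlinarith
  have e5 : ∑ a ∈ s,
      max (((A.image (F a) ∩ Finset.Ico (b + q ^ 2) (b + 2 * q ^ 2)).card : ℝ) -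
        (A.image (F a) ∩ Finset.Ico b (b + q ^ 2)).card) 0 ≤ 16 * (N * c3) := by
    calc _ ≤ ∑ a ∈ s, (II n b (F a) + II n (b + q ^ 2) (F a) +
          (II n (b + q ^ 2) (F a) + II n (b + 2 * q ^ 2) (F a))) := by
          refine Finset.sum_le_sum fun a ha => ?_
          have h1 := abs_le.1 (pigeon_Ico (hbij a ha) (show b ≤ b + q ^ 2 by omega)
            (by omega) hA)
          have h2 := abs_le.1 (pigeon_Ico (hbij a ha) (show b + q ^ 2 ≤ b + 2 * q ^ 2 by omega)
            hb hA)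
          refine max_le (by linarith [h1.1, h2.2]) ?_
          have := II_nonneg n b (F a)
          have := II_nonneg n (b + q ^ 2) (F a)
          have := II_nonneg n (b + 2 * q ^ 2) (F a)
          linarith
      _ ≤ 16 * (N * c3) := by
          rw [Finset.sum_add_distrib, Finset.sum_add_distrib, Finset.sum_add_distrib]
          linarith [hII b, hII (b + q ^ 2), hII (b + 2 * q ^ 2)]
  have e6 : N * (q ^ 2 * (th * (2 * q ^ 2) - 8 * c3) - 16 * q ^ 2 * c3) ≤
      N * (256 * q ^ 3 * c3) := by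
    have h1 := mul_le_mul_of_nonneg_left e3 hN.le
    have h2 := mul_le_mul_of_nonneg_left e5 (show (0 : ℝ) ≤ 16 * q ^ 3 by positivity)
    linarith
  have e7 := le_of_mul_le_mul_left e6 hN
  have h8 : (q : ℝ) ^ 2 * c3 ≤ q ^ 3 * c3 := by
    apply mul_le_mul_of_nonneg_right _ hc3
    nlinarith
  have h9 : (q : ℝ) ^ 3 * (140 * c3) < q ^ 3 * (th * q) :=
    mul_lt_mul_of_pos_left hbig (by positivity)
  nlinarith

end RANGE

open Finset RANGE in
theorem range (h : WORDStmt) : RANGEStmt := by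
  intro C G₀ hC
  set G := max G₀ 1 with hGdef
  have hG : 1 ≤ G := le_max_right _ _
  set c3 := C ^ 4 * G ^ 3 with hc3def
  have hc3 : 1 ≤ c3 := one_le_mul_of_one_le_of_one_le (one_le_pow₀ hC) (one_le_pow₀ hG)
  obtain ⟨l, hl⟩ := exists_nat_ge (8 * c3)
  have hl1 : (1 : ℝ) ≤ l := by linarith
  have hl0 : 0 < l := by exact_mod_cast (show (0 : ℝ) < l by linarith)
  obtain ⟨q, hq⟩ := exists_nat_gt (1120 * c3 * l)
  have hq0 : 0 < q := by
    have : (0 : ℝ) < q := lt_of_le_of_lt (by positivity) hq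
    exact_mod_cast this
  refine ⟨2 * l + (q ^ 2 + 2) * q ^ 2, ?_⟩
  intro α s n F hS hg A hA hmono i hi j hj hjA
  by_contra hcon
  have hN : (0 : ℝ) < s.card := by exact_mod_cast hS.ne.card_pos
  have hin : i < n := Finset.mem_range.1 (hA hi)
  have hB : (0 : ℝ) ≤ s.card * c3 := by positivity
  have H : ∀ i j, i < j → j < n →
      ∑ a ∈ s, ind (F a j < F a i) ≤ (s.card * c3) * (1 / ((j : ℝ) - i) ^ 3) :=
    fun i j hij hj => inv_le hS hC hG (fun r hr => (hg r hr).trans (le_max_left _ _)) hij hj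
  have hlB : 8 * (s.card * c3) ≤ s.card * (l : ℝ) ^ 2 := by
    have : 8 * c3 ≤ (l : ℝ) ^ 2 := by nlinarith
    nlinarith
  obtain ⟨W1, W2⟩ := h n (fun S => (wt s F A S : ℝ)) (fun S => by positivity)
    (fun S u h1 h2 h3 => by exact_mod_cast hmono S u h1 h2 h3)
  have hcardI : ∀ k : ℕ, ((Ico (k + 1 - l) (k + l)).card : ℝ) ≤ 2 * l := by
    intro k
    rw [Nat.card_Ico]
    exact_mod_cast (by omega : k + l - (k + 1 - l) ≤ 2 * l)
  have hth : ∀ P : ℝ, 0 ≤ P → ∀ k : ℕ,
      (s.card : ℝ) / 2 ≤ ∑ _u ∈ Ico (k + 1 - l) (k + l), 2 * P → s.card * (1 / (8 * l)) ≤ P := by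
    intro P hP k hk
    rw [Finset.sum_const, nsmul_eq_mul] at hk
    have h1 := mul_le_mul_of_nonneg_right (hcardI k) (show 0 ≤ 2 * P by positivity)
    rw [mul_one_div, div_le_iff₀ (by positivity)]
    linarith
  have hIn : ∀ v, i + l ≤ v → v < n →
      s.card * (1 / (8 * (l : ℝ))) ≤ ∑ a ∈ s, ind (v ∈ A.image (F a)) := by
    intro v hv hvn
    refine hth _ (Finset.sum_nonneg fun _ _ => ind_nonneg _) i ?_
    refine (near hB hS.bij H hl0 hlB hin).trans (Finset.sum_le_sum fun u hu => ?_)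
    have hu' := Finset.mem_Ico.1 hu
    have h1 := (W1 u v (by omega) hvn).1
    rw [transfer_filter hS.bij hA (fun S => u ∈ S),
      transfer_filter hS.bij hA (fun S => v ∈ S)] at h1
    refine le_trans (Finset.sum_le_sum fun a _ => ind_mono fun e => ?_) h1
    exact Finset.mem_image.2 ⟨i, hi, e⟩
  have hOut : ∀ u, u + l ≤ j →
      s.card * (1 / (8 * (l : ℝ))) ≤ ∑ a ∈ s, ind (u ∉ A.image (F a)) := by
    intro u hu
    refine hth _ (Finset.sum_nonneg fun _ _ => ind_nonneg _) j ?_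
    refine (near hB hS.bij H hl0 hlB hj).trans (Finset.sum_le_sum fun v hv => ?_)
    have hv' := Finset.mem_Ico.1 hv
    by_cases hvn : v < n
    · have h1 := (W1 u v (by omega) hvn).2
      rw [transfer_filter hS.bij hA (fun S => v ∉ S),
        transfer_filter hS.bij hA (fun S => u ∉ S)] at h1
      refine le_trans (Finset.sum_le_sum fun a ha => ind_mono fun e he => ?_) h1
      obtain ⟨k, hk, hk'⟩ := Finset.mem_image.1 he
      have : k = j := (hS.bij a ha).injOn (Finset.mem_range.1 (hA hk)) hj (hk'.trans e.symm)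
      exact hjA (this ▸ hk)
    · have hz : ∀ a ∈ s, ind (F a j = v) = 0 := by
        intro a ha
        refine ind_of_not fun e => hvn ?_
        rw [← e]
        exact (hS.bij a ha).mapsTo hj
      rw [Finset.sum_eq_zero hz]
      exact mul_nonneg (by norm_num) (Finset.sum_nonneg fun _ _ => ind_nonneg _)
  have hstep : ∀ b, i + l ≤ b → b + 2 * q ^ 2 + l ≤ j →
      (A ∩ Ico b (b + q ^ 2)).card < (A ∩ Ico (b + q ^ 2) (b + 2 * q ^ 2)).card := by
    intro b hb1 hb2
    have hbn : b + 2 * q ^ 2 ≤ n := by omega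
    have h1 := W2 b q hq0 hbn
    rw [transfer hS.bij hA, transfer hS.bij hA] at h1
    refine window (c3 := c3) (th := 1 / (8 * (l : ℝ))) (by linarith) hS.ne hS.bij
      (sum_II_le hB H) hA hq0 hbn ?_ ?_ h1 ?_
    · intro v hv
      have := Finset.mem_Ico.1 hv
      exact hIn v (by omega) (by omega)
    · intro v hv
      have := Finset.mem_Ico.1 hv
      exact hOut v (by omega)
    · rw [one_div, inv_mul_eq_div, lt_div_iff₀ (by positivity)]
      linarith
  have hcount : ∀ k, k ≤ q ^ 2 + 1 →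
      k ≤ (A ∩ Ico (i + l + k * q ^ 2) (i + l + k * q ^ 2 + q ^ 2)).card := by
    intro k
    induction k with
    | zero => intro _; exact Nat.zero_le _
    | succ k ih =>
      intro hk
      have h1 := ih (by omega)
      have h2 : (k + 2) * q ^ 2 ≤ (q ^ 2 + 2) * q ^ 2 := Nat.mul_le_mul_right _ (by omega)
      have h3 := hstep (i + l + k * q ^ 2) (by omega) (by nlinarith)
      have e1 : i + l + (k + 1) * q ^ 2 = i + l + k * q ^ 2 + q ^ 2 := by ring
      have e2 : i + l + k * q ^ 2 + q ^ 2 + q ^ 2 = i + l + k * q ^ 2 + 2 * q ^ 2 := by ring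
      rw [e1, e2]
      omega
  have h1 := hcount (q ^ 2 + 1) le_rfl
  have h2 := Finset.card_le_card (Finset.inter_subset_right (s₁ := A)
    (s₂ := Ico (i + l + (q ^ 2 + 1) * q ^ 2) (i + l + (q ^ 2 + 1) * q ^ 2 + q ^ 2)))
  rw [Nat.card_Ico] at h2
  omega

end Pool.Agent.Lib.MP_bd7e44_co.LR
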