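import Pool.Agent.Lib.MP_bd7e44_co.H96Defs

/-! The continuous model as a mixture of exponential spacings. -/

namespace Pool.Agent.Lib.MP_bd7e44_co.LR

open MeasureTheory ProbabilityTheory
open scoped ENNReal

namespace Rep

lemma pi_exp (n : ℕ) : (Measure.pi fun _ : Fin n => expMeasure 1) =
    volume.withDensity fun e => ENNReal.ofReal (∏ k, exponentialPDFReal 1 (e k)) := by
  have := isProbabilityMeasure_expMeasure one_pos
  have h0 := exponentialPDFReal_nonneg one_pos
  have hi : Integrable (exponentialPDFReal 1) :=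
    ⟨(measurable_exponentialPDFReal 1).aestronglyMeasurable, (hasFiniteIntegral_iff_ofReal (ae_of_all _ h0)).2
      ((lintegral_exponentialPDF_eq_one one_pos).trans_lt ENNReal.one_lt_top)⟩
  refine Measure.pi_eq fun s hs => ?_
  rw [withDensity_apply _ (MeasurableSet.univ_pi hs), volume_pi, Measure.restrict_pi_pi,
    ← ofReal_integral_eq_lintegral_ofReal (Integrable.fintype_prod fun _ => hi.restrict)
      (ae_of_all _ fun e => Finset.prod_nonneg fun k _ => h0 _), integral_fintype_prod_eq_prod,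
    ENNReal.ofReal_prod_of_nonneg fun k _ => integral_nonneg h0]
  refine Finset.prod_congr rfl fun k _ => ?_
  rw [ofReal_integral_eq_lintegral_ofReal hi.restrict (ae_of_all _ h0)]
  exact (withDensity_apply _ (hs k)).symm

lemma pres_sum (n : ℕ) :
    MeasurePreserving (fun (e : Fin n → ℝ) (j : Fin n) => ∑ k ∈ Finset.Iic j, e k) := by
  let M : Matrix (Fin n) (Fin n) ℝ := Matrix.of fun j k => if k ≤ j then 1 else 0
  have hM : M.det = 1 := by
    rw [Matrix.det_of_isLowerTriangular M fun j k h => if_neg (not_le.2 h)]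
    simp [M]
  have h := Real.map_matrix_volume_pi_eq_smul_volume_pi (M := M) (by simp [hM])
  have he : (fun (e : Fin n → ℝ) (j : Fin n) => ∑ k ∈ Finset.Iic j, e k) = Matrix.toLin' M := by
    ext e j
    simp [M, Matrix.mulVec, dotProduct, ← Finset.sum_filter, Finset.filter_ge_eq_Iic]
  exact ⟨by fun_prop, by simpa [he, hM] using h⟩

lemma nonneg_iff {n : ℕ} (e : Fin n → ℝ) : (∀ j, 0 ≤ ∑ k ∈ Finset.Iic j, e k) ∧
    Monotone (fun j => ∑ k ∈ Finset.Iic j, e k) ↔ ∀ k, 0 ≤ e k := by
  refine ⟨fun ⟨h0, hm⟩ k => ?_, fun h => ⟨fun j => Finset.sum_nonneg fun k _ => h k,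
    fun i j hij => Finset.sum_le_sum_of_subset_of_nonneg (Finset.Iic_subset_Iic.2 hij)
      fun k _ _ => h k⟩⟩
  obtain _ | n := n
  · exact k.elim0
  induction k using Fin.cases with
  | zero => simpa [show Finset.Iic (0 : Fin (n + 1)) = {0} from Finset.Iic_bot] using h0 0
  | succ j =>
    have h1 : Finset.Iic j.succ = insert j.succ (Finset.Iic j.castSucc) := by
      ext i
      simp only [Finset.mem_Iic, Finset.mem_insert, Fin.le_def, Fin.ext_iff, Fin.val_succ,
        Fin.val_castSucc]
      omega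
    simpa [h1, Finset.sum_insert, Fin.le_def] using hm (Fin.castSucc_lt_succ (i := j)).le

variable {X : Type} [Fintype X] {n : ℕ}

lemma norm_sum (f : X ≃ Fin n) {e : Fin n → ℝ} (h : ∀ k, 0 ≤ e k) :
    ‖fun x => ∑ k ∈ Finset.Iic (f x), e k‖ = ∑ k, e k := by
  have h0 : 0 ≤ ∑ k, e k := Finset.sum_nonneg fun k _ => h k
  refine le_antisymm ((pi_norm_le_iff_of_nonneg h0).2 fun x => ?_) ?_
  · rw [Real.norm_of_nonneg (Finset.sum_nonneg fun k _ => h k)]
    exact Finset.sum_le_univ_sum_of_nonneg h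
  obtain _ | n := n
  · simp
  refine le_trans ?_ (norm_le_pi_norm _ (f.symm ⊤))
  simpa using le_abs_self _

open Classical in
/-- The density on one chamber. -/
noncomputable def ch (f : X ≃ Fin n) (t : X → ℝ) : ℝ≥0∞ :=
  if (∀ x, 0 ≤ t x) ∧ Monotone (t ∘ f.symm) then ENNReal.ofReal (Real.exp (-‖t‖)) else 0

lemma measurable_ch (f : X ≃ Fin n) : Measurable (ch f) := by
  refine Measurable.ite (IsClosed.measurableSet (IsClosed.inter (s₁ := Set.Ici 0) isClosed_Ici
    (isClosed_monotone.preimage (f := fun t : X → ℝ => t ∘ f.symm) (by fun_prop))))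
    (by fun_prop) measurable_const

lemma map_eq (f : X ≃ Fin n) : ((Measure.pi fun _ : Fin n => expMeasure 1).map
    fun (e : Fin n → ℝ) (x : X) => ∑ k ∈ Finset.Iic (f x), e k) = volume.withDensity (ch f) := by
  have hp : MeasurePreserving fun (e : Fin n → ℝ) (x : X) => ∑ k ∈ Finset.Iic (f x), e k :=
    (volume_preserving_arrowCongr' f.symm (.refl ℝ) (.id _)).comp (pres_sum n)
  ext s hs
  rw [Measure.map_apply hp.measurable hs, pi_exp, withDensity_apply _ (hp.measurable hs),
    withDensity_apply _ hs, ← hp.setLIntegral_comp_preimage hs (measurable_ch f)]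
  refine lintegral_congr fun e => ?_
  have h1 : (∀ x, 0 ≤ ∑ k ∈ Finset.Iic (f x), e k) ∧
      Monotone ((fun x => ∑ k ∈ Finset.Iic (f x), e k) ∘ f.symm) ↔ ∀ k, 0 ≤ e k := by
    rw [← nonneg_iff, f.surjective.forall]
    simp [Function.comp_def]
  rw [ch, if_congr h1 rfl rfl]
  split_ifs with h
  · simp [norm_sum f h, exponentialPDFReal, gammaPDFReal, h, ← Real.exp_sum]
  · obtain ⟨k, hk⟩ := not_forall.1 h
    rw [Finset.prod_eq_zero (Finset.mem_univ k) (by simp [exponentialPDFReal, gammaPDFReal, hk]),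
      ENNReal.ofReal_zero]

lemma ae_inj : ∀ᵐ t : X → ℝ, Function.Injective t := by
  refine ae_all_iff.2 fun x => ae_all_iff.2 fun y => ?_
  by_cases h : x = y
  · exact ae_of_all _ fun _ _ => h
  classical
  refine measure_mono_null (fun t ht => ?_) (Measure.addHaar_submodule volume
    (LinearMap.eqLocus (LinearMap.proj x : (X → ℝ) →ₗ[ℝ] ℝ) (LinearMap.proj y)) fun hT => ?_)
  · by_contra h'
    exact ht fun h1 => absurd h1 h'
  · have h1 : (Pi.single x 1 : X → ℝ) x = (Pi.single x 1 : X → ℝ) y :=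
      LinearMap.mem_eqLocus.1 (hT ▸ Submodule.mem_top (x := Pi.single x 1))
    simp [Ne.symm h] at h1

lemma sum_ch [PartialOrder X] {t : X → ℝ} (ht : Function.Injective t) :
    ∑ f ∈ LE X, ch f t = rho X t := by
  rw [rho]
  split_ifs with h
  · let g := Fintype.equivFin X
    let f := g.trans (Tuple.sort (t ∘ g.symm)).symm
    have hf : Monotone (t ∘ f.symm) := Tuple.monotone_sort (t ∘ g.symm)
    refine (Finset.sum_eq_single_of_mem f (mem_LE.2 fun x y hxy => lt_of_not_ge fun h1 =>
      hxy.ne (ht ((h.2 hxy.le).antisymm (by simpa using hf h1)))) fun f' _ hf' => if_neg fun h1 =>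
      hf' ?_).trans (if_pos ⟨h.1, hf⟩)
    have h2 := Tuple.unique_monotone (f := t ∘ f.symm) (σ := f'.symm.trans f) (τ := 1)
      (by simpa [Function.comp_def] using h1.2) hf
    refine Equiv.symm_bijective.1 (Equiv.ext fun k => ht ?_)
    simpa using congrFun h2 k
  · refine Finset.sum_eq_zero fun f hf => if_neg fun h1 => h ⟨h1.1, ?_⟩
    simpa [Function.comp_def] using h1.2.comp (mem_LE.1 hf).monotone

end Rep

theorem rep : REPStmt := fun X _ _ => by
  rw [mX, Finset.sum_congr rfl fun f _ => Rep.map_eq f]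
  congr 1
  ext s hs
  simp only [Measure.finsetSum_apply, withDensity_apply _ hs]
  rw [← lintegral_finsetSum _ fun f _ => Rep.measurable_ch f]
  exact lintegral_congr_ae (ae_restrict_of_ae (Rep.ae_inj.mono fun t ht => (Rep.sum_ch ht).symm))

end Pool.Agent.Lib.MP_bd7e44_co.LR
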