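import Pool.Agent.Lib.MP_bd7e44_co.H96Defs

/-! The variance of differences satisfies the triangle inequality (Shepp's lattice). -/

namespace Pool.Agent.Lib.MP_bd7e44_co.LR

open MeasureTheory ProbabilityTheory
open scoped ENNReal

namespace SH

variable {X : Type} [Fintype X] [PartialOrder X]

lemma measurable_rho : Measurable (rho X) := by
  refine Measurable.ite (IsClosed.measurableSet (IsClosed.inter ?_ isClosed_monotone))
    (by fun_prop) measurable_const
  exact isClosed_Ici (a := (0 : X → ℝ))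

open Classical in
/-- The change of coordinates of Shepp's lattice at `y`. -/
noncomputable def T (y : X) : (X → ℝ) →ₗ[ℝ] X → ℝ where
  toFun u w := if w = y then -u y else u w - u y
  map_add' u v := by
    funext w
    simp only [Pi.add_apply]
    split_ifs <;> ring
  map_smul' c u := by
    funext w
    simp only [Pi.smul_apply, smul_eq_mul, RingHom.id_apply]
    split_ifs <;> ring

omit [Fintype X] [PartialOrder X] in
lemma T_self (y : X) (u : X → ℝ) : T y u y = -u y := if_pos rfl

omit [Fintype X] [PartialOrder X] in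
lemma T_ne {y w : X} (h : w ≠ y) (u : X → ℝ) : T y u w = u w - u y := if_neg h

omit [Fintype X] [PartialOrder X] in
lemma T_T (y : X) (u : X → ℝ) : T y (T y u) = u := by
  funext w
  by_cases h : w = y
  · rw [h, T_self, T_self, neg_neg]
  · rw [T_ne h, T_ne h, T_self]
    ring

omit [PartialOrder X] in
lemma T_pres (y : X) : MeasurePreserving (T y) volume volume := by
  have h : LinearMap.det (T y) * LinearMap.det (T y) = 1 := by
    rw [← map_mul, show T y * T y = 1 from LinearMap.ext (T_T y), map_one]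
  refine ⟨(T y).continuous_of_finiteDimensional.measurable, ?_⟩
  rw [Real.map_linearMap_volume_pi_eq_smul_volume_pi (left_ne_zero_of_mul_eq_one h)]
  rcases mul_self_eq_one_iff.1 h with e | e <;> simp [e]

lemma rho_lat' (y : X) (t t' : X → ℝ) (hc : t y ≤ t' y) :
    rho X t * rho X t' ≤ rho X (T y (T y t ⊔ T y t')) * rho X (T y (T y t ⊓ T y t')) := by
  have e1 : T y (T y t ⊔ T y t') = fun w => max (t w) (t' w - (t' y - t y)) := by
    funext w
    by_cases h : w = y
    · rw [h, T_self, Pi.sup_apply, T_self, T_self, max_eq_left (neg_le_neg hc), neg_neg,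
        sub_sub_cancel, max_self]
    · rw [T_ne h, Pi.sup_apply, Pi.sup_apply, T_ne h, T_ne h, T_self, T_self,
        max_eq_left (neg_le_neg hc), ← max_sub_sub_right]
      congr 1 <;> ring
  have e2 : T y (T y t ⊓ T y t') = fun w => min (t w + (t' y - t y)) (t' w) := by
    funext w
    by_cases h : w = y
    · rw [h, T_self, Pi.inf_apply, T_self, T_self, min_eq_right (neg_le_neg hc), neg_neg,
        add_sub_cancel, min_self]
    · rw [T_ne h, Pi.inf_apply, Pi.inf_apply, T_ne h, T_ne h, T_self, T_self,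
        min_eq_right (neg_le_neg hc), ← min_sub_sub_right]
      congr 1 <;> ring
  rw [e1, e2]
  have c0 := sub_nonneg.2 hc
  generalize t' y - t y = c at c0
  unfold rho
  by_cases h : (∀ x, 0 ≤ t x) ∧ Monotone t
  swap
  · simp [h]
  by_cases h' : (∀ x, 0 ≤ t' x) ∧ Monotone t'
  swap
  · simp [h']
  have p1 : ∀ w, 0 ≤ max (t w) (t' w - c) := fun w => le_max_of_le_left (h.1 w)
  have p2 : ∀ w, 0 ≤ min (t w + c) (t' w) := fun w => le_min (add_nonneg (h.1 w) c0) (h'.1 w)
  rw [if_pos h, if_pos h',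
    if_pos ⟨p1, fun a b k => max_le_max (h.2 k) (sub_le_sub_right (h'.2 k) c)⟩,
    if_pos ⟨p2, fun a b k => min_le_min (add_le_add_left (h.2 k) c) (h'.2 k)⟩,
    ← ENNReal.ofReal_mul (Real.exp_pos _).le, ← ENNReal.ofReal_mul (Real.exp_pos _).le,
    ← Real.exp_add, ← Real.exp_add]
  refine ENNReal.ofReal_le_ofReal (Real.exp_le_exp.2 ?_)
  have n1 : ∀ w, t w ≤ ‖t‖ := fun w => (le_abs_self _).trans (norm_le_pi_norm t w)
  have n2 : ∀ w, t' w ≤ ‖t'‖ := fun w => (le_abs_self _).trans (norm_le_pi_norm t' w)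
  have a1 : ‖fun w => max (t w) (t' w - c)‖ ≤ max ‖t‖ (‖t'‖ - c) :=
    (pi_norm_le_iff_of_nonneg (le_max_of_le_left (norm_nonneg t))).2 fun w => by
      rw [Real.norm_of_nonneg (p1 w)]
      exact max_le_max (n1 w) (sub_le_sub_right (n2 w) c)
  have a2 : ‖fun w => min (t w + c) (t' w)‖ ≤ min (‖t‖ + c) ‖t'‖ :=
    (pi_norm_le_iff_of_nonneg (le_min (add_nonneg (norm_nonneg t) c0) (norm_nonneg t'))).2
      fun w => by
        rw [Real.norm_of_nonneg (p2 w)]
        exact min_le_min (add_le_add_left (n1 w) c) (n2 w)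
  rcases le_total ‖t‖ (‖t'‖ - c) with k | k
  · rw [max_eq_right k] at a1
    linarith [min_le_left (‖t‖ + c) ‖t'‖]
  · rw [max_eq_left k] at a1
    linarith [min_le_right (‖t‖ + c) ‖t'‖]

lemma rho_lat (y : X) (u v : X → ℝ) :
    rho X (T y u) * rho X (T y v) ≤ rho X (T y (u ⊔ v)) * rho X (T y (u ⊓ v)) := by
  rcases le_total (T y u y) (T y v y) with k | k
  · simpa only [T_T] using rho_lat' y _ _ k
  · simpa only [T_T, mul_comm (rho X (T y v)), sup_comm v, inf_comm v] using rho_lat' y _ _ k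

lemma lint (y : X) {F : (X → ℝ) → ℝ≥0∞} (hF : Measurable F) :
    ∫⁻ t, F (T y t) ∂mX X = ((LE X).card : ℝ≥0∞)⁻¹ * ∫⁻ u, rho X (T y u) * F u := by
  have hT : Measurable fun t => F (T y t) := hF.comp (T_pres y).measurable
  rw [mX, lintegral_smul_measure, lintegral_withDensity_eq_lintegral_mul _ measurable_rho hT,
    ← (T_pres y).lintegral_comp (measurable_rho.mul hT), smul_eq_mul]
  simp only [Pi.mul_apply, T_T]

lemma four (h : FFStmt) (y : X) {p q r s : (X → ℝ) → ℝ} (mp : Measurable p) (mq : Measurable q)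
    (mr : Measurable r) (ms : Measurable s) (p0 : ∀ u, 0 ≤ p u) (q0 : ∀ u, 0 ≤ q u)
    (r0 : ∀ u, 0 ≤ r u) (s0 : ∀ u, 0 ≤ s u) (ip : Integrable (fun t => p (T y t)) (mX X))
    (iq : Integrable (fun t => q (T y t)) (mX X)) (ir : Integrable (fun t => r (T y t)) (mX X))
    (is : Integrable (fun t => s (T y t)) (mX X)) (hh : ∀ u v, p u * q v ≤ r (u ⊔ v) * s (u ⊓ v)) :
    (∫ t, p (T y t) ∂mX X) * ∫ t, q (T y t) ∂mX X ≤
      (∫ t, r (T y t) ∂mX X) * ∫ t, s (T y t) ∂mX X := by
  have hr := measurable_rho.comp (T_pres y).measurable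
  have e : ∀ {p : (X → ℝ) → ℝ}, Measurable p → (∀ u, 0 ≤ p u) →
      Integrable (fun t => p (T y t)) (mX X) → ENNReal.ofReal (∫ t, p (T y t) ∂mX X) =
        ((LE X).card : ℝ≥0∞)⁻¹ * ∫⁻ u, rho X (T y u) * ENNReal.ofReal (p u) := fun m p0 i => by
    rw [ofReal_integral_eq_lintegral_ofReal i (ae_of_all _ fun t => p0 _),
      lint y m.ennreal_ofReal]
  rw [← ENNReal.ofReal_le_ofReal_iff (mul_nonneg (integral_nonneg fun t => r0 _)
    (integral_nonneg fun t => s0 _)), ENNReal.ofReal_mul (integral_nonneg fun t => p0 _),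
    ENNReal.ofReal_mul (integral_nonneg fun t => r0 _), e mp p0 ip, e mq q0 iq, e mr r0 ir,
    e ms s0 is, mul_mul_mul_comm, mul_mul_mul_comm _ (∫⁻ u, rho X (T y u) * ENNReal.ofReal (r u))]
  refine mul_le_mul_right (h X _ _ _ _ (hr.mul mp.ennreal_ofReal) (hr.mul mq.ennreal_ofReal)
    (hr.mul mr.ennreal_ofReal) (hr.mul ms.ennreal_ofReal) fun u v => ?_) _
  simp only [Pi.mul_apply, Function.comp_apply]
  rw [mul_mul_mul_comm, mul_mul_mul_comm (rho X (T y (u ⊔ v))), ← ENNReal.ofReal_mul (p0 u),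
    ← ENNReal.ofReal_mul (r0 _)]
  exact mul_le_mul' (rho_lat y u v) (ENNReal.ofReal_le_ofReal (hh u v))

lemma cov_nonneg (h : FFStmt) [IsProbabilityMeasure (mX X)] (y x z : X)
    (ha : MemLp (fun t => T y t x) 2 (mX X)) (hb : MemLp (fun t => T y t z) 2 (mX X)) :
    0 ≤ cov[fun t => T y t x, fun t => T y t z; mX X] := by
  have P : ∀ {a b : ℝ}, max a 0 ≤ max (max a b) 0 := max_le_max_right 0 (le_max_left _ _)
  have P' : ∀ {a b : ℝ}, max b 0 ≤ max (max a b) 0 := max_le_max_right 0 (le_max_right _ _)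
  have N : ∀ {a b : ℝ}, max (-a) 0 ≤ max (-min a b) 0 :=
    max_le_max_right 0 (neg_le_neg (min_le_left _ _))
  have N' : ∀ {a b : ℝ}, max (-b) 0 ≤ max (-min a b) 0 :=
    max_le_max_right 0 (neg_le_neg (min_le_right _ _))
  have z0 : ∀ {a : ℝ}, 0 ≤ max a 0 := le_max_right _ _
  have i1 := ha.pos_part.integrable one_le_two
  have i2 := ha.neg_part.integrable one_le_two
  have i3 := hb.pos_part.integrable one_le_two
  have i4 := hb.neg_part.integrable one_le_two
  have j1 := ha.pos_part.integrable_mul hb.pos_part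
  have j2 := ha.neg_part.integrable_mul hb.neg_part
  have j3 := ha.pos_part.integrable_mul hb.neg_part
  have j4 := ha.neg_part.integrable_mul hb.pos_part
  have one : Integrable (fun _ : X → ℝ => (1 : ℝ)) (mX X) := integrable_const 1
  have k1 := four h y (p := fun u => max (u x) 0) (q := fun u => max (u z) 0)
    (r := fun u => max (u x) 0 * max (u z) 0) (s := fun _ => 1) (by fun_prop) (by fun_prop)
    (by fun_prop) (by fun_prop) (fun _ => z0) (fun _ => z0) (fun _ => mul_nonneg z0 z0)
    (fun _ => zero_le_one) i1 i3 j1 one fun u v => (mul_le_mul P P' z0 z0).trans_eq (mul_one _).symm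
  have k2 := four h y (p := fun u => max (-u x) 0) (q := fun u => max (-u z) 0)
    (r := fun _ => 1) (s := fun u => max (-u x) 0 * max (-u z) 0) (by fun_prop) (by fun_prop)
    (by fun_prop) (by fun_prop) (fun _ => z0) (fun _ => z0) (fun _ => zero_le_one)
    (fun _ => mul_nonneg z0 z0) i2 i4 one j2 fun u v =>
      (mul_le_mul N N' z0 z0).trans_eq (one_mul _).symm
  have k3 := four h y (p := fun u => max (u x) 0 * max (-u z) 0) (q := fun _ => 1)
    (r := fun u => max (u x) 0) (s := fun u => max (-u z) 0) (by fun_prop) (by fun_prop)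
    (by fun_prop) (by fun_prop) (fun _ => mul_nonneg z0 z0) (fun _ => zero_le_one) (fun _ => z0)
    (fun _ => z0) j3 one i1 i4 fun u v => (mul_one _).trans_le (mul_le_mul P N z0 z0)
  have k4 := four h y (p := fun u => max (-u x) 0 * max (u z) 0) (q := fun _ => 1)
    (r := fun u => max (u z) 0) (s := fun u => max (-u x) 0) (by fun_prop) (by fun_prop)
    (by fun_prop) (by fun_prop) (fun _ => mul_nonneg z0 z0) (fun _ => zero_le_one) (fun _ => z0)
    (fun _ => z0) j4 one i3 i2 fun u v =>
      ((mul_one _).trans (mul_comm _ _)).trans_le (mul_le_mul P N z0 z0)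
  have e : ∀ a : ℝ, a = max a 0 - max (-a) 0 := fun a => (max_zero_sub_max_neg_zero_eq_self a).symm
  have e1 : ∫ t, T y t x ∂mX X = _ := (integral_congr_ae (ae_of_all _ fun t => e _)).trans
    (integral_sub i1 i2)
  have e2 : ∫ t, T y t z ∂mX X = _ := (integral_congr_ae (ae_of_all _ fun t => e _)).trans
    (integral_sub i3 i4)
  have e3 : ∫ t, T y t x * T y t z ∂mX X =
      (∫ t, max (T y t x) 0 * max (T y t z) 0 ∂mX X + ∫ t, max (-T y t x) 0 * max (-T y t z) 0 ∂mX X) -
      (∫ t, max (T y t x) 0 * max (-T y t z) 0 ∂mX X +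
        ∫ t, max (-T y t x) 0 * max (T y t z) 0 ∂mX X) := by
    refine Eq.trans (integral_congr_ae (ae_of_all _ fun t => ?_))
      ((integral_sub (j1.add j2) (j3.add j4)).trans
        (congrArg₂ _ (integral_add j1 j2) (integral_add j3 j4)))
    simp only [Pi.add_apply, Pi.mul_apply]
    conv_lhs => rw [e (T y t x), e (T y t z)]
    ring
  rw [covariance_eq_sub ha hb]
  simp only [Pi.mul_apply, integral_const, probReal_univ, smul_eq_mul, mul_one, one_mul] at *
  rw [e1, e2, e3]
  linarith

end SH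

theorem sh (h : FFStmt) (hm : MOMStmt) : SHStmt := by
  intro X _ _ x y z
  have := (hm X).1
  by_cases hx : x = y
  · exact hx ▸ le_add_of_nonneg_left (variance_nonneg _ _)
  by_cases hz : z = y
  · exact hz ▸ le_add_of_nonneg_right (variance_nonneg _ _)
  have ha := ((hm X).2 y x).1
  have hb := ((hm X).2 y z).1
  have c := SH.cov_nonneg h y z x (by simpa only [SH.T_ne hz] using hb)
    (by simpa only [SH.T_ne hx] using ha)
  simp only [SH.T_ne hx, SH.T_ne hz] at c
  have e1 := variance_fun_sub hb ha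
  have e2 := variance_fun_neg (X := fun t : X → ℝ => t x - t y) (μ := mX X)
  simp only [sub_sub_sub_cancel_right, neg_sub] at e1 e2
  linarith

end Pool.Agent.Lib.MP_bd7e44_co.LR
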