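import Pool.Agent.Lib.MP_bd7e44_co.H96Defs

/-!
Weights on sets of positions that do not decrease when a point moves up.
-/

namespace Pool.Agent.Lib.MP_bd7e44_co.LR

open Finset

namespace Word

/-- Exchange of two positions. -/
def sw (u v : ℕ) (S : Finset ℕ) : Finset ℕ := S.map (Equiv.swap u v).toEmbedding

lemma mem_sw {u v x : ℕ} {S : Finset ℕ} : x ∈ sw u v S ↔ Equiv.swap u v x ∈ S := by
  simp [sw, Finset.mem_map_equiv]

lemma sw_sw (u v : ℕ) (S : Finset ℕ) : sw u v (sw u v S) = S := by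
  ext x
  simp [mem_sw]

lemma left_mem_sw {u v : ℕ} {S : Finset ℕ} : u ∈ sw u v S ↔ v ∈ S := by simp [mem_sw]

lemma right_mem_sw {u v : ℕ} {S : Finset ℕ} : v ∈ sw u v S ↔ u ∈ S := by simp [mem_sw]

lemma mem_sw_of_ne {u v x : ℕ} {S : Finset ℕ} (h1 : x ≠ u) (h2 : x ≠ v) :
    x ∈ sw u v S ↔ x ∈ S := by
  rw [mem_sw, Equiv.swap_apply_of_ne_of_ne h1 h2]

lemma sw_of_iff {u v : ℕ} {S : Finset ℕ} (h : u ∈ S ↔ v ∈ S) : sw u v S = S := by
  ext x
  by_cases h1 : x = u
  · rw [h1, left_mem_sw, h]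
  · by_cases h2 : x = v
    · rw [h2, right_mem_sw, h]
    · exact mem_sw_of_ne h1 h2

lemma sw_eq {u v : ℕ} {S : Finset ℕ} (hu : u ∈ S) (hv : v ∉ S) :
    sw u v S = insert v (S.erase u) := by
  have huv : u ≠ v := fun h => hv (h ▸ hu)
  ext x
  by_cases h1 : x = u
  · rw [h1, left_mem_sw]
    simp [hv, huv]
  · by_cases h2 : x = v
    · rw [h2, right_mem_sw]
      simp [hu]
    · rw [mem_sw_of_ne h1 h2]
      simp [h1, h2]

lemma sw_sub {n u v : ℕ} (hu : u < n) (hv : v < n) {S : Finset ℕ} (hS : S ∈ (range n).powerset) :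
    sw u v S ∈ (range n).powerset := by
  rw [mem_powerset] at hS ⊢
  intro x hx
  by_cases h1 : x = u
  · exact mem_range.mpr (h1 ▸ hu)
  · by_cases h2 : x = v
    · exact mem_range.mpr (h2 ▸ hv)
    · exact hS ((mem_sw_of_ne h1 h2).mp hx)

variable {n : ℕ} {w : Finset ℕ → ℝ}

lemma long (hw : ∀ S u, u ∈ S → u + 1 ∉ S → u + 1 < n → w S ≤ w (insert (u + 1) (S.erase u)))
    (d : ℕ) : ∀ (u : ℕ) (S : Finset ℕ), u + d + 1 < n → u ∈ S → u + d + 1 ∉ S →
      w S ≤ w (insert (u + d + 1) (S.erase u)) := by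
  induction d with
  | zero => intro u S h1 h2 h3; exact hw S u h2 h3 h1
  | succ d ih =>
    intro u S h1 h2 h3
    have e : u + (d + 1) + 1 = u + 1 + d + 1 := by omega
    rw [e] at h1 h3 ⊢
    by_cases h4 : u + 1 ∈ S
    · refine (ih (u + 1) S h1 h4 h3).trans ((hw _ u ?_ ?_ (by omega)).trans_eq ?_)
      · simp [h2]
      · simp only [mem_insert, mem_erase, ne_eq, not_true_eq_false, false_and, or_false]
        omega
      · congr 1
        ext x
        simp only [mem_insert, mem_erase]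
        constructor
        · rintro (rfl | ⟨a, rfl | ⟨-, b⟩⟩)
          · exact Or.inr ⟨by omega, h4⟩
          · exact Or.inl rfl
          · exact Or.inr ⟨a, b⟩
        · rintro (rfl | ⟨a, b⟩)
          · exact Or.inr ⟨by omega, Or.inl rfl⟩
          · by_cases h5 : x = u + 1
            · exact Or.inl h5
            · exact Or.inr ⟨a, Or.inr ⟨h5, b⟩⟩
    · refine (hw S u h2 h4 (by omega)).trans ((ih (u + 1) _ h1 (mem_insert_self _ _) ?_).trans_eq ?_)
      · simp only [mem_insert, mem_erase, not_or, not_and]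
        exact ⟨by omega, fun _ => h3⟩
      · rw [erase_insert fun h => h4 (mem_of_mem_erase h)]

lemma le_sw (hw : ∀ S u, u ∈ S → u + 1 ∉ S → u + 1 < n → w S ≤ w (insert (u + 1) (S.erase u)))
    {u v : ℕ} (huv : u < v) (hv : v < n) {S : Finset ℕ} (h1 : u ∈ S) (h2 : v ∉ S) :
    w S ≤ w (sw u v S) := by
  obtain ⟨d, rfl⟩ := Nat.exists_eq_add_of_lt huv
  rw [sw_eq h1 h2]
  exact long hw d u S hv h1 h2

/-- Matching each set with its exchange. -/
lemma sum_nonneg_sw (h0 : ∀ S, 0 ≤ w S)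
    (hw : ∀ S u, u ∈ S → u + 1 ∉ S → u + 1 < n → w S ≤ w (insert (u + 1) (S.erase u)))
    {u v : ℕ} (huv : u < v) (hv : v < n) (g : Finset ℕ → ℝ)
    (g1 : ∀ S, (u ∈ S ↔ v ∈ S) → 0 ≤ g S)
    (g2 : ∀ S, u ∈ S → v ∉ S → 0 ≤ g (sw u v S) ∧ 0 ≤ g S + g (sw u v S)) :
    0 ≤ ∑ S ∈ (range n).powerset, w S * g S := by
  have h1 : ∑ S ∈ (range n).powerset, w (sw u v S) * g (sw u v S) =
      ∑ S ∈ (range n).powerset, w S * g S :=
    sum_nbij' (sw u v) (sw u v) (fun S hS => sw_sub (huv.trans hv) hv hS)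
      (fun S hS => sw_sub (huv.trans hv) hv hS) (fun S _ => sw_sw u v S) (fun S _ => sw_sw u v S)
      fun _ _ => rfl
  have key : ∀ S, u ∈ S → v ∉ S → 0 ≤ w S * g S + w (sw u v S) * g (sw u v S) := by
    intro S a b
    obtain ⟨c, d⟩ := g2 S a b
    have e1 := mul_le_mul_of_nonneg_right (le_sw hw huv hv a b) c
    have e2 := mul_nonneg (h0 S) d
    nlinarith
  have h2 : 0 ≤ ∑ S ∈ (range n).powerset, (w S * g S + w (sw u v S) * g (sw u v S)) := by
    refine sum_nonneg fun S _ => ?_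
    by_cases a : u ∈ S <;> by_cases b : v ∈ S
    · rw [sw_of_iff (iff_of_true a b)]
      have := mul_nonneg (h0 S) (g1 S (iff_of_true a b))
      linarith
    · exact key S a b
    · have := key (sw u v S) (left_mem_sw.mpr b) (fun h => a (right_mem_sw.mp h))
      rw [sw_sw] at this
      linarith
    · rw [sw_of_iff (iff_of_false a b)]
      have := mul_nonneg (h0 S) (g1 S (iff_of_false a b))
      linarith
  rw [sum_add_distrib, h1] at h2
  linarith

/-- The indicator of a set. -/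
def ind (S : Finset ℕ) (x : ℕ) : ℝ := if x ∈ S then 1 else 0

lemma card_eq (S I : Finset ℕ) : ((S ∩ I).card : ℝ) = ∑ x ∈ I, ind S x := by
  simp only [ind, sum_boole, filter_mem_eq_inter, inter_comm]

lemma card_Ico (S : Finset ℕ) (c h : ℕ) :
    ((S ∩ Ico c (c + h)).card : ℝ) = ∑ u : Fin h, ind S (c + u) := by
  rw [card_eq, sum_Ico_eq_sum_range, Nat.add_sub_cancel_left,
    Fin.sum_univ_eq_sum_range (fun u => ind S (c + u))]

/-- The expected positive part after `m` steps of the simple random walk. -/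
noncomputable def R : ℕ → ℝ → ℝ
  | 0, x => max x 0
  | m + 1, x => (R m (x + 1) + R m (x - 1)) / 2

lemma R_mono (m : ℕ) : Monotone (R m) := by
  induction m with
  | zero => exact fun x y h => max_le_max h le_rfl
  | succ m ih =>
    intro x y h
    have h1 := ih (show x + 1 ≤ y + 1 by linarith)
    have h2 := ih (show x - 1 ≤ y - 1 by linarith)
    simp only [R]
    linarith

lemma R_ge {q : ℝ} (hq : 0 < q) (m : ℕ) : ∀ x : ℝ,
    x / 2 + (x ^ 2 + m) / (4 * q) - (x ^ 4 + 6 * m * x ^ 2 + 3 * m ^ 2 - 2 * m) / (64 * q ^ 3) ≤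
      R m x := by
  induction m with
  | zero =>
    intro x
    have h1 : max x 0 = x / 2 + |x| / 2 := by
      rcases le_total x 0 with h | h
      · rw [max_eq_right h, abs_of_nonpos h]; ring
      · rw [max_eq_left h, abs_of_nonneg h]; ring
    obtain ⟨t, ht, hx⟩ : ∃ t, 0 ≤ t ∧ |x| = t * q :=
      ⟨|x| / q, div_nonneg (abs_nonneg x) hq.le, by field_simp⟩
    have h2 : x ^ 2 = (t * q) ^ 2 := by rw [← hx, sq_abs]
    have h4 : x ^ 4 = (t * q) ^ 4 := by
      calc x ^ 4 = (x ^ 2) ^ 2 := by ring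
        _ = (t * q) ^ 4 := by rw [h2]; ring
    have h5 : 0 ≤ t ^ 3 - 16 * t + 32 := by
      nlinarith [mul_nonneg ht (sq_nonneg (t - 2)), sq_nonneg (t - 5 / 2)]
    simp only [R, Nat.cast_zero]
    rw [h1, hx, h2, h4]
    have h6 : ((t * q) ^ 2 + 0) / (4 * q) -
        ((t * q) ^ 4 + 6 * 0 * (t * q) ^ 2 + 3 * 0 ^ 2 - 2 * 0) / (64 * q ^ 3) =
          t * q / 2 - t * q * (t ^ 3 - 16 * t + 32) / 64 := by
      field_simp
      ring
    have h7 : 0 ≤ t * q * (t ^ 3 - 16 * t + 32) := mul_nonneg (mul_nonneg ht hq.le) h5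
    linarith
  | succ m ih =>
    intro x
    have h1 := ih (x + 1)
    have h2 := ih (x - 1)
    simp only [R]
    refine le_trans (le_of_eq ?_) (div_le_div_of_nonneg_right (add_le_add h1 h2) zero_le_two)
    push_cast
    field_simp
    ring

lemma R_zero {q : ℝ} (hq : 0 < q) {m : ℕ} (hm : (m : ℝ) ≤ q ^ 2) : m ≤ 8 * q * R m 0 := by
  have h1 := R_ge hq m 0
  have h0 : (0 : ℝ) ≤ m := Nat.cast_nonneg m
  have h2 : (m : ℝ) / (8 * q) ≤ 0 / 2 + (0 ^ 2 + m) / (4 * q) -
      (0 ^ 4 + 6 * m * 0 ^ 2 + 3 * m ^ 2 - 2 * m) / (64 * q ^ 3) := by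
    have h3 : (0 : ℝ) / 2 + (0 ^ 2 + m) / (4 * q) -
        (0 ^ 4 + 6 * m * 0 ^ 2 + 3 * m ^ 2 - 2 * m) / (64 * q ^ 3) - m / (8 * q) =
          m * (8 * q ^ 2 - 3 * m + 2) / (64 * q ^ 3) := by
      field_simp
      ring
    have h4 : 0 ≤ (m : ℝ) * (8 * q ^ 2 - 3 * m + 2) / (64 * q ^ 3) :=
      div_nonneg (mul_nonneg h0 (by nlinarith [sq_nonneg q])) (by positivity)
    linarith
  have h5 := (div_le_iff₀ (by positivity)).mp (h2.trans h1)
  linarith

section Pairs

variable {ι : Type} [Fintype ι] [DecidableEq ι] (p r : ι → ℕ)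

/-- The number of mixed pairs in `P`. -/
def mix (P : Finset ι) (S : Finset ℕ) : ℕ := (P.filter fun i => ¬ (p i ∈ S ↔ r i ∈ S)).card

/-- The interpolating function. -/
noncomputable def H (P : Finset ι) (S : Finset ℕ) : ℝ :=
  R (mix p r P S) (∑ i ∈ Pᶜ, (ind S (r i) - ind S (p i)))

variable {p r}

lemma H_step (h0 : ∀ S, 0 ≤ w S)
    (hw : ∀ S u, u ∈ S → u + 1 ∉ S → u + 1 < n → w S ≤ w (insert (u + 1) (S.erase u)))
    (hp : Function.Injective p) (hr : Function.Injective r) (hpr : ∀ i j, p i < r j)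
    (hn : ∀ i, r i < n) {P : Finset ι} {i : ι} (hi : i ∉ P) :
    ∑ S ∈ (range n).powerset, w S * H p r (insert i P) S ≤
      ∑ S ∈ (range n).powerset, w S * H p r P S := by
  have e1 : Pᶜ = insert i (insert i P)ᶜ := by
    rw [compl_insert, insert_erase (mem_compl.mpr hi)]
  have e2 : i ∉ (insert i P)ᶜ := by simp
  have f1 : ∀ S, H p r P S = R (mix p r P S)
      (∑ j ∈ (insert i P)ᶜ, (ind S (r j) - ind S (p j)) + (ind S (r i) - ind S (p i))) := by
    intro S
    rw [H, e1, sum_insert e2, add_comm]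
  have f2 : ∀ S, (p i ∈ S ↔ r i ∈ S) → mix p r (insert i P) S = mix p r P S := by
    intro S h
    rw [mix, filter_insert, if_neg (not_not.mpr h), mix]
  have f3 : ∀ S, ¬ (p i ∈ S ↔ r i ∈ S) → mix p r (insert i P) S = mix p r P S + 1 := by
    intro S h
    rw [mix, filter_insert, if_pos h, card_insert_of_notMem fun h' => hi (mem_filter.mp h').1, mix]
  have s1 : ∀ S j, j ≠ i → (p j ∈ sw (p i) (r i) S ↔ p j ∈ S) := fun S j hj =>
    mem_sw_of_ne (fun h => hj (hp h)) (hpr j i).ne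
  have s2 : ∀ S j, j ≠ i → (r j ∈ sw (p i) (r i) S ↔ r j ∈ S) := fun S j hj =>
    mem_sw_of_ne (hpr i j).ne' fun h => hj (hr h)
  have s3 : ∀ S, mix p r P (sw (p i) (r i) S) = mix p r P S := by
    intro S
    unfold mix
    congr 1
    refine filter_congr fun j hj => ?_
    have : j ≠ i := fun h => hi (h ▸ hj)
    rw [s1 S j this, s2 S j this]
  have s4 : ∀ S, ∑ j ∈ (insert i P)ᶜ, (ind (sw (p i) (r i) S) (r j) - ind (sw (p i) (r i) S) (p j))
      = ∑ j ∈ (insert i P)ᶜ, (ind S (r j) - ind S (p j)) := by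
    intro S
    refine sum_congr rfl fun j hj => ?_
    have : j ≠ i := fun h => e2 (h ▸ hj)
    simp only [ind, s1 S j this, s2 S j this]
  have key := sum_nonneg_sw h0 hw (hpr i i) (hn i) (fun S => H p r P S - H p r (insert i P) S)
    (fun S h => by
      have : ind S (r i) - ind S (p i) = 0 := by simp only [ind, h, sub_self]
      rw [f1, this, add_zero, H, f2 S h, sub_self])
    (fun S a b => by
      have a' : p i ∉ sw (p i) (r i) S := fun h => b (left_mem_sw.mp h)
      have b' : r i ∈ sw (p i) (r i) S := right_mem_sw.mpr a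
      have c1 : ind S (r i) - ind S (p i) = -1 := by simp [ind, a, b]
      have c2 : ind (sw (p i) (r i) S) (r i) - ind (sw (p i) (r i) S) (p i) = 1 := by
        simp [ind, a', b']
      rw [f1, f1, c1, c2, H, H, f3 S fun h => b (h.mp a), f3 _ fun h => a' (h.mpr b'), s3, s4,
        R, ← sub_eq_add_neg]
      have := R_mono (mix p r P S)
        (show ∑ j ∈ (insert i P)ᶜ, (ind S (r j) - ind S (p j)) - 1 ≤
          ∑ j ∈ (insert i P)ᶜ, (ind S (r j) - ind S (p j)) + 1 by linarith)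
      constructor <;> linarith)
  simp only [mul_sub, sum_sub_distrib] at key
  linarith

lemma pairs (h0 : ∀ S, 0 ≤ w S)
    (hw : ∀ S u, u ∈ S → u + 1 ∉ S → u + 1 < n → w S ≤ w (insert (u + 1) (S.erase u)))
    (hp : Function.Injective p) (hr : Function.Injective r) (hpr : ∀ i j, p i < r j)
    (hn : ∀ i, r i < n) {q : ℝ} (hq : 0 < q) (hc : (Fintype.card ι : ℝ) ≤ q ^ 2) :
    ∑ S ∈ (range n).powerset,
        w S * ∑ i, (ind S (p i) + ind S (r i) - 2 * ind S (p i) * ind S (r i)) ≤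
      8 * q * ∑ S ∈ (range n).powerset, w S * max (∑ i, ind S (r i) - ∑ i, ind S (p i)) 0 := by
  have h1 : ∀ P : Finset ι, ∑ S ∈ (range n).powerset, w S * H p r P S ≤
      ∑ S ∈ (range n).powerset, w S * H p r ∅ S := by
    intro P
    induction P using Finset.induction_on with
    | empty => exact le_rfl
    | insert i P hi ih => exact (H_step h0 hw hp hr hpr hn hi).trans ih
  have h2 : ∀ S, H p r ∅ S = max (∑ i, ind S (r i) - ∑ i, ind S (p i)) 0 := by
    intro S
    simp [H, mix, R]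
  have h3 : ∀ S, ∑ i, (ind S (p i) + ind S (r i) - 2 * ind S (p i) * ind S (r i)) =
      mix p r univ S := by
    intro S
    rw [mix, ← sum_boole]
    refine sum_congr rfl fun i _ => ?_
    by_cases a : p i ∈ S <;> by_cases b : r i ∈ S <;> simp [ind, a, b]
    norm_num
  have h4 : ∀ S, (mix p r univ S : ℝ) ≤ 8 * q * H p r univ S := by
    intro S
    rw [H, compl_univ, sum_empty]
    refine R_zero hq (le_trans ?_ hc)
    exact_mod_cast card_le_univ _
  have h5 := h1 univ
  simp only [h2] at h5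
  refine le_trans ?_ (mul_le_mul_of_nonneg_left h5 (by positivity))
  rw [mul_sum]
  refine sum_le_sum fun S _ => ?_
  rw [h3, mul_left_comm]
  exact mul_le_mul_of_nonneg_left (h4 S) (h0 S)

end Pairs

lemma part1 (h0 : ∀ S, 0 ≤ w S)
    (hw : ∀ S u, u ∈ S → u + 1 ∉ S → u + 1 < n → w S ≤ w (insert (u + 1) (S.erase u)))
    {u v : ℕ} (huv : u < v) (hv : v < n) :
    0 ≤ ∑ S ∈ (range n).powerset, w S * (ind S v - ind S u) := by
  refine sum_nonneg_sw h0 hw huv hv _ (fun S h => ?_) fun S a b => ?_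
  · simp only [ind, h, sub_self, le_refl]
  · have a' : u ∉ sw u v S := fun h => b (left_mem_sw.mp h)
    have b' : v ∈ sw u v S := right_mem_sw.mpr a
    simp [ind, a, b, a', b']

lemma part2 (h0 : ∀ S, 0 ≤ w S)
    (hw : ∀ S u, u ∈ S → u + 1 ∉ S → u + 1 < n → w S ≤ w (insert (u + 1) (S.erase u)))
    {b h : ℕ} [NeZero h] {q : ℝ} (hq : 0 < q) (hh : (h : ℝ) = q ^ 2) (hb : b + h + h ≤ n) :
    ∑ S ∈ (range n).powerset, w S * ((∑ u : Fin h, ind S (b + u) + ∑ u : Fin h, ind S (b + h + u)) *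
        (2 * q ^ 2 - (∑ u : Fin h, ind S (b + u) + ∑ u : Fin h, ind S (b + h + u)))) ≤
      16 * q ^ 3 * ∑ S ∈ (range n).powerset,
        w S * max (∑ u : Fin h, ind S (b + h + u) - ∑ u : Fin h, ind S (b + u)) 0 := by
  have h1 : ∀ k : Fin h, ∑ S ∈ (range n).powerset,
      w S * ∑ u : Fin h, (ind S (b + u) + ind S (b + h + (u + k : Fin h)) -
        2 * ind S (b + u) * ind S (b + h + (u + k : Fin h))) ≤
      8 * q * ∑ S ∈ (range n).powerset,
        w S * max (∑ u : Fin h, ind S (b + h + u) - ∑ u : Fin h, ind S (b + u)) 0 := by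
    intro k
    have := pairs (p := fun u : Fin h => b + u) (r := fun u : Fin h => b + h + (u + k : Fin h))
      h0 hw (fun x y hxy => Fin.ext (Nat.add_left_cancel hxy))
      (fun x y hxy => add_right_cancel (Fin.ext (Nat.add_left_cancel hxy)))
      (fun x y => (Nat.add_lt_add_left x.2 b).trans_le (Nat.le_add_right _ _))
      (fun x => (Nat.add_lt_add_left (x + k).2 _).trans_le hb) hq
      (by rw [Fintype.card_fin, hh])
    have e : ∀ S, ∑ u : Fin h, ind S (b + h + (u + k : Fin h)) = ∑ u : Fin h, ind S (b + h + u) :=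
      fun S => Equiv.sum_comp (Equiv.addRight k) fun u : Fin h => ind S (b + h + u)
    simpa only [e] using this
  have h2 := sum_le_sum fun k (_ : k ∈ (univ : Finset (Fin h))) => h1 k
  rw [sum_const, card_univ, Fintype.card_fin, nsmul_eq_mul, hh, sum_comm] at h2
  have h3 : ∀ S, ∑ k : Fin h, ∑ u : Fin h, (ind S (b + u) + ind S (b + h + (u + k : Fin h)) -
        2 * ind S (b + u) * ind S (b + h + (u + k : Fin h))) =
      q ^ 2 * ∑ u : Fin h, ind S (b + u) + q ^ 2 * ∑ u : Fin h, ind S (b + h + u) -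
        2 * (∑ u : Fin h, ind S (b + u)) * ∑ u : Fin h, ind S (b + h + u) := by
    intro S
    have e : ∀ u : Fin h,
        ∑ k : Fin h, ind S (b + h + (u + k : Fin h)) = ∑ k : Fin h, ind S (b + h + k) :=
      fun u => Equiv.sum_comp (Equiv.addLeft u) fun k : Fin h => ind S (b + h + k)
    rw [sum_comm]
    simp only [sum_sub_distrib, sum_add_distrib, ← mul_sum, e, sum_const, card_univ,
      Fintype.card_fin, nsmul_eq_mul, hh, ← sum_mul]
  simp only [← mul_sum, h3] at h2
  refine le_trans ?_ ((mul_le_mul_of_nonneg_left h2 zero_le_two).trans_eq (by ring))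
  rw [mul_sum]
  refine sum_le_sum fun S _ => ?_
  rw [mul_left_comm 2]
  refine mul_le_mul_of_nonneg_left ?_ (h0 S)
  nlinarith [sq_nonneg (∑ u : Fin h, ind S (b + u) - ∑ u : Fin h, ind S (b + h + u))]

end Word

open Word in
theorem word : WORDStmt := by
  intro n w h0 hw
  refine ⟨fun u v huv hv => ?_, fun b q hq hb => ?_⟩
  · have h1 := part1 h0 hw huv hv
    have e1 : ∀ x, ∑ S ∈ (range n).powerset with x ∈ S, w S =
        ∑ S ∈ (range n).powerset, w S * ind S x := fun x => by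
      simp only [sum_filter, ind, mul_ite, mul_one, mul_zero]
    have e2 : ∀ x, ∑ S ∈ (range n).powerset with x ∉ S, w S =
        ∑ S ∈ (range n).powerset, w S - ∑ S ∈ (range n).powerset, w S * ind S x := fun x => by
      rw [← e1, eq_sub_iff_add_eq', sum_filter_add_sum_filter_not]
    have p1 : 0 ≤ ∑ S ∈ (range n).powerset with v ∈ S, w S := sum_nonneg fun S _ => h0 S
    have p2 : 0 ≤ ∑ S ∈ (range n).powerset with u ∉ S, w S := sum_nonneg fun S _ => h0 S
    simp only [mul_sub, sum_sub_distrib] at h1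
    rw [e1] at p1
    rw [e2] at p2
    rw [e1, e1, e2, e2]
    constructor <;> linarith
  · have : NeZero (q ^ 2) := ⟨(pow_pos hq 2).ne'⟩
    have h1 := part2 h0 hw (b := b) (h := q ^ 2) (q := q) (by exact_mod_cast hq) (by push_cast; rfl)
      (by omega)
    have e : b + 2 * q ^ 2 = b + q ^ 2 + q ^ 2 := by omega
    have e1 : ∀ S : Finset ℕ, ((S ∩ Ico b (b + q ^ 2 + q ^ 2)).card : ℝ) =
        ∑ u : Fin (q ^ 2), ind S (b + u) + ∑ u : Fin (q ^ 2), ind S (b + q ^ 2 + u) := by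
      intro S
      rw [← card_Ico, ← card_Ico, card_eq, card_eq, card_eq,
        sum_Ico_consecutive _ (Nat.le_add_right _ _) (Nat.le_add_right _ _)]
    simp only [e, e1, card_Ico]
    exact h1

end Pool.Agent.Lib.MP_bd7e44_co.LR
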