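import Pool.Agent.Lib.MP_bd7e44_co.Masks

/-!
Soundness of the Farkas certificates.
-/

namespace Pool.Agent.Lib.MP_bd7e44_co

open Finset
open scoped Classical

variable {X : Type} [Fintype X] [PartialOrder X] {nd : Node} {ι : ℕ → X} {D : ℕ → ℕ}

/-- Weighted sum of the pair counts. -/
noncomputable def GG (ι : ℕ → X) (ps : List Mu) (T : Finset X) : ℕ :=
  (ps.map fun q => q.m * G (ι q.b) (ι q.a) T).sum

/-- Weighted sum of the centre counts. -/
noncomputable def CC (ι : ℕ → X) (cs : List Mu) (T : Finset X) : ℕ :=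
  (cs.map fun q => q.m * C (ι q.a) (toS ι q.b) T).sum

/-- Positive part of the pending terms. -/
noncomputable def pos (ι : ℕ → X) (cs : List Mu) (L : List Ent) : ℕ :=
  (L.map fun E => E.cp * e (toS ι E.S) + 27 * (E.u * CC ι cs (toS ι E.S))).sum

/-- Negative part of the pending terms. -/
noncomputable def neg (ι : ℕ → X) (ps : List Mu) (L : List Ent) : ℕ :=
  (L.map fun E => E.cn * e (toS ι E.S) + 3 * (E.u * GG ι ps (toS ι E.S))).sum

/-- All pending masks are in range. -/
def Bnd (n : ℕ) (L : List Ent) : Prop := ∀ E ∈ L, E.S < 2 ^ n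

lemma pos_ins (cs : List Mu) (S u cp cn : ℕ) : ∀ L : List Ent, pos ι cs (ins S u cp cn L) =
    pos ι cs L + (cp * e (toS ι S) + 27 * (u * CC ι cs (toS ι S)))
  | [] => by simp [ins, pos]
  | ⟨S', u', cp', cn'⟩ :: l => by
    have ih := pos_ins cs S u cp cn l
    rw [ins]
    cases h : Nat.beq S S'
    · cases Nat.ble S S'
      · simp only [pos, cond_false, List.map_cons, List.sum_cons] at ih ⊢
        omega
      · simp only [pos, cond_false, cond_true, List.map_cons, List.sum_cons]
        omega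
    · obtain rfl := Nat.eq_of_beq_eq_true h
      simp only [pos, cond_true, List.map_cons, List.sum_cons, Nat.add_eq]
      ring

lemma neg_ins (ps : List Mu) (S u cp cn : ℕ) : ∀ L : List Ent, neg ι ps (ins S u cp cn L) =
    neg ι ps L + (cn * e (toS ι S) + 3 * (u * GG ι ps (toS ι S)))
  | [] => by simp [ins, neg]
  | ⟨S', u', cp', cn'⟩ :: l => by
    have ih := neg_ins ps S u cp cn l
    rw [ins]
    cases h : Nat.beq S S'
    · cases Nat.ble S S'
      · simp only [neg, cond_false, List.map_cons, List.sum_cons] at ih ⊢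
        omega
      · simp only [neg, cond_false, cond_true, List.map_cons, List.sum_cons]
        omega
    · obtain rfl := Nat.eq_of_beq_eq_true h
      simp only [neg, cond_true, List.map_cons, List.sum_cons, Nat.add_eq]
      ring

lemma bnd_ins {n S : ℕ} (hS : S < 2 ^ n) (u cp cn : ℕ) :
    ∀ L : List Ent, Bnd n L → Bnd n (ins S u cp cn L)
  | [], _ => by simpa [ins, Bnd] using hS
  | ⟨S', u', cp', cn'⟩ :: l, h => by
    have h1 : S' < 2 ^ n := h _ List.mem_cons_self
    have h2 : Bnd n l := fun E hE => h E (List.mem_cons_of_mem _ hE)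
    have ih := bnd_ins hS u cp cn l h2
    rw [ins]
    cases Nat.beq S S'
    · cases Nat.ble S S'
      · exact List.forall_mem_cons.2 ⟨h1, ih⟩
      · exact List.forall_mem_cons.2 ⟨hS, h⟩
    · exact List.forall_mem_cons.2 ⟨hS, h2⟩

/-- Value of the extra terms of the centre constraints. -/
noncomputable def XX (ι : ℕ → X) (S z : ℕ) (cs : List Mu) : ℕ :=
  (cs.map fun q => q.m * if (act S q.a q.b && !Nat.beq z q.a && sub q.b (setb S z)) = true then
    e (toS ι (setb (setb S z) q.a)) else 0).sum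

lemma pos_extra (cs : List Mu) (S z u : ℕ) (L : List Ent) : ∀ l : List Mu,
    pos ι cs (extra S z u l L) = pos ι cs L + 27 * (u * XX ι S z l)
  | [] => by simp [extra, XX]
  | ⟨r, J, m⟩ :: l => by
    have ih := pos_extra cs S z u L l
    rw [extra]
    cases h : (act S r J && !Nat.beq z r && sub J (setb S z))
    · simpa only [XX, h, cond_false, List.map_cons, List.sum_cons, Bool.false_eq_true, if_false,
        mul_zero, zero_add] using ih
    · simp only [XX, h, cond_true, pos_ins, List.map_cons, List.sum_cons, Nat.mul_eq, if_true] at ih ⊢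
      rw [ih]
      ring

lemma neg_extra (ps : List Mu) (S z u : ℕ) (L : List Ent) : ∀ l : List Mu,
    neg ι ps (extra S z u l L) = neg ι ps L
  | [] => rfl
  | ⟨r, J, m⟩ :: l => by
    rw [extra]
    cases (act S r J && !Nat.beq z r && sub J (setb S z)) <;>
      simp [neg_ins, neg_extra ps S z u L l]

lemma bnd_extra {n S z : ℕ} (hS : setb S z < 2 ^ n) (u : ℕ) {L : List Ent} (hL : Bnd n L) :
    ∀ l : List Mu, (∀ q ∈ l, q.a < n) → Bnd n (extra S z u l L)
  | [], _ => hL
  | ⟨r, J, m⟩ :: l, h => by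
    have ih := bnd_extra hS u hL l fun q hq => h q (List.mem_cons_of_mem _ hq)
    rw [extra]
    cases (act S r J && !Nat.beq z r && sub J (setb S z))
    · exact ih
    · exact bnd_ins (setb_lt hS (h _ List.mem_cons_self)) _ _ _ _ ih

lemma pos_push (ps cs : List Mu) (S u cp cn : ℕ) (L : List Ent) : ∀ k : ℕ,
    pos ι cs (push ps cs S u cp cn (mkEls D k) L) = pos ι cs L +
      ∑ z ∈ range k, if (!tb S z && sub (D z) S) = true then
        cp * e (toS ι (setb S z)) + 27 * (u * (CC ι cs (toS ι (setb S z)) + XX ι S z cs)) else 0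
  | 0 => by simp [mkEls, push]
  | k + 1 => by
    rw [mkEls, push, sum_range_succ]
    cases h : (!tb S k && sub (D k) S)
    · simpa using pos_push ps cs S u cp cn L k
    · rw [cond_true, pos_ins, pos_extra, pos_push ps cs S u cp cn L k, if_pos rfl]
      ring

lemma neg_push (ps cs : List Mu) (S u cp cn : ℕ) (L : List Ent) : ∀ k : ℕ,
    neg ι ps (push ps cs S u cp cn (mkEls D k) L) = neg ι ps L +
      ∑ z ∈ range k, if (!tb S z && sub (D z) S) = true then
        cn * e (toS ι (setb S z)) +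
          3 * (u * (GG ι ps (toS ι (setb S z)) + aval S z ps * e (toS ι (setb S z)))) else 0
  | 0 => by simp [mkEls, push]
  | k + 1 => by
    rw [mkEls, push, sum_range_succ]
    cases h : (!tb S k && sub (D k) S)
    · simpa using neg_push ps cs S u cp cn L k
    · rw [cond_true, neg_ins, neg_extra, neg_push ps cs S u cp cn L k, if_pos rfl]
      simp only [Nat.add_eq, Nat.mul_eq]
      ring

lemma bnd_push {n S : ℕ} (hS : S < 2 ^ n) (ps : List Mu) {cs : List Mu} (hc : ∀ q ∈ cs, q.a < n)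
    (u cp cn : ℕ) {L : List Ent} (hL : Bnd n L) :
    ∀ k ≤ n, Bnd n (push ps cs S u cp cn (mkEls D k) L)
  | 0, _ => hL
  | k + 1, hk => by
    have ih := bnd_push hS ps hc u cp cn hL k (by omega)
    rw [mkEls, push]
    cases (!tb S k && sub (D k) S)
    · exact ih
    · exact bnd_ins (setb_lt hS hk) _ _ _ _ (bnd_extra (setb_lt hS hk) u ih cs hc)

lemma Model.sum_ad (M : Model nd ι D) {S : ℕ} (hS : S < 2 ^ nd.n) (h k : X → ℕ) :
    (∑ w, if Ad (toS ι S) w then (if w ∈ toS ι (full nd.n) then h w else k w) else 0) =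
      (∑ z ∈ range nd.n, if (!tb S z && MP_bd7e44_co.sub (D z) S) = true then h (ι z) else 0) +
        ∑ w, if Ad (toS ι S) w ∧ w ∉ toS ι (full nd.n) then k w else 0 := by
  have e1 : toS ι (full nd.n) = (range nd.n).image ι := by
    ext w
    simp [mem_toS, testBit_full]
  have e2 : (∑ z ∈ range nd.n, if (!tb S z && MP_bd7e44_co.sub (D z) S) = true then h (ι z) else 0)
      = ∑ w, if w ∈ toS ι (full nd.n) then (if Ad (toS ι S) w then h w else 0) else 0 := by
    rw [← sum_filter (s := univ), filter_mem_eq_inter, univ_inter, e1,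
      sum_image fun i hi j hj => M.inj i (mem_range.1 hi) j (mem_range.1 hj)]
    exact sum_congr rfl fun z hz => by simp only [M.ad (mem_range.1 hz) hS]
  rw [e2, ← sum_add_distrib]
  refine sum_congr rfl fun w _ => ?_
  by_cases h1 : Ad (toS ι S) w <;> by_cases h2 : w ∈ toS ι (full nd.n) <;> simp [h1, h2]

/-- The number of completions that leave the window at once. -/
noncomputable def out (R T : Finset X) : ℕ :=
  (if T = univ then 1 else 0) + ∑ w, if Ad T w ∧ w ∉ R then e (insert w T) else 0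

lemma Model.e_eq (M : Model nd ι D) {S : ℕ} (hS : S < 2 ^ nd.n) :
    e (toS ι S) = (∑ z ∈ range nd.n, if (!tb S z && MP_bd7e44_co.sub (D z) S) = true then
      e (toS ι (setb S z)) else 0) + out (toS ι (full nd.n)) (toS ι S) := by
  have := M.sum_ad hS (fun w => e (insert w (toS ι S))) fun w => e (insert w (toS ι S))
  simp only [ite_self] at this
  simp only [toS_setb, out]
  by_cases h : toS ι S = univ
  · have h0 : (∑ w, if Ad (toS ι S) w then e (insert w (toS ι S)) else 0) = 0 :=
      sum_eq_zero fun w _ => if_neg fun hw => hw.1 (h ▸ mem_univ w)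
    rw [if_pos h]
    have := h ▸ e_univ
    omega
  · rw [if_neg h, e_step h, this, zero_add]

lemma Model.out_eq (M : Model nd ι D) {S : ℕ} (hS : S < 2 ^ nd.n) (h : noExit nd S = true) :
    out (toS ι (full nd.n)) (toS ι S) = 0 := by
  simp only [noExit, Bool.and_eq_true, Bool.not_eq_true', beq_false, List.all_eq_true] at h
  obtain ⟨i, hi, hi'⟩ := exists_unset hS h.1
  have hu : toS ι S ≠ univ := fun hu => hi' ((M.mem hi hS).1 (hu ▸ mem_univ _))
  rw [out, if_neg hu, zero_add]
  refine sum_eq_zero fun w _ => if_neg fun hw => ?_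
  obtain ⟨T, h1, h2⟩ := M.mask hS hw.2 hw.1.2
  rw [h.2 T h1] at h2
  exact Bool.false_ne_true h2

lemma Model.G_le (M : Model nd ι D) {S : ℕ} (hS : S < 2 ^ nd.n) : ∀ ps : List Mu,
    (∀ q ∈ ps, q.a < nd.n ∧ q.b < nd.n ∧ q.a ≠ q.b) →
    (∑ z ∈ range nd.n, if (!tb S z && MP_bd7e44_co.sub (D z) S) = true then
      GG ι ps (toS ι (setb S z)) + aval S z ps * e (toS ι (setb S z)) else 0) ≤ GG ι ps (toS ι S)
  | [], _ => by simp [GG, aval]
  | ⟨x, y, m⟩ :: l, h => by
    have ih := M.G_le hS l fun q hq => h q (List.mem_cons_of_mem _ hq)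
    obtain ⟨hx, hy, hxy⟩ := h _ List.mem_cons_self
    have h1 := G_step (x := ι x) (y := ι y) (fun hc => hxy (M.inj _ hx _ hy hc)) (toS ι S)
    have h2 := M.sum_ad hS (fun w => G (ι y) (ι x) (insert w (toS ι S)) +
      if w = ι y ∧ ι x ∉ toS ι S then e (insert w (toS ι S)) else 0)
      fun w => G (ι y) (ι x) (insert w (toS ι S)) +
        if w = ι y ∧ ι x ∉ toS ι S then e (insert w (toS ι S)) else 0
    simp only [ite_self] at h2
    rw [h2] at h1
    have h3 := Nat.mul_le_mul_left m (le_of_add_le_left h1)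
    refine le_trans (le_of_eq ?_) (add_le_add h3 ih)
    rw [mul_sum, ← sum_add_distrib]
    refine sum_congr rfl fun z hz => ?_
    split_ifs with h4 h5
    · have : (Nat.beq y z && !tb S x) = true := by
        rw [M.inj z (mem_range.1 hz) y hy h5.1]
        simpa [tb_eq, M.mem hx hS] using h5.2
      simp only [GG, aval, this, cond_true, List.map_cons, List.sum_cons, toS_setb, Nat.add_eq]
      ring
    · have : (Nat.beq y z && !tb S x) = false := by
        by_contra hc
        simp only [Bool.not_eq_false, Bool.and_eq_true, Nat.beq_eq, tb_eq] at hc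
        exact h5 ⟨by rw [hc.1], by simpa [M.mem hx hS] using hc.2⟩
      simp only [GG, aval, this, cond_false, List.map_cons, List.sum_cons, toS_setb]
      ring
    · rfl

/-- The centre constraint holds. -/
def COk (ι : ℕ → X) (n : ℕ) (q : Mu) : Prop :=
  q.a < n ∧ q.b < 2 ^ n ∧ toS ι q.b ⊆ Sz (ι q.a) ∧ (∀ w, w < ι q.a → w ∈ toS ι q.b) ∧ Low (ι q.a)

lemma Model.C_le (M : Model nd ι D) {S : ℕ} (hS : S < 2 ^ nd.n) : ∀ cs : List Mu,
    (∀ q ∈ cs, COk ι nd.n q) →
    CC ι cs (toS ι S) ≤ (∑ z ∈ range nd.n, if (!tb S z && MP_bd7e44_co.sub (D z) S) = true then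
      CC ι cs (toS ι (setb S z)) + XX ι S z cs else 0) +
        beta S cs * out (toS ι (full nd.n)) (toS ι S)
  | [], _ => by simp [CC]
  | ⟨r, J, m⟩ :: l, h => by
    have ih := M.C_le hS l fun q hq => h q (List.mem_cons_of_mem _ hq)
    obtain ⟨hr, hJ, h1, h2, -⟩ := h _ List.mem_cons_self
    have ha : act S r J = true ↔ ι r ∉ toS ι S ∧ ¬ toS ι J ⊆ toS ι S := by
      rw [act, ← M.sub hJ hS, M.mem hr hS, tb_eq]
      simp
    have h3 := C_step h1 h2 (toS ι (full nd.n)) (toS ι S)
    by_cases hact : act S r J = true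
    · simp only [if_pos (ha.1 hact)] at h3
      rw [M.sum_ad hS] at h3
      have h4 := Nat.mul_le_mul_left m (h3.trans (add_le_add_right (b := _)
        (c := out (toS ι (full nd.n)) (toS ι S)) (Nat.le_add_left _ _) _))
      refine le_trans (add_le_add h4 ih) (le_of_eq ?_)
      rw [mul_add, mul_sum, add_add_add_comm, ← sum_add_distrib]
      congr 1
      · refine sum_congr rfl fun z hz => ?_
        have : (act S r J && !Nat.beq z r && MP_bd7e44_co.sub J (setb S z)) = true ↔
            ι z ≠ ι r ∧ toS ι J ⊆ insert (ι z) (toS ι S) := by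
          rw [← toS_setb, ← M.sub hJ (setb_lt hS (mem_range.1 hz))]
          simp only [hact, Bool.true_and, Bool.and_eq_true, Bool.not_eq_true', beq_false]
          exact and_congr ⟨fun h hc => h (M.inj _ (mem_range.1 hz) _ hr hc), fun h hc => h (hc ▸ rfl)⟩
            Iff.rfl
        simp only [CC, XX, List.map_cons, List.sum_cons, toS_setb, this]
        split_ifs <;> ring
      · simp only [beta, hact, cond_true, Nat.add_eq]
        ring
    · have h4 : C (ι r) (toS ι J) (toS ι S) = 0 := if_neg fun hc => hact (ha.2 hc)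
      rw [Bool.not_eq_true] at hact
      simp only [CC, XX, List.map_cons, List.sum_cons, h4, beta, hact, cond_false] at ih ⊢
      refine le_trans (by simp) (ih.trans (add_le_add (sum_le_sum fun z _ => ?_) le_rfl))
      split_ifs <;> omega

lemma Model.loop (M : Model nd ι D) {ps cs : List Mu}
    (hp : ∀ q ∈ ps, q.a < nd.n ∧ q.b < nd.n ∧ q.a ≠ q.b) (hc : ∀ q ∈ cs, COk ι nd.n q) :
    ∀ (k : ℕ) (L : List Ent), Bnd nd.n L → loop nd ps cs k L = true → pos ι cs L ≤ neg ι ps L
  | 0, _, _, h => by simp [MP_bd7e44_co.loop] at h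
  | _ + 1, [], _, _ => by simp [pos]
  | k + 1, ⟨S, u, cp, cn⟩ :: L, hL, h => by
    have hS : S < 2 ^ nd.n := hL _ List.mem_cons_self
    rw [MP_bd7e44_co.loop, Bool.and_eq_true, M.els] at h
    have ih := M.loop hp hc k _ (bnd_push hS ps (fun q hq => (hc q hq).1) u cp cn
      (fun E hE => hL E (List.mem_cons_of_mem _ hE)) nd.n le_rfl) h.2
    rw [pos_push, neg_push] at ih
    have h1 := M.e_eq hS
    have h2 := M.G_le hS ps hp
    have h3 := M.C_le hS cs hc
    have h4 : (cp + 27 * (u * beta S cs)) * out (toS ι (full nd.n)) (toS ι S) ≤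
        cn * out (toS ι (full nd.n)) (toS ι S) := by
      rcases Bool.or_eq_true _ _ ▸ h.1 with h5 | h5
      · exact Nat.mul_le_mul_right _ (Nat.le_of_ble_eq_true h5)
      · simp [M.out_eq hS h5]
    have s1 : ∀ (a b c : ℕ) (φ ψ : ℕ → ℕ),
        (∑ z ∈ range nd.n, if (!tb S z && MP_bd7e44_co.sub (D z) S) = true then
          a * φ z + b * (c * ψ z) else 0) =
        a * (∑ z ∈ range nd.n, if (!tb S z && MP_bd7e44_co.sub (D z) S) = true then φ z else 0) +
        b * (c * ∑ z ∈ range nd.n, if (!tb S z && MP_bd7e44_co.sub (D z) S) = true then ψ z else 0)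
        := by
      intro a b c φ ψ
      simp only [mul_sum, ← sum_add_distrib]
      exact sum_congr rfl fun z _ => by split_ifs <;> simp
    rw [s1, s1] at ih
    simp only [pos, neg, List.map_cons, List.sum_cons] at ih ⊢
    have h5 := Nat.mul_le_mul_left u h2
    have h6 := Nat.mul_le_mul_left u h3
    rw [h1]
    nlinarith

lemma BOk.cut (M : Model nd ι D) {B : Bd} (hB : BOk ι nd.n B) {S : ℕ} (h : okN nd B S = true) :
    S < 2 ^ nd.n ∧ bif B.up then 1024 * e (toS ι (setb S B.y)) ≤ B.p * e (toS ι S)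
      else B.p * e (toS ι S) ≤ 1024 * e (toS ι (setb S B.y)) := by
  rw [okN, Bool.and_eq_true] at h
  obtain ⟨h1, -, h3, h4⟩ := M.okS h.1
  obtain ⟨-, -, b3, b4, b5⟩ := hB
  refine ⟨h1, ?_⟩
  have h2 := h.2
  rw [toS_setb]
  have hp := e_pos (toS ι B.S)
  cases hu : B.up <;> simp only [hu, cond_false, cond_true] at h2 b5 ⊢
  · have hs := toS_sub ι h2
    have := e_tp h3 (b3.insert b4)
    rw [inter_insert_of_notMem h4.1, inter_eq_right.2 hs, union_insert, union_eq_left.2 hs] at this
    refine Nat.le_of_mul_le_mul_left ?_ hp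
    nlinarith [Nat.mul_le_mul_left (e (toS ι S)) b5]
  · have hs := toS_sub ι h2
    have := e_tp b3 (h3.insert h4)
    rw [inter_insert_of_notMem b4.1, inter_eq_right.2 hs, union_insert, union_eq_left.2 hs] at this
    refine Nat.le_of_mul_le_mul_left ?_ hp
    nlinarith [Nat.mul_le_mul_left (e (toS ι S)) b5]

lemma Model.cuts (M : Model nd ι D) {ps cs : List Mu}
    (hp : ∀ q ∈ ps, q.a < nd.n ∧ q.b < nd.n ∧ q.a ≠ q.b) (hc : ∀ q ∈ cs, COk ι nd.n q) :
    ∀ (l : List ℕ) (L : List Ent), Bnd nd.n L → cuts nd ps cs l L = true →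
      pos ι cs L ≤ neg ι ps L
  | [], L, hL, h => M.loop hp hc _ L hL h
  | v :: l, L, hL, h => by
    rw [MP_bd7e44_co.cuts] at h
    split at h
    · exact absurd h Bool.false_ne_true
    · rename_i B hB
      rw [Bool.and_eq_true] at h
      have hB' := M.bounds B (List.mem_of_getElem? hB)
      obtain ⟨h1, h2⟩ := hB'.cut M h.1
      have h3 := setb_lt h1 hB'.2.1
      have ih := M.cuts hp hc l _ (by
        unfold cut
        cases B.up <;> exact bnd_ins h1 _ _ _ _ (bnd_ins h3 _ _ _ _ hL)) h.2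
      unfold cut at ih
      generalize Nat.div v 16777216 = m at ih
      cases hu : B.up <;>
        simp only [hu, cond_false, cond_true, pos_ins, neg_ins, Nat.mul_eq] at ih h2 <;>
        nlinarith [Nat.mul_le_mul_left m h2]

lemma GG_empty {ps : List Mu} (h : ∀ q ∈ ps, LL (ι q.a) (ι q.b)) :
    3 * GG ι ps ∅ + tot ps ≤ tot ps * e (∅ : Finset X) := by
  induction ps with
  | nil => simp [GG, tot]
  | cons q l ih =>
    have h1 := ih fun q hq => h q (List.mem_cons_of_mem _ hq)
    have h2 := Nat.mul_le_mul_left q.m (Nat.succ_le_of_lt (h q List.mem_cons_self).2)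
    simp only [GG, G, tot, List.map_cons, List.sum_cons, notMem_empty, not_false_eq_true, and_self,
      if_true, Nat.add_eq, Nat.succ_eq_add_one] at h1 h2 ⊢
    nlinarith

lemma start_ok (hb : NoBal X) (hw : Width3 X) {n : ℕ} (ps cs : List Mu) {L : List Ent}
    (hL : Bnd n L) : ∀ l : List Mu, (∀ q ∈ l, COk ι n q) → Bnd n (start l L) ∧
      neg ι ps (start l L) = neg ι ps L ∧
        pos ι cs L + 2 * tot l * e (∅ : Finset X) ≤ pos ι cs (start l L) + 27 * CC ι l ∅
  | [], _ => ⟨hL, rfl, by simp [start, tot]⟩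
  | ⟨r, J, m⟩ :: l, h => by
    obtain ⟨i1, i2, i3⟩ := start_ok hb hw ps cs hL l fun q hq => h q (List.mem_cons_of_mem _ hq)
    obtain ⟨hr, -, -, h2, hl⟩ := h _ List.mem_cons_self
    have h3 := Nat.mul_le_mul_left m (c_empty hb hw (r := ι r) hl)
    rw [start]
    cases hJ : Nat.beq J 0
    · refine ⟨i1, i2, ?_⟩
      have : C (ι r) (toS ι J) ∅ = c (ι r) ∅ := by
        refine if_pos ⟨notMem_empty _, fun hc => ?_⟩
        obtain ⟨i, hi⟩ := Nat.exists_testBit_of_ne_zero (beq_false.1 hJ)
        exact notMem_empty _ (hc (mem_toS.2 ⟨i, hi, rfl⟩))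
      simp only [CC, tot, List.map_cons, List.sum_cons, cond_false, Nat.add_eq, this] at i3 ⊢
      nlinarith
    · obtain rfl := Nat.eq_of_beq_eq_true hJ
      refine ⟨bnd_ins (setb_lt (Nat.two_pow_pos n) hr) _ _ _ _ i1, by simp [neg_ins, i2], ?_⟩
      have h4 := Nat.mul_le_mul_left m (c_le' (r := ι r) (T := ∅)
        ⟨notMem_empty _, fun w hw' => toS_zero ι ▸ h2 w hw'⟩)
      simp only [CC, tot, List.map_cons, List.sum_cons, cond_true, Nat.add_eq, Nat.mul_eq, pos_ins,
        toS_setb, toS_zero] at i3 ⊢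
      nlinarith

lemma Model.leaf (hb : NoBal X) (hw : Width3 X) (M : Model nd ι D) {l₀ : ℕ} {ps cs ns : List ℕ}
    (h : leafOk nd l₀ ps cs ns = true) : False := by
  simp only [leafOk, Bool.and_eq_true, List.all_eq_true, Nat.blt_eq] at h
  obtain ⟨⟨⟨h1, h2⟩, h3⟩, h4⟩ := h
  have hp : ∀ q ∈ ps.map decP, (q.a < nd.n ∧ q.b < nd.n ∧ q.a ≠ q.b) ∧ LL (ι q.a) (ι q.b) := by
    intro q hq
    have := h1 q hq
    simp only [okP, Bool.and_eq_true, Nat.blt_eq, Bool.not_eq_true', beq_false, List.any_eq_true,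
      Nat.beq_eq, tb_eq] at this
    obtain ⟨⟨a1, a2⟩, t, ht, a3, a4⟩ := this
    obtain ⟨b1, b2, b3⟩ := M.pre t ht
    rw [a3] at b1 b3
    exact ⟨⟨b1, a1, a2⟩, b3 _ (by simp [M.mem a1 b2, a4]) fun hc => a2 (M.inj _ b1 _ a1 hc.symm)⟩
  have hc : ∀ q ∈ cs.map (decC nd), COk ι nd.n q := by
    intro q hq
    obtain ⟨v, hv, rfl⟩ := List.mem_map.1 hq
    have := h2 v hv
    simp only [okC, Bool.and_eq_true, Nat.blt_eq, Bool.not_eq_true', tb_eq] at this
    obtain ⟨⟨⟨a0, a1⟩, a2⟩, a3⟩ := this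
    simp only [COk, decC, M.els, look_mkEls D a1]
    generalize Nat.mod v 16 = r at a0 a1 a2
    generalize Nat.mod (Nat.div v 16) 65536 = J at a3
    have hJ : J < 2 ^ nd.n := by
      have : J &&& nd.Q = J := Nat.eq_of_beq_eq_true a3
      exact this ▸ Nat.and_le_right.trans_lt M.Qlt
    have hm : ∀ w, w ∈ toS ι (Nat.lor (D r) J) ↔ w ∈ toS ι (D r) ∨ w ∈ toS ι J := fun w => by
      change w ∈ toS ι (D r ||| J) ↔ _
      simp only [mem_toS, Nat.testBit_or, Bool.or_eq_true, or_and_right, exists_or]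
    refine ⟨a1, Nat.or_lt_two_pow (M.Dlt' a1) hJ, fun w hw' => mem_filter.2 ⟨mem_univ _, ?_⟩,
      fun w hw' => (hm w).2 (Or.inl ((M.down r a1 w).1 hw')), low_of M.Dlt M.down a1 a0⟩
    rcases (hm w).1 hw' with h5 | h5
    · exact LL.of_lt ((M.down r a1 w).2 h5)
    · exact M.Qinit w (toS_sub ι a3 h5) _ (by simp [M.mem a1 M.Qlt, a2])
  generalize ps.map decP = P at *
  generalize cs.map (decC nd) = Cs at *
  obtain ⟨i1, i2, i3⟩ := start_ok (ι := ι) hb hw P Cs
    (L := [⟨0, 1, Nat.add l₀ (tot P), Nat.mul 2 (tot Cs)⟩]) (n := nd.n)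
    (by simp [Bnd]) Cs hc
  have h5 := M.cuts (fun q hq => (hp q hq).1) hc ns _ i1 h4
  have h6 := GG_empty fun q hq => (hp q hq).2
  have h7 := Nat.mul_le_mul_left l₀ (Nat.succ_le_of_lt (e_pos (∅ : Finset X)))
  rw [i2] at h5
  simp only [pos, neg, List.map_cons, List.sum_cons, List.map_nil, List.sum_nil, toS_zero,
    Nat.add_eq, Nat.mul_eq] at h5 i3 h3
  nlinarith

end Pool.Agent.Lib.MP_bd7e44_co
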