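import Pool.Agent.Lib.MP_bd7e44_co.Paths

/-!
Linear extensions as lists; counts of events; the position of one element.
-/

namespace Pool.Agent.Lib.MP_bd7e44_co

open Finset
open scoped Classical

variable {X : Type} [Fintype X] [PartialOrder X]

/-- The linear orderings, as lists, of the elements outside `T`. -/
noncomputable def L (T : Finset X) : Finset (List X) :=
  (Tᶜ.toList.permutations.toFinset).filter fun l => l.Pairwise fun a b => ¬ b < a

lemma mem_L {T : Finset X} {l : List X} :
    l ∈ L T ↔ l.Nodup ∧ (∀ x, x ∈ l ↔ x ∉ T) ∧ l.Pairwise fun a b => ¬ b < a := by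
  simp only [L, mem_filter, List.mem_toFinset, List.mem_permutations]
  constructor
  · rintro ⟨h1, h2⟩
    exact ⟨h1.nodup_iff.2 (nodup_toList _), fun x => by rw [h1.mem_iff, mem_toList, mem_compl], h2⟩
  · rintro ⟨h1, h2, h3⟩
    refine ⟨(List.perm_ext_iff_of_nodup h1 (nodup_toList _)).2 fun x => ?_, h3⟩
    rw [h2, mem_toList, mem_compl]

lemma cons_mem_L {T : Finset X} {z : X} {l : List X} :
    z :: l ∈ L T ↔ Ad T z ∧ l ∈ L (insert z T) := by
  simp only [mem_L, List.nodup_cons, List.mem_cons, List.pairwise_cons, mem_insert, not_or, Ad]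
  constructor
  · rintro ⟨⟨h1, h2⟩, h3, h4, h5⟩
    refine ⟨⟨(h3 z).1 (Or.inl rfl), fun w hw => ?_⟩, h2, fun x => ⟨fun hx => ⟨?_, ?_⟩, ?_⟩, h5⟩
    · by_contra hT
      rcases (h3 w).2 hT with rfl | h
      · exact lt_irrefl _ hw
      · exact h4 w h hw
    · rintro rfl
      exact h1 hx
    · exact (h3 x).1 (Or.inr hx)
    · rintro ⟨hx, hx'⟩
      exact ((h3 x).2 hx').resolve_left hx
  · rintro ⟨⟨h1, h2⟩, h3, h4, h5⟩
    refine ⟨⟨fun h => ((h4 z).1 h).1 rfl, h3⟩, fun x => ⟨?_, fun hx => ?_⟩,
      fun w hw hlt => ((h4 w).1 hw).2 (h2 w hlt), h5⟩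
    · rintro (rfl | hx)
      · exact h1
      · exact ((h4 x).1 hx).2
    · by_cases h : x = z
      · exact Or.inl h
      · exact Or.inr ((h4 x).2 ⟨h, hx⟩)

/-- The number of linear orderings of the elements outside `T` with property `P`. -/
noncomputable def cnt (T : Finset X) (P : List X → Prop) : ℕ := ((L T).filter P).card

lemma cnt_univ (P : List X → Prop) : cnt (univ : Finset X) P = if P [] then 1 else 0 := by
  have : L (univ : Finset X) = {[]} := by
    ext l
    rw [mem_L, mem_singleton]
    constructor
    · rintro ⟨-, h, -⟩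
      exact List.eq_nil_iff_forall_not_mem.2 fun x hx => (h x).1 hx (mem_univ x)
    · rintro rfl
      simp
  rw [cnt, this, filter_singleton]
  split_ifs <;> simp

lemma cnt_step {T : Finset X} (h : T ≠ univ) (P : List X → Prop) :
    cnt T P = ∑ z, if Ad T z then cnt (insert z T) (fun l => P (z :: l)) else 0 := by
  have : (L T).filter P = univ.biUnion fun z =>
      if Ad T z then ((L (insert z T)).filter fun l => P (z :: l)).image (List.cons z) else ∅ := by
    ext l
    simp only [mem_filter, mem_biUnion, mem_univ, true_and]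
    constructor
    · rintro ⟨h1, h2⟩
      cases l with
      | nil =>
        refine absurd (eq_univ_of_forall fun x => ?_) h
        by_contra hx
        simpa using ((mem_L.1 h1).2.1 x).2 hx
      | cons z l =>
        obtain ⟨h3, h4⟩ := cons_mem_L.1 h1
        exact ⟨z, by rw [if_pos h3]; exact mem_image.2 ⟨l, mem_filter.2 ⟨h4, h2⟩, rfl⟩⟩
    · rintro ⟨z, hz⟩
      split_ifs at hz with ha
      · obtain ⟨l, hl, rfl⟩ := mem_image.1 hz
        exact ⟨cons_mem_L.2 ⟨ha, (mem_filter.1 hl).1⟩, (mem_filter.1 hl).2⟩
      · simp at hz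
  rw [cnt, this, card_biUnion]
  · refine sum_congr rfl fun z _ => ?_
    split_ifs
    · rw [card_image_of_injective _ (List.cons_injective), cnt]
    · rfl
  · intro z _ w _ hzw
    rw [Function.onFun, disjoint_left]
    intro l h1 h2
    split_ifs at h1 h2
    · obtain ⟨_, -, rfl⟩ := mem_image.1 h1
      obtain ⟨_, -, h⟩ := mem_image.1 h2
      exact hzw (List.cons.inj h).1.symm
    all_goals simp at h1 h2

lemma cnt_congr {T : Finset X} {P Q : List X → Prop} (h : ∀ l ∈ L T, P l ↔ Q l) :
    cnt T P = cnt T Q := by
  unfold cnt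
  rw [filter_congr h]

lemma e_univ : e (univ : Finset X) = 1 := p_self _

lemma e_step {T : Finset X} (h : T ≠ univ) :
    e T = ∑ z, if Ad T z then e (insert z T) else 0 := p_step h

lemma cnt_true (T : Finset X) : cnt T (fun _ => True) = e T := by
  induction T using down_ind with
  | _ T ih =>
    by_cases h : T = univ
    · subst h
      simp [cnt_univ, e_univ]
    · rw [cnt_step h, e_step h]
      refine sum_congr rfl fun z _ => ?_
      split_ifs with hz
      · exact ih z hz.1
      · rfl

lemma cnt_false (T : Finset X) : cnt T (fun _ => False) = 0 := by simp [cnt]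

lemma exists_ad {T : Finset X} (h : T ≠ univ) : ∃ z, Ad T z := by
  have : (Tᶜ).Nonempty := by
    rw [nonempty_iff_ne_empty]
    exact fun h' => h (compl_eq_empty_iff _ |>.1 h')
  obtain ⟨z, hz⟩ := Finset.exists_minimal this
  refine ⟨z, mem_compl.1 hz.1, fun w hw => ?_⟩
  by_contra hw'
  exact hw.not_ge (hz.2 (mem_compl.2 hw') hw.le)

lemma e_ge {T : Finset X} {z : X} (hz : Ad T z) : e (insert z T) ≤ e T := by
  have h : T ≠ univ := fun h => hz.1 (h ▸ mem_univ z)
  rw [e_step h]
  have := single_le_sum (f := fun z => if Ad T z then e (insert z T) else 0)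
    (fun _ _ => Nat.zero_le _) (mem_univ z)
  simpa [hz] using this

lemma e_pos (T : Finset X) : 0 < e T := by
  induction T using down_ind with
  | _ T ih =>
    by_cases h : T = univ
    · subst h
      simp [e_univ]
    · obtain ⟨z, hz⟩ := exists_ad h
      exact (ih z hz.1).trans_le (e_ge hz)

/-- The set of elements listed before `x`. -/
noncomputable def pre (x : X) : List X → Finset X
  | [] => ∅
  | w :: l => if w = x then ∅ else insert w (pre x l)

omit [Fintype X] [PartialOrder X] in
lemma pre_total {x y : X} (hxy : x ≠ y) :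
    ∀ l : List X, x ∈ l → y ∈ l → (y ∈ pre x l ↔ x ∉ pre y l)
  | [], h, _ => by simp at h
  | w :: l, h1, h2 => by
    by_cases hx : w = x
    · subst hx
      simp [pre, hxy]
    · by_cases hy : w = y
      · subst hy
        simp [pre, hx]
      · have := pre_total hxy l ((List.mem_cons.1 h1).resolve_left (Ne.symm hx))
          ((List.mem_cons.1 h2).resolve_left (Ne.symm hy))
        simp [pre, hx, hy, Ne.symm hx, Ne.symm hy, this]

omit [Fintype X] [PartialOrder X] in
lemma pre_trans {x y z : X} : ∀ l : List X, z ∈ pre x l → z ∈ pre y l ∨ y ∈ pre x l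
  | [], h => by simp [pre] at h
  | w :: l, h => by
    by_cases hx : w = x
    · simp [pre, hx] at h
    · by_cases hy : w = y
      · subst hy
        simp [pre, hx]
      · simp only [pre, hx, hy, if_false, mem_insert] at h ⊢
        rcases h with h | h
        · exact Or.inl (Or.inl h)
        · exact (pre_trans l h).imp Or.inr Or.inr

omit [Fintype X] in
lemma pre_lt {x y : X} (hxy : x < y) :
    ∀ l : List X, (l.Pairwise fun a b => ¬ b < a) → x ∈ l → y ∉ pre x l
  | [], _, h => by simp at h
  | w :: l, h1, h2 => by
    by_cases hx : w = x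
    · simp [pre, hx]
    · have hl := (List.mem_cons.1 h2).resolve_left (Ne.symm hx)
      rw [List.pairwise_cons] at h1
      simp only [pre, hx, if_false, mem_insert, not_or]
      refine ⟨?_, pre_lt hxy l h1.2 hl⟩
      rintro rfl
      exact h1.1 x hl hxy

/-- The number of orderings of the elements outside `T` in which `y` comes before `x`. -/
noncomputable def g (y x : X) (T : Finset X) : ℕ := cnt T fun l => y ∈ pre x l

lemma mem_of_L {l : List X} (hl : l ∈ L (∅ : Finset X)) (x : X) : x ∈ l :=
  ((mem_L.1 hl).2.1 x).2 (notMem_empty x)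

lemma cnt_not (T : Finset X) (P : List X → Prop) : cnt T P + cnt T (fun l => ¬ P l) = e T := by
  rw [← cnt_true]
  unfold cnt
  rw [filter_true]
  convert card_filter_add_card_filter_not (s := L T) P

lemma g_not {x y : X} (h : x ≠ y) : cnt ∅ (fun l => y ∉ pre x l) = g x y ∅ :=
  cnt_congr fun l hl => by
    rw [pre_total h l (mem_of_L hl x) (mem_of_L hl y), not_not]

lemma g_total {x y : X} (h : x ≠ y) : g y x ∅ + g x y ∅ = e (∅ : Finset X) := by
  rw [← g_not h]
  exact cnt_not _ _

lemma g_trans (x y z : X) : g z x ∅ ≤ g z y ∅ + g y x ∅ := by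
  unfold g cnt
  refine le_trans (card_le_card fun l hl => ?_) (card_union_le _ _)
  simp only [mem_filter, mem_union] at hl ⊢
  exact (pre_trans l hl.2).imp (And.intro hl.1) (And.intro hl.1)

lemma g_lt {x y : X} (h : x < y) : g y x ∅ = 0 := by
  rw [g, ← cnt_false (∅ : Finset X)]
  exact cnt_congr fun l hl => iff_false_intro (pre_lt h l (mem_L.1 hl).2.2 (mem_of_L hl x))

/-- The same count, switched off once one of the two elements is placed. -/
noncomputable def G (y x : X) (T : Finset X) : ℕ := if x ∉ T ∧ y ∉ T then g y x T else 0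

lemma G_step {x y : X} (h : x ≠ y) (T : Finset X) :
    (∑ w, if Ad T w then G y x (insert w T) + (if w = y ∧ x ∉ T then e (insert w T) else 0) else 0)
      ≤ G y x T := by
  by_cases hT : x ∉ T ∧ y ∉ T
  · have hu : T ≠ univ := fun h' => hT.1 (h' ▸ mem_univ x)
    rw [G, if_pos hT, g, cnt_step hu]
    refine sum_le_sum fun w _ => ?_
    split_ifs with hw h1
    · obtain ⟨rfl, -⟩ := h1
      simp [G, pre, h.symm, cnt_true]
    · by_cases hx : w = x
      · simp [G, hx]
      · have hy : ¬ y = w := fun hy => h1 ⟨hy.symm, hT.1⟩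
        simp [G, g, pre, hx, Ne.symm hx, hy, hT.1, hT.2]
    · rfl
  · refine le_trans (le_of_eq (sum_eq_zero fun w _ => ?_)) (Nat.zero_le _)
    split_ifs with hw h1
    · obtain ⟨rfl, h2⟩ := h1
      exact absurd ⟨h2, hw.1⟩ hT
    · rw [add_zero, G, if_neg]
      simp only [mem_insert, not_or]
      tauto
    · rfl

lemma cnt_pre {z : X} (S : Finset X) (T : Finset X) : z ∉ T →
    cnt T (fun l => T ∪ pre z l = S) = if Ad S z then p T S * e (insert z S) else 0 := by
  induction T using down_ind with
  | _ T ih =>
    intro hz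
    have hu : T ≠ univ := fun h' => hz (h' ▸ mem_univ z)
    have key : ∀ w, w ≠ z → w ∉ T → cnt (insert w T) (fun l => T ∪ pre z (w :: l) = S) =
        if Ad S z then p (insert w T) S * e (insert z S) else 0 := fun w hw hw' => by
      rw [← ih w hw' (by simp [hz, hw.symm])]
      refine cnt_congr fun l _ => ?_
      simp [pre, hw]
    rw [cnt_step hu]
    by_cases hTS : T = S
    · subst hTS
      rw [sum_eq_single z]
      · simp [pre, cnt_true, p_self]
      · intro w _ hw
        split_ifs with ha
        · rw [key w hw ha.1, p_eq_zero (mem_insert_self w T) ha.1]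
          simp
        · rfl
      · simp
    · rw [p_step hTS, sum_mul]
      split_ifs with hS
      · refine sum_congr rfl fun w _ => ?_
        split_ifs with ha
        · by_cases hw : w = z
          · subst hw
            simp [pre, hTS, cnt_false, p_eq_zero (mem_insert_self w T) hS.1]
          · rw [key w hw ha.1, if_pos hS]
        · simp
      · refine sum_eq_zero fun w _ => ?_
        split_ifs with ha
        · by_cases hw : w = z
          · subst hw
            simp [pre, hTS, cnt_false]
          · rw [key w hw ha.1, if_neg hS]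
        · rfl

/-- The number of linear extensions in which exactly the elements of `S` come before `z`. -/
noncomputable def f (z : X) (S : Finset X) : ℕ := if Ad S z then p ∅ S * e (insert z S) else 0

lemma cnt_mass (z : X) (Q : Finset X → Prop) :
    cnt ∅ (fun l => Q (pre z l)) = ∑ S, if Q S then f z S else 0 := by
  unfold cnt
  rw [card_eq_sum_card_fiberwise (f := pre z) (t := univ) (fun _ _ => mem_univ _)]
  refine sum_congr rfl fun S _ => ?_
  split_ifs with h
  · rw [f, ← cnt_pre S ∅ (notMem_empty z), cnt, filter_filter]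
    congr 1
    ext l
    simp only [mem_filter, empty_union, and_congr_right_iff, and_iff_right_iff_imp]
    rintro - rfl
    exact h
  · rw [card_eq_zero, filter_filter, filter_eq_empty_iff]
    rintro l - ⟨h1, rfl⟩
    exact h h1

lemma f_tp (z : X) (S T : Finset X) : f z S * f z T ≤ f z (S ∩ T) * f z (S ∪ T) := by
  by_cases hS : f z S = 0
  · simp [hS]
  by_cases hT : f z T = 0
  · simp [hT]
  have aS : Ad S z := by
    by_contra h
    exact hS (if_neg h)
  have aT : Ad T z := by
    by_contra h
    exact hT (if_neg h)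
  have a1 : Ad (S ∩ T) z := ⟨fun h => aS.1 (mem_inter.1 h).1,
    fun w hw => mem_inter.2 ⟨aS.2 w hw, aT.2 w hw⟩⟩
  have a2 : Ad (S ∪ T) z := ⟨fun h => (mem_union.1 h).elim aS.1 aT.1,
    fun w hw => mem_union_left _ (aS.2 w hw)⟩
  simp only [f, if_pos aS, if_pos aT, if_pos a1, if_pos a2] at hS hT ⊢
  have dS := (p_ne (left_ne_zero_of_mul hS)).2 dn_empty
  have dT := (p_ne (left_ne_zero_of_mul hT)).2 dn_empty
  have h1 := e_tp (dS.insert aS) (dT.insert aT)
  rw [← insert_inter_distrib, ← insert_union_distrib] at h1
  calc _ = (p ∅ S * p ∅ T) * (e (insert z S) * e (insert z T)) := by ring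
    _ ≤ _ := Nat.mul_le_mul (u_tp S T) h1
    _ = _ := by ring

lemma p_mul_le (S : Finset X) (T : Finset X) : p T S * e S ≤ e T := by
  induction T using down_ind with
  | _ T ih =>
    by_cases h : T = S
    · simp [h, p_self]
    · by_cases hu : T = univ
      · obtain ⟨z, hz⟩ : ∃ z, z ∉ S := by
          by_contra h'
          exact h (hu.trans (eq_univ_of_forall fun z => by_contra fun hz => h' ⟨z, hz⟩).symm)
        simp [p_eq_zero (hu ▸ mem_univ z) hz]
      · rw [p_step h, e_step hu, sum_mul]
        refine sum_le_sum fun z _ => ?_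
        split_ifs with hz
        · exact ih z hz.1
        · simp

lemma p_mul_le' {z : X} {S : Finset X} (hS : z ∉ S) (T : Finset X) : Ad T z →
    p T S * e (insert z S) ≤ e (insert z T) := by
  induction T using down_ind with
  | _ T ih =>
    intro hz
    by_cases h : T = S
    · simp [h, p_self]
    · rw [p_step h, sum_mul]
      by_cases hu : insert z T = univ
      · refine le_trans (le_of_eq (sum_eq_zero fun w _ => ?_)) (Nat.zero_le _)
        split_ifs with hw
        · have : w ∈ insert z T := hu ▸ mem_univ w
          rcases mem_insert.1 this with rfl | h'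
          · simp [p_eq_zero (mem_insert_self w T) hS]
          · exact absurd h' hw.1
        · simp
      · rw [e_step hu]
        refine sum_le_sum fun w _ => ?_
        by_cases hw : Ad T w
        · by_cases hwz : w = z
          · subst hwz
            simp [p_eq_zero (mem_insert_self w T) hS]
          · have a1 : Ad (insert z T) w :=
              ⟨by simp [hwz, hw.1], fun v hv => mem_insert_of_mem (hw.2 v hv)⟩
            rw [if_pos hw, if_pos a1, insert_comm]
            exact ih w hw.1 ⟨by simp [Ne.symm hwz, hz.1], fun v hv => mem_insert_of_mem (hz.2 v hv)⟩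
        · simp [hw]

end Pool.Agent.Lib.MP_bd7e44_co
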