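import Pool.Agent.Lib.MP_bd7e44_co.Centre
import Pool.Agent.Lib.MP_bd7e44_co.Check

/-!
Meaning of masks and nodes.
-/

namespace Pool.Agent.Lib.MP_bd7e44_co

open Finset
open scoped Classical

lemma tb_eq (m i : ℕ) : tb m i = m.testBit i := by
  change Nat.beq ((m >>> i) &&& 1) 1 = _
  rw [Nat.and_one_is_mod, Nat.testBit, Nat.one_and_eq_mod_two]
  rcases Nat.mod_two_eq_zero_or_one (m >>> i) with h | h <;> rw [h] <;> rfl

lemma beq_false {a b : ℕ} : Nat.beq a b = false ↔ a ≠ b := by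
  rw [← Bool.not_eq_true, Nat.beq_eq]

lemma sub_iff {a b : ℕ} : sub a b = true ↔ ∀ i, a.testBit i → b.testBit i := by
  change Nat.beq (a &&& b) a = true ↔ _
  rw [Nat.beq_eq]
  constructor
  · intro h i hi
    rw [← h, Nat.testBit_and, Bool.and_eq_true] at hi
    exact hi.2
  · intro h
    refine Nat.eq_of_testBit_eq fun i => ?_
    rw [Nat.testBit_and]
    cases hi : a.testBit i
    · rfl
    · simp [h i hi]

lemma testBit_setb {S z i : ℕ} : (setb S z).testBit i ↔ S.testBit i ∨ z = i := by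
  change (S ||| 2 ^ z).testBit i ↔ _
  simp [Nat.testBit_two_pow]

lemma setb_lt {S z n : ℕ} (hS : S < 2 ^ n) (hz : z < n) : setb S z < 2 ^ n :=
  Nat.or_lt_two_pow hS (Nat.pow_lt_pow_right (by norm_num) hz)

lemma testBit_full {n i : ℕ} : (full n).testBit i ↔ i < n := by
  change (2 ^ n - 1).testBit i ↔ _
  simp [Nat.testBit_two_pow_sub_one]

lemma full_lt (n : ℕ) : full n < 2 ^ n := Nat.sub_lt (Nat.two_pow_pos n) Nat.one_pos

lemma lt_of_ble {S n : ℕ} (h : Nat.ble S (full n) = true) : S < 2 ^ n :=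
  (Nat.le_of_ble_eq_true h).trans_lt (full_lt n)

lemma lt_of_bit {S n i : ℕ} (hS : S < 2 ^ n) (h : S.testBit i) : i < n := by
  by_contra hc
  rw [Nat.testBit_lt_two_pow (hS.trans_le (Nat.pow_le_pow_right (by norm_num) (not_lt.1 hc)))] at h
  exact Bool.false_ne_true h

lemma lt_succ_pow {S n : ℕ} (hS : S < 2 ^ n) : S < 2 ^ (n + 1) :=
  hS.trans (Nat.pow_lt_pow_right (by norm_num) n.lt_succ_self)

lemma exists_mask (P : ℕ → Prop) : ∀ n : ℕ, ∃ T < 2 ^ n, ∀ i, T.testBit i ↔ i < n ∧ P i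
  | 0 => ⟨0, by norm_num, by simp⟩
  | n + 1 => by
    obtain ⟨T, h1, h2⟩ := exists_mask P n
    by_cases h : P n
    · refine ⟨setb T n, setb_lt (lt_succ_pow h1) n.lt_succ_self, fun i => ?_⟩
      rw [testBit_setb, h2, Nat.lt_succ_iff_lt_or_eq]
      constructor
      · rintro (⟨h3, h4⟩ | rfl)
        · exact ⟨Or.inl h3, h4⟩
        · exact ⟨Or.inr rfl, h⟩
      · rintro ⟨h3 | rfl, h4⟩
        · exact Or.inl ⟨h3, h4⟩
        · exact Or.inr rfl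
    · refine ⟨T, lt_succ_pow h1, fun i => ?_⟩
      rw [h2, Nat.lt_succ_iff_lt_or_eq]
      constructor
      · rintro ⟨h3, h4⟩
        exact ⟨Or.inl h3, h4⟩
      · rintro ⟨h3 | rfl, h4⟩
        · exact ⟨h3, h4⟩
        · exact absurd h4 h

lemma exists_unset {S n : ℕ} (hS : S < 2 ^ n) (h : S ≠ full n) : ∃ i < n, ¬ S.testBit i := by
  by_contra hc
  push Not at hc
  refine h (Nat.eq_of_testBit_eq fun i => Bool.eq_iff_iff.2 ?_)
  rw [testBit_full]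
  exact ⟨lt_of_bit hS, hc i⟩

/-- The list of elements with their down-sets. -/
def mkEls (D : ℕ → ℕ) : ℕ → List (ℕ × ℕ)
  | 0 => []
  | n + 1 => (n, D n) :: mkEls D n

lemma mem_mkEls {D : ℕ → ℕ} {q : ℕ × ℕ} : ∀ {n : ℕ}, q ∈ mkEls D n ↔ q.1 < n ∧ q.2 = D q.1
  | 0 => by simp [mkEls]
  | n + 1 => by
    rw [mkEls, List.mem_cons, mem_mkEls, Nat.lt_succ_iff_lt_or_eq, Prod.ext_iff]
    constructor
    · rintro (⟨h1, h2⟩ | ⟨h1, h2⟩)
      · exact ⟨Or.inr h1, by rw [h2, h1]⟩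
      · exact ⟨Or.inl h1, h2⟩
    · rintro ⟨h1 | h1, h2⟩
      · exact Or.inr ⟨h1, h2⟩
      · exact Or.inl ⟨h1, by rw [h2, h1]⟩

lemma look_mkEls (D : ℕ → ℕ) {r : ℕ} : ∀ {n : ℕ}, r < n → look (mkEls D n) r = D r
  | 0, h => absurd h (Nat.not_lt_zero r)
  | n + 1, h => by
    rw [mkEls, look]
    by_cases h' : n = r
    · simp [h']
    · rw [beq_false.2 h']
      exact look_mkEls D (by omega)

lemma mkEls_update (D : ℕ → ℕ) (m S : ℕ) : ∀ {n : ℕ}, n ≤ m →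
    mkEls (Function.update D m S) n = mkEls D n
  | 0, _ => rfl
  | n + 1, h => by
    rw [mkEls, mkEls, mkEls_update D m S (by omega), Function.update_of_ne (by omega)]

lemma inc_bit {Y j d i : ℕ} (hd : d < 2 ^ j) (h : (Nat.land Y (Nat.xor (full j) d)).testBit i) :
    Y.testBit i ∧ i < j ∧ ¬ d.testBit i := by
  change (Y &&& (full j ^^^ d)).testBit i at h
  rw [Nat.testBit_and, Nat.testBit_xor, Bool.and_eq_true] at h
  refine ⟨h.1, ?_⟩
  by_cases h1 : d.testBit i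
  · have := testBit_full.2 (lt_of_bit hd h1)
    simp [h1, this] at h
  · refine ⟨testBit_full.1 ?_, h1⟩
    simpa [h1] using h.2

lemma has2_sound {D : ℕ → ℕ} {Y : ℕ} : ∀ {n : ℕ}, (∀ i < n, D i < 2 ^ i) →
    has2 (mkEls D n) Y = true →
      ∃ i j, i < j ∧ j < n ∧ Y.testBit i ∧ Y.testBit j ∧ ¬ (D j).testBit i
  | 0, _, h => by simp [mkEls, has2] at h
  | n + 1, hD, h => by
    rw [mkEls, has2, Bool.or_eq_true, Bool.and_eq_true, tb_eq] at h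
    rcases h with ⟨h1, h2⟩ | h
    · have : Nat.land Y (Nat.xor (full n) (D n)) ≠ 0 := by
        intro h0
        rw [h0] at h2
        exact Bool.false_ne_true h2
      obtain ⟨i, hi⟩ := Nat.exists_testBit_of_ne_zero this
      obtain ⟨h3, h4, h5⟩ := inc_bit (hD n n.lt_succ_self) hi
      exact ⟨i, n, h4, n.lt_succ_self, h3, h1, h5⟩
    · obtain ⟨i, j, h1, h2, h3⟩ := has2_sound (fun i hi => hD i (by omega)) h
      exact ⟨i, j, h1, by omega, h3⟩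

lemma has3_sound {D : ℕ → ℕ} {Y : ℕ} : ∀ {n : ℕ}, (∀ i < n, D i < 2 ^ i) →
    has3 (mkEls D n) Y = true →
      ∃ i j k, i < j ∧ j < k ∧ k < n ∧ Y.testBit i ∧ Y.testBit j ∧ Y.testBit k ∧
        ¬ (D j).testBit i ∧ ¬ (D k).testBit i ∧ ¬ (D k).testBit j
  | 0, _, h => by simp [mkEls, has3] at h
  | n + 1, hD, h => by
    rw [mkEls, has3, Bool.or_eq_true, Bool.and_eq_true, tb_eq] at h
    rcases h with ⟨h1, h2⟩ | h
    · obtain ⟨i, j, h3, h4, h5, h6, h7⟩ := has2_sound (fun i hi => hD i (by omega)) h2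
      obtain ⟨a1, -, a3⟩ := inc_bit (hD n n.lt_succ_self) h5
      obtain ⟨b1, -, b3⟩ := inc_bit (hD n n.lt_succ_self) h6
      exact ⟨i, j, n, h3, h4, n.lt_succ_self, a1, b1, h1, h7, a3, b3⟩
    · obtain ⟨i, j, k, h1, h2, h3, h4⟩ := has3_sound (fun i hi => hD i (by omega)) h
      exact ⟨i, j, k, h1, h2, by omega, h4⟩

variable {X : Type} [Fintype X] [PartialOrder X]

/-- The set of elements named by a mask. -/
noncomputable def toS (ι : ℕ → X) (T : ℕ) : Finset X :=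
  univ.filter fun w => ∃ j, T.testBit j ∧ ι j = w

omit [PartialOrder X] in
lemma mem_toS {ι : ℕ → X} {T : ℕ} {w : X} : w ∈ toS ι T ↔ ∃ j, T.testBit j ∧ ι j = w := by
  simp [toS]

omit [PartialOrder X] in
lemma toS_setb (ι : ℕ → X) (S z : ℕ) : toS ι (setb S z) = insert (ι z) (toS ι S) := by
  ext w
  simp only [mem_toS, testBit_setb, mem_insert]
  constructor
  · rintro ⟨j, h | rfl, rfl⟩
    · exact Or.inr ⟨j, h, rfl⟩
    · exact Or.inl rfl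
  · rintro (rfl | ⟨j, h, rfl⟩)
    · exact ⟨z, Or.inr rfl, rfl⟩
    · exact ⟨j, Or.inl h, rfl⟩

omit [PartialOrder X] in
lemma toS_zero (ι : ℕ → X) : toS ι 0 = ∅ := by simp [toS]

omit [PartialOrder X] in
lemma toS_sub (ι : ℕ → X) {a b : ℕ} (h : sub a b = true) : toS ι a ⊆ toS ι b := fun w hw => by
  obtain ⟨j, h1, h2⟩ := mem_toS.1 hw
  exact mem_toS.2 ⟨j, sub_iff.1 h j h1, h2⟩

omit [PartialOrder X] in
lemma toS_update (ι : ℕ → X) (z : X) {T n : ℕ} (h : T < 2 ^ n) :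
    toS (Function.update ι n z) T = toS ι T := by
  ext w
  simp only [mem_toS]
  refine exists_congr fun j => and_congr_right fun hj => ?_
  rw [Function.update_of_ne (lt_of_bit h hj).ne]

/-- Meaning of a recorded bound. -/
def BOk (ι : ℕ → X) (n : ℕ) (B : Bd) : Prop :=
  B.S < 2 ^ n ∧ B.y < n ∧ Dn (toS ι B.S) ∧ Ad (toS ι B.S) (ι B.y) ∧
    bif B.up then 1024 * e (insert (ι B.y) (toS ι B.S)) ≤ B.p * e (toS ι B.S)
    else B.p * e (toS ι B.S) ≤ 1024 * e (insert (ι B.y) (toS ι B.S))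

/-- `x` is least outside `T` in the majority order. -/
def Least (T : Finset X) (x : X) : Prop := ∀ v, v ∉ T → v ≠ x → LL x v

/-- The poset fits the node. -/
structure Model (nd : Node) (ι : ℕ → X) (D : ℕ → ℕ) : Prop where
  els : nd.els = mkEls D nd.n
  inj : ∀ i < nd.n, ∀ j < nd.n, ι i = ι j → i = j
  Dlt : ∀ i < nd.n, D i < 2 ^ i
  down : ∀ i < nd.n, ∀ w, w < ι i ↔ w ∈ toS ι (D i)
  Qlt : nd.Q < 2 ^ nd.n
  Qinit : ∀ w ∈ toS ι nd.Q, ∀ v, v ∉ toS ι nd.Q → LL w v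
  ex : ∀ i, nd.ex.testBit i → i < nd.n ∧ ¬ Least (toS ι nd.Q) (ι i)
  pre : ∀ t ∈ nd.pre, t.1 < nd.n ∧ t.2 < 2 ^ nd.n ∧ Least (toS ι t.2) (ι t.1)
  states : ∀ T < 2 ^ nd.n, Dn (toS ι T) → T ∈ nd.states
  allowed : ∀ z, z ∉ toS ι (full nd.n) → ∀ T < 2 ^ nd.n, (∀ w, w < z ↔ w ∈ toS ι T) →
    T ∈ nd.allowed
  bounds : ∀ B ∈ nd.bounds, BOk ι nd.n B

variable {nd : Node} {ι : ℕ → X} {D : ℕ → ℕ}

lemma Model.mem (M : Model nd ι D) {i T : ℕ} (hi : i < nd.n) (hT : T < 2 ^ nd.n) :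
    ι i ∈ toS ι T ↔ T.testBit i := by
  rw [mem_toS]
  constructor
  · rintro ⟨j, h1, h2⟩
    rwa [← M.inj j (lt_of_bit hT h1) i hi h2]
  · exact fun h => ⟨i, h, rfl⟩

lemma Model.Dlt' (M : Model nd ι D) {i : ℕ} (hi : i < nd.n) : D i < 2 ^ nd.n :=
  (M.Dlt i hi).trans (Nat.pow_lt_pow_right (by norm_num) hi)

lemma low_of {n : ℕ} (Dlt : ∀ i < n, D i < 2 ^ i)
    (down : ∀ i < n, ∀ w, w < ι i ↔ w ∈ toS ι (D i)) {i : ℕ} (hi : i < n) (h : i < 8) :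
    Low (ι i) := by
  refine lt_of_le_of_lt ?_ h
  have : {w | w < ι i ∧ ∃ v, ¬ w ≤ v ∧ ¬ v ≤ w} ⊆ ((range i).image ι : Finset X) := fun w hw => by
    obtain ⟨j, h1, h2⟩ := mem_toS.1 ((down i hi w).1 hw.1)
    exact mem_coe.2 (mem_image.2 ⟨j, mem_range.2 (lt_of_bit (Dlt i hi) h1), h2⟩)
  refine (Set.ncard_le_ncard this).trans ?_
  rw [Set.ncard_coe_finset]
  exact card_image_le.trans_eq (card_range i)

lemma Model.sub (M : Model nd ι D) {a b : ℕ} (ha : a < 2 ^ nd.n) (hb : b < 2 ^ nd.n) :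
    sub a b = true ↔ toS ι a ⊆ toS ι b :=
  ⟨toS_sub ι, fun h => sub_iff.2 fun i hi =>
    (M.mem (lt_of_bit ha hi) hb).1 (h (mem_toS.2 ⟨i, hi, rfl⟩))⟩

lemma Model.ad (M : Model nd ι D) {z S : ℕ} (hz : z < nd.n) (hS : S < 2 ^ nd.n) :
    (!tb S z && MP_bd7e44_co.sub (D z) S) = true ↔ Ad (toS ι S) (ι z) := by
  rw [Bool.and_eq_true, M.sub (M.Dlt' hz) hS, Ad, M.mem hz hS, tb_eq]
  simp only [M.down z hz]
  exact and_congr (by simp) Iff.rfl

lemma Model.mask (M : Model nd ι D) {z : X} {S : ℕ} (hS : S < 2 ^ nd.n)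
    (hz : z ∉ toS ι (full nd.n)) (h : ∀ w, w < z → w ∈ toS ι S) :
    ∃ T ∈ nd.allowed, MP_bd7e44_co.sub T S = true := by
  obtain ⟨T, h1, h2⟩ := exists_mask (fun i => ι i < z) nd.n
  refine ⟨T, M.allowed z hz T h1 fun w => ⟨fun hw => ?_, fun hw => ?_⟩, sub_iff.2 fun i hi => ?_⟩
  · obtain ⟨j, h3, rfl⟩ := mem_toS.1 (h w hw)
    exact mem_toS.2 ⟨j, (h2 j).2 ⟨lt_of_bit hS h3, hw⟩, rfl⟩
  · obtain ⟨j, h3, rfl⟩ := mem_toS.1 hw
    exact ((h2 j).1 h3).2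
  · exact (M.mem ((h2 i).1 hi).1 hS).1 (h _ ((h2 i).1 hi).2)

lemma Model.okS (M : Model nd ι D) {S y : ℕ} (h : okS nd S y = true) :
    S < 2 ^ nd.n ∧ y < nd.n ∧ Dn (toS ι S) ∧ Ad (toS ι S) (ι y) := by
  simp only [MP_bd7e44_co.okS, Bool.and_eq_true, Nat.blt_eq] at h
  obtain ⟨⟨⟨⟨h1, h2⟩, h3⟩, h4⟩, h5⟩ := h
  have hS := lt_of_ble h1
  rw [M.els, look_mkEls D h2] at h5
  refine ⟨hS, h2, fun x hx w hw => ?_, (M.ad h2 hS).1 (by rw [h4, h5]; rfl)⟩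
  obtain ⟨j, hj, rfl⟩ := mem_toS.1 hx
  have := List.all_eq_true.1 h3 (j, D j) (by
    rw [M.els]
    exact mem_mkEls.2 ⟨lt_of_bit hS hj, rfl⟩)
  simp only [tb_eq, hj, Bool.not_true, Bool.false_or] at this
  exact toS_sub ι this ((M.down j (lt_of_bit hS hj) w).1 hw)

end Pool.Agent.Lib.MP_bd7e44_co
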