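import Mathlib

/-!
Counting saturated chains between down-sets of a finite poset, and their log-supermodularity
(a form of Fishburn's inequality), from the four functions theorem.
-/

namespace Pool.Agent.Lib.MP_bd7e44_co

open Finset
open scoped Classical

variable {X : Type} [Fintype X] [PartialOrder X]

/-- `z` can be added to the set `S` of elements already placed. -/
def Ad (S : Finset X) (z : X) : Prop := z ∉ S ∧ ∀ w, w < z → w ∈ S

/-- `S` is a down-set. -/
def Dn (S : Finset X) : Prop := ∀ x ∈ S, ∀ w, w < x → w ∈ S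

/-- Number of ways to go from `T` to `S` in `k` single steps. -/
noncomputable def pk : ℕ → Finset X → Finset X → ℕ
  | 0, T, S => if T = S then 1 else 0
  | k + 1, T, S => ∑ z, if Ad T z then pk k (insert z T) S else 0

/-- Number of ways to go from `T` to `S` by single steps. -/
noncomputable def p (T S : Finset X) : ℕ := pk (S.card - T.card) T S

omit [Fintype X] in
lemma Dn.insert {T : Finset X} {z : X} (h : Dn T) (hz : Ad T z) : Dn (insert z T) := by
  intro x hx w hw
  rcases mem_insert.1 hx with rfl | hx
  · exact mem_insert_of_mem (hz.2 w hw)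
  · exact mem_insert_of_mem (h x hx w hw)

omit [Fintype X] in
lemma Dn.inter {T S : Finset X} (h : Dn T) (h' : Dn S) : Dn (T ∩ S) := fun x hx w hw =>
  mem_inter.2 ⟨h x (mem_inter.1 hx).1 w hw, h' x (mem_inter.1 hx).2 w hw⟩

omit [Fintype X] in
lemma Dn.union {T S : Finset X} (h : Dn T) (h' : Dn S) : Dn (T ∪ S) := fun x hx w hw => by
  rcases mem_union.1 hx with hx | hx
  · exact mem_union_left _ (h x hx w hw)
  · exact mem_union_right _ (h' x hx w hw)

omit [Fintype X] in
lemma dn_empty : Dn (∅ : Finset X) := fun _ hx => absurd hx (notMem_empty _)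

lemma p_self (T : Finset X) : p T T = 1 := by simp [p, pk]

lemma p_step {T S : Finset X} (h : T ≠ S) :
    p T S = ∑ z, if Ad T z then p (insert z T) S else 0 := by
  unfold p
  rcases Nat.eq_zero_or_pos (S.card - T.card) with h0 | h0
  · rw [h0, pk, if_neg h]
    refine (sum_eq_zero fun z _ => ?_).symm
    split_ifs with hz
    · have hc := card_insert_of_notMem hz.1
      have : S.card - (insert z T).card = 0 := by omega
      rw [this, pk, if_neg]
      rintro rfl
      omega
    · rfl
  · obtain ⟨k, hk⟩ : ∃ k, S.card - T.card = k + 1 := ⟨S.card - T.card - 1, by omega⟩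
    rw [hk, pk]
    refine sum_congr rfl fun z _ => ?_
    split_ifs with hz
    · have hc := card_insert_of_notMem hz.1
      have : S.card - (insert z T).card = k := by omega
      rw [this]
    · rfl

lemma pk_ne {S : Finset X} : ∀ (k : ℕ) (T : Finset X), pk k T S ≠ 0 → T ⊆ S ∧ (Dn T → Dn S)
  | 0, T, h => by
    have : T = S := by
      by_contra hne
      simp [pk, hne] at h
    subst this
    exact ⟨Subset.rfl, id⟩
  | k + 1, T, h => by
    obtain ⟨z, -, hz⟩ := exists_ne_zero_of_sum_ne_zero h
    split_ifs at hz with ha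
    · obtain ⟨h1, h2⟩ := pk_ne k _ hz
      exact ⟨(subset_insert _ _).trans h1, fun hT => h2 (hT.insert ha)⟩
    · exact absurd rfl hz

lemma p_ne {T S : Finset X} (h : p T S ≠ 0) : T ⊆ S ∧ (Dn T → Dn S) := pk_ne _ _ h

lemma p_eq_zero {T S : Finset X} {z : X} (hz : z ∈ T) (hz' : z ∉ S) : p T S = 0 := by
  by_contra h
  exact hz' ((p_ne h).1 hz)

omit [PartialOrder X] in
/-- Downward induction on finite sets along single steps. -/
lemma down_ind {P : Finset X → Prop} (h : ∀ T, (∀ z, z ∉ T → P (insert z T)) → P T) (T : Finset X) :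
    P T := by
  induction hn : Fintype.card X - T.card using Nat.strong_induction_on generalizing T with
  | _ n ih =>
    refine h T fun z hz => ih _ ?_ _ rfl
    have := card_insert_of_notMem hz
    have := card_le_univ (insert z T)
    omega

/-- One round in which any set of available elements is added. -/
def K (T T' : Finset X) : Prop := T ⊆ T' ∧ ∀ x ∈ T', x ∉ T → Ad T x

/-- Number of ways to go from `T` to `S` in `t` rounds. -/
noncomputable def W : ℕ → Finset X → Finset X → ℕ
  | 0, T, S => if T = S then 1 else 0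
  | t + 1, T, S => ∑ T', if K T T' then W t T' S else 0

lemma lowerK (T : Finset X) (h : Finset X → ℕ) :
    h T + (∑ z, if Ad T z then h (insert z T) else 0) ≤ ∑ T', if K T T' then h T' else 0 := by
  rw [← sum_filter, ← sum_filter, ← sum_image (s := univ.filter (Ad T)) (g := fun z => insert z T),
    ← sum_insert]
  · refine sum_le_sum_of_subset fun T' hT' => ?_
    simp only [mem_insert, mem_image, mem_filter, mem_univ, true_and] at hT' ⊢
    rcases hT' with rfl | ⟨z, hz, rfl⟩
    · exact ⟨Subset.rfl, fun x hx hx' => absurd hx hx'⟩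
    · refine ⟨subset_insert _ _, fun x hx hx' => ?_⟩
      rcases mem_insert.1 hx with rfl | hx
      · exact hz
      · exact absurd hx hx'
  · simp only [mem_image, mem_filter, mem_univ, true_and, not_exists, not_and]
    intro z hz he
    exact hz.1 (he ▸ mem_insert_self z T)
  · intro z hz w hw he
    simp only [coe_filter, mem_univ, true_and, Set.mem_ofPred_eq] at hz hw
    have : z ∈ insert w T := by
      have he' : insert z T = insert w T := he
      rw [← he']
      exact mem_insert_self z T
    rcases mem_insert.1 this with h | h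
    · exact h
    · exact absurd h hz.1

lemma upperK (T : Finset X) (h : Finset X → ℕ) :
    (∑ T', if K T T' then h T' else 0) ≤
      h T + ∑ z, if Ad T z then (∑ T', if K (insert z T) T' then h T' else 0) else 0 := by
  have e1 : h T = ∑ T', if T' = T then h T' else 0 := by simp
  have e2 : (∑ z, if Ad T z then (∑ T', if K (insert z T) T' then h T' else 0) else 0) =
      ∑ T', ∑ z, if Ad T z ∧ K (insert z T) T' then h T' else 0 := by
    rw [sum_comm]
    refine sum_congr rfl fun z _ => ?_
    by_cases hz : Ad T z <;> simp [hz]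
  rw [e1, e2, ← sum_add_distrib]
  refine sum_le_sum fun T' _ => ?_
  split_ifs with hK hT hT
  · omega
  · obtain ⟨z, hz, hz'⟩ := exists_of_ssubset (ssubset_of_subset_of_ne hK.1 (Ne.symm hT))
    have : Ad T z ∧ K (insert z T) T' := by
      refine ⟨hK.2 z hz hz', insert_subset hz hK.1, fun x hx hx' => ⟨hx', fun w hw => ?_⟩⟩
      exact mem_insert_of_mem ((hK.2 x hx fun h => hx' (mem_insert_of_mem h)).2 w hw)
    have h2 := single_le_sum (f := fun z => if Ad T z ∧ K (insert z T) T' then h T' else 0)
      (fun _ _ => Nat.zero_le _) (mem_univ z)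
    simp only [if_pos this] at h2
    omega
  · omega
  · omega

lemma W_lower (S : Finset X) : ∀ (t : ℕ) (T : Finset X),
    p T S * t.choose (S.card - T.card) ≤ W t T S
  | 0, T => by
    by_cases h : T = S
    · subst h
      simp [p_self, W]
    · rcases Nat.eq_zero_or_pos (S.card - T.card) with h0 | h0
      · simp [p, h0, pk, h]
      · simp [Nat.choose_eq_zero_of_lt h0]
  | t + 1, T => by
    refine le_trans ?_ (lowerK T fun T' => W t T' S)
    have ih := W_lower S t T
    rcases Nat.eq_zero_or_pos (S.card - T.card) with h0 | h0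
    · rw [h0] at ih ⊢
      simp only [Nat.choose_zero_right] at ih ⊢
      omega
    · obtain ⟨k, hk⟩ : ∃ k, S.card - T.card = k + 1 := ⟨S.card - T.card - 1, by omega⟩
      have hne : T ≠ S := by
        rintro rfl
        omega
      rw [hk] at ih ⊢
      rw [Nat.choose_succ_succ', mul_add, add_comm]
      refine add_le_add ih ?_
      rw [p_step hne, sum_mul]
      refine sum_le_sum fun z _ => ?_
      split_ifs with hz
      · have hc := card_insert_of_notMem hz.1
        have : S.card - (insert z T).card = k := by omega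
        rw [← this]
        exact W_lower S t _
      · simp

lemma W_upper (S : Finset X) : ∀ (t : ℕ) (T : Finset X),
    W t T S ≤ p T S * (t + (S.card - T.card)).choose (S.card - T.card)
  | 0, T => by
    by_cases h : T = S
    · subst h
      simp [p_self, W]
    · simp [W, h]
  | t + 1, T => by
    induction T using down_ind with
    | _ T ih =>
      refine le_trans (upperK T fun T' => W t T' S) ?_
      have ih0 := W_upper S t T
      rcases Nat.eq_zero_or_pos (S.card - T.card) with h0 | h0
      · rw [h0] at ih0 ⊢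
        have : (∑ z, if Ad T z then (∑ T', if K (insert z T) T' then W t T' S else 0) else 0)
            = 0 := by
          refine sum_eq_zero fun z _ => ?_
          split_ifs with hz
          · have h1 := ih z hz.1
            have h2 : p (insert z T) S = 0 := by
              by_contra h
              have := card_le_card (p_ne h).1
              have hc := card_insert_of_notMem hz.1
              omega
            rw [h2, zero_mul] at h1
            exact Nat.le_zero.1 h1
          · rfl
        rw [this]
        simpa using ih0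
      · obtain ⟨k, hk⟩ : ∃ k, S.card - T.card = k + 1 := ⟨S.card - T.card - 1, by omega⟩
        have hne : T ≠ S := by
          rintro rfl
          omega
        rw [hk] at ih0 ⊢
        rw [show t + 1 + (k + 1) = (t + (k + 1)) + 1 by ring, Nat.choose_succ_succ', mul_add,
          add_comm]
        refine add_le_add ?_ ih0
        rw [p_step hne, sum_mul]
        refine sum_le_sum fun z _ => ?_
        split_ifs with hz
        · have hc := card_insert_of_notMem hz.1
          have h1 := ih z hz.1
          rw [show S.card - (insert z T).card = k by omega,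
            show t + 1 + k = t + (k + 1) by ring] at h1
          exact h1
        · simp

omit [Fintype X] in
lemma K.dn {T T' : Finset X} (h : K T T') (hT : Dn T) : Dn T' := fun x hx w hw => by
  by_cases hx' : x ∈ T
  · exact h.1 (hT x hx' w hw)
  · exact h.1 ((h.2 x hx hx').2 w hw)

lemma W_tp : ∀ (t : ℕ) (T₁ T₂ S₁ S₂ : Finset X), Dn T₁ → Dn T₂ →
    W t T₁ S₁ * W t T₂ S₂ ≤ W t (T₁ ∩ T₂) (S₁ ∩ S₂) * W t (T₁ ∪ T₂) (S₁ ∪ S₂)
  | 0, T₁, T₂, S₁, S₂, _, _ => by
    by_cases h1 : T₁ = S₁ <;> by_cases h2 : T₂ = S₂ <;> simp [W, h1, h2]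
  | t + 1, T₁, T₂, S₁, S₂, h₁, h₂ => by
    refine four_functions_theorem_univ (α := Finset X) _ _ _ _ (fun _ => Nat.zero_le _)
      (fun _ => Nat.zero_le _) (fun _ => Nat.zero_le _) (fun _ => Nat.zero_le _) fun A B => ?_
    by_cases hA : K T₁ A
    · by_cases hB : K T₂ B
      · have h3 : K (T₁ ∩ T₂) (A ⊓ B) := by
          refine ⟨inter_subset_inter hA.1 hB.1, fun x hx hx' => ⟨hx', fun w hw => ?_⟩⟩
          obtain ⟨hxA, hxB⟩ := mem_inter.1 hx
          refine mem_inter.2 ⟨?_, ?_⟩
          · by_cases h : x ∈ T₁
            · exact h₁ x h w hw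
            · exact (hA.2 x hxA h).2 w hw
          · by_cases h : x ∈ T₂
            · exact h₂ x h w hw
            · exact (hB.2 x hxB h).2 w hw
        have h4 : K (T₁ ∪ T₂) (A ⊔ B) := by
          refine ⟨union_subset_union hA.1 hB.1, fun x hx hx' => ⟨hx', fun w hw => ?_⟩⟩
          rcases mem_union.1 hx with hx | hx
          · exact mem_union_left _ ((hA.2 x hx fun h => hx' (mem_union_left _ h)).2 w hw)
          · exact mem_union_right _ ((hB.2 x hx fun h => hx' (mem_union_right _ h)).2 w hw)
        rw [if_pos hA, if_pos hB, if_pos h3, if_pos h4]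
        exact W_tp t A B S₁ S₂ (hA.dn h₁) (hB.dn h₂)
      · simp [hB]
    · simp [hA]

lemma fact_le (d i : ℕ) : ∀ j : ℕ,
    (d + i).factorial * (d + j).factorial ≤ (d + i + j).factorial * d.factorial
  | 0 => le_rfl
  | j + 1 => by
    have := fact_le d i j
    rw [← add_assoc, ← add_assoc, Nat.factorial_succ, Nat.factorial_succ]
    calc _ = (d + j + 1) * ((d + i).factorial * (d + j).factorial) := by ring
      _ ≤ (d + i + j + 1) * ((d + i + j).factorial * d.factorial) :=
        Nat.mul_le_mul (by omega) this
      _ = _ := by ring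

lemma limit_le {A B a b c d : ℕ} (habc : a + b = c + d)
    (hf : a.factorial * b.factorial ≤ c.factorial * d.factorial)
    (h : ∀ t : ℕ, A * (t.choose a * t.choose b) ≤ B * ((t + c).choose c * (t + d).choose d)) :
    A ≤ B := by
  have key : ∀ s : ℕ, A * s ^ (a + b) ≤ B * (s + 2 * (a + b)) ^ (a + b) := by
    intro s
    have l : ∀ k ≤ a + b, s ^ k ≤ k.factorial * (s + (a + b)).choose k := fun k hk => by
      rw [← Nat.descFactorial_eq_factorial_mul_choose]
      exact le_trans (Nat.pow_le_pow_left (by omega) k) (Nat.pow_sub_le_descFactorial _ k)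
    have u : ∀ k ≤ a + b, k.factorial * (s + (a + b) + k).choose k ≤ (s + 2 * (a + b)) ^ k :=
      fun k hk => by
        rw [← Nat.descFactorial_eq_factorial_mul_choose]
        exact le_trans (Nat.descFactorial_le_pow _ k) (Nat.pow_le_pow_left (by omega) k)
    calc A * s ^ (a + b) = A * (s ^ a * s ^ b) := by rw [pow_add]
      _ ≤ A * ((a.factorial * (s + (a + b)).choose a) * (b.factorial * (s + (a + b)).choose b)) :=
        Nat.mul_le_mul_left _ (Nat.mul_le_mul (l a (by omega)) (l b (by omega)))
      _ = (a.factorial * b.factorial) *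
          (A * ((s + (a + b)).choose a * (s + (a + b)).choose b)) := by ring
      _ ≤ (c.factorial * d.factorial) *
          (B * ((s + (a + b) + c).choose c * (s + (a + b) + d).choose d)) :=
        Nat.mul_le_mul hf (h _)
      _ = B * ((c.factorial * (s + (a + b) + c).choose c) *
          (d.factorial * (s + (a + b) + d).choose d)) := by ring
      _ ≤ B * ((s + 2 * (a + b)) ^ c * (s + 2 * (a + b)) ^ d) :=
        Nat.mul_le_mul_left _ (Nat.mul_le_mul (u c (by omega)) (u d (by omega)))
      _ = _ := by rw [← pow_add, ← habc]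
  generalize a + b = n at key
  have ht : Filter.Tendsto (fun s : ℕ => (B : ℝ) * (1 + (2 * n : ℝ) / s) ^ n) Filter.atTop
      (nhds ((B : ℝ) * (1 + 0) ^ n)) :=
    (((tendsto_const_div_atTop_nhds_zero_nat _).const_add 1).pow n).const_mul _
  have : (A : ℝ) ≤ (B : ℝ) * (1 + 0) ^ n := by
    refine ge_of_tendsto ht ?_
    filter_upwards [Filter.eventually_gt_atTop 0] with s hs
    have hs' : (0 : ℝ) < s := by exact_mod_cast hs
    have h1 : (A : ℝ) * (s : ℝ) ^ n ≤ B * ((s : ℝ) + 2 * n) ^ n := by exact_mod_cast key s
    have h2 : (1 + (2 * n : ℝ) / s) = ((s : ℝ) + 2 * n) / s := by field_simp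
    rw [h2, div_pow, ← mul_div_assoc, le_div_iff₀ (by positivity)]
    exact h1
  simpa using this

lemma p_tp {T₁ T₂ S₁ S₂ : Finset X} (h₁ : Dn T₁) (h₂ : Dn T₂)
    (hf : (S₁.card - T₁.card).factorial * (S₂.card - T₂.card).factorial ≤
      ((S₁ ∩ S₂).card - (T₁ ∩ T₂).card).factorial * ((S₁ ∪ S₂).card - (T₁ ∪ T₂).card).factorial) :
    p T₁ S₁ * p T₂ S₂ ≤ p (T₁ ∩ T₂) (S₁ ∩ S₂) * p (T₁ ∪ T₂) (S₁ ∪ S₂) := by
  by_cases e1 : p T₁ S₁ = 0
  · simp [e1]
  by_cases e2 : p T₂ S₂ = 0
  · simp [e2]
  have s1 := (p_ne e1).1
  have s2 := (p_ne e2).1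
  have c1 := card_le_card s1
  have c2 := card_le_card s2
  have c3 := card_le_card (inter_subset_inter s1 s2)
  have c4 := card_le_card (union_subset_union s1 s2)
  have c5 := card_union_add_card_inter T₁ T₂
  have c6 := card_union_add_card_inter S₁ S₂
  refine limit_le (by omega) hf fun t => ?_
  calc _ = (p T₁ S₁ * t.choose (S₁.card - T₁.card)) * (p T₂ S₂ * t.choose (S₂.card - T₂.card)) := by
        ring
    _ ≤ W t T₁ S₁ * W t T₂ S₂ := Nat.mul_le_mul (W_lower _ _ _) (W_lower _ _ _)
    _ ≤ _ := W_tp t _ _ _ _ h₁ h₂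
    _ ≤ _ := Nat.mul_le_mul (W_upper _ _ _) (W_upper _ _ _)
    _ = _ := by ring

/-- Number of ways to complete `T` to the whole poset. -/
noncomputable def e (T : Finset X) : ℕ := p T univ

lemma e_tp {T₁ T₂ : Finset X} (h₁ : Dn T₁) (h₂ : Dn T₂) :
    e T₁ * e T₂ ≤ e (T₁ ∩ T₂) * e (T₁ ∪ T₂) := by
  have := p_tp (S₁ := univ) (S₂ := univ) h₁ h₂ ?_
  · simpa [e] using this
  · have c1 := card_le_card (subset_union_left (s₁ := T₁) (s₂ := T₂))
    have c2 := card_le_card (subset_union_right (s₁ := T₁) (s₂ := T₂))
    have c3 := card_le_univ (T₁ ∪ T₂)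
    have c5 := card_union_add_card_inter T₁ T₂
    have := fact_le (Fintype.card X - (T₁ ∪ T₂).card) ((T₁ ∪ T₂).card - T₁.card)
      ((T₁ ∪ T₂).card - T₂.card)
    simp only [inter_self, union_self, card_univ]
    convert this using 3 <;> omega

lemma u_tp (S₁ S₂ : Finset X) : p ∅ S₁ * p ∅ S₂ ≤ p ∅ (S₁ ∩ S₂) * p ∅ (S₁ ∪ S₂) := by
  have := p_tp (S₁ := S₁) (S₂ := S₂) dn_empty dn_empty ?_
  · simpa using this
  · have c1 := card_le_card (inter_subset_left (s₁ := S₁) (s₂ := S₂))
    have c2 := card_le_card (inter_subset_right (s₁ := S₁) (s₂ := S₂))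
    have c5 := card_union_add_card_inter S₁ S₂
    have := fact_le (S₁ ∩ S₂).card (S₁.card - (S₁ ∩ S₂).card) (S₂.card - (S₁ ∩ S₂).card)
    simp only [inter_self, union_self, card_empty, Nat.sub_zero]
    rw [mul_comm (S₁ ∩ S₂).card.factorial]
    convert this using 3 <;> omega

end Pool.Agent.Lib.MP_bd7e44_co
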