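import Pool.Agent.Lib.MP_bd7e44_co.Leaf

/-!
Soundness of the search.
-/

namespace Pool.Agent.Lib.MP_bd7e44_co

open Finset
open scoped Classical

variable {X : Type} [Fintype X] [PartialOrder X] {nd : Node} {ι : ℕ → X} {D : ℕ → ℕ}

lemma Model.bound (M : Model nd ι D) {B : Bd} (h : BOk ι nd.n B) : Model (nd.bound B) ι D :=
  { M with bounds := List.forall_mem_cons.2 ⟨h, M.bounds⟩ }

lemma Model.drop (M : Model nd ι D) {S : ℕ}
    (h : ¬ ∃ z, z ∉ toS ι (full nd.n) ∧ ∀ w, w < z ↔ w ∈ toS ι S) : Model (nd.drop S) ι D :=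
  { M with
    allowed := fun z hz T hT hw => List.mem_filter.2 ⟨M.allowed z hz T hT hw, by
      rw [Bool.not_eq_true', beq_false]
      rintro rfl
      exact h ⟨z, hz, hw⟩⟩ }

lemma Model.skip (M : Model nd ι D) {x : ℕ} (hx : x < nd.n) (h : ¬ Least (toS ι nd.Q) (ι x)) :
    Model (nd.skip x) ι D :=
  { M with
    ex := fun i hi => by
      rcases testBit_setb.1 hi with hi | rfl
      · exact M.ex i hi
      · exact ⟨hx, h⟩ }

lemma Model.next (M : Model nd ι D) {x : ℕ} (hx : x < nd.n) (h : Least (toS ι nd.Q) (ι x)) :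
    Model (nd.next x) ι D :=
  { M with
    Qlt := setb_lt M.Qlt hx
    Qinit := fun w hw v hv => by
      simp only [Node.next, toS_setb, mem_insert, not_or] at hw hv
      rcases hw with rfl | hw
      · exact h v hv.2 hv.1
      · exact M.Qinit w hw v hv.2
    ex := fun i hi => by simp [Node.next] at hi
    pre := List.forall_mem_cons.2 ⟨⟨hx, M.Qlt, h⟩, M.pre⟩ }

lemma Model.done (hb : NoBal X) (M : Model nd ι D) (h : doneOk nd = true) : False := by
  simp only [doneOk, Bool.and_eq_true, Bool.not_eq_true', beq_false, List.all_eq_true] at h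
  obtain ⟨⟨h1, h2⟩, h3⟩ := h
  obtain ⟨i, hi, hi'⟩ := exists_unset M.Qlt h1
  have hu : toS ι nd.Q ≠ univ := fun hu => hi' ((M.mem hi M.Qlt).1 (hu ▸ mem_univ _))
  obtain ⟨x, hx, hl⟩ := exists_least hb hu
  have hd : ∀ w, w < x → w ∈ toS ι nd.Q := fun w hw => by
    by_contra hc
    exact (hl w hc hw.ne).asymm (LL.of_lt hw)
  by_cases hR : x ∈ toS ι (full nd.n)
  · obtain ⟨j, hj, rfl⟩ := mem_toS.1 hR
    have hj' := testBit_full.1 hj
    have := h3 (j, D j) (by
      rw [M.els]
      exact mem_mkEls.2 ⟨hj', rfl⟩)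
    have a := (M.ad hj' M.Qlt).2 ⟨hx, hd⟩
    simp only [Bool.and_eq_true, Bool.not_eq_true'] at a
    simp only [a.1, a.2, Bool.not_true, Bool.or_self, Bool.false_or, tb_eq] at this
    exact (M.ex j this).2 hl
  · obtain ⟨T, a1, a2⟩ := M.mask M.Qlt hR hd
    rw [h2 T a1] at a2
    exact Bool.false_ne_true a2

lemma no_four (hw : Width3 X) {n : ℕ} (hn : n ≤ 10) (inj : ∀ i < n, ∀ j < n, ι i = ι j → i = j)
    (Dlt : ∀ i < n, D i < 2 ^ i) (down : ∀ i < n, ∀ w, w < ι i ↔ w ∈ toS ι (D i)) {v : X}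
    (hv : v ∉ toS ι (full n)) {T : ℕ} (hT : T < 2 ^ n) (h : ∀ w, w < v ↔ w ∈ toS ι T) :
    has3 (mkEls D n) (Nat.xor (full n) T) = false := by
  by_contra hc
  obtain ⟨i, j, k, hij, hjk, hk, b1, b2, b3, c1, c2, c3⟩ :=
    has3_sound Dlt (Bool.not_eq_false _ ▸ hc)
  have inc : ∀ a b, a < b → b < n → ¬ (D b).testBit a → ¬ ι a ≤ ι b ∧ ¬ ι b ≤ ι a := by
    intro a b hab hb hD
    have hne : ι a ≠ ι b := fun hc => hab.ne (inj a (by omega) b hb hc)
    refine ⟨fun hle => ?_, fun hle => ?_⟩
    · obtain ⟨m, h1, h2⟩ := mem_toS.1 ((down b hb _).1 (lt_of_le_of_ne hle hne))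
      have := lt_of_bit (Dlt b hb) h1
      exact hD (inj m (by omega) a (by omega) h2 ▸ h1)
    · obtain ⟨m, h1, h2⟩ := mem_toS.1 ((down a (by omega) _).1 (lt_of_le_of_ne hle hne.symm))
      have := lt_of_bit (Dlt a (by omega)) h1
      have := inj m (by omega) b hb h2
      omega
  have incv : ∀ a < n, (Nat.xor (full n) T).testBit a → ¬ ι a ≤ v ∧ ¬ v ≤ ι a := by
    intro a ha hb
    have hR : ι a ∈ toS ι (full n) := mem_toS.2 ⟨a, testBit_full.2 ha, rfl⟩
    have hne : ι a ≠ v := fun hc => hv (hc ▸ hR)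
    change (full n ^^^ T).testBit a at hb
    rw [Nat.testBit_xor, testBit_full.2 ha] at hb
    refine ⟨fun hle => ?_, fun hle => ?_⟩
    · obtain ⟨m, h1, h2⟩ := mem_toS.1 ((h _).1 (lt_of_le_of_ne hle hne))
      rw [inj m (lt_of_bit hT h1) a ha h2] at h1
      simp [h1] at hb
    · obtain ⟨m, h1, h2⟩ := mem_toS.1 ((down a ha _).1 (lt_of_le_of_ne hle hne.symm))
      have := lt_of_bit (Dlt a ha) h1
      exact hv (mem_toS.2 ⟨m, testBit_full.2 (by omega), h2⟩)
  have i1 := inc i j hij (by omega) c1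
  have i2 := inc i k (by omega) hk c2
  have i3 := inc j k hjk hk c3
  have v1 := incv i (by omega) b1
  have v2 := incv j (by omega) b2
  have v3 := incv k hk b3
  have := card_le_two hw (low_of Dlt down (i := i) (by omega) (by omega)) (A := {ι j, ι k, v}) (by
    intro a ha b hb hab
    simp only [coe_insert, coe_singleton, Set.mem_insert_iff, Set.mem_singleton_iff] at ha hb
    rcases ha with rfl | rfl | rfl <;> rcases hb with rfl | rfl | rfl <;> tauto) (by
    intro a ha
    simp only [mem_insert, mem_singleton] at ha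
    rcases ha with rfl | rfl | rfl
    · exact i1.symm
    · exact i2.symm
    · exact v1.symm)
  rw [card_eq_three.2 ⟨_, _, _, fun hc => i3.1 hc.le, fun hc => v2.1 hc.le, fun hc => v3.1 hc.le,
    rfl⟩] at this
  omega

lemma lt_of_not_bit {T n : ℕ} (hT : T < 2 ^ (n + 1)) (h : ¬ T.testBit n) : T < 2 ^ n :=
  Nat.lt_pow_two_of_testBit _ fun i hi => by
    rcases hi.eq_or_lt with rfl | hi
    · simpa using h
    · by_contra hc
      have := lt_of_bit hT (Bool.not_eq_false _ ▸ hc)
      omega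

lemma Model.add (hw : Width3 X) (M : Model nd ι D) (hn : nd.n < 10) {S : ℕ} (hS : S < 2 ^ nd.n) {z : X}
    (hz : z ∉ toS ι (full nd.n)) (h : ∀ w, w < z ↔ w ∈ toS ι S) :
    Model (nd.add S) (Function.update ι nd.n z) (Function.update D nd.n S) := by
  have hι : ∀ i < nd.n, Function.update ι nd.n z i = ι i := fun i hi =>
    Function.update_of_ne hi.ne _ _
  have hR : ∀ i < nd.n, ι i ≠ z := fun i hi hc => hz (mem_toS.2 ⟨i, testBit_full.2 hi, hc⟩)
  have inj : ∀ i < nd.n + 1, ∀ j < nd.n + 1,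
      Function.update ι nd.n z i = Function.update ι nd.n z j → i = j := by
    intro i hi j hj hij
    rcases Nat.lt_succ_iff_lt_or_eq.1 hi with hi | rfl <;>
      rcases Nat.lt_succ_iff_lt_or_eq.1 hj with hj | rfl
    · rw [hι i hi, hι j hj] at hij
      exact M.inj i hi j hj hij
    · rw [hι i hi, Function.update_self] at hij
      exact absurd hij (hR i hi)
    · rw [hι j hj, Function.update_self] at hij
      exact absurd hij.symm (hR j hj)
    · rfl
  have Dlt : ∀ i < nd.n + 1, Function.update D nd.n S i < 2 ^ i := by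
    intro i hi
    rcases Nat.lt_succ_iff_lt_or_eq.1 hi with hi | rfl
    · rw [Function.update_of_ne hi.ne]
      exact M.Dlt i hi
    · rwa [Function.update_self]
  have down : ∀ i < nd.n + 1, ∀ w, w < Function.update ι nd.n z i ↔
      w ∈ toS (Function.update ι nd.n z) (Function.update D nd.n S i) := by
    intro i hi w
    rcases Nat.lt_succ_iff_lt_or_eq.1 hi with hi | rfl
    · rw [hι i hi, Function.update_of_ne hi.ne, toS_update ι z (M.Dlt' hi)]
      exact M.down i hi w
    · rw [Function.update_self, Function.update_self, toS_update ι z hS]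
      exact h w
  have els : (nd.n, S) :: nd.els = mkEls (Function.update D nd.n S) (nd.n + 1) := by
    rw [mkEls, Function.update_self, mkEls_update D _ S le_rfl, M.els]
  have new : ∀ T < 2 ^ (nd.n + 1), Dn (toS (Function.update ι nd.n z) T) → T.testBit nd.n →
      T ∈ (nd.states.filter (MP_bd7e44_co.sub S)).map (setb · nd.n) := by
    intro T hT hd hb
    obtain ⟨T₀, h1, h2⟩ := exists_mask (fun i => T.testBit i) nd.n
    have e1 : T = setb T₀ nd.n := Nat.eq_of_testBit_eq fun i => Bool.eq_iff_iff.2 (by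
      rw [testBit_setb, h2]
      constructor
      · intro hi
        rcases Nat.lt_succ_iff_lt_or_eq.1 (lt_of_bit hT hi) with h3 | rfl
        · exact Or.inl ⟨h3, hi⟩
        · exact Or.inr rfl
      · rintro (h3 | rfl)
        · exact h3.2
        · exact hb)
    rw [e1, toS_setb, Function.update_self, toS_update ι z h1] at hd
    refine List.mem_map.2 ⟨T₀, List.mem_filter.2 ⟨M.states T₀ h1 fun x hx w hw => ?_,
      (M.sub hS h1).2 fun w hw => ?_⟩, e1.symm⟩
    · refine (mem_insert.1 (hd x (mem_insert_of_mem hx) w hw)).resolve_left ?_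
      rintro rfl
      obtain ⟨j, hj, rfl⟩ := mem_toS.1 hx
      have hj' := lt_of_bit h1 hj
      obtain ⟨m, h3, h4⟩ := mem_toS.1 ((M.down j hj' w).1 hw)
      exact hR m (lt_of_bit (M.Dlt' hj') h3) h4
    · exact (mem_insert.1 (hd z (mem_insert_self _ _) w ((h w).2 hw))).resolve_left
        ((h w).2 hw).ne
  refine ⟨els, inj, Dlt, down, lt_succ_pow M.Qlt, ?_, fun i hi => ?_, fun t ht => ?_,
    fun T hT hd => ?_, fun v hv T hT hvT => ?_, fun B hB => ?_⟩
  · simp only [Node.add, toS_update ι z M.Qlt]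
    exact M.Qinit
  · obtain ⟨h1, h2⟩ := M.ex i hi
    simp only [Node.add, toS_update ι z M.Qlt, hι i h1]
    exact ⟨Nat.lt_succ_of_lt h1, h2⟩
  · obtain ⟨h1, h2, h3⟩ := M.pre t ht
    simp only [Node.add, toS_update ι z h2, hι _ h1]
    exact ⟨Nat.lt_succ_of_lt h1, lt_succ_pow h2, h3⟩
  · by_cases hb : T.testBit nd.n
    · exact List.mem_append_right _ (new T hT hd hb)
    · have h1 := lt_of_not_bit hT hb
      rw [toS_update ι z h1] at hd
      exact List.mem_append_left _ (M.states T h1 hd)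
  · refine List.mem_filter.2 ⟨?_, ?_⟩
    · by_cases hb : T.testBit nd.n
      · exact List.mem_append_right _ (new T hT
          (fun x hx w hw => (hvT w).1 (hw.trans ((hvT x).2 hx))) hb)
      · have h1 := lt_of_not_bit hT hb
        rw [toS_update ι z h1] at hvT
        refine List.mem_append_left _ (M.allowed v (fun hc => hv ?_) T h1 hvT)
        obtain ⟨j, h2, h3⟩ := mem_toS.1 hc
        have h4 := testBit_full.1 h2
        exact mem_toS.2 ⟨j, testBit_full.2 (Nat.lt_succ_of_lt h4), by rw [hι j h4, h3]⟩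
    · rw [Bool.not_eq_true', els]
      exact no_four hw hn inj Dlt down hv hT hvT
  · obtain ⟨h1, h2, h3⟩ := M.bounds B hB
    simp only [BOk, Node.add, toS_update ι z h1, hι _ h2]
    exact ⟨lt_succ_pow h1, Nat.lt_succ_of_lt h2, h3⟩

/-- No poset of the kind considered fits the node. -/
def Refuted (nd : Node) : Prop :=
  ∀ (X : Type) [Fintype X] [PartialOrder X], NoBal X → Width3 X →
    ∀ (ι : ℕ → X) (D : ℕ → ℕ), ¬ Model nd ι D

theorem check_sound {known : List Node} (hk : ∀ k ∈ known, Refuted k) :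
    ∀ (c : Cert) (nd : Node), check known c nd = true → Refuted nd
  | .leaf _ _ _ _, _, h => fun _ _ _ hb hw _ _ M => M.leaf hb hw h
  | .split S y p lo up, nd, h => fun X _ _ hb hw ι D M => by
    simp only [check, Bool.and_eq_true] at h
    obtain ⟨h1, h2, h3, h4⟩ := M.okS h.1.1
    rcases le_total (p * e (toS ι S)) (1024 * e (insert (ι y) (toS ι S))) with h5 | h5
    · exact check_sound hk lo _ h.1.2 X hb hw ι D (M.bound ⟨h1, h2, h3, h4, h5⟩)
    · exact check_sound hk up _ h.2 X hb hw ι D (M.bound ⟨h1, h2, h3, h4, h5⟩)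
  | .reveal S no yes, nd, h => fun X _ _ hb hw ι D M => by
    simp only [check, Bool.and_eq_true, Nat.blt_eq] at h
    by_cases hz : ∃ z, z ∉ toS ι (full nd.n) ∧ ∀ w, w < z ↔ w ∈ toS ι S
    · obtain ⟨z, h1, h2⟩ := hz
      exact check_sound hk yes _ h.2 X hb hw _ _ (M.add hw h.1.1.1 (lt_of_ble h.1.1.2) h1 h2)
    · exact check_sound hk no _ h.1.2 X hb hw ι D (M.drop hz)
  | .nx x yes no, nd, h => fun X _ _ hb hw ι D M => by
    simp only [check, Bool.and_eq_true, Nat.blt_eq] at h
    by_cases hx : Least (toS ι nd.Q) (ι x)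
    · exact check_sound hk yes _ h.1.2 X hb hw ι D (M.next h.1.1.1 hx)
    · exact check_sound hk no _ h.2 X hb hw ι D (M.skip h.1.1.1 hx)
  | .done, _, h => fun _ _ _ hb _ _ _ M => M.done hb h
  | .hole k, nd, h => hk nd (List.mem_of_getElem? (of_decide_eq_true h))

lemma root_model (hb : NoBal X) {a b : X} (hab : a ≠ b) (ha : IsMin a) (hb' : IsMin b) :
    ∃ ι : ℕ → X, Model root ι fun _ => 0 := by
  obtain ⟨x, -, hx⟩ := exists_least hb (T := ∅) fun h => notMem_empty a (h ▸ mem_univ a)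
  obtain ⟨y, hyx, hy⟩ : ∃ y, y ≠ x ∧ IsMin y := by
    by_cases h : a = x
    · exact ⟨b, fun hc => hab (h.trans hc.symm), hb'⟩
    · exact ⟨a, h, ha⟩
  have e1 : toS (fun i => if i = 0 then x else y) 1 = {x} := by
    have : (1 : ℕ) = setb 0 0 := rfl
    rw [this, toS_setb, toS_zero]
    rfl
  have four : ∀ T < 2 ^ 2, T ∈ [0, 1, 2, 3] := by decide
  refine ⟨fun i => if i = 0 then x else y, rfl, ?_, fun i _ => Nat.two_pow_pos i, ?_, by decide, ?_,
    fun i hi => by simp [root] at hi, ?_, fun T hT _ => four T hT, fun _ _ T hT _ => four T hT,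
    fun B hB => by simp [root] at hB⟩
  · intro i hi j hj
    change i < 2 at hi
    change j < 2 at hj
    interval_cases i <;> interval_cases j <;> simp [hyx, hyx.symm]
  · intro i _ w
    rw [toS_zero]
    refine iff_of_false (fun hw => ?_) (notMem_empty w)
    split_ifs at hw
    · exact (hx w (notMem_empty w) hw.ne).asymm (LL.of_lt hw)
    · exact hy.not_lt hw
  · intro w hw v hv
    change w ∈ toS _ 1 at hw
    change v ∉ toS _ 1 at hv
    rw [e1, mem_singleton] at hw hv
    exact hw ▸ hx v (notMem_empty v) hv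
  · intro t ht
    obtain rfl : t = (0, 0) := by simpa [root] using ht
    refine ⟨by decide, by decide, ?_⟩
    rw [toS_zero]
    exact hx

end Pool.Agent.Lib.MP_bd7e44_co
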